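import Pool.Agent.Work.MP_8590b5_gt.CM.Stmts4

/-!
# Block CM, part 5: the groups are those of the 3-sphere and of Brieskorn spheres

Write `pr_<name> : St<name>` in `CM/I_<name>.lean` (namespace `Pool.Agent.CM`).
-/

namespace Pool.Agent.CM

open Finset

/-- **Is** (MEDIUM; hypotheses as listed). PROOF. Put `k = N - J.card`. In `BG k` let
`a = x y^(-k)`, `b = a⁻¹ y`; then `a b = y`, `a y^k = x`, and `Tor k a b`: `y^k a y^(-k) = b` is
`a y^k a y^(-k) = y`, i.e. `x² = y^(2k+1)` (as `y^(2k+1) = x²` commutes with everything: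
`a y^k a y^(-k) = x x y^(-2k) = y`), and `y^(2k+1) = a^(4k+3)`. So `CkAt` and `ChAt` give
`φ : grp → BG k` with `φ x_0 = a`, `φ x_1 = b`, `φ x_(i+2) = cval J a b i`. The universal colouring
`g p = PresentedGroup.of p` is a colouring (`ChAt` with the identity), so `Tor k x_0 x_1`, and by
`StTq` `x ↦ x_0 (x_0 x_1)^k`, `y ↦ x_0 x_1` defines `ψ : BG k → grp`
(`x y^(-k) ↦ x_0`). `φ ψ` is the identity on `x`, `y`; `ψ φ` on `x_0`, `x_1`, and on `x_(i+2)`
because `ψ (cval J a b i) = cval J (ψ a) (ψ b) i` (naturality of words in `a`, `b`: `map_zpow`,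
`map_mul`). -/
def StIs : Prop := ChAt → CkAt → StTq → ∀ (N : ℕ) (J : Finset ℕ), J ⊆ range N →
  Nonempty ((lnk N).grp (sub J) ≃* BG (N - J.card))

/-- **Tg** (EASY). PROOF. The identity homomorphism is a colouring (`ChAt`), so all the generators are
`1` (`CzAt`). -/
def StTg : Prop := ChAt → CzAt → ∀ (N : ℕ) (S : Finset ℕ), 0 ∉ S →
  Subsingleton ((lnk N).grp S)

/-- **Rt** (EASY). A homomorphism from a trivial group is rigid. PROOF. `c 1 = 0` from the cocycle
identity for `g = h = 1`; `X = 0`. -/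
def StRt : Prop := ∀ (G : Type) [Group G] (ρ : G →* SU3), Subsingleton G → Rigid ρ

end Pool.Agent.CM
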