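import Pool.Agent.Work.MP_8590b5_gt.CM.Stmts3
import Pool.Agent.Work.MP_8590b5_gt.CM.Stmts5

/-!
# Block CM: assembly from the conclusions of the items
-/

namespace Pool.Agent.CM

open Finset

/-- The statement of the hand-in. -/
def Goal : Prop :=
  (∀ k : ℕ, Finite (IrrCl (BG k)) ∧
    12 * (N3 (BG k) : ℤ) = 12 * k * (k + 1) ^ 3 - 2 * k * (k + 2) * (2 * k + 5) - 3 + 3 * (-1) ^ k) ∧
  ∀ e : ℕ, ∃ L : FLink, L.Valid ∧
    (∀ c < L.d, L.fr c = -1) ∧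
    (∀ p < L.n, ∀ c < L.d, c ≠ L.comp p → L.lk c p = 0) ∧
    (∀ S ⊆ range L.d, (Subsingleton (L.grp S) ∨ ∃ k : ℕ, Nonempty (L.grp S ≃* BG k)) ∧
      Finite (IrrCl (L.grp S)) ∧ ∀ ρ : L.grp S →* SU3, Rigid ρ) ∧
    ∑ S ∈ (range L.d).powerset, (-1 : ℤ) ^ S.card * (N3 (L.grp S) : ℤ) =
      (-1) ^ L.d * 2 ^ (L.d - 3) ∧
    ∀ lam : Finset ℕ → ℚ, (∀ S ⊆ range L.d, |lam S| = N3 (L.grp S)) →
      ∃ T ⊆ range L.d, e ≤ T.card ∧ ∑ S ∈ T.powerset, (-1 : ℚ) ^ S.card * lam S ≠ 0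

/-- Isomorphic groups have the same classes. -/
theorem asm_iso {G H : Type} [Group G] [Group H] (φ : G ≃* H) : Nonempty (IrrCl G ≃ IrrCl H) := by
  classical
  have hI : ∀ (ρ : G →* SU3), Irr ρ → Irr (ρ.comp φ.symm.toMonoidHom) := by
    intro ρ h W hW
    apply h W
    intro g v hv
    have := hW (φ g) v hv
    simpa using this
  have hI' : ∀ (ρ : H →* SU3), Irr ρ → Irr (ρ.comp φ.toMonoidHom) := by
    intro ρ h W hW
    apply h W
    intro g v hv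
    have := hW (φ.symm g) v hv
    simpa using this
  refine ⟨Quotient.congr
    { toFun := fun ρ => ⟨ρ.1.comp φ.symm.toMonoidHom, hI ρ.1 ρ.2⟩
      invFun := fun ρ => ⟨ρ.1.comp φ.toMonoidHom, hI' ρ.1 ρ.2⟩
      left_inv := ?_
      right_inv := ?_ } ?_⟩
  · intro ρ; apply Subtype.ext; ext1 g; simp
  · intro ρ; apply Subtype.ext; ext1 g; simp
  · intro ρ σ
    constructor
    · rintro ⟨u, hu⟩
      exact ⟨u, fun g => hu (φ.symm g)⟩
    · rintro ⟨u, hu⟩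
      refine ⟨u, fun g => ?_⟩
      have := hu (φ g)
      simpa using this

theorem asm_n3 {G H : Type} [Group G] [Group H] (φ : G ≃* H) : N3 G = N3 H := by
  obtain ⟨e⟩ := asm_iso φ
  exact Nat.card_congr e

theorem asm (hCh : ChAt) (hCk : CkAt) (hCz : CzAt) (hPc : PcAt) (hGc : StGc) (hGn : StGn)
    (hGz : StGz) (hCn : ∀ k : ℕ, Nonempty (PCl k ≃ DSet k)) (hB1 : StB1) (hB2 : StB2)
    (hEc : ∀ k : ℕ, Nat.card {z : (Fin 3 → ℤ) × (Fin 3 → ℤ) // IsE k z.1 z.2} = Np k)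
    (hfin : ∀ k : ℕ, Finite (DSet k))
    (hNf : StNf) (hDf : StDf) (hDg : StDg) (hSq : StSq) (hSs : StSs)
    (hVl : ∀ N : ℕ, (lnk N).Valid)
    (hLk : ∀ (N p c : ℕ), p < N + 2 →
      (lnk N).lk c p = if c = 0 ∧ p ≤ 1 then 2 * (N : ℤ) + 1 else 0)
    (hIs : ∀ (N : ℕ) (J : Finset ℕ), J ⊆ range N →
      Nonempty ((lnk N).grp (sub J) ≃* BG (N - J.card)))
    (hTg : ∀ (N : ℕ) (S : Finset ℕ), 0 ∉ S → Subsingleton ((lnk N).grp S))
    (hRt : StRt)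
    (hRg : ∀ (N : ℕ) (J : Finset ℕ), J ⊆ range N → ∀ ρ : (lnk N).grp (sub J) →* SU3,
      Rigid ρ) : Goal := by
  classical
  -- the count
  have hcard : ∀ k : ℕ, Nat.card (DSet k) = Np k := fun k => by
    rw [hB1 k, hB2 k, hEc k]
  have hP : ∀ k : ℕ, Finite (PCl k) ∧ Nat.card (PCl k) = Np k := fun k => by
    obtain ⟨e⟩ := hCn k
    haveI := hfin k
    exact ⟨Finite.of_equiv _ e.symm, by rw [Nat.card_congr e, hcard k]⟩
  have hG : ∀ (N : ℕ) (J : Finset ℕ), J ⊆ range N →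
      Finite (IrrCl ((lnk N).grp (sub J))) ∧ N3 ((lnk N).grp (sub J)) = Np (N - J.card) := by
    intro N J hJ
    obtain ⟨e⟩ := hGn hCh hCk hGc N J hJ
    haveI := (hP (N - J.card)).1
    exact ⟨Finite.of_equiv _ e.symm, by
      rw [N3, Nat.card_congr e, (hP (N - J.card)).2]⟩
  have hZ : ∀ (N : ℕ) (S : Finset ℕ), 0 ∉ S →
      Finite (IrrCl ((lnk N).grp S)) ∧ N3 ((lnk N).grp S) = 0 := by
    intro N S hS
    haveI := hGz hCh hCz N S hS
    exact ⟨inferInstance, by rw [N3]; exact Nat.card_of_isEmpty⟩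
  have hBG : ∀ k : ℕ, Finite (IrrCl (BG k)) ∧ N3 (BG k) = Np k := by
    intro k
    obtain ⟨e⟩ := hIs k ∅ (by simp)
    simp only [Finset.card_empty, Nat.sub_zero] at e
    obtain ⟨h1, h2⟩ := hG k ∅ (by simp)
    obtain ⟨f⟩ := asm_iso e
    simp only [Finset.card_empty, Nat.sub_zero] at h2
    exact ⟨Finite.of_equiv _ f, by rw [← asm_n3 e, h2]⟩
  refine ⟨fun k => ⟨(hBG k).1, by rw [(hBG k).2]; exact hNf k⟩, ?_⟩
  intro e
  -- every sublink is of one of the two forms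
  have hform : ∀ (N : ℕ) (S : Finset ℕ), S ⊆ range (N + 1) → 0 ∈ S →
      ∃ J, J ⊆ range N ∧ S = sub J := by
    intro N S hS h0
    refine ⟨(S.erase 0).image (· - 1), ?_, ?_⟩
    · intro i hi
      simp only [Finset.mem_image, Finset.mem_erase] at hi
      obtain ⟨j, ⟨hj0, hjS⟩, rfl⟩ := hi
      have := Finset.mem_range.1 (hS hjS)
      rw [Finset.mem_range]; omega
    · ext x
      simp only [sub, Finset.mem_insert, Finset.mem_image, Finset.mem_erase]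
      constructor
      · intro hx
        by_cases hx0 : x = 0
        · exact Or.inl hx0
        · exact Or.inr ⟨x - 1, ⟨x, ⟨hx0, hx⟩, rfl⟩, by omega⟩
      · rintro (rfl | ⟨i, ⟨j, ⟨hj0, hjS⟩, rfl⟩, rfl⟩)
        · exact h0
        · have : j - 1 + 1 = j := by omega
          rwa [this]
  obtain ⟨N, hN9, hNe⟩ : ∃ N : ℕ, 9 ≤ N ∧ 2 * e ≤ N + 1 := ⟨2 * e + 9, by omega, by omega⟩
  have hd : (lnk N).d = N + 1 := rfl
  have hn : (lnk N).n = N + 2 := rfl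
  refine ⟨lnk N, hVl N, fun c _ => rfl, ?_, ?_, ?_, ?_⟩
  · intro p hp c hc hne
    rw [hLk N p c hp]
    rw [if_neg]
    rintro ⟨rfl, hp1⟩
    apply hne
    change 0 = p - 1
    omega
  · intro S hS
    rw [hd] at hS
    by_cases h0 : 0 ∈ S
    · obtain ⟨J, hJ, rfl⟩ := hform N S hS h0
      exact ⟨Or.inr ⟨_, hIs N J hJ⟩, (hG N J hJ).1, hRg N J hJ⟩
    · haveI := hTg N S h0
      exact ⟨Or.inl (hTg N S h0), (hZ N S h0).1, fun ρ => hRt _ ρ (hTg N S h0)⟩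
  · rw [hd]
    have h1 := hSs N (fun S => (N3 ((lnk N).grp S) : ℤ)) (fun j => (Np (N - j) : ℤ))
      (fun S _ h0 => by
        change ((N3 ((lnk N).grp S) : ℕ) : ℤ) = 0
        rw [(hZ N S h0).2]; rfl)
      (fun J hJ => by
        change ((N3 ((lnk N).grp (sub J)) : ℕ) : ℤ) = (Np (N - J.card) : ℤ)
        rw [(hG N J hJ).2])
    have h1' : ∑ S ∈ (range (N + 1)).powerset, (-1 : ℤ) ^ S.card * (N3 ((lnk N).grp S) : ℤ) =
      - ∑ j ∈ range (N + 1), (-1 : ℤ) ^ j * (N.choose j) * (Np (N - j) : ℤ) := h1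
    rw [h1']
    have h2 := hDf hNf N (by omega)
    have h3 : (2 : ℤ) ^ N = 4 * 2 ^ (N + 1 - 3) := by
      have : N = (N + 1 - 3) + 2 := by omega
      conv_lhs => rw [this]
      rw [pow_add]; ring
    rw [h3] at h2
    have h4 : ∑ j ∈ range (N + 1), (-1 : ℤ) ^ j * (N.choose j) * (Np (N - j) : ℤ) =
        (-1) ^ N * 2 ^ (N + 1 - 3) := by linarith
    rw [h4, pow_succ]
    ring
  · intro lam hlam
    rw [hd] at hlam ⊢
    by_contra hcon
    push Not at hcon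
    have h5 := hSq (N + 1) e lam hNe (fun T hT he => hcon T hT he)
    have h6 : ∑ S ∈ (range (N + 1)).powerset, (-1 : ℚ) ^ S.card * lam S ^ 2 =
        ((∑ S ∈ (range (N + 1)).powerset, (-1 : ℤ) ^ S.card * ((N3 ((lnk N).grp S) : ℤ)) ^ 2 : ℤ) : ℚ) := by
      push_cast
      apply Finset.sum_congr rfl
      intro S hS
      rw [← hlam S (Finset.mem_powerset.1 hS), sq_abs]
    have h1 := hSs N (fun S => (N3 ((lnk N).grp S) : ℤ) ^ 2) (fun j => (Np (N - j) : ℤ) ^ 2)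
      (fun S _ h0 => by
        change ((N3 ((lnk N).grp S) : ℕ) : ℤ) ^ 2 = 0
        rw [(hZ N S h0).2]; rfl)
      (fun J hJ => by
        change ((N3 ((lnk N).grp (sub J)) : ℕ) : ℤ) ^ 2 = (Np (N - J.card) : ℤ) ^ 2
        rw [(hG N J hJ).2])
    have h1' : ∑ S ∈ (range (N + 1)).powerset, (-1 : ℤ) ^ S.card * ((N3 ((lnk N).grp S) : ℤ)) ^ 2 =
      - ∑ j ∈ range (N + 1), (-1 : ℤ) ^ j * (N.choose j) * (Np (N - j) : ℤ) ^ 2 := h1
    rw [h6, h1'] at h5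
    have h7 := hDg hNf N hN9
    apply h7
    have h8 : (- ∑ j ∈ range (N + 1), (-1 : ℤ) ^ j * (N.choose j) * (Np (N - j) : ℤ) ^ 2 : ℤ) = 0 := by
      exact_mod_cast h5
    linarith

end Pool.Agent.CM
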