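import Pool.Agent.Work.MP_8590b5_gt.CM.Stmts3

/-!
# Block CM, item B1: rotation of the window
-/

set_option autoImplicit false

namespace Pool.Agent.CM

open Finset

/-- the data -/
abbrev B1_A : Type := Fin 3 × (Fin 3 → ℤ) × (Fin 3 → ℤ)

/-- the part of the conditions which is invariant under rotation -/
structure B1_Core (k : ℕ) (z : B1_A) : Prop where
  n01 : z.2.1 0 < z.2.1 1
  n12 : z.2.1 1 < z.2.1 2
  n20 : z.2.1 2 < z.2.1 0 + 3 * (2 * (k : ℤ) + 1)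
  nmod : ∀ j, (3 : ℤ) ∣ z.2.1 j + (k : ℤ) * (z.1.val : ℤ)
  nsum : (3 * (2 * (k : ℤ) + 1)) ∣ z.2.1 0 + z.2.1 1 + z.2.1 2
  pmod : ∀ j, (6 : ℤ) ∣ z.2.2 j - 3 - 2 * (z.1.val : ℤ) * ((k : ℤ) + 1)
  i0 : 2 * (4 * (k : ℤ) + 3) * z.2.1 0 < (2 * (k : ℤ) + 1) * z.2.2 0
  i0' : (2 * (k : ℤ) + 1) * z.2.2 0 < 2 * (4 * (k : ℤ) + 3) * z.2.1 1
  i1 : 2 * (4 * (k : ℤ) + 3) * z.2.1 1 < (2 * (k : ℤ) + 1) * z.2.2 1
  i1' : (2 * (k : ℤ) + 1) * z.2.2 1 < 2 * (4 * (k : ℤ) + 3) * z.2.1 2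
  i2 : 2 * (4 * (k : ℤ) + 3) * z.2.1 2 < (2 * (k : ℤ) + 1) * z.2.2 2
  i2' : (2 * (k : ℤ) + 1) * z.2.2 2 < 2 * (4 * (k : ℤ) + 3) * (z.2.1 0 + 3 * (2 * (k : ℤ) + 1))
  psum : (2 * (k : ℤ) + 1) * (z.2.2 0 + z.2.2 1 + z.2.2 2) =
    2 * (4 * (k : ℤ) + 3) * (z.2.1 0 + z.2.1 1 + z.2.1 2) +
      3 * (2 * (k : ℤ) + 1) * (4 * (k : ℤ) + 3)

/-- rotation -/
def B1_rot (k : ℕ) (z : B1_A) : B1_A :=
  (z.1, ![z.2.1 1, z.2.1 2, z.2.1 0 + 3 * (2 * (k : ℤ) + 1)],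
    ![z.2.2 1, z.2.2 2, z.2.2 0 + 6 * (4 * (k : ℤ) + 3)])

/-- inverse rotation -/
def B1_tor (k : ℕ) (z : B1_A) : B1_A :=
  (z.1, ![z.2.1 2 - 3 * (2 * (k : ℤ) + 1), z.2.1 0, z.2.1 1],
    ![z.2.2 2 - 6 * (4 * (k : ℤ) + 3), z.2.2 0, z.2.2 1])

theorem B1_rot_tor (k : ℕ) (z : B1_A) : B1_rot k (B1_tor k z) = z := by
  obtain ⟨t, n, p⟩ := z
  unfold B1_rot B1_tor
  refine Prod.ext rfl (Prod.ext ?_ ?_)
  · funext j
    fin_cases j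
    · rfl
    · rfl
    · show n 2 - 3 * (2 * (k : ℤ) + 1) + 3 * (2 * (k : ℤ) + 1) = n 2
      ring
  · funext j
    fin_cases j
    · rfl
    · rfl
    · show p 2 - 6 * (4 * (k : ℤ) + 3) + 6 * (4 * (k : ℤ) + 3) = p 2
      ring

theorem B1_tor_rot (k : ℕ) (z : B1_A) : B1_tor k (B1_rot k z) = z := by
  obtain ⟨t, n, p⟩ := z
  unfold B1_rot B1_tor
  refine Prod.ext rfl (Prod.ext ?_ ?_)
  · funext j
    fin_cases j
    · show n 0 + 3 * (2 * (k : ℤ) + 1) - 3 * (2 * (k : ℤ) + 1) = n 0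
      ring
    · rfl
    · rfl
  · funext j
    fin_cases j
    · show p 0 + 6 * (4 * (k : ℤ) + 3) - 6 * (4 * (k : ℤ) + 3) = p 0
      ring
    · rfl
    · rfl

theorem B1_core_rot (k : ℕ) (z : B1_A) (h : B1_Core k z) : B1_Core k (B1_rot k z) := by
  obtain ⟨t, n, p⟩ := z
  obtain ⟨h1, h2, h3, h4, h5, h6, h7, h8, h9, h10, h11, h12, h13⟩ := h
  have e0 : (B1_rot k (t, n, p)).2.1 0 = n 1 := rfl
  have e1 : (B1_rot k (t, n, p)).2.1 1 = n 2 := rfl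
  have e2 : (B1_rot k (t, n, p)).2.1 2 = n 0 + 3 * (2 * (k : ℤ) + 1) := rfl
  have f0 : (B1_rot k (t, n, p)).2.2 0 = p 1 := rfl
  have f1 : (B1_rot k (t, n, p)).2.2 1 = p 2 := rfl
  have f2 : (B1_rot k (t, n, p)).2.2 2 = p 0 + 6 * (4 * (k : ℤ) + 3) := rfl
  have et : (B1_rot k (t, n, p)).1 = t := rfl
  dsimp only at h1 h2 h3 h4 h5 h6 h7 h8 h9 h10 h11 h12 h13
  refine ⟨?_, ?_, ?_, ?_, ?_, ?_, ?_, ?_, ?_, ?_, ?_, ?_, ?_⟩
  · rw [e0, e1]; exact h2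
  · rw [e1, e2]; exact h3
  · rw [e2, e0]; linarith
  · intro j
    rw [et]
    fin_cases j
    · exact h4 1
    · exact h4 2
    · show (3 : ℤ) ∣ n 0 + 3 * (2 * (k : ℤ) + 1) + (k : ℤ) * (t.val : ℤ)
      have := h4 0
      have e : n 0 + 3 * (2 * (k : ℤ) + 1) + (k : ℤ) * (t.val : ℤ) =
        (n 0 + (k : ℤ) * (t.val : ℤ)) + 3 * (2 * (k : ℤ) + 1) := by ring
      rw [e]
      exact dvd_add this (Dvd.intro _ rfl)
  · rw [e0, e1, e2]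
    have e : n 1 + n 2 + (n 0 + 3 * (2 * (k : ℤ) + 1)) =
      (n 0 + n 1 + n 2) + 3 * (2 * (k : ℤ) + 1) := by ring
    rw [e]
    exact dvd_add h5 (dvd_refl _)
  · intro j
    rw [et]
    fin_cases j
    · exact h6 1
    · exact h6 2
    · show (6 : ℤ) ∣ p 0 + 6 * (4 * (k : ℤ) + 3) - 3 - 2 * (t.val : ℤ) * ((k : ℤ) + 1)
      have := h6 0
      have e : p 0 + 6 * (4 * (k : ℤ) + 3) - 3 - 2 * (t.val : ℤ) * ((k : ℤ) + 1) =
        (p 0 - 3 - 2 * (t.val : ℤ) * ((k : ℤ) + 1)) + 6 * (4 * (k : ℤ) + 3) := by ring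
      rw [e]
      exact dvd_add this (Dvd.intro _ rfl)
  · rw [e0, f0]; exact h9
  · rw [e1, f0]; exact h10
  · rw [e1, f1]; exact h11
  · rw [e2, f1]; exact h12
  · rw [e2, f2]; linarith
  · rw [e0, f2]; linarith
  · rw [e0, e1, e2, f0, f1, f2]; linarith

theorem B1_core_tor (k : ℕ) (z : B1_A) (h : B1_Core k z) : B1_Core k (B1_tor k z) := by
  obtain ⟨t, n, p⟩ := z
  obtain ⟨h1, h2, h3, h4, h5, h6, h7, h8, h9, h10, h11, h12, h13⟩ := h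
  have e0 : (B1_tor k (t, n, p)).2.1 0 = n 2 - 3 * (2 * (k : ℤ) + 1) := rfl
  have e1 : (B1_tor k (t, n, p)).2.1 1 = n 0 := rfl
  have e2 : (B1_tor k (t, n, p)).2.1 2 = n 1 := rfl
  have f0 : (B1_tor k (t, n, p)).2.2 0 = p 2 - 6 * (4 * (k : ℤ) + 3) := rfl
  have f1 : (B1_tor k (t, n, p)).2.2 1 = p 0 := rfl
  have f2 : (B1_tor k (t, n, p)).2.2 2 = p 1 := rfl
  have et : (B1_tor k (t, n, p)).1 = t := rfl
  dsimp only at h1 h2 h3 h4 h5 h6 h7 h8 h9 h10 h11 h12 h13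
  refine ⟨?_, ?_, ?_, ?_, ?_, ?_, ?_, ?_, ?_, ?_, ?_, ?_, ?_⟩
  · rw [e0, e1]; linarith
  · rw [e1, e2]; exact h1
  · rw [e2, e0]; linarith
  · intro j
    rw [et]
    fin_cases j
    · show (3 : ℤ) ∣ n 2 - 3 * (2 * (k : ℤ) + 1) + (k : ℤ) * (t.val : ℤ)
      have := h4 2
      have e : n 2 - 3 * (2 * (k : ℤ) + 1) + (k : ℤ) * (t.val : ℤ) =
        (n 2 + (k : ℤ) * (t.val : ℤ)) - 3 * (2 * (k : ℤ) + 1) := by ring
      rw [e]
      exact dvd_sub this (Dvd.intro _ rfl)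
    · exact h4 0
    · exact h4 1
  · rw [e0, e1, e2]
    have e : n 2 - 3 * (2 * (k : ℤ) + 1) + n 0 + n 1 =
      (n 0 + n 1 + n 2) - 3 * (2 * (k : ℤ) + 1) := by ring
    rw [e]
    exact dvd_sub h5 (dvd_refl _)
  · intro j
    rw [et]
    fin_cases j
    · show (6 : ℤ) ∣ p 2 - 6 * (4 * (k : ℤ) + 3) - 3 - 2 * (t.val : ℤ) * ((k : ℤ) + 1)
      have := h6 2
      have e : p 2 - 6 * (4 * (k : ℤ) + 3) - 3 - 2 * (t.val : ℤ) * ((k : ℤ) + 1) =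
        (p 2 - 3 - 2 * (t.val : ℤ) * ((k : ℤ) + 1)) - 6 * (4 * (k : ℤ) + 3) := by ring
      rw [e]
      exact dvd_sub this (Dvd.intro _ rfl)
    · exact h6 0
    · exact h6 1
  · rw [e0, f0]; linarith
  · rw [e1, f0]; linarith
  · rw [e1, f1]; exact h7
  · rw [e2, f1]; exact h8
  · rw [e2, f2]; exact h9
  · rw [e0, f2]; linarith
  · rw [e0, e1, e2, f0, f1, f2]; linarith

theorem B1_D_iff (k : ℕ) (z : B1_A) : IsD k z.1 z.2.1 z.2.2 ↔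
    B1_Core k z ∧ 0 ≤ z.2.1 0 ∧ z.2.1 2 < 3 * (2 * (k : ℤ) + 1) := by
  constructor
  · intro h
    refine ⟨⟨h.n01, h.n12, ?_, h.nmod, h.nsum, h.pmod, h.i0, h.i0', h.i1, h.i1', h.i2, h.i2',
      h.psum⟩, h.n0, h.n2⟩
    have := h.n0
    have := h.n2
    linarith
  · rintro ⟨h, h0, h2⟩
    exact ⟨h0, h.n01, h.n12, h2, h.nmod, h.nsum, h.pmod, h.i0, h.i0', h.i1, h.i1', h.i2, h.i2',
      h.psum⟩

theorem B1_C_iff (k : ℕ) (z : B1_A) : IsC k z.1 z.2.1 z.2.2 ↔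
    B1_Core k z ∧ 0 ≤ z.2.1 0 ∧ z.2.1 0 < 3 * (2 * (k : ℤ) + 1) ∧
      ∃ s : ℤ, z.2.1 0 + z.2.1 1 + z.2.1 2 = 3 * (2 * (k : ℤ) + 1) * s ∧
        (6 : ℤ) ∣ z.2.2 0 - 4 * z.2.1 0 - 1 - 2 * (s - 1) := by
  constructor
  · intro h
    obtain ⟨s, hs, hs'⟩ := h.nsum
    exact ⟨⟨h.n01, h.n12, h.n2, h.nmod, ⟨s, hs⟩, h.pmod, h.i0, h.i0', h.i1, h.i1', h.i2, h.i2',
      h.psum⟩, h.n0, h.n0', s, hs, hs'⟩
  · rintro ⟨h, h0, h0', hs⟩
    exact ⟨h0, h0', h.n01, h.n12, h.n20, h.nmod, hs, h.pmod, h.i0, h.i0', h.i1, h.i1', h.i2,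
      h.i2', h.psum⟩

/-- general bijection -/
theorem B1_card (A : Type) (ρ : A → A) (hρ : Function.Injective ρ) (D C : A → Prop)
    (h1 : ∀ z, D z → ∃ c < 3, C (ρ^[c] z))
    (h2 : ∀ z, D z → ∀ c < 3, D (ρ^[c] z) → c = 0)
    (h3 : ∀ w, C w → ∃ z, D z ∧ ∃ c < 3, ρ^[c] z = w)
    (h4 : ∀ w, C w → ∀ c < 3, C (ρ^[c] w) → c = 0) :
    Nat.card {z // D z} = Nat.card {w // C w} := by
  choose! c hc hC using h1
  refine Nat.card_eq_of_bijective (fun z : {z // D z} => (⟨ρ^[c z.1] z.1, hC z.1 z.2⟩ :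
    {w // C w})) ⟨?_, ?_⟩
  · have key : ∀ (z z' : A), D z → D z' → c z ≤ c z' → ρ^[c z] z = ρ^[c z'] z' → z = z' := by
      intro z z' hz hz' hle he
      have e : c z' = c z + (c z' - c z) := by omega
      rw [e, Function.iterate_add_apply] at he
      have he' := hρ.iterate (c z) he
      have h5 := h2 z' hz' (c z' - c z) (by have := hc z' hz'; omega) (he' ▸ hz)
      rw [h5] at he'
      exact he'
    rintro ⟨z, hz⟩ ⟨z', hz'⟩ he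
    have he' : ρ^[c z] z = ρ^[c z'] z' := congrArg Subtype.val he
    refine Subtype.ext ?_
    rcases le_total (c z) (c z') with hle | hle
    · exact key z z' hz hz' hle he'
    · exact (key z' z hz' hz hle he'.symm).symm
  · rintro ⟨w, hw⟩
    obtain ⟨z, hz, a, ha, he⟩ := h3 w hw
    refine ⟨⟨z, hz⟩, Subtype.ext ?_⟩
    show ρ^[c z] z = w
    have hcz := hc z hz
    have hCz := hC z hz
    rcases le_total a (c z) with hle | hle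
    · have e : c z = (c z - a) + a := by omega
      have e2 : ρ^[c z] z = ρ^[c z - a] w := by
        rw [← he, ← Function.iterate_add_apply, ← e]
      rw [e2] at hCz
      have h5 := h4 w hw (c z - a) (by omega) hCz
      rw [e2, h5]
      rfl
    · have e : a = (a - c z) + c z := by omega
      have e2 : w = ρ^[a - c z] (ρ^[c z] z) := by
        rw [← he, ← Function.iterate_add_apply, ← e]
      have h5 := h4 (ρ^[c z] z) hCz (a - c z) (by omega) (e2 ▸ hw)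
      rw [h5] at e2
      exact e2.symm

theorem B1_arith (a0 a1 a2 b0 b1 b2 K Y n0 n1 n2 p0 p1 p2 s : ℤ)
    (e0 : n0 + K = 3 * b0) (e1 : n1 + K = 3 * b1) (e2 : n2 + K = 3 * b2)
    (f0 : p0 - 3 - 2 * Y = 6 * a0) (f1 : p1 - 3 - 2 * Y = 6 * a1)
    (f2 : p2 - 3 - 2 * Y = 6 * a2) :
    (6 ∣ p0 - 4 * n0 - 1 - 2 * (s - 1) ∨ 6 ∣ p1 - 4 * n1 - 1 - 2 * s ∨
      6 ∣ p2 - 4 * n2 - 1 - 2 * (s + 1)) ∧
    ¬ (6 ∣ p0 - 4 * n0 - 1 - 2 * (s - 1) ∧ 6 ∣ p1 - 4 * n1 - 1 - 2 * s) ∧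
    ¬ (6 ∣ p0 - 4 * n0 - 1 - 2 * (s - 1) ∧ 6 ∣ p2 - 4 * n2 - 1 - 2 * (s + 1)) := by
  refine ⟨?_, ?_, ?_⟩ <;> omega

theorem B1_arith2 (k : ℕ) (z : B1_A) (h : B1_Core k z) (s : ℤ) :
    (6 ∣ z.2.2 0 - 4 * z.2.1 0 - 1 - 2 * (s - 1) ∨ 6 ∣ z.2.2 1 - 4 * z.2.1 1 - 1 - 2 * s ∨
      6 ∣ z.2.2 2 - 4 * z.2.1 2 - 1 - 2 * (s + 1)) ∧
    ¬ (6 ∣ z.2.2 0 - 4 * z.2.1 0 - 1 - 2 * (s - 1) ∧ 6 ∣ z.2.2 1 - 4 * z.2.1 1 - 1 - 2 * s) ∧
    ¬ (6 ∣ z.2.2 0 - 4 * z.2.1 0 - 1 - 2 * (s - 1) ∧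
      6 ∣ z.2.2 2 - 4 * z.2.1 2 - 1 - 2 * (s + 1)) := by
  obtain ⟨b0, e0⟩ := h.nmod 0
  obtain ⟨b1, e1⟩ := h.nmod 1
  obtain ⟨b2, e2⟩ := h.nmod 2
  obtain ⟨a0, f0⟩ := h.pmod 0
  obtain ⟨a1, f1⟩ := h.pmod 1
  obtain ⟨a2, f2⟩ := h.pmod 2
  rw [mul_assoc] at f0 f1 f2
  exact B1_arith a0 a1 a2 b0 b1 b2 _ _ _ _ _ _ _ _ s e0 e1 e2 f0 f1 f2

theorem pr_B1 : StB1 := by
  intro k
  have hq : (0 : ℤ) < 3 * (2 * (k : ℤ) + 1) := by positivity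
  have hinj : Function.Injective (B1_rot k) :=
    Function.LeftInverse.injective (g := B1_tor k) (B1_tor_rot k)
  have hiff := B1_card B1_A (B1_rot k) hinj (fun z => IsD k z.1 z.2.1 z.2.2)
    (fun z => IsC k z.1 z.2.1 z.2.2)
  refine hiff ?_ ?_ ?_ ?_
  · -- every window of the first kind has a rotation of the second kind
    intro z hz
    obtain ⟨hco, h0, h2⟩ := (B1_D_iff k z).1 hz
    obtain ⟨s, hs⟩ := hco.nsum
    have h01 := hco.n01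
    have h12 := hco.n12
    rcases (B1_arith2 k z hco s).1 with h | h | h
    · exact ⟨0, by norm_num, (B1_C_iff k z).2 ⟨hco, h0, by linarith, s, hs, h⟩⟩
    · refine ⟨1, by norm_num, (B1_C_iff k (B1_rot k z)).2 ⟨B1_core_rot k z hco, ?_, ?_, s + 1,
        ?_, ?_⟩⟩
      · show 0 ≤ z.2.1 1
        linarith
      · show z.2.1 1 < 3 * (2 * (k : ℤ) + 1)
        linarith
      · show z.2.1 1 + z.2.1 2 + (z.2.1 0 + 3 * (2 * (k : ℤ) + 1)) = _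
        linear_combination hs
      · show (6 : ℤ) ∣ z.2.2 1 - 4 * z.2.1 1 - 1 - 2 * (s + 1 - 1)
        rw [add_sub_cancel_right]
        exact h
    · refine ⟨2, by norm_num, (B1_C_iff k (B1_rot k (B1_rot k z))).2
        ⟨B1_core_rot k _ (B1_core_rot k z hco), ?_, ?_, s + 2, ?_, ?_⟩⟩
      · show 0 ≤ z.2.1 2
        linarith
      · show z.2.1 2 < 3 * (2 * (k : ℤ) + 1)
        linarith
      · show z.2.1 2 + (z.2.1 0 + 3 * (2 * (k : ℤ) + 1)) +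
          (z.2.1 1 + 3 * (2 * (k : ℤ) + 1)) = _
        linear_combination hs
      · show (6 : ℤ) ∣ z.2.2 2 - 4 * z.2.1 2 - 1 - 2 * (s + 2 - 1)
        have e : s + 2 - 1 = s + 1 := by ring
        rw [e]
        exact h
  · -- no other rotation is of the first kind
    intro z hz c hc hD
    obtain ⟨hco, h0, h2⟩ := (B1_D_iff k z).1 hz
    have h01 := hco.n01
    interval_cases c
    · rfl
    · exfalso
      have h5 : z.2.1 0 + 3 * (2 * (k : ℤ) + 1) < 3 * (2 * (k : ℤ) + 1) :=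
        ((B1_D_iff k (B1_rot k z)).1 hD).2.2
      linarith
    · exfalso
      have h5 : z.2.1 1 + 3 * (2 * (k : ℤ) + 1) < 3 * (2 * (k : ℤ) + 1) :=
        ((B1_D_iff k (B1_rot k (B1_rot k z))).1 hD).2.2
      linarith
  · -- back
    intro w hw
    obtain ⟨hco, h0, h0', -⟩ := (B1_C_iff k w).1 hw
    have h01 := hco.n01
    have h12 := hco.n12
    by_cases hc1 : w.2.1 2 < 3 * (2 * (k : ℤ) + 1)
    · exact ⟨w, (B1_D_iff k w).2 ⟨hco, h0, hc1⟩, 0, by norm_num, rfl⟩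
    · by_cases hc2 : w.2.1 1 < 3 * (2 * (k : ℤ) + 1)
      · refine ⟨B1_tor k w, (B1_D_iff k (B1_tor k w)).2 ⟨B1_core_tor k w hco, ?_, ?_⟩, 1,
          by norm_num, B1_rot_tor k w⟩
        · show 0 ≤ w.2.1 2 - 3 * (2 * (k : ℤ) + 1)
          linarith
        · show w.2.1 1 < 3 * (2 * (k : ℤ) + 1)
          exact hc2
      · refine ⟨B1_tor k (B1_tor k w), (B1_D_iff k (B1_tor k (B1_tor k w))).2
          ⟨B1_core_tor k _ (B1_core_tor k w hco), ?_, ?_⟩, 2, by norm_num, ?_⟩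
        · show 0 ≤ w.2.1 1 - 3 * (2 * (k : ℤ) + 1)
          linarith
        · show w.2.1 0 < 3 * (2 * (k : ℤ) + 1)
          exact h0'
        · show B1_rot k (B1_rot k (B1_tor k (B1_tor k w))) = w
          rw [B1_rot_tor, B1_rot_tor]
  · -- no other rotation is of the second kind
    intro w hw c hc hC
    obtain ⟨hco, h0, h0', s, hs, hs6⟩ := (B1_C_iff k w).1 hw
    have har := B1_arith2 k w hco s
    interval_cases c
    · rfl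
    · exfalso
      obtain ⟨-, -, -, s', hs', hs6'⟩ := (B1_C_iff k (B1_rot k w)).1 hC
      have hs1 : w.2.1 1 + w.2.1 2 + (w.2.1 0 + 3 * (2 * (k : ℤ) + 1)) =
        3 * (2 * (k : ℤ) + 1) * s' := hs'
      have hs2 : (6 : ℤ) ∣ w.2.2 1 - 4 * w.2.1 1 - 1 - 2 * (s' - 1) := hs6'
      have he : 3 * (2 * (k : ℤ) + 1) * s' = 3 * (2 * (k : ℤ) + 1) * (s + 1) := by
        linear_combination hs - hs1
      have he' : s' = s + 1 := mul_left_cancel₀ (ne_of_gt hq) he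
      rw [he', add_sub_cancel_right] at hs2
      exact har.2.1 ⟨hs6, hs2⟩
    · exfalso
      obtain ⟨-, -, -, s', hs', hs6'⟩ := (B1_C_iff k (B1_rot k (B1_rot k w))).1 hC
      have hs1 : w.2.1 2 + (w.2.1 0 + 3 * (2 * (k : ℤ) + 1)) +
        (w.2.1 1 + 3 * (2 * (k : ℤ) + 1)) = 3 * (2 * (k : ℤ) + 1) * s' := hs'
      have hs2 : (6 : ℤ) ∣ w.2.2 2 - 4 * w.2.1 2 - 1 - 2 * (s' - 1) := hs6'
      have he : 3 * (2 * (k : ℤ) + 1) * s' = 3 * (2 * (k : ℤ) + 1) * (s + 2) := by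
        linear_combination hs - hs1
      have he' : s' = s + 2 := mul_left_cancel₀ (ne_of_gt hq) he
      have e : s + 2 - 1 = s + 1 := by ring
      rw [he', e] at hs2
      exact har.2.2 ⟨hs6, hs2⟩

end Pool.Agent.CM
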