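import Pool.Agent.Work.MP_8590b5_gt.CM.Stmts3

/-!
# Block CM, item B2: the affine bijection
-/

namespace Pool.Agent.CM

open Finset

private theorem B2_card {α β : Type} (P : α → Prop) (Q : β → Prop) (R : α → β → Prop)
    (h1 : ∀ a, P a → ∃ b, Q b ∧ R a b) (h2 : ∀ b, Q b → ∃ a, P a ∧ R a b)
    (h3 : ∀ a b b', R a b → R a b' → b = b')
    (h4 : ∀ a a' b, P a → P a' → Q b → R a b → R a' b → a = a') :
    Nat.card {a // P a} = Nat.card {b // Q b} := by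
  classical
  choose f hf using (fun a : {a // P a} => h1 a.1 a.2)
  refine Nat.card_eq_of_bijective
    (fun a : {a // P a} => (⟨f a, (hf a).1⟩ : {b // Q b})) ⟨?_, ?_⟩
  · intro a a' h
    have h' : f a = f a' := congrArg Subtype.val h
    apply Subtype.ext
    refine h4 _ _ (f a) a.2 a'.2 (hf a).1 (hf a).2 ?_
    rw [h']
    exact (hf a').2
  · rintro ⟨b, hb⟩
    obtain ⟨a, ha, hR⟩ := h2 b hb
    exact ⟨⟨a, ha⟩, Subtype.ext (h3 a _ _ (hf ⟨a, ha⟩).2 hR)⟩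

/-- the relation between the two normal forms -/
private def B2_R (k : ℕ) (z : Fin 3 × (Fin 3 → ℤ) × (Fin 3 → ℤ))
    (w : (Fin 3 → ℤ) × (Fin 3 → ℤ)) : Prop :=
  ∃ s : ℤ, z.2.1 0 + 2 * w.1 0 + w.1 1 = (2 * (k : ℤ) + 1) * s ∧
    z.2.1 1 = z.2.1 0 + 3 * w.1 0 ∧ z.2.1 2 = z.2.1 1 + 3 * w.1 1 ∧
    z.2.1 0 + 3 * (2 * (k : ℤ) + 1) = z.2.1 2 + 3 * w.1 2 ∧
    z.2.2 0 = 2 * w.2 0 + 2 * (s - 1) + 4 * z.2.1 0 + 1 ∧
    z.2.2 1 = 2 * w.2 1 + 2 * s + 4 * z.2.1 1 + 1 ∧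
    z.2.2 2 = 2 * w.2 2 + 2 * (s + 1) + 4 * z.2.1 2 + 1

private theorem B2_to (k : ℕ) (z : Fin 3 × (Fin 3 → ℤ) × (Fin 3 → ℤ))
    (h : IsC k z.1 z.2.1 z.2.2) :
    ∃ w : (Fin 3 → ℤ) × (Fin 3 → ℤ), IsE k w.1 w.2 ∧ B2_R k z w := by
  obtain ⟨t, n, p⟩ := z
  obtain ⟨c1, c2, c3, c4, c5, nmod, ⟨s, hs, h6⟩, pmod, i0, i0', i1, i1', i2, i2', psum⟩ := h
  dsimp only at c1 c2 c3 c4 c5 nmod hs h6 pmod i0 i0' i1 i1' i2 i2' psum
  obtain ⟨x0, hx0⟩ := nmod 0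
  obtain ⟨x1, hx1⟩ := nmod 1
  obtain ⟨x2, hx2⟩ := nmod 2
  obtain ⟨y0, hy0⟩ := pmod 0
  obtain ⟨y1, hy1⟩ := pmod 1
  obtain ⟨y2, hy2⟩ := pmod 2
  obtain ⟨e, he⟩ := h6
  obtain ⟨K, hK⟩ : ∃ K : ℤ, K = (k : ℤ) := ⟨_, rfl⟩
  obtain ⟨T, hT⟩ : ∃ T : ℤ, T = (t.val : ℤ) := ⟨_, rfl⟩
  have hK0 : 0 ≤ K := by rw [hK]; positivity
  rw [← hK] at c2 c5 hx0 hx1 hx2 hy0 hy1 hy2 hs i0 i0' i1 i1' i2 i2' psum
  rw [← hT] at hx0 hx1 hx2 hy0 hy1 hy2
  -- the gaps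
  have g0 : n 1 = n 0 + 3 * (x1 - x0) := by linarith
  have g1 : n 2 = n 1 + 3 * (x2 - x1) := by linarith
  -- the sum
  have hG : n 0 + 2 * (x1 - x0) + (x2 - x1) = (2 * K + 1) * s := by linarith
  have hE0 : p 0 = 2 * (3 * e) + 2 * (s - 1) + 4 * n 0 + 1 := by linarith
  have hE1 : p 1 = 2 * (3 * e - 3 * (y0 - y1) + 2 * (3 * (x0 - x1)) - 1) + 2 * s + 4 * n 1 + 1 := by
    linarith
  have hE2 : p 2 = 2 * (3 * e - 3 * (y0 - y2) + 2 * (3 * (x0 - x2)) - 2) + 2 * (s + 1) +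
      4 * n 2 + 1 := by
    linarith
  have hq : (0 : ℤ) < 2 * K + 1 := by linarith
  have hps : p 0 + p 1 + p 2 = 6 * (4 * K + 3) * s + 3 * (4 * K + 3) := by
    have : (2 * K + 1) * (p 0 + p 1 + p 2) =
        (2 * K + 1) * (6 * (4 * K + 3) * s + 3 * (4 * K + 3)) := by
      rw [psum, hs]
      ring
    exact mul_left_cancel₀ hq.ne' this
  refine ⟨(![x1 - x0, x2 - x1, 2 * K + 1 - (x2 - x0)],
    ![3 * e, 3 * e - 3 * (y0 - y1) + 2 * (3 * (x0 - x1)) - 1,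
      3 * e - 3 * (y0 - y2) + 2 * (3 * (x0 - x2)) - 2]), ?_, ?_⟩
  · constructor <;> simp only [Matrix.cons_val_zero, Matrix.cons_val_one, Matrix.cons_val,
      ← hK]
    · ring
    · linarith
    · exact ⟨e, rfl⟩
    · exact ⟨e - (y0 - y1) + 2 * (x0 - x1) - 1, by ring⟩
    · exact ⟨e - (y0 - y2) + 2 * (x0 - x2) - 1, by ring⟩
    · have : 2 * (2 * K + 1) * (3 * e) + (2 * K + 1) +
          2 * (x1 - x0 - (2 * K + 1 - (x2 - x0))) = (2 * K + 1) * p 0 - 2 * (4 * K + 3) * n 0 := by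
        rw [hE0]
        linear_combination 2 * hG
      rw [this]
      linarith
    · have : 2 * (2 * K + 1) * (3 * e - 3 * (y0 - y1) + 2 * (3 * (x0 - x1)) - 1) + (2 * K + 1) +
          2 * (x2 - x1 - (x1 - x0)) = (2 * K + 1) * p 1 - 2 * (4 * K + 3) * n 1 := by
        rw [hE1]
        linear_combination 2 * hG + 2 * g0
      rw [this]
      linarith
    · have : 2 * (2 * K + 1) * (3 * e - 3 * (y0 - y2) + 2 * (3 * (x0 - x2)) - 2) + (2 * K + 1) +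
          2 * (2 * K + 1 - (x2 - x0) - (x2 - x1)) =
            (2 * K + 1) * p 2 - 2 * (4 * K + 3) * n 2 := by
        rw [hE2]
        linear_combination 2 * hG + 2 * g0 + 2 * g1
      rw [this]
      linarith
    · have : 2 * (2 * K + 1) * (6 * (x1 - x0) - 3 * e) + (2 * K + 1) +
          2 * (x1 - x0 - (x2 - x1)) = 2 * (4 * K + 3) * n 1 - (2 * K + 1) * p 0 := by
        rw [hE0]
        linear_combination (-2) * hG - 2 * (4 * K + 3) * g0
      rw [this]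
      linarith
    · have : 2 * (2 * K + 1) * (6 * (x2 - x1) -
          (3 * e - 3 * (y0 - y1) + 2 * (3 * (x0 - x1)) - 1)) + (2 * K + 1) +
          2 * (x2 - x1 - (2 * K + 1 - (x2 - x0))) = 2 * (4 * K + 3) * n 2 - (2 * K + 1) * p 1 := by
        rw [hE1]
        linear_combination (-2) * hG - 2 * g0 - 2 * (4 * K + 3) * g1
      rw [this]
      linarith
    · have : 2 * (2 * K + 1) * (6 * (2 * K + 1 - (x2 - x0)) -
          (3 * e - 3 * (y0 - y2) + 2 * (3 * (x0 - x2)) - 2)) + (2 * K + 1) +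
          2 * (2 * K + 1 - (x2 - x0) - (x1 - x0)) =
            2 * (4 * K + 3) * (n 0 + 3 * (2 * K + 1)) - (2 * K + 1) * p 2 := by
        rw [hE2]
        linear_combination (-2) * hG + (8 * K + 4) * g0 + (8 * K + 4) * g1
      rw [this]
      linarith
  · refine ⟨s, ?_⟩
    simp only [Matrix.cons_val_zero, Matrix.cons_val_one, Matrix.cons_val, ← hK]
    exact ⟨hG, g0, g1, by linarith, hE0, hE1, hE2⟩

private theorem B2_from (k : ℕ) (w : (Fin 3 → ℤ) × (Fin 3 → ℤ)) (h : IsE k w.1 w.2) :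
    ∃ z : Fin 3 × (Fin 3 → ℤ) × (Fin 3 → ℤ), IsC k z.1 z.2.1 z.2.2 ∧ B2_R k z w := by
  obtain ⟨g, E⟩ := w
  obtain ⟨gsum, esum, ⟨e0, he0⟩, ⟨e1, he1⟩, ⟨e2, he2⟩, a0, a1, a2, b0, b1, b2⟩ := h
  dsimp only at gsum esum he0 he1 he2 a0 a1 a2 b0 b1 b2
  obtain ⟨K, hK⟩ : ∃ K : ℤ, K = (k : ℤ) := ⟨_, rfl⟩
  have hK0 : 0 ≤ K := by rw [hK]; positivity
  rw [← hK] at gsum esum a0 a1 a2 b0 b1 b2
  have hq : (0 : ℤ) < 2 * K + 1 := by linarith
  -- the choice of `s`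
  obtain ⟨m, hm⟩ : ∃ m : ℤ, m = ((2 * K + 1) * (2 * g 0 + g 1 - K) - 2 * g 0 - g 1) /
    (3 * (2 * K + 1)) := ⟨_, rfl⟩
  obtain ⟨s, hs⟩ : ∃ s : ℤ, s = 2 * g 0 + g 1 - K - 3 * m := ⟨_, rfl⟩
  obtain ⟨n0, hn0⟩ : ∃ n0 : ℤ, n0 = (2 * K + 1) * s - 2 * g 0 - g 1 := ⟨_, rfl⟩
  have hmod : n0 = ((2 * K + 1) * (2 * g 0 + g 1 - K) - 2 * g 0 - g 1) % (3 * (2 * K + 1)) := by
    rw [Int.emod_def, ← hm, hn0, hs]
    ring
  have h3q : (0 : ℤ) < 3 * (2 * K + 1) := by linarith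
  have c1 : 0 ≤ n0 := by
    rw [hmod]
    exact Int.emod_nonneg _ h3q.ne'
  have c2 : n0 < 3 * (2 * K + 1) := by
    rw [hmod]
    exact Int.emod_lt_of_pos _ h3q
  -- the choice of `t`
  obtain ⟨T, hT⟩ : ∃ T : ℤ, T = (s + 1) % 3 := ⟨_, rfl⟩
  have hT0 : 0 ≤ T := by rw [hT]; exact Int.emod_nonneg _ (by norm_num)
  have hT3 : T < 3 := by rw [hT]; exact Int.emod_lt_of_pos _ (by norm_num)
  obtain ⟨u, hu⟩ : ∃ u : ℤ, T = s + 1 - 3 * u := ⟨(s + 1) / 3, by rw [hT, Int.emod_def]⟩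
  obtain ⟨t, ht⟩ : ∃ t : Fin 3, (t.val : ℤ) = T :=
    ⟨⟨T.toNat, by omega⟩, by simpa using Int.toNat_of_nonneg hT0⟩
  -- positivity of the gaps
  have pg0 : 0 < g 0 := by
    have : 0 < (6 * (4 * K + 3)) * g 0 := by
      have e : (6 * (4 * K + 3)) * g 0 =
          (2 * (2 * K + 1) * E 0 + (2 * K + 1) + 2 * (g 0 - g 2)) +
          (2 * (2 * K + 1) * (6 * g 0 - E 0) + (2 * K + 1) + 2 * (g 0 - g 1)) := by
        linear_combination 2 * gsum
      rw [e]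
      linarith
    exact (pos_iff_pos_of_mul_pos this).1 (by linarith)
  have pg1 : 0 < g 1 := by
    have : 0 < (6 * (4 * K + 3)) * g 1 := by
      have e : (6 * (4 * K + 3)) * g 1 =
          (2 * (2 * K + 1) * E 1 + (2 * K + 1) + 2 * (g 1 - g 0)) +
          (2 * (2 * K + 1) * (6 * g 1 - E 1) + (2 * K + 1) + 2 * (g 1 - g 2)) := by
        linear_combination 2 * gsum
      rw [e]
      linarith
    exact (pos_iff_pos_of_mul_pos this).1 (by linarith)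
  have pg2 : 0 < g 2 := by
    have : 0 < (6 * (4 * K + 3)) * g 2 := by
      have e : (6 * (4 * K + 3)) * g 2 =
          (2 * (2 * K + 1) * E 2 + (2 * K + 1) + 2 * (g 2 - g 1)) +
          (2 * (2 * K + 1) * (6 * g 2 - E 2) + (2 * K + 1) + 2 * (g 2 - g 0)) := by
        linear_combination 2 * gsum
      rw [e]
      linarith
    exact (pos_iff_pos_of_mul_pos this).1 (by linarith)
  have hG : n0 + 2 * g 0 + g 1 = (2 * K + 1) * s := by rw [hn0]; ring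
  -- the residues
  have hres : n0 + K * T = 3 * (K * s - K * u - m) := by
    rw [hu, hn0]
    linear_combination (1 : ℤ) * hs
  have hres2 : s - 2 + 2 * n0 - T * (K + 1) = 3 * (2 * (K * s - K * u - m) - K * T + u - 1) := by
    linear_combination 2 * hres - hu
  refine ⟨(t, ![n0, n0 + 3 * g 0, n0 + 3 * g 0 + 3 * g 1],
    ![2 * E 0 + 2 * (s - 1) + 4 * n0 + 1, 2 * E 1 + 2 * s + 4 * (n0 + 3 * g 0) + 1,
      2 * E 2 + 2 * (s + 1) + 4 * (n0 + 3 * g 0 + 3 * g 1) + 1]), ?_, ?_⟩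
  · constructor <;> simp only [Matrix.cons_val_zero, Matrix.cons_val_one, Matrix.cons_val,
      ← hK, ht]
    · exact c1
    · exact c2
    · linarith
    · linarith
    · linarith
    · intro j
      fin_cases j
      · exact ⟨_, hres⟩
      · refine ⟨K * s - K * u - m + g 0, ?_⟩
        show n0 + 3 * g 0 + K * T = _
        linear_combination hres
      · refine ⟨K * s - K * u - m + g 0 + g 1, ?_⟩
        show n0 + 3 * g 0 + 3 * g 1 + K * T = _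
        linear_combination hres
    · refine ⟨s, by linear_combination 3 * hG, e0, ?_⟩
      linear_combination 2 * he0
    · intro j
      fin_cases j
      · refine ⟨e0 + (2 * (K * s - K * u - m) - K * T + u - 1), ?_⟩
        show 2 * E 0 + 2 * (s - 1) + 4 * n0 + 1 - 3 - 2 * T * (K + 1) = _
        linear_combination 2 * hres2 + 2 * he0
      · refine ⟨e1 + (2 * (K * s - K * u - m) - K * T + u - 1) + 2 * g 0 + 1, ?_⟩
        show 2 * E 1 + 2 * s + 4 * (n0 + 3 * g 0) + 1 - 3 - 2 * T * (K + 1) = _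
        linear_combination 2 * hres2 + 2 * he1
      · refine ⟨e2 + (2 * (K * s - K * u - m) - K * T + u - 1) + 2 * g 0 + 2 * g 1 + 1, ?_⟩
        show 2 * E 2 + 2 * (s + 1) + 4 * (n0 + 3 * g 0 + 3 * g 1) + 1 - 3 -
          2 * T * (K + 1) = _
        linear_combination 2 * hres2 + 2 * he2
    · have : (2 * K + 1) * (2 * E 0 + 2 * (s - 1) + 4 * n0 + 1) - 2 * (4 * K + 3) * n0 =
          2 * (2 * K + 1) * E 0 + (2 * K + 1) + 2 * (g 0 - g 2) := by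
        linear_combination (-2) * hG + 2 * gsum
      linarith
    · have : 2 * (4 * K + 3) * (n0 + 3 * g 0) -
          (2 * K + 1) * (2 * E 0 + 2 * (s - 1) + 4 * n0 + 1) =
          2 * (2 * K + 1) * (6 * g 0 - E 0) + (2 * K + 1) + 2 * (g 0 - g 1) := by
        linear_combination 2 * hG
      linarith
    · have : (2 * K + 1) * (2 * E 1 + 2 * s + 4 * (n0 + 3 * g 0) + 1) -
          2 * (4 * K + 3) * (n0 + 3 * g 0) =
          2 * (2 * K + 1) * E 1 + (2 * K + 1) + 2 * (g 1 - g 0) := by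
        linear_combination (-2) * hG
      linarith
    · have : 2 * (4 * K + 3) * (n0 + 3 * g 0 + 3 * g 1) -
          (2 * K + 1) * (2 * E 1 + 2 * s + 4 * (n0 + 3 * g 0) + 1) =
          2 * (2 * K + 1) * (6 * g 1 - E 1) + (2 * K + 1) + 2 * (g 1 - g 2) := by
        linear_combination 2 * hG + 2 * gsum
      linarith
    · have : (2 * K + 1) * (2 * E 2 + 2 * (s + 1) + 4 * (n0 + 3 * g 0 + 3 * g 1) + 1) -
          2 * (4 * K + 3) * (n0 + 3 * g 0 + 3 * g 1) =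
          2 * (2 * K + 1) * E 2 + (2 * K + 1) + 2 * (g 2 - g 1) := by
        linear_combination (-2) * hG - 2 * gsum
      linarith
    · have : 2 * (4 * K + 3) * (n0 + 3 * (2 * K + 1)) -
          (2 * K + 1) * (2 * E 2 + 2 * (s + 1) + 4 * (n0 + 3 * g 0 + 3 * g 1) + 1) =
          2 * (2 * K + 1) * (6 * g 2 - E 2) + (2 * K + 1) + 2 * (g 2 - g 0) := by
        linear_combination 2 * hG - (24 * K + 14) * gsum
      linarith
    · linear_combination 2 * (2 * K + 1) * esum - 6 * hG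
  · refine ⟨s, ?_, ?_, ?_, ?_, ?_, ?_, ?_⟩ <;> simp only [Matrix.cons_val_zero,
      Matrix.cons_val_one, Matrix.cons_val, ← hK]
    · exact hG
    · linarith

private theorem B2_uniq (k : ℕ) (z : Fin 3 × (Fin 3 → ℤ) × (Fin 3 → ℤ))
    (w w' : (Fin 3 → ℤ) × (Fin 3 → ℤ)) (h : B2_R k z w) (h' : B2_R k z w') : w = w' := by
  obtain ⟨t, n, p⟩ := z
  obtain ⟨g, E⟩ := w
  obtain ⟨g', E'⟩ := w'
  obtain ⟨s, h1, h2, h3, h4, h5, h6, h7⟩ := h
  obtain ⟨s', h1', h2', h3', h4', h5', h6', h7'⟩ := h'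
  dsimp only at h1 h2 h3 h4 h5 h6 h7 h1' h2' h3' h4' h5' h6' h7'
  have g0 : g 0 = g' 0 := by linarith
  have g1 : g 1 = g' 1 := by linarith
  have g2 : g 2 = g' 2 := by linarith
  have hq : (2 * (k : ℤ) + 1) ≠ 0 := by positivity
  have hs : s = s' := by
    rw [g0, g1, h1'] at h1
    exact (mul_left_cancel₀ hq h1).symm
  subst hs
  have E0 : E 0 = E' 0 := by linarith
  have E1 : E 1 = E' 1 := by linarith
  have E2 : E 2 = E' 2 := by linarith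
  refine Prod.ext ?_ ?_
  · funext i
    fin_cases i
    · exact g0
    · exact g1
    · exact g2
  · funext i
    fin_cases i
    · exact E0
    · exact E1
    · exact E2

/-- the residues of `s` and of `t` -/
private theorem B2_mod (k : ℕ) (t : Fin 3) (n p g E : Fin 3 → ℤ) (s : ℤ) (hz : IsC k t n p)
    (hw : IsE k g E) (hG : n 0 + 2 * g 0 + g 1 = (2 * (k : ℤ) + 1) * s)
    (hp : p 0 = 2 * E 0 + 2 * (s - 1) + 4 * n 0 + 1) :
    (∃ c : ℤ, (t.val : ℤ) = s + 1 + 3 * c) ∧ ∃ d : ℤ, s = 2 * g 0 + g 1 - (k : ℤ) + 3 * d := by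
  obtain ⟨A, hA⟩ := hz.nmod 0
  obtain ⟨B, hB⟩ := hz.pmod 0
  obtain ⟨e, he⟩ := hw.e0
  have e1 : E 0 + s - 2 + 2 * n 0 - (t.val : ℤ) * ((k : ℤ) + 1) = 3 * B := by
    linarith
  have e2 : (t.val : ℤ) = s + 1 + 3 * (-1 - (k : ℤ) * (t.val : ℤ) + 2 * A + e - B) := by
    linear_combination (-1 : ℤ) * e1 + he + 2 * hA
  refine ⟨⟨_, e2⟩, ⟨A - (k : ℤ) * s -
    (k : ℤ) * (-1 - (k : ℤ) * (t.val : ℤ) + 2 * A + e - B), ?_⟩⟩
  linear_combination hA - hG - (k : ℤ) * e2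

private theorem B2_inj (k : ℕ) (z z' : Fin 3 × (Fin 3 → ℤ) × (Fin 3 → ℤ))
    (w : (Fin 3 → ℤ) × (Fin 3 → ℤ)) (hz : IsC k z.1 z.2.1 z.2.2) (hz' : IsC k z'.1 z'.2.1 z'.2.2)
    (hw : IsE k w.1 w.2) (h : B2_R k z w) (h' : B2_R k z' w) : z = z' := by
  obtain ⟨t, n, p⟩ := z
  obtain ⟨t', n', p'⟩ := z'
  obtain ⟨g, E⟩ := w
  obtain ⟨s, h1, h2, h3, h4, h5, h6, h7⟩ := h
  obtain ⟨s', h1', h2', h3', h4', h5', h6', h7'⟩ := h'
  dsimp only at h1 h2 h3 h4 h5 h6 h7 h1' h2' h3' h4' h5' h6' h7' hz hz' hw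
  obtain ⟨⟨c, hc⟩, d, hd⟩ := B2_mod k t n p g E s hz hw h1 h5
  obtain ⟨⟨c', hc'⟩, d', hd'⟩ := B2_mod k t' n' p' g E s' hz' hw h1' h5'
  obtain ⟨K, hK⟩ : ∃ K : ℤ, K = (k : ℤ) := ⟨_, rfl⟩
  have hK0 : 0 ≤ K := by rw [hK]; positivity
  have hn1 := hz.n0
  have hn2 := hz.n0'
  have hn1' := hz'.n0
  have hn2' := hz'.n0'
  rw [← hK] at h1 h1' hd hd' hn2 hn2'
  have hq : (0 : ℤ) < 2 * K + 1 := by linarith
  have hdd : n 0 - n' 0 = (3 * (2 * K + 1)) * (d - d') := by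
    have e1 : s - s' = 3 * (d - d') := by linarith
    have e2 : n 0 - n' 0 = (2 * K + 1) * (s - s') := by linarith
    rw [e2, e1]
    ring
  have hd0 : d - d' = 0 := by
    have u1 : (3 * (2 * K + 1)) * (d - d') < (3 * (2 * K + 1)) * 1 := by linarith
    have u2 : (3 * (2 * K + 1)) * (-1) < (3 * (2 * K + 1)) * (d - d') := by linarith
    have v1 : d - d' < 1 := lt_of_mul_lt_mul_left u1 (by linarith)
    have v2 : -1 < d - d' := lt_of_mul_lt_mul_left u2 (by linarith)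
    omega
  have hs : s = s' := by omega
  subst hs
  rw [hd0, mul_zero] at hdd
  have n0 : n 0 = n' 0 := by linarith
  have n1 : n 1 = n' 1 := by linarith
  have n2 : n 2 = n' 2 := by linarith
  have p0 : p 0 = p' 0 := by linarith
  have p1 : p 1 = p' 1 := by linarith
  have p2 : p 2 = p' 2 := by linarith
  have ht : t = t' := by
    apply Fin.ext
    have := t.isLt
    have := t'.isLt
    omega
  refine Prod.ext ht (Prod.ext ?_ ?_)
  · funext i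
    fin_cases i
    · exact n0
    · exact n1
    · exact n2
  · funext i
    fin_cases i
    · exact p0
    · exact p1
    · exact p2

theorem pr_B2 : StB2 := fun k =>
  B2_card (fun z : Fin 3 × (Fin 3 → ℤ) × (Fin 3 → ℤ) => IsC k z.1 z.2.1 z.2.2)
    (fun z : (Fin 3 → ℤ) × (Fin 3 → ℤ) => IsE k z.1 z.2) (B2_R k) (B2_to k) (B2_from k)
    (B2_uniq k) (B2_inj k)

end Pool.Agent.CM
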