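import Pool.Agent.Work.MP_8590b5_gt.CM.Stmts1

/-!
# Block CM, item Bk (helper58): from the relations to the values of the labels
-/

set_option autoImplicit false

namespace Pool.Agent.CM

open Finset

private theorem Bk_bump {Γ : Type} [Group Γ] (a b : Γ) (t : ℕ) (A : Str Γ)
    (h : A.lon * A.lab = (if A.src = 0 then a else b) * A.lon) :
    (bump a b t A).lon * (bump a b t A).lab =
      (if A.src = 0 then a else b) * (bump a b t A).lon := by
  show (if A.src = 0 then a else b) ^ t * A.lon * A.lab =
    (if A.src = 0 then a else b) * ((if A.src = 0 then a else b) ^ t * A.lon)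
  rw [mul_assoc, h, ← mul_assoc, ← mul_assoc, ← pow_succ, ← pow_succ']

private theorem Bk_succ (i : ℕ) : pieces (i + 1) = pieces i ++ piece i := by
  unfold pieces
  rw [List.range_succ, List.flatMap_append]
  simp

/-- Item Bk. -/
theorem pr_Bk : StBk := by
  intro hPc hUn hDn hAf hTw hTn hTl hKa hKi Γ _ N J g h1 h2 h3 i
  induction i using Nat.strong_induction_on with
  | _ i ih =>
    intro hi
    unfold cval
    by_cases hJ : i ∈ J
    · rw [if_pos hJ]
      obtain ⟨a1, a2⟩ := hAf hPc hUn hTw hTn hTl hKa hKi Γ i J g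
        (fun j hj => ih j hj (by omega)) i le_rfl
      obtain ⟨t1, t2, _, _⟩ := hTl Γ (g 0) (g 1) (ex J i)
      have h2' := h2 i hi hJ
      rw [← hDn hPc Γ N g h1 i hi, Bk_succ] at h2'
      have e1 : run (pieces i ++ piece i) (start g) (i + 2) =
          cC (run (pieces i) (start g) 0) (run (pieces i) (start g) 1)
            (run (pieces i) (start g) (i + 2)) := by
        have e2 : run (pieces i ++ piece i) (start g) =
            run (piece i) (run (pieces i) (start g)) := by
          unfold run
          rw [List.foldl_append]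
        rw [e2, hPc Γ i _ (i + 2), if_neg (by omega), if_neg (by omega), if_pos rfl]
      rw [e1, a1, a2, hUn hPc Γ i g (i + 2) le_rfl] at h2'
      exact (hKa Γ _ _ ⟨i + 2, g (i + 2), 1⟩ _ _ rfl (Bk_bump (g 0) (g 1) (tc J i) _ t1)
        (Bk_bump (g 0) (g 1) (tc J i) _ t2)).1.1 h2'
    · rw [if_neg hJ]
      exact h3 i hi hJ

end Pool.Agent.CM
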