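import Pool.Agent.Work.MP_8590b5_gt.CM.Stmts2

/-!
# Block CM, item Br (helper73): powers of the matrix `B`
-/

namespace Pool.Agent.CM

open Finset

theorem Br_gen (B : Mat) (β : Fin 3 → ℂ) (hβ : Function.Injective β)
    (h : ∀ z : ℂ, Matrix.det (z • (1 : Mat) - B) = ∏ j, (z - β j)) (m : ℕ) (c : ℂ)
    (hc : ∀ j, β j ^ m = c) : B ^ m = c • (1 : Mat) := by
  have h1 : B.charpoly = ∏ j, (Polynomial.X - Polynomial.C (β j)) := by
    apply Polynomial.funext
    intro z
    rw [Matrix.eval_charpoly, Polynomial.eval_prod]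
    simp only [Polynomial.eval_sub, Polynomial.eval_X, Polynomial.eval_C]
    rw [← h z, Matrix.smul_one_eq_diagonal]
    rfl
  have h2 : (∏ j, (Polynomial.X - Polynomial.C (β j))) ∣
      (Polynomial.X ^ m - Polynomial.C c : Polynomial ℂ) := by
    apply Finset.prod_dvd_of_coprime
    · intro i _ j _ hij
      exact Polynomial.pairwise_coprime_X_sub_C hβ hij
    · intro i _
      rw [Polynomial.dvd_iff_isRoot]
      simp [Polynomial.IsRoot, hc]
  obtain ⟨q, hq⟩ := h2
  have h3 : Polynomial.aeval B (Polynomial.X ^ m - Polynomial.C c : Polynomial ℂ) = 0 := by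
    rw [hq, map_mul, ← h1, Matrix.aeval_self_charpoly, zero_mul]
  rw [map_sub, map_pow, Polynomial.aeval_X, Polynomial.aeval_C, sub_eq_zero,
    Algebra.algebraMap_eq_smul_one] at h3
  exact h3

theorem pr_Br : StBr := by
  intro hee hLi u v m c hL hc
  apply Br_gen _ (fun j => ee (v j)) _ (fun z => hLi u v z hL) m c hc
  obtain ⟨a1, a2, a3, a4, a5, a6, a7⟩ := hL
  have key : ∀ x y : ℝ, x < y → y < x + 1 → ee x ≠ ee y := by
    intro x y h1 h2 h3
    obtain ⟨k, hk⟩ := (hee.2.2.1 _ _).mp h3
    have h4 : (k : ℝ) < 0 := by linarith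
    have h5 : (-1 : ℝ) < k := by linarith
    have h6 : k < 0 := by exact_mod_cast h4
    have h7 : -1 < k := by exact_mod_cast h5
    omega
  have e01 := key (v 0) (v 1) (by linarith) (by linarith)
  have e02 := key (v 0) (v 2) (by linarith) (by linarith)
  have e12 := key (v 1) (v 2) (by linarith) (by linarith)
  intro i j hij
  fin_cases i <;> fin_cases j
  · rfl
  · exact absurd hij e01
  · exact absurd hij e02
  · exact absurd hij.symm e01
  · rfl
  · exact absurd hij e12
  · exact absurd hij.symm e02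
  · exact absurd hij.symm e12
  · rfl

end Pool.Agent.CM
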