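import Pool.Agent.Work.MP_8590b5_gt.CM.Stmts3

/-! Block CM, item Cb (helper12): the number of lattice points of the product of two triangles. -/

namespace Pool.Agent.CM

open Finset

/-- one residue class -/
private def Cb_T (k : ℕ) (ρ : Fin 3 → ℤ) : Set ((Fin 3 → ℤ) × (Fin 3 → ℤ)) :=
  {z | z.1 0 + z.1 1 + z.1 2 = 2 * (k : ℤ) + 1 ∧
    z.2 0 + z.2 1 + z.2 2 = 3 * (2 * (k : ℤ) + 1) ∧ (∀ i, 0 ≤ z.2 i) ∧ (∀ i, z.2 i ≤ 6 * z.1 i) ∧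
    ∀ i, (6 : ℤ) ∣ z.2 i - ρ i}

private def Cb_r1 : Fin 3 → ℤ := ![0, 2, 1]
private def Cb_r2 : Fin 3 → ℤ := ![0, 5, 4]
private def Cb_r3 : Fin 3 → ℤ := ![3, 5, 1]
private def Cb_r4 : Fin 3 → ℤ := ![3, 2, 4]

private theorem Cb_dvd (ρ : Fin 3 → ℤ) (E : Fin 3 → ℤ) : (∀ i, (6 : ℤ) ∣ E i - ρ i) ↔
    (6 : ℤ) ∣ E 0 - ρ 0 ∧ (6 : ℤ) ∣ E 1 - ρ 1 ∧ (6 : ℤ) ∣ E 2 - ρ 2 := by
  constructor
  · intro h; exact ⟨h 0, h 1, h 2⟩
  · rintro ⟨h0, h1, h2⟩ i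
    fin_cases i
    · exact h0
    · exact h1
    · exact h2

private theorem Cb_cls (E0 E1 E2 K : ℤ) (e0 : (3 : ℤ) ∣ E0) (e1 : (3 : ℤ) ∣ E1 - 2)
    (e2 : (3 : ℤ) ∣ E2 - 1) (hs : E0 + E1 + E2 = 3 * (2 * K + 1)) :
    ((6 : ℤ) ∣ E0 - 0 ∧ (6 : ℤ) ∣ E1 - 2 ∧ (6 : ℤ) ∣ E2 - 1) ∨
    ((6 : ℤ) ∣ E0 - 0 ∧ (6 : ℤ) ∣ E1 - 5 ∧ (6 : ℤ) ∣ E2 - 4) ∨
    ((6 : ℤ) ∣ E0 - 3 ∧ (6 : ℤ) ∣ E1 - 5 ∧ (6 : ℤ) ∣ E2 - 1) ∨
    ((6 : ℤ) ∣ E0 - 3 ∧ (6 : ℤ) ∣ E1 - 2 ∧ (6 : ℤ) ∣ E2 - 4) := by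
  have h0 : E0 % 6 = 0 ∨ E0 % 6 = 3 := by omega
  have h1 : E1 % 6 = 2 ∨ E1 % 6 = 5 := by omega
  have h2 : E2 % 6 = 1 ∨ E2 % 6 = 4 := by omega
  rcases h0 with h0 | h0 <;> rcases h1 with h1 | h1 <;> rcases h2 with h2 | h2
  · left; omega
  · omega
  · omega
  · right; left; omega
  · omega
  · right; right; right; omega
  · right; right; left; omega
  · omega

private theorem Cb_union (k : ℕ) : {z : (Fin 3 → ℤ) × (Fin 3 → ℤ) | IsB k z.1 z.2} =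
    Cb_T k Cb_r1 ∪ (Cb_T k Cb_r2 ∪ (Cb_T k Cb_r3 ∪ Cb_T k Cb_r4)) := by
  ext ⟨g, E⟩
  simp only [Set.mem_ofPred_eq, Set.mem_union, Cb_T, Cb_dvd]
  constructor
  · rintro ⟨h1, h2, e0, e1, e2, ha, hb⟩
    rcases Cb_cls _ _ _ _ e0 e1 e2 h2 with h | h | h | h
    · exact Or.inl ⟨h1, h2, ha, hb, h⟩
    · exact Or.inr (Or.inl ⟨h1, h2, ha, hb, h⟩)
    · exact Or.inr (Or.inr (Or.inl ⟨h1, h2, ha, hb, h⟩))
    · exact Or.inr (Or.inr (Or.inr ⟨h1, h2, ha, hb, h⟩))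
  · rintro (⟨h1, h2, ha, hb, h⟩ | ⟨h1, h2, ha, hb, h⟩ | ⟨h1, h2, ha, hb, h⟩ | ⟨h1, h2, ha, hb, h⟩)
    all_goals
      obtain ⟨q0, q1, q2⟩ := h
      simp only [Cb_r1, Cb_r2, Cb_r3, Cb_r4, Matrix.cons_val_zero, Matrix.cons_val_one,
        Matrix.cons_val_two, Matrix.head_cons, Matrix.tail_cons] at q0 q1 q2
      exact ⟨h1, h2, by omega, by omega, by omega, ha, hb⟩

private theorem Cb_dis (k : ℕ) (ρ σ : Fin 3 → ℤ) (i : Fin 3) (h : ¬ (6 : ℤ) ∣ ρ i - σ i) :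
    Disjoint (Cb_T k ρ) (Cb_T k σ) := by
  rw [Set.disjoint_left]
  rintro z ⟨_, _, _, _, h1⟩ ⟨_, _, _, _, h2⟩
  apply h
  have h3 := dvd_sub (h2 i) (h1 i)
  have e : z.2 i - σ i - (z.2 i - ρ i) = ρ i - σ i := by ring
  rwa [e] at h3

private theorem Cb_card (hSx : StSx) (hCc : StCc) (k A B : ℕ) (ρ δ : Fin 3 → ℤ)
    (h1 : ∀ i, 0 ≤ ρ i ∧ ρ i < 6) (h2 : ∀ i, δ i = if ρ i = 0 then 0 else 1)
    (h3 : 6 * (A : ℤ) + (ρ 0 + ρ 1 + ρ 2) = 3 * (2 * (k : ℤ) + 1))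
    (h4 : (A : ℤ) + B + (δ 0 + δ 1 + δ 2) = 2 * (k : ℤ) + 1) :
    (Cb_T k ρ).ncard = ((A + 1) * (A + 2) / 2) * ((B + 1) * (B + 2) / 2) := by
  rw [← hCc hSx k A B ρ δ h1 h2 h3 h4]
  rfl

private theorem Cb_arith (m : ℕ) :
    ((m + 1 + 1) * (m + 1 + 2) / 2) * ((m + 1) * (m + 2) / 2) +
    (((m + 1) * (m + 2) / 2) * ((m + 1 + 1) * (m + 1 + 2) / 2) +
    (((m + 1) * (m + 2) / 2) * ((m + 1) * (m + 2) / 2) +
      ((m + 1) * (m + 2) / 2) * ((m + 1) * (m + 2) / 2))) = (m + 1) * (m + 1 + 1) ^ 3 := by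
  have hc : 2 ∣ (m + 1) * (m + 2) := (Nat.even_mul_succ_self (m + 1)).two_dvd
  have hd : 2 ∣ (m + 1 + 1) * (m + 1 + 2) := (Nat.even_mul_succ_self (m + 1 + 1)).two_dvd
  obtain ⟨c, hc⟩ := hc
  obtain ⟨d, hd⟩ := hd
  rw [hc, hd, Nat.mul_div_cancel_left c (by norm_num), Nat.mul_div_cancel_left d (by norm_num)]
  have key : 2 * (d * c + (c * d + (c * c + c * c))) = 2 * ((m + 1) * (m + 1 + 1) ^ 3) := by
    calc 2 * (d * c + (c * d + (c * c + c * c))) = (2 * c) * (2 * d + 2 * c) := by ring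
      _ = ((m + 1) * (m + 2)) * ((m + 1 + 1) * (m + 1 + 2) + (m + 1) * (m + 2)) := by
          rw [← hc, ← hd]
      _ = 2 * ((m + 1) * (m + 1 + 1) ^ 3) := by ring
  exact Nat.eq_of_mul_eq_mul_left (by norm_num) key

theorem pr_Cb : StCb := by
  intro hSx hCc hFi k
  rcases k with _ | m
  · have : IsEmpty {z : (Fin 3 → ℤ) × (Fin 3 → ℤ) // IsB 0 z.1 z.2} := by
      refine ⟨?_⟩
      rintro ⟨⟨g, E⟩, h1, h2, e0, e1, e2, ha, hb⟩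
      simp only [Nat.cast_zero] at h1 h2
      have a0 := ha 0
      have a1 := ha 1
      have a2 := ha 2
      have b0 := hb 0
      have b1 := hb 1
      have b2 := hb 2
      simp only at e0 e1 e2 a0 a1 a2 b0 b1 b2
      omega
    rw [Nat.card_of_isEmpty]
    simp
  · have hfin : {z : (Fin 3 → ℤ) × (Fin 3 → ℤ) | IsB (m + 1) z.1 z.2}.Finite :=
      Set.finite_coe_iff.1 (hFi (m + 1))
    have hu := Cb_union (m + 1)
    have hfin' := hfin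
    rw [hu] at hfin'
    have f1 := hfin'.subset Set.subset_union_left
    have f234 := hfin'.subset Set.subset_union_right
    have f2 := f234.subset Set.subset_union_left
    have f34 := f234.subset Set.subset_union_right
    have f3 := f34.subset Set.subset_union_left
    have f4 := f34.subset Set.subset_union_right
    have hcard : Nat.card {z : (Fin 3 → ℤ) × (Fin 3 → ℤ) // IsB (m + 1) z.1 z.2} =
      {z : (Fin 3 → ℤ) × (Fin 3 → ℤ) | IsB (m + 1) z.1 z.2}.ncard := rfl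
    have d12 : Disjoint (Cb_T (m + 1) Cb_r1) (Cb_T (m + 1) Cb_r2) :=
      Cb_dis _ _ _ 1 (by simp [Cb_r1, Cb_r2]; try decide)
    have d13 : Disjoint (Cb_T (m + 1) Cb_r1) (Cb_T (m + 1) Cb_r3) :=
      Cb_dis _ _ _ 0 (by simp [Cb_r1, Cb_r3]; try decide)
    have d14 : Disjoint (Cb_T (m + 1) Cb_r1) (Cb_T (m + 1) Cb_r4) :=
      Cb_dis _ _ _ 0 (by simp [Cb_r1, Cb_r4]; try decide)
    have d23 : Disjoint (Cb_T (m + 1) Cb_r2) (Cb_T (m + 1) Cb_r3) :=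
      Cb_dis _ _ _ 0 (by simp [Cb_r2, Cb_r3]; try decide)
    have d24 : Disjoint (Cb_T (m + 1) Cb_r2) (Cb_T (m + 1) Cb_r4) :=
      Cb_dis _ _ _ 0 (by simp [Cb_r2, Cb_r4]; try decide)
    have d34 : Disjoint (Cb_T (m + 1) Cb_r3) (Cb_T (m + 1) Cb_r4) :=
      Cb_dis _ _ _ 1 (by simp [Cb_r3, Cb_r4]; try decide)
    rw [hcard, hu, Set.ncard_union_eq (by
        rw [Set.disjoint_union_right, Set.disjoint_union_right]; exact ⟨d12, d13, d14⟩) f1 f234,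
      Set.ncard_union_eq (by rw [Set.disjoint_union_right]; exact ⟨d23, d24⟩) f2 f34,
      Set.ncard_union_eq d34 f3 f4]
    have hk : ((m + 1 : ℕ) : ℤ) = (m : ℤ) + 1 := by push_cast; ring
    rw [Cb_card hSx hCc (m + 1) (m + 1) m Cb_r1 ![0, 1, 1] (by
        intro i; fin_cases i <;> simp [Cb_r1]) (by intro i; fin_cases i <;> simp [Cb_r1])
        (by simp [Cb_r1]; ring) (by simp; ring),
      Cb_card hSx hCc (m + 1) m (m + 1) Cb_r2 ![0, 1, 1] (by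
        intro i; fin_cases i <;> simp [Cb_r2]) (by intro i; fin_cases i <;> simp [Cb_r2])
        (by simp [Cb_r2]; ring) (by simp; ring),
      Cb_card hSx hCc (m + 1) m m Cb_r3 ![1, 1, 1] (by
        intro i; fin_cases i <;> simp [Cb_r3]) (by intro i; fin_cases i <;> simp [Cb_r3])
        (by simp [Cb_r3]; ring) (by simp; ring),
      Cb_card hSx hCc (m + 1) m m Cb_r4 ![1, 1, 1] (by
        intro i; fin_cases i <;> simp [Cb_r4]) (by intro i; fin_cases i <;> simp [Cb_r4])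
        (by simp [Cb_r4]; ring) (by simp; ring)]
    exact Cb_arith m

end Pool.Agent.CM
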