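import Pool.Agent.Work.MP_8590b5_gt.CM.Stmts3

/-!
Item Cc of block CM: the number of points in one residue class.
-/

namespace Pool.Agent.CM

open Finset

/-- The forward map. -/
private def Cc_a (ρ E : Fin 3 → ℤ) : Fin 3 → ℤ := fun i => (E i - ρ i) / 6

private theorem Cc_aE (ρ E : Fin 3 → ℤ) (h : ∀ i, (6 : ℤ) ∣ E i - ρ i) (i : Fin 3) :
    E i = 6 * Cc_a ρ E i + ρ i := by
  have h1 := h i
  unfold Cc_a
  omega

private theorem Cc_dl (ρ δ : Fin 3 → ℤ) (hd : ∀ i, δ i = if ρ i = 0 then 0 else 1) (i : Fin 3) :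
    (ρ i = 0 ∧ δ i = 0) ∨ (ρ i ≠ 0 ∧ δ i = 1) := by
  by_cases h : ρ i = 0
  · exact Or.inl ⟨h, by rw [hd i, if_pos h]⟩
  · exact Or.inr ⟨h, by rw [hd i, if_neg h]⟩

theorem pr_Cc : StCc := by
  intro hSx k A B ρ δ hρ hd hA hB
  rw [← hSx A, ← hSx B, ← Nat.card_prod]
  refine Nat.card_congr ?_
  refine ⟨fun z => (⟨Cc_a ρ z.1.2, ?_, ?_⟩, ⟨fun i => z.1.1 i - Cc_a ρ z.1.2 i - δ i, ?_, ?_⟩),
    fun x => ⟨(fun i => x.1.1 i + δ i + x.2.1 i, fun i => 6 * x.1.1 i + ρ i), ?_, ?_, ?_, ?_, ?_⟩,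
    ?_, ?_⟩
  · intro i
    have h1 := Cc_aE ρ z.1.2 z.2.2.2.2.2 i
    have h2 := z.2.2.2.1 i
    have h3 := hρ i
    omega
  · have h0 := Cc_aE ρ z.1.2 z.2.2.2.2.2 0
    have h1 := Cc_aE ρ z.1.2 z.2.2.2.2.2 1
    have h2 := Cc_aE ρ z.1.2 z.2.2.2.2.2 2
    have h3 := z.2.2.1
    omega
  · intro i
    have h1 := Cc_aE ρ z.1.2 z.2.2.2.2.2 i
    have h2 := z.2.2.2.2.1 i
    have h3 := hρ i
    have h4 := Cc_dl ρ δ hd i
    show 0 ≤ z.1.1 i - Cc_a ρ z.1.2 i - δ i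
    omega
  · have h0 := Cc_aE ρ z.1.2 z.2.2.2.2.2 0
    have h1 := Cc_aE ρ z.1.2 z.2.2.2.2.2 1
    have h2 := Cc_aE ρ z.1.2 z.2.2.2.2.2 2
    have h3 := z.2.2.1
    have h4 := z.2.1
    show (z.1.1 0 - Cc_a ρ z.1.2 0 - δ 0) + (z.1.1 1 - Cc_a ρ z.1.2 1 - δ 1) +
      (z.1.1 2 - Cc_a ρ z.1.2 2 - δ 2) = (B : ℤ)
    omega
  · have h1 := x.1.2.2
    have h2 := x.2.2.2
    show (x.1.1 0 + δ 0 + x.2.1 0) + (x.1.1 1 + δ 1 + x.2.1 1) + (x.1.1 2 + δ 2 + x.2.1 2) =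
      2 * (k : ℤ) + 1
    omega
  · have h1 := x.1.2.2
    show (6 * x.1.1 0 + ρ 0) + (6 * x.1.1 1 + ρ 1) + (6 * x.1.1 2 + ρ 2) = 3 * (2 * (k : ℤ) + 1)
    omega
  · intro i
    have h1 := x.1.2.1 i
    have h2 := hρ i
    show 0 ≤ 6 * x.1.1 i + ρ i
    omega
  · intro i
    have h1 := x.2.2.1 i
    have h2 := hρ i
    have h4 := Cc_dl ρ δ hd i
    show 6 * x.1.1 i + ρ i ≤ 6 * (x.1.1 i + δ i + x.2.1 i)
    omega
  · intro i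
    show (6 : ℤ) ∣ 6 * x.1.1 i + ρ i - ρ i
    omega
  · intro z
    apply Subtype.ext
    apply Prod.ext
    · funext i
      show Cc_a ρ z.1.2 i + δ i + (z.1.1 i - Cc_a ρ z.1.2 i - δ i) = z.1.1 i
      ring
    · funext i
      show 6 * Cc_a ρ z.1.2 i + ρ i = z.1.2 i
      exact (Cc_aE ρ z.1.2 z.2.2.2.2.2 i).symm
  · intro x
    have ha : ∀ i, Cc_a ρ (fun i => 6 * x.1.1 i + ρ i) i = x.1.1 i := by
      intro i
      show (6 * x.1.1 i + ρ i - ρ i) / 6 = x.1.1 i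
      omega
    apply Prod.ext
    · apply Subtype.ext
      funext i
      exact ha i
    · apply Subtype.ext
      funext i
      show x.1.1 i + δ i + x.2.1 i - Cc_a ρ (fun i => 6 * x.1.1 i + ρ i) i - δ i = x.2.1 i
      rw [ha i]
      ring

end Pool.Agent.CM
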