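import Pool.Agent.Work.MP_8590b5_gt.CM.Stmts1

/-!
# Block CM, item Ch (helper43): homomorphisms of the surgery group are colourings
-/

set_option autoImplicit false

namespace Pool.Agent.CM

open Finset

private theorem Ch_run (hRn : StRn) (L : FLink) {Γ : Type} [Group Γ] (g : ℕ → Γ)
    (ψ : FreeGroup ℕ →* Γ) (hψ : ∀ p, ψ (FreeGroup.of p) = g p) :
    run L.word (start g) = mapS ψ L.st := by
  have h1 : start g = mapS ψ (start FreeGroup.of) := by
    funext p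
    show (⟨p, g p, 1⟩ : Str Γ) = ⟨p, ψ (FreeGroup.of p), ψ 1⟩
    rw [hψ, map_one]
  rw [h1, hRn]
  rfl

private theorem Ch_iff (hRn : StRn) (hRl : StRl) (L : FLink) (S : Finset ℕ) {Γ : Type} [Group Γ]
    (g : ℕ → Γ) (ψ : FreeGroup ℕ →* Γ) (hψ : ∀ p, ψ (FreeGroup.of p) = g p) :
    Col L S g ↔ ∀ r ∈ L.rels S, ψ r = 1 := by
  have h1 := Ch_run hRn L g ψ hψ
  have e1 : ∀ p, ψ ((FreeGroup.of p)⁻¹ * (L.st p).lab) = 1 ↔
      (run L.word (start g) p).lab = g p := by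
    intro p
    rw [map_mul, map_inv, hψ, h1, inv_mul_eq_one]
    exact eq_comm
  have e2 : ∀ p, ∀ k : ℤ, ψ (FreeGroup.of p ^ k * longi L.st p) =
      g p ^ k * longi (run L.word (start g)) p := by
    intro p k
    rw [map_mul, map_zpow, hψ, h1, hRl]
  constructor
  · rintro ⟨c1, c2, c3, c4⟩ r hr
    rcases hr with ((⟨p, hp, rfl⟩ | ⟨p, hp, hS, rfl⟩) | ⟨p, hp, hS, rfl⟩) | ⟨p, hp, rfl⟩
    · exact (e1 p).mpr (c1 p hp)
    · rw [e2]
      exact c2 p hp hS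
    · rw [hψ]
      exact c3 p hp hS
    · rw [hψ]
      exact c4 p hp
  · intro h
    refine ⟨fun p hp => (e1 p).mp (h _ (Or.inl (Or.inl (Or.inl ⟨p, hp, rfl⟩)))),
      fun p hp hS => ?_, fun p hp hS => ?_, fun p hp => ?_⟩
    · rw [← e2]
      exact h _ (Or.inl (Or.inl (Or.inr ⟨p, hp, hS, rfl⟩)))
    · rw [← hψ]
      exact h _ (Or.inl (Or.inr ⟨p, hp, hS, rfl⟩))
    · rw [← hψ]
      exact h _ (Or.inr ⟨p, hp, rfl⟩)

/-- Item Ch. -/
theorem pr_Ch : StCh := by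
  intro hRn hRl L S Γ _ g
  constructor
  · intro h
    have h1 : ∀ r ∈ L.rels S, FreeGroup.lift g r = 1 :=
      (Ch_iff hRn hRl L S g (FreeGroup.lift g) (fun p => FreeGroup.lift_apply_of)).mp h
    exact ⟨PresentedGroup.toGroup h1, fun p => PresentedGroup.toGroup.of h1⟩
  · rintro ⟨φ, hφ⟩
    refine (Ch_iff hRn hRl L S g (φ.comp (PresentedGroup.mk (L.rels S))) hφ).mpr ?_
    intro r hr
    show φ (PresentedGroup.mk (L.rels S) r) = 1
    rw [PresentedGroup.one_of_mem hr, map_one]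

end Pool.Agent.CM
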