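import Pool.Agent.Work.MP_8590b5_gt.CM.Stmts1

/-!
# Block CM, item Ck: the colourings of the sublinks which contain the knot
-/

set_option autoImplicit false

namespace Pool.Agent.CM

open Finset

private theorem Ck_sub (J : Finset ℕ) (i : ℕ) : (i + 2) - 1 ∈ sub J ↔ i ∈ J := by
  unfold sub
  rw [Finset.mem_insert, Finset.mem_image]
  constructor
  · rintro (h | ⟨j, hj, h⟩)
    · omega
    · have : j = i := by omega
      rw [← this]; exact hj
  · intro h
    right
    exact ⟨i, h, by omega⟩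

private theorem Ck_zero (J : Finset ℕ) : 0 ∈ sub J := Finset.mem_insert_self _ _

private theorem Ck_run {Γ : Type} [Group Γ] (N : ℕ) (s : ℕ → Str Γ) :
    run (lnk N).word s = run (List.replicate (N + 1) (0, true)) (run (pieces N) s) := by
  show List.foldl cross s (pieces N ++ List.replicate (N + 1) (0, true)) = _
  rw [List.foldl_append]
  rfl

theorem pr_Ck : StCk := by
  intro hPc hUn hDn hAf hBk hFw hTw hTn hTl hKa hKi hRp hRq hSc hLg hLk hEx hTa Γ _ N J g hJ
  obtain ⟨hL0, hL1, hL2⟩ := hLg hPc hSc Γ N g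
  have hlk := hLk hPc hSc hLg hRq hUn N
  obtain ⟨hex, htc⟩ := hEx N J hJ
  have hcard : J.card ≤ N := by
    have := Finset.card_le_card hJ
    rwa [Finset.card_range] at this
  -- positions `p ≥ 2`
  have hge : ∀ i, run (lnk N).word (start g) (i + 2) = run (pieces N) (start g) (i + 2) := by
    intro i
    rw [Ck_run]
    exact hRq Γ (N + 1) _ (i + 2) (by omega)
  -- positions 0, 1
  have hst : (∀ i < N, g (i + 2) = cval J (g 0) (g 1) i) →
      run (lnk N).word (start g) 0 = bump (g 0) (g 1) J.card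
        (tw (g 0) (g 1) (2 * ((N : ℤ) - J.card) + 1)).1 ∧
      run (lnk N).word (start g) 1 = bump (g 0) (g 1) J.card
        (tw (g 0) (g 1) (2 * ((N : ℤ) - J.card) + 1)).2 := by
    intro hcv
    obtain ⟨a1, a2⟩ := hAf hPc hUn hTw hTn hTl hKa hKi Γ N J g hcv N le_rfl
    have h := hRp hTw Γ (g 0) (g 1) (tc J N) (ex J N) (N + 1) (run (pieces N) (start g)) a1 a2
    have he : ex J N + ((N + 1 : ℕ) : ℤ) = 2 * ((N : ℤ) - J.card) + 1 := by
      rw [hex]; push_cast; ring
    rw [he, htc] at h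
    refine ⟨?_, ?_⟩
    · rw [Ck_run, h 0, if_pos rfl]
    · rw [Ck_run, h 1, if_neg (by omega), if_pos rfl]
  have hTa' := hTa Γ (g 0) (g 1) N J.card hcard
  have hlk0 : (lnk N).lk ((lnk N).comp 0) 0 = 2 * (N : ℤ) + 1 := by
    rw [hlk 0 _ (by omega)]
    exact if_pos ⟨rfl, by omega⟩
  have hlk1 : (lnk N).lk ((lnk N).comp 1) 1 = 2 * (N : ℤ) + 1 := by
    rw [hlk 1 _ (by omega)]
    exact if_pos ⟨rfl, by omega⟩
  have hlk2 : ∀ i, i < N → (lnk N).lk ((lnk N).comp (i + 2)) (i + 2) = 0 := by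
    intro i hi
    rw [hlk (i + 2) _ (by omega)]
    exact if_neg (fun h => by omega)
  have hfr : ∀ c, (lnk N).fr c = -1 := fun _ => rfl
  have hn : (lnk N).n = N + 2 := rfl
  have hcomp : ∀ p, (lnk N).comp p = p - 1 := fun _ => rfl
  constructor
  · rintro ⟨hA, hB, hC, hD⟩
    have hcv : ∀ i < N, g (i + 2) = cval J (g 0) (g 1) i := by
      apply hBk hPc hUn hDn hAf hTw hTn hTl hKa hKi Γ N J g
      · intro i hi
        rw [← hge i]
        exact hA (i + 2) (by rw [hn]; omega)
      · intro i hi hiJ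
        have h := hB (i + 2) (by rw [hn]; omega) ((Ck_sub J i).2 hiJ)
        rw [hfr, hlk2 i hi, hL2 (i + 2) (by omega), sub_zero, zpow_neg_one, hge i] at h
        exact (inv_mul_eq_one.1 h).symm
      · intro i hi hiJ
        exact hC (i + 2) (by rw [hn]; omega) (fun h => hiJ ((Ck_sub J i).1 h))
    obtain ⟨h0, h1⟩ := hst hcv
    refine ⟨hTa'.1 ⟨?_, ?_, ?_, ?_⟩, hcv, fun p hp => hD p hp⟩
    · rw [← h0]; exact hA 0 (by rw [hn]; omega)
    · rw [← h1]; exact hA 1 (by rw [hn]; omega)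
    · have h := hB 0 (by rw [hn]; omega) (Ck_zero J)
      rw [hfr, hlk0, hL0, h0, h1] at h
      exact h
    · have h := hB 1 (by rw [hn]; omega) (Ck_zero J)
      rw [hfr, hlk1, hL1, h0, h1] at h
      exact h
  · rintro ⟨hT, hcv, hD⟩
    obtain ⟨h0, h1⟩ := hst hcv
    obtain ⟨t1, t2, t3, t4⟩ := hTa'.2 hT
    have hfw := hFw hPc hUn hAf hTw hTn hTl hKa hKi Γ N J g hcv
    refine ⟨?_, ?_, ?_, fun p hp => hD p hp⟩
    · intro p hp
      rw [hn] at hp
      match p, hp with
      | 0, _ => rw [h0]; exact t1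
      | 1, _ => rw [h1]; exact t2
      | i + 2, hp =>
        rw [hge i]
        exact (hfw i (by omega)).1
    · intro p hp hpJ
      rw [hn] at hp
      match p, hp, hpJ with
      | 0, _, _ => rw [hfr, hlk0, hL0, h0, h1]; exact t3
      | 1, _, _ => rw [hfr, hlk1, hL1, h0, h1]; exact t4
      | i + 2, hp, hpJ =>
        rw [hfr, hlk2 i (by omega), hL2 (i + 2) (by omega), sub_zero, zpow_neg_one, hge i,
          (hfw i (by omega)).2 ((Ck_sub J i).1 hpJ)]
        exact inv_mul_cancel _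
    · intro p hp hpJ
      rw [hn] at hp
      match p, hp, hpJ with
      | 0, _, hpJ => exact absurd (Ck_zero J) hpJ
      | 1, _, hpJ => exact absurd (Ck_zero J) hpJ
      | i + 2, hp, hpJ =>
        rw [hcv i (by omega)]
        unfold cval
        exact if_neg (fun h => hpJ ((Ck_sub J i).2 h))

end Pool.Agent.CM
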