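import Pool.Agent.Work.MP_8590b5_gt.CM.Stmts1

/-!
# Block CM, item Co: the core
-/

set_option autoImplicit false

namespace Pool.Agent.CM

open Finset

theorem pr_Co : StCo := by
  intro Γ _ s p
  rcases p with _ | _ | _ | p
  · rfl
  · simp [run, core, cross, cA, cC, cD, cB, und, mul_assoc]
  · simp [run, core, cross, cC, cD, cB, und, mul_assoc]
  · simp [run, core, cross]

end Pool.Agent.CM
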