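import Pool.Agent.Work.MP_8590b5_gt.CM.Stmts1

/-!
# Block CM, item Cz: sublinks without the knot give the trivial group
-/

set_option autoImplicit false

namespace Pool.Agent.CM

open Finset

private theorem Cz_cval {Γ : Type} [Group Γ] (J : Finset ℕ) (i : ℕ) :
    cval J (1 : Γ) 1 i = 1 := by
  unfold cval
  split_ifs with h
  · unfold tw
    split_ifs with h2 <;> simp
  · rfl

private theorem Cz_run {Γ : Type} [Group Γ] (hRq : StRq) (N : ℕ) (g : ℕ → Γ) (i : ℕ) :
    run (lnk N).word (start g) (i + 2) = run (pieces N) (start g) (i + 2) := by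
  have h1 : run (lnk N).word (start g) =
      run (List.replicate (N + 1) (0, true)) (run (pieces N) (start g)) := by
    unfold run lnk
    rw [List.foldl_append]
  rw [h1]
  exact hRq Γ (N + 1) _ (i + 2) (by omega)

theorem pr_Cz : StCz := by
  intro hPc hUn hDn hAf hBk hTw hTn hTl hKa hKi hRq hSc hLg hLk Γ _ N S g h0 hcol
  obtain ⟨hlab, hlon, htriv, hout⟩ := hcol
  have hn : (lnk N).n = N + 2 := rfl
  have hcomp : ∀ p, (lnk N).comp p = p - 1 := fun p => rfl
  have hfr : ∀ c, (lnk N).fr c = -1 := fun c => rfl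
  have g0 : g 0 = 1 := htriv 0 (by rw [hn]; omega) (by rw [hcomp]; exact h0)
  have g1 : g 1 = 1 := htriv 1 (by rw [hn]; omega) (by rw [hcomp]; exact h0)
  obtain ⟨J, hJ⟩ : ∃ J : Finset ℕ, J = (range N).filter (fun i => i + 1 ∈ S) := ⟨_, rfl⟩
  have hJmem : ∀ i < N, (i ∈ J ↔ i + 1 ∈ S) := by
    intro i hi
    rw [hJ, Finset.mem_filter, Finset.mem_range]
    exact ⟨fun h => h.2, fun h => ⟨hi, h⟩⟩
  have hc : ∀ i, (lnk N).comp (i + 2) = i + 1 := fun i => rfl
  have hb := hBk hPc hUn hDn hAf hTw hTn hTl hKa hKi Γ N J g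
    (fun i hi => by
      rw [← Cz_run hRq N g i]
      exact hlab (i + 2) (by rw [hn]; omega))
    (fun i hi hiJ => by
      rw [← Cz_run hRq N g i]
      have h1 := hlon (i + 2) (by rw [hn]; omega) (by
        rw [hc]; exact (hJmem i hi).1 hiJ)
      rw [hc, hfr, hLk hPc hSc hLg hRq hUn N (i + 2) (i + 1) (by omega),
        (hLg hPc hSc Γ N g).2.2 (i + 2) (by omega), if_neg (by omega)] at h1
      have h2 : g (i + 2) ^ (-1 - 0 : ℤ) = (g (i + 2))⁻¹ := by
        rw [sub_zero, zpow_neg_one]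
      rw [h2] at h1
      exact (inv_mul_eq_one.1 h1).symm)
    (fun i hi hiJ => htriv (i + 2) (by rw [hn]; omega) (by
        rw [hc]; exact fun h => hiJ ((hJmem i hi).2 h)))
  intro p
  rcases Nat.lt_or_ge p (N + 2) with hp | hp
  · rcases Nat.lt_or_ge p 2 with hp2 | hp2
    · have hp3 : p = 0 ∨ p = 1 := by omega
      rcases hp3 with rfl | rfl
      · exact g0
      · exact g1
    · obtain ⟨i, rfl⟩ : ∃ i, p = i + 2 := ⟨p - 2, by omega⟩
      rw [hb i (by omega), g0, g1]
      exact Cz_cval J i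
  · exact hout p hp

end Pool.Agent.CM
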