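import Pool.Agent.Work.MP_8590b5_gt.CM.Stmts3

/-!
# Block CM, item Df: the finite differences of the count (helper59)
-/

namespace Pool.Agent.CM

open Finset

/-- the `N`-th difference of a power of smaller exponent -/
private theorem Df_pow (N i : ℕ) (hi : i < N) :
    ∑ j ∈ range (N + 1), (-1 : ℤ) ^ j * (N.choose j) * ((N - j : ℕ) : ℤ) ^ i = 0 := by
  have h1 := congrFun (fwdDiff_iter_pow_eq_zero_of_lt (R := ℤ) hi) 0
  rw [fwdDiff_iter_eq_sum_shift] at h1
  rw [← Finset.sum_range_reflect] at h1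
  rw [Pi.zero_apply] at h1
  rw [← h1]
  refine Finset.sum_congr rfl fun j hj => ?_
  rw [Finset.mem_range] at hj
  have e1 : N + 1 - 1 - j = N - j := by omega
  have e2 : N - (N - j) = j := by omega
  have e3 : N.choose (N - j) = N.choose j := Nat.choose_symm (by omega)
  rw [e1, e2, e3]
  simp

/-- the alternating part -/
private theorem Df_alt (N : ℕ) :
    ∑ j ∈ range (N + 1), (-1 : ℤ) ^ j * (N.choose j) * (-1) ^ (N - j) = (-1) ^ N * 2 ^ N := by
  have h : ∀ j ∈ range (N + 1), (-1 : ℤ) ^ j * (N.choose j) * (-1) ^ (N - j) =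
      (-1) ^ N * (N.choose j : ℤ) := by
    intro j hj
    rw [Finset.mem_range] at hj
    have e : (-1 : ℤ) ^ j * (-1) ^ (N - j) = (-1) ^ N := by
      rw [← pow_add]
      congr 1
      omega
    rw [← e]
    ring
  rw [Finset.sum_congr rfl h, ← Finset.mul_sum]
  have h2 : ∑ j ∈ range (N + 1), (N.choose j : ℤ) = 2 ^ N := by
    have := Nat.sum_range_choose N
    exact_mod_cast this
  rw [h2]

theorem pr_Df : StDf := by
  intro hNf N hN
  have h12 : 12 * ∑ j ∈ range (N + 1), (-1 : ℤ) ^ j * (N.choose j) * (Np (N - j) : ℤ) =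
      3 * ((-1) ^ N * 2 ^ N) := by
    rw [Finset.mul_sum]
    have h : ∀ j ∈ range (N + 1), 12 * ((-1 : ℤ) ^ j * (N.choose j) * (Np (N - j) : ℤ)) =
        12 * ((-1 : ℤ) ^ j * (N.choose j) * ((N - j : ℕ) : ℤ) ^ 4) +
        32 * ((-1 : ℤ) ^ j * (N.choose j) * ((N - j : ℕ) : ℤ) ^ 3) +
        18 * ((-1 : ℤ) ^ j * (N.choose j) * ((N - j : ℕ) : ℤ) ^ 2) +
        (-8) * ((-1 : ℤ) ^ j * (N.choose j) * ((N - j : ℕ) : ℤ) ^ 1) +
        (-3) * ((-1 : ℤ) ^ j * (N.choose j) * ((N - j : ℕ) : ℤ) ^ 0) +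
        3 * ((-1 : ℤ) ^ j * (N.choose j) * (-1) ^ (N - j)) := by
      intro j _
      have := hNf (N - j)
      calc 12 * ((-1 : ℤ) ^ j * (N.choose j) * (Np (N - j) : ℤ))
          = (-1 : ℤ) ^ j * (N.choose j) * (12 * (Np (N - j) : ℤ)) := by ring
        _ = _ := by
          rw [this]
          ring
    rw [Finset.sum_congr rfl h]
    simp only [Finset.sum_add_distrib, ← Finset.mul_sum]
    rw [Df_pow N 4 (by omega), Df_pow N 3 (by omega), Df_pow N 2 (by omega), Df_pow N 1 (by omega),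
      Df_pow N 0 (by omega), Df_alt N]
    ring
  linarith

end Pool.Agent.CM
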