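import Pool.Agent.Work.MP_8590b5_gt.CM.Stmts3

/-!
# Block CM, item Dg: the finite differences of the square of the count
-/

namespace Pool.Agent.CM

open Finset

/-- the `N`-th difference of a power of smaller exponent -/
private theorem Dg_pow (N i : ℕ) (hi : i < N) :
    ∑ j ∈ range (N + 1), (-1 : ℤ) ^ j * (N.choose j) * ((N - j : ℕ) : ℤ) ^ i = 0 := by
  have h1 := congrFun (fwdDiff_iter_pow_eq_zero_of_lt (R := ℤ) hi) 0
  rw [fwdDiff_iter_eq_sum_shift] at h1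
  rw [← Finset.sum_range_reflect] at h1
  rw [Pi.zero_apply] at h1
  rw [← h1]
  refine Finset.sum_congr rfl fun j hj => ?_
  rw [Finset.mem_range] at hj
  have e1 : N + 1 - 1 - j = N - j := by omega
  have e2 : N - (N - j) = j := by omega
  have e3 : N.choose (N - j) = N.choose j := Nat.choose_symm (by omega)
  rw [e1, e2, e3]
  simp

/-- the polynomial of degree four -/
private def DgP (m : ℤ) : ℤ := 12 * m ^ 4 + 32 * m ^ 3 + 18 * m ^ 2 - 8 * m - 3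

/-- the alternating part -/
private theorem Dg_alt (N : ℕ) :
    ∑ j ∈ range (N + 1), (-1 : ℤ) ^ j * (N.choose j) * ((-1) ^ (N - j) * DgP ((N - j : ℕ) : ℤ)) =
      (-1) ^ N * ∑ j ∈ range (N + 1), (N.choose j : ℤ) * DgP ((N - j : ℕ) : ℤ) := by
  rw [Finset.mul_sum]
  refine Finset.sum_congr rfl fun j hj => ?_
  rw [Finset.mem_range] at hj
  have e : (-1 : ℤ) ^ j * (-1) ^ (N - j) = (-1) ^ N := by
    rw [← pow_add]
    congr 1
    omega
  rw [← e]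
  ring

private theorem Dg_pos (m : ℕ) (hm : 1 ≤ m) : 12 * (m : ℤ) ≤ DgP m := by
  have h : (1 : ℤ) ≤ m := by exact_mod_cast hm
  obtain ⟨t, ht⟩ : ∃ t : ℕ, (m : ℤ) = t + 1 := ⟨m - 1, by omega⟩
  unfold DgP
  rw [ht]
  have h0 : (0 : ℤ) ≤ t := by positivity
  have : 12 * ((t : ℤ) + 1) ^ 4 + 32 * ((t : ℤ) + 1) ^ 3 + 18 * ((t : ℤ) + 1) ^ 2 -
      8 * ((t : ℤ) + 1) - 3 - 12 * ((t : ℤ) + 1) =
      12 * (t : ℤ) ^ 4 + 80 * (t : ℤ) ^ 3 + 186 * (t : ℤ) ^ 2 + 160 * t + 39 := by ring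
  have h1 : (0 : ℤ) ≤ 12 * (t : ℤ) ^ 4 + 80 * (t : ℤ) ^ 3 + 186 * (t : ℤ) ^ 2 + 160 * t + 39 := by
    positivity
  linarith

private theorem Dg_sum_pos (N : ℕ) (hN : 1 ≤ N) :
    0 < ∑ j ∈ range (N + 1), (N.choose j : ℤ) * DgP ((N - j : ℕ) : ℤ) := by
  rw [Finset.sum_range_succ]
  have h0 : (N.choose N : ℤ) * DgP ((N - N : ℕ) : ℤ) = -3 := by
    rw [Nat.choose_self, Nat.sub_self]
    unfold DgP
    norm_num
  rw [h0]
  have h1 : (N.choose 0 : ℤ) * DgP ((N - 0 : ℕ) : ℤ) ≤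
      ∑ j ∈ range N, (N.choose j : ℤ) * DgP ((N - j : ℕ) : ℤ) := by
    apply Finset.single_le_sum (f := fun j => (N.choose j : ℤ) * DgP ((N - j : ℕ) : ℤ))
    · intro j hj
      rw [Finset.mem_range] at hj
      have h2 := Dg_pos (N - j) (by omega)
      have h3 : (0 : ℤ) ≤ ((N - j : ℕ) : ℤ) := by positivity
      exact mul_nonneg (by positivity) (by linarith)
    · rw [Finset.mem_range]
      omega
  have h2 := Dg_pos N hN
  rw [Nat.choose_zero_right, Nat.sub_zero, Nat.cast_one, one_mul] at h1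
  have h3 : (1 : ℤ) ≤ (N : ℤ) := by exact_mod_cast hN
  linarith

theorem pr_Dg : StDg := by
  intro hNf N hN
  have h144 : 144 * ∑ j ∈ range (N + 1), (-1 : ℤ) ^ j * (N.choose j) * (Np (N - j) : ℤ) ^ 2 =
      6 * ((-1) ^ N * ∑ j ∈ range (N + 1), (N.choose j : ℤ) * DgP ((N - j : ℕ) : ℤ)) := by
    rw [Finset.mul_sum]
    have h : ∀ j ∈ range (N + 1), 144 * ((-1 : ℤ) ^ j * (N.choose j) * (Np (N - j) : ℤ) ^ 2) =
        144 * ((-1 : ℤ) ^ j * (N.choose j) * ((N - j : ℕ) : ℤ) ^ 8) +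
        768 * ((-1 : ℤ) ^ j * (N.choose j) * ((N - j : ℕ) : ℤ) ^ 7) +
        1456 * ((-1 : ℤ) ^ j * (N.choose j) * ((N - j : ℕ) : ℤ) ^ 6) +
        960 * ((-1 : ℤ) ^ j * (N.choose j) * ((N - j : ℕ) : ℤ) ^ 5) +
        (-260) * ((-1 : ℤ) ^ j * (N.choose j) * ((N - j : ℕ) : ℤ) ^ 4) +
        (-480) * ((-1 : ℤ) ^ j * (N.choose j) * ((N - j : ℕ) : ℤ) ^ 3) +
        (-44) * ((-1 : ℤ) ^ j * (N.choose j) * ((N - j : ℕ) : ℤ) ^ 2) +
        48 * ((-1 : ℤ) ^ j * (N.choose j) * ((N - j : ℕ) : ℤ) ^ 1) +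
        18 * ((-1 : ℤ) ^ j * (N.choose j) * ((N - j : ℕ) : ℤ) ^ 0) +
        6 * ((-1 : ℤ) ^ j * (N.choose j) * ((-1) ^ (N - j) * DgP ((N - j : ℕ) : ℤ))) := by
      intro j _
      have h1 := hNf (N - j)
      have h2 : 12 * (Np (N - j) : ℤ) = DgP ((N - j : ℕ) : ℤ) + 3 * (-1) ^ (N - j) := by
        rw [h1]
        unfold DgP
        ring
      have h3 : ((-1 : ℤ) ^ (N - j)) ^ 2 = 1 := by
        rw [← pow_mul, mul_comm, pow_mul]
        norm_num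
      calc 144 * ((-1 : ℤ) ^ j * (N.choose j) * (Np (N - j) : ℤ) ^ 2)
          = (-1 : ℤ) ^ j * (N.choose j) * (12 * (Np (N - j) : ℤ)) ^ 2 := by ring
        _ = (-1 : ℤ) ^ j * (N.choose j) * (DgP ((N - j : ℕ) : ℤ) ^ 2 +
              6 * ((-1) ^ (N - j) * DgP ((N - j : ℕ) : ℤ)) + 9 * ((-1 : ℤ) ^ (N - j)) ^ 2) := by
          rw [h2]
          ring
        _ = (-1 : ℤ) ^ j * (N.choose j) * (DgP ((N - j : ℕ) : ℤ) ^ 2 +
              6 * ((-1) ^ (N - j) * DgP ((N - j : ℕ) : ℤ)) + 9) := by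
          rw [h3]
          ring
        _ = (-1 : ℤ) ^ j * (N.choose j) * (DgP ((N - j : ℕ) : ℤ) ^ 2 + 9) +
            6 * ((-1 : ℤ) ^ j * (N.choose j) * ((-1) ^ (N - j) * DgP ((N - j : ℕ) : ℤ))) := by
          ring
        _ = _ := by
          congr 1
          unfold DgP
          ring
    rw [Finset.sum_congr rfl h]
    simp only [Finset.sum_add_distrib, ← Finset.mul_sum]
    rw [Dg_pow N 8 (by omega), Dg_pow N 7 (by omega), Dg_pow N 6 (by omega), Dg_pow N 5 (by omega),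
      Dg_pow N 4 (by omega), Dg_pow N 3 (by omega), Dg_pow N 2 (by omega), Dg_pow N 1 (by omega),
      Dg_pow N 0 (by omega), Dg_alt N]
    ring
  intro h0
  rw [h0, mul_zero] at h144
  have hp := Dg_sum_pos N (by omega)
  have h1 : (-1 : ℤ) ^ N ≠ 0 := pow_ne_zero _ (by norm_num)
  have h2 : (-1 : ℤ) ^ N * ∑ j ∈ range (N + 1), (N.choose j : ℤ) * DgP ((N - j : ℕ) : ℤ) ≠ 0 :=
    mul_ne_zero h1 hp.ne'
  apply h2
  linarith

end Pool.Agent.CM
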