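import Pool.Agent.Work.MP_8590b5_gt.CM.Stmts1

/-!
# Block CM, item Dn: the crossing circles are not changed by the later pieces
-/

set_option autoImplicit false

namespace Pool.Agent.CM

open Finset

private theorem Dn_run {Γ : Type} [Group Γ] (i : ℕ) (s : ℕ → Str Γ) :
    run (pieces (i + 1)) s = run (piece i) (run (pieces i) s) := by
  have h : pieces (i + 1) = pieces i ++ piece i := by
    unfold pieces
    rw [List.range_succ, List.flatMap_append, List.flatMap_singleton]
  rw [h]
  unfold run
  rw [List.foldl_append]

private theorem Dn_und {Γ : Type} [Group Γ] (X : Str Γ) (c : Γ) : und (und X c) c⁻¹ = X := by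
  unfold und
  cases X with
  | mk a b d =>
    simp only [Str.mk.injEq, true_and]
    constructor <;> group

private theorem Dn_un (hP : PcAt) {Γ : Type} [Group Γ] (g : ℕ → Γ) (i : ℕ) :
    ∀ p, i + 2 ≤ p → run (pieces i) (start g) p = ⟨p, g p, 1⟩ := by
  induction i with
  | zero => intro p _; rfl
  | succ i ih =>
    intro p hp
    rw [Dn_run, hP Γ i _ p, if_neg (by omega), if_neg (by omega), if_neg (by omega),
      if_neg (by omega)]
    exact ih p (by omega)

theorem pr_Dn : StDn := by
  intro hP Γ _ N g hlab
  have key : ∀ m, m ≤ N → ∀ i < N - m,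
      run (pieces (N - m)) (start g) (i + 2) = run (pieces N) (start g) (i + 2) := by
    intro m
    induction m with
    | zero => intro _ i _; rfl
    | succ m ih =>
      intro hm i hi
      have hj : N - m = (N - (m + 1)) + 1 := by omega
      have ih' := ih (by omega)
      rw [hj] at ih'
      set j := N - (m + 1) with hjdef
      have hjN : j < N := by omega
      have h1 := ih' i (by omega)
      have h2 := ih' j (by omega)
      rw [Dn_run, hP Γ j _ (i + 2), if_neg (by omega), if_neg (by omega), if_neg (by omega),
        if_pos (by omega)] at h1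
      rw [Dn_run, hP Γ j _ (j + 2), if_neg (by omega), if_neg (by omega), if_pos rfl] at h2
      rw [h2, hlab j hjN, Dn_un hP g j (j + 2) le_rfl, Dn_und] at h1
      exact h1
  intro i hi
  have h := key (N - (i + 1)) (by omega) i (by omega)
  have he : N - (N - (i + 1)) = i + 1 := by omega
  rw [he] at h
  exact h

end Pool.Agent.CM
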