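import Pool.Agent.Work.MP_8590b5_gt.CM.Stmts3

/-!
# Block CM, item Ec: the number of the points with strict inequalities
-/

namespace Pool.Agent.CM

open Finset

/-- item Ec -/
theorem pr_Ec : StEc := by
  intro hEn hFi hCb hSx hCc hV1 hV2 k
  set SE : Set ((Fin 3 → ℤ) × (Fin 3 → ℤ)) := {z | IsE k z.1 z.2} with hSE
  set SB : Set ((Fin 3 → ℤ) × (Fin 3 → ℤ)) := {z | IsB k z.1 z.2} with hSB
  set S1 : Set ((Fin 3 → ℤ) × (Fin 3 → ℤ)) := {z | IsB k z.1 z.2 ∧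
    z.2 0 = 0 ∧ 2 * (k : ℤ) + 1 < 2 * (z.1 2 - z.1 0)} with hS1
  set S2 : Set ((Fin 3 → ℤ) × (Fin 3 → ℤ)) := {z | IsB k z.1 z.2 ∧
    z.2 0 = 6 * z.1 0 ∧ 2 * (k : ℤ) + 1 < 2 * (z.1 1 - z.1 0)} with hS2
  have hfin : SB.Finite := Set.finite_coe_iff.1 (hFi k)
  have h1 : S1 ⊆ SB := fun z hz => hz.1
  have h2 : S2 ⊆ SB := fun z hz => hz.1
  have hd : Disjoint S1 S2 := by
    rw [Set.disjoint_left]
    rintro z ⟨z1, z2, z3⟩ ⟨-, z4, z5⟩
    have h3 := z1.gsum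
    omega
  have hE : SE = SB \ (S1 ∪ S2) := by
    ext z
    constructor
    · intro hz
      obtain ⟨a, b, c⟩ := (hEn k z.1 z.2).1 hz
      refine ⟨a, ?_⟩
      rintro (h | h)
      · exact b h.2
      · exact c h.2
    · rintro ⟨a, b⟩
      refine (hEn k z.1 z.2).2 ⟨a, fun h => b (Or.inl ⟨a, h⟩), fun h => b (Or.inr ⟨a, h⟩)⟩
  have c1 : S1.ncard = ∑ c ∈ range (k / 2 + 1), (k - 2 * c) * (k - 2 * c + 1) := by
    rw [← Nat.card_coe_set_eq]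
    exact hV1 k
  have c2 : S2.ncard = ∑ c ∈ range (k / 2 + 1), (k - 2 * c) * (k - 2 * c + 1) := by
    rw [← Nat.card_coe_set_eq]
    exact hV2 k
  have c3 : SB.ncard = k * (k + 1) ^ 3 := by
    rw [← Nat.card_coe_set_eq]
    exact hCb hSx hCc hFi k
  have c4 : SE.ncard = Np k := by
    rw [hE, Set.ncard_sdiff (Set.union_subset h1 h2) (hfin.subset (Set.union_subset h1 h2)),
      Set.ncard_union_eq hd (hfin.subset h1) (hfin.subset h2), c1, c2, c3, Np, two_mul]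
  rw [← c4, ← Nat.card_coe_set_eq]
  rfl

end Pool.Agent.CM
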