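import Pool.Agent.Work.MP_8590b5_gt.CM.Stmts2

/-!
Item Ee: the exponential.
-/

namespace Pool.Agent.CM

open Finset

private theorem Ee_add (x y : ℝ) : ee (x + y) = ee x * ee y := by
  unfold ee
  rw [← Complex.exp_add]
  congr 1
  push_cast
  ring

private theorem Ee_int (m : ℤ) : ee m = 1 := by
  unfold ee
  rw [← Complex.exp_int_mul_two_pi_mul_I m]
  congr 1
  push_cast
  ring

private theorem Ee_iff (x y : ℝ) : ee x = ee y ↔ ∃ m : ℤ, x = y + m := by
  unfold ee
  rw [Complex.exp_eq_exp_iff_exists_int]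
  have hI : (2 * (Real.pi : ℂ) * Complex.I) ≠ 0 := Complex.two_pi_I_ne_zero
  constructor
  · rintro ⟨m, hm⟩
    refine ⟨m, ?_⟩
    have h1 : (2 * (Real.pi : ℂ) * Complex.I) * (x : ℂ) =
        (2 * (Real.pi : ℂ) * Complex.I) * ((y : ℂ) + m) := by
      linear_combination hm
    have h2 := mul_left_cancel₀ hI h1
    exact_mod_cast h2
  · rintro ⟨m, hm⟩
    refine ⟨m, ?_⟩
    rw [hm]
    push_cast
    ring

private theorem Ee_star (x : ℝ) : star (ee x) = ee (-x) := by
  unfold ee
  rw [Complex.star_def, ← Complex.exp_conj]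
  congr 1
  simp only [map_mul, Complex.conj_ofReal, Complex.conj_I, map_ofNat, Complex.ofReal_neg]
  ring

private theorem Ee_pow (x : ℝ) (m : ℕ) : ee x ^ m = ee (m * x) := by
  unfold ee
  rw [← Complex.exp_nat_mul]
  congr 1
  push_cast
  ring

private theorem Ee_half : ee (1 / 2) = -1 := by
  unfold ee
  rw [← Complex.exp_pi_mul_I]
  congr 1
  push_cast
  ring

private theorem Ee_ne (x : ℝ) : ee x ≠ 0 := Complex.exp_ne_zero _

private theorem Ee_root (m : ℕ) (hm : 0 < m) (z : ℂ) (hz : z ^ m = 1) :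
    ∃ j : ℕ, j < m ∧ z = ee ((j : ℝ) / m) := by
  have hne : NeZero m := ⟨hm.ne'⟩
  obtain ⟨j, hj, hj2⟩ := (Complex.isPrimitiveRoot_exp m hm.ne').eq_pow_of_pow_eq_one hz
  refine ⟨j, hj, ?_⟩
  rw [← hj2]
  unfold ee
  rw [← Complex.exp_nat_mul]
  congr 1
  push_cast
  ring

private theorem Ee_sub (x y : ℝ) : ee x - ee y =
    ee ((x + y) / 2) * (2 * Complex.I * Real.sin (Real.pi * (x - y))) := by
  have h1 : (2 : ℂ) * Complex.I * Real.sin (Real.pi * (x - y)) =
      ee ((x - y) / 2) - ee (-((x - y) / 2)) := by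
    have h2 := Complex.two_sin (((Real.pi * (x - y) : ℝ)) : ℂ)
    have h3 : (2 : ℂ) * Complex.I * Real.sin (Real.pi * (x - y)) =
        Complex.I * (2 * Complex.sin (((Real.pi * (x - y) : ℝ)) : ℂ)) := by
      rw [Complex.ofReal_sin]
      ring
    rw [h3, h2]
    have e1 : ee ((x - y) / 2) = Complex.exp ((((Real.pi * (x - y) : ℝ)) : ℂ) * Complex.I) := by
      unfold ee
      congr 1
      push_cast
      ring
    have e2 : ee (-((x - y) / 2)) =
        Complex.exp (-(((Real.pi * (x - y) : ℝ)) : ℂ) * Complex.I) := by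
      unfold ee
      congr 1
      push_cast
      ring
    rw [e1, e2]
    linear_combination (Complex.exp (-(((Real.pi * (x - y) : ℝ)) : ℂ) * Complex.I) -
      Complex.exp ((((Real.pi * (x - y) : ℝ)) : ℂ) * Complex.I)) * Complex.I_sq
  rw [h1, mul_sub, ← Ee_add, ← Ee_add]
  congr 2
  · ring
  · ring

private theorem Ee_sum (x y : ℝ) : ee x + ee y =
    ee ((x + y) / 2) * (2 * Real.cos (Real.pi * (x - y))) := by
  have h1 : (2 : ℂ) * Real.cos (Real.pi * (x - y)) =
      ee ((x - y) / 2) + ee (-((x - y) / 2)) := by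
    have h2 := Complex.two_cos (((Real.pi * (x - y) : ℝ)) : ℂ)
    rw [Complex.ofReal_cos, h2]
    congr 1
    · unfold ee
      congr 1
      push_cast
      ring
    · unfold ee
      congr 1
      push_cast
      ring
  rw [h1, mul_add, ← Ee_add, ← Ee_add]
  congr 2
  · ring
  · ring

theorem pr_Ee : StEe :=
  ⟨Ee_add, Ee_int, Ee_iff, Ee_star, Ee_pow, Ee_half, Ee_ne, Ee_root, Ee_sub, Ee_sum⟩

end Pool.Agent.CM
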