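import Pool.Agent.Work.MP_8590b5_gt.CM.Stmts3

/-!
# Block CM, item En: the open and the closed version of the lattice conditions
-/

namespace Pool.Agent.CM

open Finset

/-- The core inequality: no `E_i` is negative. -/
private theorem En_core (q x y z u v w : ℤ) (hq : 1 ≤ q) (hg : x + y + z = q)
    (he : u + v + w = 3 * q)
    (a0 : 0 < 2 * q * u + q + 2 * (x - z)) (a1 : 0 < 2 * q * v + q + 2 * (y - x))
    (a2 : 0 < 2 * q * w + q + 2 * (z - y))
    (b0 : 0 < 2 * q * (6 * x - u) + q + 2 * (x - y))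
    (b1 : 0 < 2 * q * (6 * y - v) + q + 2 * (y - z))
    (b2 : 0 < 2 * q * (6 * z - w) + q + 2 * (z - x)) : 0 ≤ u := by
  have hx : 1 ≤ x := by
    by_contra h
    have h' : x ≤ 0 := by omega
    have : (12 * q + 6) * x ≤ 0 := mul_nonpos_of_nonneg_of_nonpos (by omega) h'
    nlinarith
  have hy : 1 ≤ y := by
    by_contra h
    have h' : y ≤ 0 := by omega
    have : (12 * q + 6) * y ≤ 0 := mul_nonpos_of_nonneg_of_nonpos (by omega) h'
    nlinarith
  have hz : 1 ≤ z := by
    by_contra h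
    have h' : z ≤ 0 := by omega
    have : (12 * q + 6) * z ≤ 0 := mul_nonpos_of_nonneg_of_nonpos (by omega) h'
    nlinarith
  have hv : -1 ≤ 6 * y - v := by
    by_contra h
    have h' : 6 * y - v ≤ -2 := by omega
    have := mul_le_mul_of_nonneg_left h' (show (0 : ℤ) ≤ 2 * q by omega)
    omega
  have hw : -1 ≤ 6 * z - w := by
    by_contra h
    have h' : 6 * z - w ≤ -2 := by omega
    have := mul_le_mul_of_nonneg_left h' (show (0 : ℤ) ≤ 2 * q by omega)
    omega
  by_contra h
  have h' : u ≤ -1 := by omega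
  have := mul_le_mul_of_nonneg_left h' (show (0 : ℤ) ≤ 2 * q by omega)
  omega

/-- A product with a positive factor. -/
private theorem En_pos (q u a b : ℤ) (hq : 1 ≤ q) (hu : 1 ≤ u) (ha : 0 ≤ a) (hb : b ≤ q) :
    0 < 2 * q * u + q + 2 * (a - b) := by
  have := mul_le_mul_of_nonneg_left hu (show (0 : ℤ) ≤ 2 * q by omega)
  omega

theorem pr_En : StEn := by
  intro k g E
  constructor
  · intro h
    obtain ⟨gs, es, e0, e1, e2, a0, a1, a2, b0, b1, b2⟩ := h
    generalize hq : 2 * (k : ℤ) + 1 = q at *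
    have hq1 : 1 ≤ q := by omega
    have c0 := En_core q (g 0) (g 1) (g 2) (E 0) (E 1) (E 2) hq1 gs es a0 a1 a2 b0 b1 b2
    have c1 := En_core q (g 1) (g 2) (g 0) (E 1) (E 2) (E 0) hq1 (by omega) (by omega) a1 a2 a0
      b1 b2 b0
    have c2 := En_core q (g 2) (g 0) (g 1) (E 2) (E 0) (E 1) hq1 (by omega) (by omega) a2 a0 a1
      b2 b0 b1
    have r : ∀ a b : ℤ, 6 * a - (6 * a - b) = b := fun a b => by ring
    have d0 := En_core q (g 0) (g 2) (g 1) (6 * g 0 - E 0) (6 * g 2 - E 2) (6 * g 1 - E 1) hq1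
      (by omega) (by omega) b0 b2 b1 (by rw [r]; exact a0) (by rw [r]; exact a2)
      (by rw [r]; exact a1)
    have d1 := En_core q (g 1) (g 0) (g 2) (6 * g 1 - E 1) (6 * g 0 - E 0) (6 * g 2 - E 2) hq1
      (by omega) (by omega) b1 b0 b2 (by rw [r]; exact a1) (by rw [r]; exact a0)
      (by rw [r]; exact a2)
    have d2 := En_core q (g 2) (g 1) (g 0) (6 * g 2 - E 2) (6 * g 1 - E 1) (6 * g 0 - E 0) hq1
      (by omega) (by omega) b2 b1 b0 (by rw [r]; exact a2) (by rw [r]; exact a1)
      (by rw [r]; exact a0)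
    refine ⟨⟨by omega, by omega, e0, e1, e2, ?_, ?_⟩, ?_, ?_⟩
    · intro i
      fin_cases i
      · exact c0
      · exact c1
      · exact c2
    · intro i
      fin_cases i
      · show E 0 ≤ 6 * g 0
        omega
      · show E 1 ≤ 6 * g 1
        omega
      · show E 2 ≤ 6 * g 2
        omega
    · rintro ⟨h0, h1⟩
      rw [h0] at a0
      omega
    · rintro ⟨h0, h1⟩
      rw [h0, sub_self] at b0
      omega
  · rintro ⟨⟨gs, es, e0, e1, e2, ha, hb⟩, n1, n2⟩
    have p0 := ha 0
    have p1 := ha 1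
    have p2 := ha 2
    have q0 := hb 0
    have q1 := hb 1
    have q2 := hb 2
    have hk : (0 : ℤ) ≤ k := Int.natCast_nonneg k
    refine ⟨gs, es, e0, e1, e2, ?_, ?_, ?_, ?_, ?_, ?_⟩
    · rcases eq_or_lt_of_le p0 with h | h
      · rw [← h]
        have : ¬ 2 * (k : ℤ) + 1 < 2 * (g 2 - g 0) := fun h' => n1 ⟨h.symm, h'⟩
        omega
      · exact En_pos _ _ _ _ (by omega) (by omega) (by omega) (by omega)
    · exact En_pos _ _ _ _ (by omega) (by omega) (by omega) (by omega)
    · exact En_pos _ _ _ _ (by omega) (by omega) (by omega) (by omega)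
    · rcases eq_or_lt_of_le q0 with h | h
      · rw [← h, sub_self]
        have : ¬ 2 * (k : ℤ) + 1 < 2 * (g 1 - g 0) := fun h' => n2 ⟨h, h'⟩
        omega
      · exact En_pos _ _ _ _ (by omega) (by omega) (by omega) (by omega)
    · exact En_pos _ _ _ _ (by omega) (by omega) (by omega) (by omega)
    · exact En_pos _ _ _ _ (by omega) (by omega) (by omega) (by omega)

end Pool.Agent.CM
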