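import Pool.Agent.Work.MP_8590b5_gt.CM.Stmts1

/-!
# Block CM, item Ex (helper55): the exponent after all the pieces
-/

namespace Pool.Agent.CM

open Finset

lemma Ex_tc_succ (J : Finset ℕ) (i : ℕ) :
    tc J (i + 1) = tc J i + (if i ∈ J then 1 else 0) := by
  unfold tc
  by_cases h : i ∈ J
  · rw [if_pos h]
    have e : J.filter (· < i + 1) = insert i (J.filter (· < i)) := by
      ext x
      simp only [mem_filter, mem_insert]
      constructor
      · rintro ⟨h1, h2⟩
        rcases Nat.lt_succ_iff_lt_or_eq.1 h2 with h3 | h3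
        · exact Or.inr ⟨h1, h3⟩
        · exact Or.inl h3
      · rintro (h1 | ⟨h1, h2⟩)
        · exact ⟨h1 ▸ h, by omega⟩
        · exact ⟨h1, by omega⟩
    rw [e, card_insert_of_notMem (by simp)]
  · rw [if_neg h, Nat.add_zero]
    congr 1
    ext x
    simp only [mem_filter]
    constructor
    · rintro ⟨h1, h2⟩
      refine ⟨h1, ?_⟩
      have : x ≠ i := fun h3 => h (h3 ▸ h1)
      omega
    · rintro ⟨h1, h2⟩
      exact ⟨h1, by omega⟩

lemma Ex_ex (J : Finset ℕ) : ∀ i : ℕ, ex J i = (i : ℤ) - 2 * (tc J i : ℤ)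
  | 0 => by simp [ex, tc]
  | i + 1 => by
    rw [Ex_tc_succ]
    change ex J i + (if i ∈ J then -1 else 1) = _
    rw [Ex_ex J i]
    split_ifs <;> push_cast <;> ring

theorem pr_Ex : StEx := by
  intro N J hJ
  have h : tc J N = J.card := by
    unfold tc
    rw [filter_true_of_mem]
    intro x hx
    exact mem_range.1 (hJ hx)
  exact ⟨by rw [Ex_ex, h], h⟩

end Pool.Agent.CM
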