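import Pool.Agent.Work.MP_8590b5_gt.CM.Stmts3

/-!
# Block CM, item Fi: finiteness
-/

set_option autoImplicit false

namespace Pool.Agent.CM

open Finset

theorem pr_Fi : StFi := by
  intro k
  have key : {z : (Fin 3 → ℤ) × (Fin 3 → ℤ) | IsB k z.1 z.2}.Finite := ?_
  · exact key.to_subtype
  refine ((Set.finite_Icc (0 : Fin 3 → ℤ) (fun _ => 2 * (k : ℤ) + 1)).prod
    (Set.finite_Icc (0 : Fin 3 → ℤ) (fun _ => 3 * (2 * (k : ℤ) + 1)))).subset ?_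
  rintro ⟨g, E⟩ ⟨h1, h2, -, -, -, ha, hb⟩
  have a0 := ha 0
  have a1 := ha 1
  have a2 := ha 2
  have b0 := hb 0
  have b1 := hb 1
  have b2 := hb 2
  dsimp only at h1 h2 a0 a1 a2 b0 b1 b2
  refine ⟨⟨fun i => ?_, fun i => ?_⟩, ⟨fun i => ?_, fun i => ?_⟩⟩
  · show 0 ≤ g i
    fin_cases i <;> dsimp <;> omega
  · show g i ≤ 2 * (k : ℤ) + 1
    fin_cases i <;> dsimp <;> omega
  · show 0 ≤ E i
    fin_cases i <;> dsimp <;> omega
  · show E i ≤ 3 * (2 * (k : ℤ) + 1)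
    fin_cases i <;> dsimp <;> omega

end Pool.Agent.CM
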