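import Pool.Agent.Work.MP_8590b5_gt.CM.Stmts1

/-!
# Block CM, item Fw (helper55): from the values of the labels to the relations
-/

namespace Pool.Agent.CM

open Finset

section
variable {Γ : Type} [Group Γ]

private lemma Fw_und (X : Str Γ) (c : Γ) : und (und X c) c⁻¹ = X := by
  obtain ⟨s, a, l⟩ := X
  simp only [und, Str.mk.injEq, true_and]
  constructor <;> group

private lemma Fw_succ (i : ℕ) (s : ℕ → Str Γ) :
    run (pieces (i + 1)) s = run (piece i) (run (pieces i) s) := by
  unfold pieces run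
  rw [List.range_succ, List.flatMap_append, List.foldl_append]
  simp

private lemma Fw_bump (a b : Γ) (t : ℕ) (A : Str Γ)
    (h : A.lon * A.lab = (if A.src = 0 then a else b) * A.lon) :
    (bump a b t A).lon * (bump a b t A).lab =
      (if A.src = 0 then a else b) * (bump a b t A).lon := by
  change (if A.src = 0 then a else b) ^ t * A.lon * A.lab =
    (if A.src = 0 then a else b) * ((if A.src = 0 then a else b) ^ t * A.lon)
  rw [mul_assoc, h, ← mul_assoc, ← mul_assoc, ← pow_succ, ← pow_succ']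

/-- the own piece of the strand -/
private lemma Fw_own (hPc : PcAt) (hUn : StUn) (hTl : StTl) (hKa : StKa) (hKi : StKi)
    (J : Finset ℕ) (g : ℕ → Γ) (i : ℕ) (hA : After J g i)
    (hg : g (i + 2) = cval J (g 0) (g 1) i) :
    (run (pieces (i + 1)) (start g) (i + 2)).lab = g (i + 2) ∧
    (cC (run (pieces i) (start g) 0) (run (pieces i) (start g) 1)
      (run (pieces i) (start g) (i + 2))).lab = g (i + 2) ∧
    (i ∈ J → (run (pieces (i + 1)) (start g) (i + 2)).lon = g (i + 2)) := by
  have hC := hUn hPc Γ i g (i + 2) le_rfl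
  have hr : run (pieces (i + 1)) (start g) (i + 2) = cC (run (pieces i) (start g) 0)
      (run (pieces i) (start g) 1) (run (pieces i) (start g) (i + 2)) := by
    rw [Fw_succ, hPc Γ i (run (pieces i) (start g)) (i + 2), if_neg (by omega), if_neg (by omega),
      if_pos rfl]
  obtain ⟨h0, h1⟩ := hA
  rw [hr]
  rw [h0, h1, hC]
  by_cases hi : i ∈ J
  · obtain ⟨t1, t2, -, -⟩ := hTl Γ (g 0) (g 1) (ex J i)
    have hk := hKa Γ (bump (g 0) (g 1) (tc J i) (tw (g 0) (g 1) (ex J i)).1)
      (bump (g 0) (g 1) (tc J i) (tw (g 0) (g 1) (ex J i)).2) ⟨i + 2, g (i + 2), 1⟩ _ _ rfl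
      (Fw_bump _ _ _ _ t1) (Fw_bump _ _ _ _ t2)
    have hlab : g (i + 2) = (tw (g 0) (g 1) (ex J i)).2.lab *
        ((tw (g 0) (g 1) (ex J i)).1.lab)⁻¹ := by
      rw [hg, cval, if_pos hi]
    have hc := (hk.2 hlab).1
    rw [hc]
    exact ⟨rfl, rfl, fun _ => rfl⟩
  · have h1' : g (i + 2) = 1 := by rw [hg, cval, if_neg hi]
    have hk := (hKi Γ (bump (g 0) (g 1) (tc J i) (tw (g 0) (g 1) (ex J i)).1)
      (bump (g 0) (g 1) (tc J i) (tw (g 0) (g 1) (ex J i)).2) ⟨i + 2, g (i + 2), 1⟩ h1').2.2
    exact ⟨hk.trans h1'.symm, hk.trans h1'.symm, fun h => absurd h hi⟩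

end

theorem pr_Fw : StFw := by
  intro hPc hUn hAf hTw hTn hTl hKa hKi Γ _ N J g hg i hi
  have hA := hAf hPc hUn hTw hTn hTl hKa hKi Γ N J g hg
  have own : ∀ j, j < N → _ := fun j hj =>
    Fw_own hPc hUn hTl hKa hKi J g j (hA j hj.le) (hg j hj)
  have step : ∀ j, i < j → j < N → run (pieces (j + 1)) (start g) (i + 2) =
      run (pieces j) (start g) (i + 2) := by
    intro j hij hj
    rw [Fw_succ, hPc Γ j (run (pieces j) (start g)) (i + 2), if_neg (by omega),
      if_neg (by omega), if_neg (by omega), if_pos (by omega), (own j hj).2.1,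
      hUn hPc Γ j g (j + 2) le_rfl]
    exact Fw_und _ _
  have all : ∀ m, i + 1 ≤ m → m ≤ N → run (pieces m) (start g) (i + 2) =
      run (pieces (i + 1)) (start g) (i + 2) := by
    intro m hm
    induction m, hm using Nat.le_induction with
    | base => intro _; rfl
    | succ m hm ih =>
      intro hmN
      rw [step m (by omega) (by omega)]
      exact ih (by omega)
  rw [all N (by omega) le_rfl]
  exact ⟨(own i hi).1, (own i hi).2.2⟩

end Pool.Agent.CM
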