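import Pool.Agent.Work.MP_8590b5_gt.CM.Stmts2

/-! # Block CM, item Gc -/

namespace Pool.Agent.CM

open Finset

private theorem Gc_tw1 {Γ : Type} [Group Γ] (a b u : Γ) (e : ℤ) :
    (tw (u * a * u⁻¹) (u * b * u⁻¹) e).1.lab = u * (tw a b e).1.lab * u⁻¹ ∧
    (tw (u * a * u⁻¹) (u * b * u⁻¹) e).2.lab = u * (tw a b e).2.lab * u⁻¹ := by
  have hy : u * a * u⁻¹ * (u * b * u⁻¹) = u * (a * b) * u⁻¹ := by group
  unfold tw
  rw [hy]
  split_ifs
  · constructor
    · simp only [conj_zpow]; group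
    · simp only [conj_zpow]; group
  · constructor
    · simp only [conj_zpow]; group
    · simp only [conj_zpow]; group

private theorem Gc_tw2 {Γ : Type} [Group Γ] (a b : Γ) (e : ℤ) :
    (tw a b e).1.lab ∈ Subgroup.closure {a, b} ∧ (tw a b e).2.lab ∈ Subgroup.closure {a, b} := by
  have ha : a ∈ Subgroup.closure ({a, b} : Set Γ) := Subgroup.subset_closure (by simp)
  have hb : b ∈ Subgroup.closure ({a, b} : Set Γ) := Subgroup.subset_closure (by simp)
  have hab := mul_mem ha hb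
  unfold tw
  split_ifs
  · exact ⟨mul_mem (mul_mem (zpow_mem hab _) ha) (zpow_mem hab _),
      mul_mem (mul_mem (zpow_mem hab _) hb) (zpow_mem hab _)⟩
  · exact ⟨mul_mem (mul_mem (zpow_mem hab _) hb) (zpow_mem hab _),
      mul_mem (mul_mem (zpow_mem hab _) ha) (zpow_mem hab _)⟩

theorem pr_Gc : StGc := by
  intro Γ _ J a b i
  constructor
  · intro u
    unfold cval
    split_ifs
    · rw [(Gc_tw1 a b u _).1, (Gc_tw1 a b u _).2]; group
    · group
  · unfold cval
    split_ifs
    · exact mul_mem (Gc_tw2 a b _).2 (inv_mem (Gc_tw2 a b _).1)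
    · exact one_mem _

end Pool.Agent.CM
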