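import Pool.Agent.Work.MP_8590b5_gt.CM.Stmts2

/-!
# Block CM, item Gn: irreducible homomorphisms and irreducible pairs
-/

namespace Pool.Agent.CM

open Finset

/-- The elements of SU(3) which map a subspace into itself. -/
private def Gn_stab (W : Submodule ℂ (Fin 3 → ℂ)) : Subgroup SU3 where
  carrier := {a | ∀ v ∈ W, (a : Mat).mulVec v ∈ W}
  mul_mem' := by
    intro a b ha hb v hv
    have h1 : ((a * b : SU3) : Mat) = (a : Mat) * (b : Mat) := rfl
    rw [h1, ← Matrix.mulVec_mulVec]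
    exact ha _ (hb _ hv)
  one_mem' := by
    intro v hv
    have h1 : ((1 : SU3) : Mat) = 1 := rfl
    rw [h1, Matrix.one_mulVec]
    exact hv
  inv_mem' := by
    intro a ha v hv
    have hinv : ((a⁻¹ : SU3) : Mat) * (a : Mat) = 1 := by
      have h1 : ((a⁻¹ * a : SU3) : Mat) = ((a⁻¹ : SU3) : Mat) * (a : Mat) := rfl
      rw [← h1, inv_mul_cancel]
      rfl
    let f : W →ₗ[ℂ] W := ((a : Mat).mulVecLin).restrict (fun v hv => ha v hv)
    have hf : Function.Injective f := by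
      intro x y hxy
      have h2 : (a : Mat).mulVec x.1 = (a : Mat).mulVec y.1 := congrArg Subtype.val hxy
      have h3 := congrArg (fun z => ((a⁻¹ : SU3) : Mat).mulVec z) h2
      simp only [Matrix.mulVec_mulVec, hinv, Matrix.one_mulVec] at h3
      exact Subtype.ext h3
    obtain ⟨y, hy⟩ := (LinearMap.injective_iff_surjective.1 hf) ⟨v, hv⟩
    have h4 : (a : Mat).mulVec y.1 = v := congrArg Subtype.val hy
    rw [← h4, Matrix.mulVec_mulVec, hinv, Matrix.one_mulVec]
    exact y.2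

private theorem Gn_range {G : Type} {rels : Set (FreeGroup ℕ)} [Group G]
    (ρ : PresentedGroup rels →* G) (H : Subgroup G)
    (h : ∀ p, ρ (PresentedGroup.of p) ∈ H) (g : PresentedGroup rels) : ρ g ∈ H := by
  have h1 : Subgroup.closure (Set.range (PresentedGroup.of (rels := rels))) ≤ H.comap ρ := by
    rw [Subgroup.closure_le]
    rintro _ ⟨p, rfl⟩
    exact h p
  rw [PresentedGroup.closure_range_of] at h1
  exact h1 (Subgroup.mem_top g)

private theorem Gn_col (hCh : ChAt) (hCk : CkAt) {N : ℕ} {J : Finset ℕ} (hJ : J ⊆ range N)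
    (ρ : (lnk N).grp (sub J) →* SU3) :
    Tor (N - J.card) (ρ (PresentedGroup.of 0)) (ρ (PresentedGroup.of 1)) ∧
    (∀ i < N, ρ (PresentedGroup.of (i + 2)) =
      cval J (ρ (PresentedGroup.of 0)) (ρ (PresentedGroup.of 1)) i) ∧
    ∀ p, N + 2 ≤ p → ρ (PresentedGroup.of p) = 1 := by
  have hcol : Col (lnk N) (sub J) (fun p => ρ (PresentedGroup.of p)) :=
    (hCh (lnk N) (sub J) SU3 _).2 ⟨ρ, fun _ => rfl⟩
  exact (hCk SU3 N J _ hJ).1 hcol

private theorem Gn_mem (hCh : ChAt) (hCk : CkAt) (hGc : StGc) {N : ℕ} {J : Finset ℕ}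
    (hJ : J ⊆ range N) (ρ : (lnk N).grp (sub J) →* SU3) (g : (lnk N).grp (sub J)) :
    ρ g ∈ Subgroup.closure {ρ (PresentedGroup.of 0), ρ (PresentedGroup.of 1)} := by
  obtain ⟨h1, h2, h3⟩ := Gn_col hCh hCk hJ ρ
  refine Gn_range ρ _ (fun p => ?_) g
  rcases Nat.lt_or_ge p 2 with hp | hp
  · interval_cases p
    · exact Subgroup.subset_closure (Set.mem_insert _ _)
    · exact Subgroup.subset_closure (Set.mem_insert_of_mem _ rfl)
  · obtain ⟨i, rfl⟩ : ∃ i, p = i + 2 := ⟨p - 2, by omega⟩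
    rcases Nat.lt_or_ge i N with hi | hi
    · rw [h2 i hi]
      exact (hGc SU3 J _ _ i).2
    · rw [h3 (i + 2) (by omega)]
      exact one_mem _

private theorem Gn_irr (hCh : ChAt) (hCk : CkAt) (hGc : StGc) {N : ℕ} {J : Finset ℕ}
    (hJ : J ⊆ range N) (ρ : (lnk N).grp (sub J) →* SU3) :
    Irr ρ ↔ IrrP (ρ (PresentedGroup.of 0)) (ρ (PresentedGroup.of 1)) := by
  constructor
  · intro h W ha hb
    refine h W (fun g => ?_)
    have h1 : Subgroup.closure {ρ (PresentedGroup.of 0), ρ (PresentedGroup.of 1)} ≤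
        Gn_stab W := by
      rw [Subgroup.closure_le]
      rintro x (rfl | rfl)
      · exact ha
      · exact hb
    exact h1 (Gn_mem hCh hCk hGc hJ ρ g)
  · intro h W hW
    exact h W (hW _) (hW _)

/-- The pair of a homomorphism. -/
private def Gn_F (hCh : ChAt) (hCk : CkAt) (hGc : StGc) {N : ℕ} {J : Finset ℕ}
    (hJ : J ⊆ range N) (ρ : {ρ : (lnk N).grp (sub J) →* SU3 // Irr ρ}) : PSet (N - J.card) :=
  ⟨(ρ.1 (PresentedGroup.of 0), ρ.1 (PresentedGroup.of 1)),
    (Gn_col hCh hCk hJ ρ.1).1, (Gn_irr hCh hCk hGc hJ ρ.1).1 ρ.2⟩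

private theorem Gn_ext (hCh : ChAt) (hCk : CkAt) (hGc : StGc) {N : ℕ} {J : Finset ℕ}
    (hJ : J ⊆ range N) (ρ σ : (lnk N).grp (sub J) →* SU3) (u : SU3)
    (h0 : σ (PresentedGroup.of 0) = u * ρ (PresentedGroup.of 0) * u⁻¹)
    (h1 : σ (PresentedGroup.of 1) = u * ρ (PresentedGroup.of 1) * u⁻¹)
    (g : (lnk N).grp (sub J)) : σ g = u * ρ g * u⁻¹ := by
  obtain ⟨-, hρ2, hρ3⟩ := Gn_col hCh hCk hJ ρ
  obtain ⟨-, hσ2, hσ3⟩ := Gn_col hCh hCk hJ σ
  have h : σ = (MulAut.conj u).toMonoidHom.comp ρ := by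
    apply PresentedGroup.ext
    intro p
    show σ (PresentedGroup.of p) = u * ρ (PresentedGroup.of p) * u⁻¹
    rcases Nat.lt_or_ge p 2 with hp | hp
    · interval_cases p
      · exact h0
      · exact h1
    · obtain ⟨i, rfl⟩ : ∃ i, p = i + 2 := ⟨p - 2, by omega⟩
      rcases Nat.lt_or_ge i N with hi | hi
      · rw [hσ2 i hi, hρ2 i hi, h0, h1]
        exact (hGc SU3 J _ _ i).1 u
      · rw [hσ3 (i + 2) (by omega), hρ3 (i + 2) (by omega)]
        group
  rw [h]
  rfl

theorem pr_Gn : StGn := by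
  intro hCh hCk hGc N J hJ
  refine ⟨Equiv.ofBijective (Quotient.map' (s₁ := irrSetoid ((lnk N).grp (sub J)))
    (s₂ := pSetoid (N - J.card)) (Gn_F hCh hCk hGc hJ) ?_) ⟨?_, ?_⟩⟩
  · rintro ρ σ ⟨u, hu⟩
    exact ⟨u, hu _, hu _⟩
  · intro x y hxy
    induction x using Quotient.inductionOn with
    | h ρ =>
      induction y using Quotient.inductionOn with
      | h σ =>
        have h1 := Quotient.exact hxy
        obtain ⟨u, h0, h1⟩ := h1
        exact Quotient.sound ⟨u, Gn_ext hCh hCk hGc hJ ρ.1 σ.1 u h0 h1⟩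
  · intro y
    induction y using Quotient.inductionOn with
    | h P =>
      obtain ⟨⟨a, b⟩, hT, hI⟩ := P
      obtain ⟨g, hg⟩ : ∃ g : ℕ → SU3, ∀ p, g p = if p = 0 then a else if p = 1 then b
        else if p < N + 2 then cval J a b (p - 2) else 1 := ⟨_, fun _ => rfl⟩
      have g0 : g 0 = a := by rw [hg, if_pos rfl]
      have g1 : g 1 = b := by rw [hg, if_neg one_ne_zero, if_pos rfl]
      have hcol : Col (lnk N) (sub J) g := by
        refine (hCk SU3 N J g hJ).2 ⟨?_, ?_, ?_⟩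
        · rw [g0, g1]
          exact hT
        · intro i hi
          rw [g0, g1, hg, if_neg (by omega), if_neg (by omega), if_pos (by omega),
            Nat.add_sub_cancel]
        · intro p hp
          rw [hg, if_neg (by omega), if_neg (by omega), if_neg (by omega)]
      obtain ⟨φ, hφ⟩ := (hCh (lnk N) (sub J) SU3 g).1 hcol
      have hφ0 : φ (PresentedGroup.of 0) = a := by rw [hφ, g0]
      have hφ1 : φ (PresentedGroup.of 1) = b := by rw [hφ, g1]
      have hirr : Irr φ := by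
        rw [Gn_irr hCh hCk hGc hJ, hφ0, hφ1]
        exact hI
      refine ⟨Quotient.mk _ ⟨φ, hirr⟩, Quotient.sound ?_⟩
      refine ⟨1, ?_, ?_⟩
      · show a = 1 * φ (PresentedGroup.of 0) * 1⁻¹
        rw [hφ0]
        group
      · show b = 1 * φ (PresentedGroup.of 1) * 1⁻¹
        rw [hφ1]
        group

end Pool.Agent.CM
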