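import Pool.Agent.Work.MP_8590b5_gt.CM.Stmts2

/-!
# Block CM, item Gz: the other sublinks have no irreducible representations
-/

namespace Pool.Agent.CM

open Finset

private theorem Gz_not_irr {G : Type} [Group G] (ρ : G →* SU3) (h : ∀ g, ρ g = 1) : ¬ Irr ρ := by
  intro hI
  have hW := hI (Submodule.span ℂ {(Pi.single 0 1 : Fin 3 → ℂ)}) (by
    intro g v hv
    rw [h g]
    have h1 : ((1 : SU3) : Matrix (Fin 3) (Fin 3) ℂ) = 1 := rfl
    rw [h1, Matrix.one_mulVec]
    exact hv)
  have hne : (Pi.single 0 1 : Fin 3 → ℂ) ≠ 0 := by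
    intro h0
    have h1 := congrFun h0 0
    simp at h1
  rcases hW with hW | hW
  · rw [Submodule.span_singleton_eq_bot] at hW
    exact hne hW
  · have h1 : (Pi.single 1 1 : Fin 3 → ℂ) ∈ Submodule.span ℂ {(Pi.single 0 1 : Fin 3 → ℂ)} := by
      rw [hW]
      exact Submodule.mem_top
    rw [Submodule.mem_span_singleton] at h1
    obtain ⟨c, hc⟩ := h1
    have h2 := congrFun hc 1
    simp at h2

theorem pr_Gz : StGz := by
  intro hCh hCz N S h0
  refine ⟨fun q => ?_⟩
  induction q using Quotient.inductionOn with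
  | h ρ =>
    obtain ⟨ρ, hρ⟩ := ρ
    have hcol : Col (lnk N) S (fun p => ρ (PresentedGroup.of p)) :=
      (hCh (lnk N) S SU3 _).2 ⟨ρ, fun _ => rfl⟩
    have h1 := hCz SU3 N S _ h0 hcol
    have h2 : ρ = 1 := by
      apply PresentedGroup.ext
      intro p
      rw [h1 p]
      rfl
    exact Gz_not_irr ρ (fun g => by rw [h2]; rfl) hρ

end Pool.Agent.CM
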