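import Pool.Agent.Work.MP_8590b5_gt.CM.Stmts4

/-!
# Block CM, item Ha: the central element has the value 0
-/

namespace Pool.Agent.CM

open Finset

private theorem Ha_tr_mul (x y : Aff) :
    Matrix.trace (x * y).v = Matrix.trace x.v + Matrix.trace y.v := by
  rw [Aff.mul_v, Matrix.trace_add, Matrix.trace_mul_comm, ← Matrix.mul_assoc, Aff_inv,
    Matrix.one_mul]

private theorem Ha_tr_pow (x : Aff) (n : ℕ) :
    Matrix.trace (x ^ n).v = (n : ℂ) * Matrix.trace x.v := by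
  induction n with
  | zero => rw [pow_zero, Aff.one_v]; simp
  | succ n ih =>
    rw [pow_succ, Ha_tr_mul, ih]
    push_cast
    ring

private theorem Ha_scal (c : ℂ) (g : SU3) (hg : (g : Mat) = c • (1 : Mat)) (M : Mat) :
    (g : Mat) * M * ((g⁻¹ : SU3) : Mat) = M := by
  have h1 : (g : Mat) * M = M * (g : Mat) := by
    rw [hg, smul_mul_assoc, mul_smul_comm, one_mul, mul_one]
  rw [h1, Matrix.mul_assoc, Aff_inv', Matrix.mul_one]

private theorem Ha_comm (h x : Aff) (c : ℂ) (hc : (h.l : Mat) = c • (1 : Mat))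
    (hx : Commute h x) : h.v * (x.l : Mat) = (x.l : Mat) * h.v := by
  have h1 : (h * x).v = (x * h).v := by rw [hx.eq]
  rw [Aff.mul_v, Aff.mul_v, Ha_scal c h.l hc, add_comm] at h1
  have h2 : h.v = (x.l : Mat) * h.v * ((x.l⁻¹ : SU3) : Mat) := add_left_cancel h1
  calc h.v * (x.l : Mat) = (x.l : Mat) * h.v * ((x.l⁻¹ : SU3) : Mat) * (x.l : Mat) := by rw [← h2]
    _ = (x.l : Mat) * h.v := by rw [Matrix.mul_assoc, Aff_inv, Matrix.mul_one]

private theorem Ha_comm_l (h x : Aff) (hx : Commute h x) :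
    (h.l : Mat) * (x.l : Mat) = (x.l : Mat) * (h.l : Mat) := by
  have h1 : (h * x).l = (x * h).l := by rw [hx.eq]
  rw [Aff.mul_l, Aff.mul_l] at h1
  have h2 := congrArg (fun g : SU3 => (g : Mat)) h1
  simpa only [Aff_aux] using h2

theorem pr_Ha : StHa := by
  intro hSm hTq k a b A0 B0 hirr htor
  obtain ⟨h1, h2, h3, h4⟩ := hTq Aff k _ _ htor
  set x : Aff := ⟨A0, a⟩ with hx
  set z : Aff := ⟨B0, b⟩ with hz
  set h : Aff := (x * z) ^ (2 * k + 1) with hh
  obtain ⟨c, hc⟩ := hSm a b (h.l : Mat) hirr (Ha_comm_l h x h3) (Ha_comm_l h z h4)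
  obtain ⟨κ, hκ⟩ := hSm a b h.v hirr (Ha_comm h x c hc h3) (Ha_comm h z c hc h4)
  have t1 : Matrix.trace h.v = ((2 * k + 1 : ℕ) : ℂ) * Matrix.trace (x * z).v := Ha_tr_pow _ _
  have t2 : Matrix.trace h.v = ((4 * k + 3 : ℕ) : ℂ) * Matrix.trace x.v := by
    rw [h2]
    exact Ha_tr_pow _ _
  have t3 : Matrix.trace h.v = ((2 : ℕ) : ℂ) * (Matrix.trace x.v +
      (k : ℂ) * Matrix.trace (x * z).v) := by
    rw [← h1, Ha_tr_pow, Ha_tr_mul, Ha_tr_pow]
  have t4 : Matrix.trace h.v = 0 := by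
    push_cast at t1 t2 t3
    have e1 : (2 * (k : ℂ) + 1) * (4 * k + 3) * Matrix.trace h.v =
        (2 * (k : ℂ) + 1) * (4 * k + 3) * (2 * (Matrix.trace x.v + k * Matrix.trace (x * z).v)) := by
      rw [← t3]
    have e2 : (2 * (k : ℂ) + 1) * (4 * k + 3) * (2 * (Matrix.trace x.v +
        k * Matrix.trace (x * z).v)) = 2 * (2 * (k : ℂ) + 1) * Matrix.trace h.v +
        2 * k * (4 * k + 3) * Matrix.trace h.v := by
      calc _ = 2 * (2 * (k : ℂ) + 1) * ((4 * k + 3) * Matrix.trace x.v) +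
          2 * k * (4 * k + 3) * ((2 * k + 1) * Matrix.trace (x * z).v) := by ring
        _ = _ := by rw [← t1, ← t2]
    rw [e2] at e1
    linear_combination e1
  rw [hκ, Matrix.trace_smul, Matrix.trace_one, Fintype.card_fin, smul_eq_mul] at t4
  have hκ0 : κ = 0 := by
    rcases mul_eq_zero.mp t4 with h5 | h5
    · exact h5
    · norm_num at h5
  rw [hκ, hκ0, zero_smul]

end Pool.Agent.CM
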