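import Pool.Agent.Work.MP_8590b5_gt.CM.Stmts4

/-! # Block CM, item Hb -/

namespace Pool.Agent.CM

open Finset

private theorem Hb_inv (A : SU3) : ((A⁻¹ : SU3) : Mat) = star (A : Mat) := rfl

private theorem Hb_entry (hEe : StEe) (u : Fin 3 → ℝ) (A : SU3) (hA : (A : Mat) = dA u) (X : Mat)
    (i j : Fin 3) : ((A : Mat) * X * ((A⁻¹ : SU3) : Mat)) i j = ee (u i) * X i j * ee (-(u j)) := by
  rw [Hb_inv, hA]
  unfold dA
  have h1 : star (Matrix.diagonal (fun j => ee (u j))) = Matrix.diagonal (fun j => ee (-(u j))) := by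
    rw [Matrix.star_eq_conjTranspose, Matrix.diagonal_conjTranspose]
    congr 1
    funext j
    exact hEe.2.2.2.1 (u j)
  rw [h1, Matrix.mul_diagonal, Matrix.diagonal_mul]

private theorem Hb_l (x : Aff) (m : ℕ) : (x ^ m).l = x.l ^ m := by
  induction m with
  | zero => rfl
  | succ m ih => rw [pow_succ, Aff.mul_l, ih, pow_succ]

theorem pr_Hb : StHb := by
  intro hEe u A Θ m hm hne hA h
  have hone : ∀ j, ee (u j) * ee (-(u j)) = 1 := by
    intro j
    rw [← hEe.1, add_neg_cancel]
    have := hEe.2.1 0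
    simpa using this
  have hdiag : ∀ (m : ℕ) (i : Fin 3), ((⟨Θ, A⟩ : Aff) ^ m).v i i = m * Θ i i := by
    intro m i
    induction m with
    | zero => rw [pow_zero, Aff.one_v]; simp
    | succ m ih =>
      rw [pow_succ', Aff.mul_v, Matrix.add_apply, Hb_entry hEe u A hA, ih]
      push_cast
      linear_combination (m : ℂ) * Θ i i * hone i
  have hz : ∀ i, Θ i i = 0 := by
    intro i
    have h1 := hdiag m i
    rw [h] at h1
    simp at h1
    rcases h1 with h1 | h1
    · omega
    · exact h1
  refine ⟨Matrix.of fun i j => if i = j then 0 else Θ i j / (1 - ee (u i) * ee (-(u j))), ?_⟩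
  ext i j
  rw [Matrix.sub_apply, Hb_entry hEe u A hA]
  simp only [Matrix.of_apply]
  by_cases hij : i = j
  · subst hij
    simp [hz]
  · rw [if_neg hij]
    have h2 : 1 - ee (u i) * ee (-(u j)) ≠ 0 := by
      intro h3
      apply hne i j hij
      have h4 : ee (u i) * ee (-(u j)) = 1 := by linear_combination -h3
      calc ee (u i) = ee (u i) * (ee (u j) * ee (-(u j))) := by rw [hone]; ring
        _ = (ee (u i) * ee (-(u j))) * ee (u j) := by ring
        _ = ee (u j) := by rw [h4, one_mul]
    field_simp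

end Pool.Agent.CM
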