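import Pool.Agent.Work.MP_8590b5_gt.CM.Stmts4

/-!
# Block CM, item Hc (helper73): linear algebra
-/

namespace Pool.Agent.CM

open Finset

theorem Hc_T1 (s m l a : Fin 3 → ℂ) :
    Matrix.trace ((Matrix.vecMulVec s m + Matrix.vecMulVec l s) * Matrix.diagonal a) =
      ∑ i, a i * (s i * (m i + l i)) := by
  simp [Matrix.trace_fin_three, Matrix.mul_apply, Fin.sum_univ_three, Matrix.vecMulVec_apply,
    Matrix.diagonal_apply]
  ring

theorem Hc_T2 (s m l a : Fin 3 → ℂ) :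
    Matrix.trace ((Matrix.vecMulVec s m + Matrix.vecMulVec l s) * Matrix.diagonal a *
      (1 - (2 : ℂ) • Matrix.vecMulVec s s) * Matrix.diagonal a) =
      ∑ i, a i ^ 2 * (s i * (m i + l i)) -
        2 * (∑ i, a i * s i ^ 2) * ∑ i, a i * (s i * (m i + l i)) := by
  simp [Matrix.trace_fin_three, Matrix.mul_apply, Fin.sum_univ_three, Matrix.vecMulVec_apply,
    Matrix.diagonal_apply, Matrix.one_apply]
  ring

theorem Hc_T3 (s m l a : Fin 3 → ℂ) :
    Matrix.trace ((Matrix.vecMulVec s m + Matrix.vecMulVec l s) * Matrix.diagonal a *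
      (1 - (2 : ℂ) • Matrix.vecMulVec s s) * Matrix.diagonal a *
      (1 - (2 : ℂ) • Matrix.vecMulVec s s) * Matrix.diagonal a) =
      ∑ i, a i ^ 3 * (s i * (m i + l i)) -
        2 * (∑ i, a i ^ 2 * s i ^ 2) * (∑ i, a i * (s i * (m i + l i))) -
        2 * (∑ i, a i * s i ^ 2) * (∑ i, a i ^ 2 * (s i * (m i + l i))) +
        4 * (∑ i, a i * s i ^ 2) ^ 2 * ∑ i, a i * (s i * (m i + l i)) := by
  simp [Matrix.trace_fin_three, Matrix.mul_apply, Fin.sum_univ_three, Matrix.vecMulVec_apply,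
    Matrix.diagonal_apply, Matrix.one_apply]
  ring

/-- Vandermonde. -/
theorem Hc_van (a t : Fin 3 → ℂ) (ha : ∀ i, a i ≠ 0) (hd : ∀ i j, i ≠ j → a i ≠ a j)
    (h1 : ∑ i, a i * t i = 0) (h2 : ∑ i, a i ^ 2 * t i = 0) (h3 : ∑ i, a i ^ 3 * t i = 0) :
    ∀ i, t i = 0 := by
  rw [Fin.sum_univ_three] at h1 h2 h3
  have d01 := sub_ne_zero.mpr (hd 0 1 (by decide))
  have d02 := sub_ne_zero.mpr (hd 0 2 (by decide))
  have d12 := sub_ne_zero.mpr (hd 1 2 (by decide))
  have e0 : (a 0 * (a 0 - a 1) * (a 0 - a 2)) * t 0 = 0 := by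
    linear_combination h3 - (a 1 + a 2) * h2 + a 1 * a 2 * h1
  have e1 : (a 1 * (a 0 - a 1) * (a 1 - a 2)) * t 1 = 0 := by
    linear_combination -h3 + (a 0 + a 2) * h2 - a 0 * a 2 * h1
  have e2 : (a 2 * (a 0 - a 2) * (a 1 - a 2)) * t 2 = 0 := by
    linear_combination h3 - (a 0 + a 1) * h2 + a 0 * a 1 * h1
  intro i
  fin_cases i
  · exact (mul_eq_zero.mp e0).resolve_left (mul_ne_zero (mul_ne_zero (ha 0) d01) d02)
  · exact (mul_eq_zero.mp e1).resolve_left (mul_ne_zero (mul_ne_zero (ha 1) d01) d12)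
  · exact (mul_eq_zero.mp e2).resolve_left (mul_ne_zero (mul_ne_zero (ha 2) d02) d12)

theorem pr_Hc : StHc := by
  intro hee hLr u w ξ hd hw hsum hRξ htr
  have hR2 : rR w * rR w = 1 := (hLr w (fun i => (hw i).le) hsum).2.1
  set s : Fin 3 → ℂ := fun i => (Real.sqrt (w i) : ℂ) with hs
  have hs0 : ∀ i, s i ≠ 0 := by
    intro i
    rw [hs]
    simp only [ne_eq, Complex.ofReal_eq_zero]
    exact (Real.sqrt_pos.mpr (hw i)).ne'
  have hR : rR w = 1 - (2 : ℂ) • Matrix.vecMulVec s s := by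
    ext i j
    simp only [rR, Matrix.of_apply, Matrix.sub_apply, Matrix.smul_apply, Matrix.vecMulVec_apply,
      Matrix.one_apply, smul_eq_mul, hs]
    ring
  set Ψ : Mat := ξ * rR w with hΨ
  have hξ : ξ = Ψ * rR w := by rw [hΨ, mul_assoc, hR2, mul_one]
  have h0 : rR w * Ψ + Ψ * rR w = 0 := by
    rw [← hξ, hΨ, ← mul_assoc, hRξ, neg_mul, mul_assoc, hR2, mul_one, neg_add_cancel]
  set m : Fin 3 → ℂ := Matrix.vecMul s Ψ with hm
  set l : Fin 3 → ℂ := Matrix.mulVec Ψ s with hl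
  have hΨe : Ψ = Matrix.vecMulVec s m + Matrix.vecMulVec l s := by
    rw [hR, sub_mul, mul_sub, one_mul, mul_one, smul_mul_assoc, mul_smul_comm,
      Matrix.vecMulVec_mul, Matrix.mul_vecMulVec, ← hm, ← hl] at h0
    have h1 : (2 : ℂ) • Ψ = (2 : ℂ) • (Matrix.vecMulVec s m + Matrix.vecMulVec l s) := by
      rw [smul_add, two_smul ℂ Ψ]
      have h2 : Ψ + Ψ - ((2 : ℂ) • Matrix.vecMulVec s m + (2 : ℂ) • Matrix.vecMulVec l s) = 0 := by
        rw [← h0]; abel
      exact sub_eq_zero.mp h2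
    exact smul_right_injective _ (two_ne_zero) h1
  set a : Fin 3 → ℂ := fun j => ee (u j) with ha
  have hA : dA u = Matrix.diagonal a := rfl
  have ha0 : ∀ i, a i ≠ 0 := fun i => hee.2.2.2.2.2.2.1 (u i)
  have S1 : ∑ i, a i * (s i * (m i + l i)) = 0 := by
    have h1 := htr 1 le_rfl (by norm_num)
    rw [pow_one, ← mul_assoc, ← hΨ, hΨe, hA, Hc_T1] at h1
    exact h1
  have S2 : ∑ i, a i ^ 2 * (s i * (m i + l i)) = 0 := by
    have h1 := htr 2 (by norm_num) (by norm_num)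
    have h2 : ξ * (rR w * dA u) ^ 2 = Ψ * dA u * rR w * dA u := by
      rw [pow_two, hΨ]; simp only [mul_assoc]
    rw [h2, hΨe, hA, hR, Hc_T2, S1, mul_zero, sub_zero] at h1
    exact h1
  have S3 : ∑ i, a i ^ 3 * (s i * (m i + l i)) = 0 := by
    have h1 := htr 3 (by norm_num) le_rfl
    have h2 : ξ * (rR w * dA u) ^ 3 = Ψ * dA u * rR w * dA u * rR w * dA u := by
      rw [pow_succ, pow_two, hΨ]; simp only [mul_assoc]
    rw [h2, hΨe, hA, hR, Hc_T3, S1, S2, mul_zero, mul_zero, mul_zero, sub_zero, sub_zero,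
      add_zero] at h1
    exact h1
  have ht := Hc_van a (fun i => s i * (m i + l i)) ha0 hd S1 S2 S3
  have hlm : ∀ i, l i = - m i := by
    intro i
    have h1 := (mul_eq_zero.mp (ht i)).resolve_left (hs0 i)
    linear_combination h1
  refine ⟨fun i => m i / (2 * s i), ?_⟩
  have hX : Ψ = Matrix.diagonal (fun i => m i / (2 * s i)) * rR w -
      rR w * Matrix.diagonal (fun i => m i / (2 * s i)) := by
    ext i j
    rw [hΨe, Matrix.sub_apply, Matrix.diagonal_mul, Matrix.mul_diagonal, hR]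
    simp only [Matrix.add_apply, Matrix.sub_apply, Matrix.smul_apply, Matrix.vecMulVec_apply,
      Matrix.one_apply, smul_eq_mul, hlm]
    have hsi := hs0 i
    have hsj := hs0 j
    by_cases hij : i = j
    · subst hij
      simp only [if_true]
      ring
    · simp only [if_neg hij]
      field_simp
      ring
  calc ξ = Ψ * rR w := hξ
    _ = _ := by
      rw [hX, sub_mul, mul_assoc, hR2, mul_one]

end Pool.Agent.CM
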