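import Pool.Agent.Work.MP_8590b5_gt.CM.Stmts4

/-!
# Block CM, item Hd: pairs over a pair in normal form are coboundaries
-/

set_option autoImplicit false

namespace Pool.Agent.CM

open Finset

/-- the linear part of a power -/
theorem Hd_pow_l (x : Aff) (m : ℕ) : (x ^ m).l = x.l ^ m := by
  induction m with
  | zero => rw [pow_zero, pow_zero]; rfl
  | succ m ih => rw [pow_succ, Aff.mul_l, ih, pow_succ]

/-- the elements with `v = 0` -/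
noncomputable def Hd_i : SU3 →* Aff where
  toFun g := ⟨0, g⟩
  map_one' := rfl
  map_mul' g h := by
    ext1
    · rw [Aff.mul_v]
      simp
    · rfl

theorem Hd_i_v (g : SU3) : (Hd_i g).v = 0 := rfl
theorem Hd_i_l (g : SU3) : (Hd_i g).l = g := rfl

theorem Hd_eq_i (x : Aff) (h : x.v = 0) : x = Hd_i x.l := by
  ext1
  · exact h
  · rfl

/-- translations -/
noncomputable def Hd_t (M : Mat) : Aff := ⟨M, 1⟩

theorem Hd_t_v (M : Mat) : (Hd_t M).v = M := rfl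
theorem Hd_t_l (M : Mat) : (Hd_t M).l = 1 := rfl

theorem Hd_one : (((1 : SU3)⁻¹ : SU3) : Mat) = 1 := by
  rw [inv_one]; rfl

theorem Hd_one' : ((1 : SU3) : Mat) = 1 := rfl

theorem Hd_conj (M : Mat) (g : SU3) : Hd_t M * Hd_i g * (Hd_t M)⁻¹ =
    ⟨M - (g : Mat) * M * ((g⁻¹ : SU3) : Mat), g⟩ := by
  ext1
  · rw [Aff.mul_v, Aff.mul_v, Aff.mul_l, Aff.inv_v, Hd_t_v, Hd_t_l, Hd_i_v, Hd_i_l, Hd_one,
      Hd_one', one_mul, one_mul, zero_mul, add_zero, mul_one, neg_one_mul, mul_neg, neg_mul,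
      ← sub_eq_add_neg]
  · rw [Aff.mul_l, Aff.mul_l, Aff.inv_l, Hd_t_l, Hd_i_l, inv_one, mul_one, one_mul]

theorem Hd_conj_l (M : Mat) (x : Aff) : ((Hd_t M)⁻¹ * x * Hd_t M).l = x.l := by
  rw [Aff.mul_l, Aff.mul_l, Aff.inv_l, Hd_t_l, inv_one, mul_one, one_mul]

theorem Hd_t_add (M N : Mat) : Hd_t M * Hd_t N = Hd_t (M + N) := by
  ext1
  · rw [Aff.mul_v, Hd_t_v, Hd_t_v, Hd_t_v, Hd_t_l, Hd_one, Hd_one', one_mul, mul_one]
  · rw [Aff.mul_l, Hd_t_l, Hd_t_l, Hd_t_l, mul_one]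

/-- `Tor` is preserved by homomorphisms -/
theorem Hd_Tor_map {Γ Γ' : Type} [Group Γ] [Group Γ'] (f : Γ →* Γ') (k : ℕ) (a b : Γ)
    (h : Tor k a b) : Tor k (f a) (f b) := by
  obtain ⟨h1, h2⟩ := h
  refine ⟨?_, ?_⟩
  · rw [← map_mul, ← map_pow, ← map_inv, ← map_mul, ← map_mul, ← h1]
  · rw [← map_mul, ← map_pow, ← map_pow, h2]

theorem Hd_Tor_conj {Γ : Type} [Group Γ] (g : Γ) (k : ℕ) (a b : Γ)
    (h : Tor k a b) : Tor k (g⁻¹ * a * g) (g⁻¹ * b * g) := by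
  have := Hd_Tor_map (MulAut.conj g⁻¹).toMonoidHom k a b h
  simpa [MulAut.conj_apply] using this

theorem Hd_conj_pow {Γ : Type} [Group Γ] (g a b : Γ) (m : ℕ) :
    ((g⁻¹ * a * g) * (g⁻¹ * b * g)) ^ m = g⁻¹ * (a * b) ^ m * g := by
  have e : (g⁻¹ * a * g) * (g⁻¹ * b * g) = g⁻¹ * (a * b) * g⁻¹⁻¹ := by group
  rw [e, conj_pow]
  group

/-- the numbers `e(u_i)` are different -/
theorem Hd_dist (hEe : StEe) (u v : Fin 3 → ℝ) (h : Lace u v) :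
    ∀ i j, i ≠ j → ee (u i) ≠ ee (u j) := by
  obtain ⟨h0, h1, h2, h3, h4, h5, _⟩ := h
  have key : ∀ i j : Fin 3, u i < u j → u j < u i + 1 → ee (u i) ≠ ee (u j) := by
    intro i j hij hji he
    obtain ⟨m, hm⟩ := (hEe.2.2.1 (u i) (u j)).1 he
    have e1 : (m : ℝ) < 0 := by linarith
    have e2 : (-1 : ℝ) < m := by linarith
    have e3 : m < 0 := by exact_mod_cast e1
    have e4 : -1 < m := by exact_mod_cast e2
    omega
  have k01 := key 0 1 (by linarith) (by linarith)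
  have k02 := key 0 2 (by linarith) (by linarith)
  have k12 := key 1 2 (by linarith) (by linarith)
  intro i j hij
  fin_cases i <;> fin_cases j
  · exact absurd rfl hij
  · exact k01
  · exact k02
  · exact k01.symm
  · exact absurd rfl hij
  · exact k12
  · exact k02.symm
  · exact k12.symm
  · exact absurd rfl hij

/-- from `D` to the coboundary -/
theorem Hd_fin (a b : SU3) (R A D : Mat) (c d : ℂ) (hR : R * R = 1) (hAD : A * D = D * A)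
    (ha : (a : Mat) = c • (R * A)) (hy : ((a * b : SU3) : Mat) = d • A ^ 2)
    (A0 B0 : Mat) (h0 : A0 = D - R * D * R) (hy0 : ((⟨A0, a⟩ : Aff) * ⟨B0, b⟩).v = 0) :
    (⟨A0, a⟩ : Aff) = Hd_t D * Hd_i a * (Hd_t D)⁻¹ ∧
      (⟨B0, b⟩ : Aff) = Hd_t D * Hd_i b * (Hd_t D)⁻¹ := by
  have e1 : (a : Mat) * D = (R * D * R) * (a : Mat) := by
    rw [ha, Matrix.smul_mul, Matrix.mul_smul]
    congr 1
    calc R * A * D = R * (A * D) := Matrix.mul_assoc _ _ _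
      _ = R * (D * A) := by rw [hAD]
      _ = R * D * (1 * A) := by rw [one_mul, Matrix.mul_assoc]
      _ = R * D * ((R * R) * A) := by rw [hR]
      _ = R * D * R * (R * A) := by simp only [Matrix.mul_assoc]
  have e2 : (a : Mat) * D * ((a⁻¹ : SU3) : Mat) = R * D * R := by
    rw [e1, Matrix.mul_assoc, Aff_inv', Matrix.mul_one]
  have e3 : (⟨A0, a⟩ : Aff) = Hd_t D * Hd_i a * (Hd_t D)⁻¹ := by
    rw [Hd_conj, e2, h0]
  have e4 : ((a * b : SU3) : Mat) * D = D * ((a * b : SU3) : Mat) := by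
    rw [hy, Matrix.smul_mul, Matrix.mul_smul]
    congr 1
    rw [sq, Matrix.mul_assoc, hAD, ← Matrix.mul_assoc, hAD, Matrix.mul_assoc]
  have e5 : ((⟨A0, a⟩ : Aff) * ⟨B0, b⟩) = Hd_t D * Hd_i (a * b) * (Hd_t D)⁻¹ := by
    rw [Hd_conj]
    ext1
    · rw [hy0]
      show (0 : Mat) = D - ((a * b : SU3) : Mat) * D * (((a * b)⁻¹ : SU3) : Mat)
      rw [e4, Matrix.mul_assoc, Aff_inv', Matrix.mul_one, sub_self]
    · rfl
  refine ⟨e3, ?_⟩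
  have e6 : (⟨B0, b⟩ : Aff) = (⟨A0, a⟩ : Aff)⁻¹ * ((⟨A0, a⟩ : Aff) * ⟨B0, b⟩) := by
    group
  rw [e6, e5, e3, map_mul]
  group

theorem pr_Hd : StHd := by
  intro hEe hLw hLp hLi hLs hLr hLd hYk hTq hSm hHa hHb hHc hHt k t n p a b A0 B0 hD hM hI hT
  have hLace := hLd k t n p hD
  have hw : ∀ i, 0 < ww (uu k n) (vv k p) i := hLw _ _ hLace
  have hws : ∑ i, ww (uu k n) (vv k p) i = 1 := hLs hEe hLw hLp hLi _ _ hLace
  obtain ⟨_, hRR, _⟩ := hLr (ww (uu k n) (vv k p)) (fun i => (hw i).le) hws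
  have hdist := Hd_dist hEe _ _ hLace
  obtain ⟨hMa, hMab⟩ := hM
  obtain ⟨y1, y2, y3⟩ := hYk hEe k t n p _ hD hMab
  have hζ : ee ((t.val : ℝ) / 3) ≠ 0 := hEe.2.2.2.2.2.2.1 _
  generalize ee ((t.val : ℝ) / 3) = ζ at hMa hMab y3 hζ
  generalize hu : uu k n = u at *
  generalize hv : vv k p = v at *
  generalize hRdef : rR (ww u v) = R at *
  -- the linear part of `y^(-k)`
  have hα : ((((a * b) ^ k)⁻¹ : SU3) : Mat) = dA u := by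
    have e0 : (((a * b) ^ k : SU3) : Mat) = ((a * b : SU3) : Mat) ^ k := rfl
    calc ((((a * b) ^ k)⁻¹ : SU3) : Mat)
        = ((((a * b) ^ k)⁻¹ : SU3) : Mat) * ((((a * b) ^ k : SU3) : Mat) * dA u) := by
          rw [e0, y1, Matrix.mul_one]
      _ = dA u := by rw [← Matrix.mul_assoc, Aff_inv, Matrix.one_mul]
  have h0 : ((⟨A0, a⟩ * ⟨B0, b⟩ : Aff) ^ (2 * k + 1)).v = 0 := hHa hSm hTq k a b A0 B0 hI hT
  have hl : ((⟨A0, a⟩ * ⟨B0, b⟩ : Aff) ^ k)⁻¹.l = ((a * b) ^ k)⁻¹ := by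
    rw [Aff.inv_l, Hd_pow_l]
    rfl
  have hpow : ((((⟨A0, a⟩ * ⟨B0, b⟩ : Aff) ^ k)⁻¹) ^ (2 * k + 1)).v = 0 := by
    have e : (((⟨A0, a⟩ * ⟨B0, b⟩ : Aff) ^ k)⁻¹) ^ (2 * k + 1) =
        (((⟨A0, a⟩ * ⟨B0, b⟩ : Aff) ^ (2 * k + 1)) ^ k)⁻¹ := by
      rw [inv_pow, ← pow_mul, ← pow_mul, mul_comm]
    rw [e, Hd_eq_i _ h0, ← map_pow, ← map_inv]
    exact Hd_i_v _
  obtain ⟨X, hX⟩ := hHb hEe u (((a * b) ^ k)⁻¹) (((⟨A0, a⟩ * ⟨B0, b⟩ : Aff) ^ k)⁻¹).v (2 * k + 1)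
    (Nat.succ_pos _) hdist hα (by
      rw [← hl]
      exact hpow)
  have hs : ((⟨A0, a⟩ * ⟨B0, b⟩ : Aff) ^ k)⁻¹ = Hd_t X * Hd_i (((a * b) ^ k)⁻¹) * (Hd_t X)⁻¹ := by
    rw [Hd_conj]
    ext1
    · exact hX
    · exact hl
  -- conjugate with the translation
  set τ := Hd_t X with hτ
  obtain ⟨A1, hA1⟩ : ∃ A1, τ⁻¹ * (⟨A0, a⟩ : Aff) * τ = ⟨A1, a⟩ :=
    ⟨(τ⁻¹ * (⟨A0, a⟩ : Aff) * τ).v, by
      ext1
      · rfl
      · exact Hd_conj_l X _⟩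
  obtain ⟨B1, hB1⟩ : ∃ B1, τ⁻¹ * (⟨B0, b⟩ : Aff) * τ = ⟨B1, b⟩ :=
    ⟨(τ⁻¹ * (⟨B0, b⟩ : Aff) * τ).v, by
      ext1
      · rfl
      · exact Hd_conj_l X _⟩
  have hT' : Tor k (⟨A1, a⟩ : Aff) ⟨B1, b⟩ := by
    rw [← hA1, ← hB1]
    exact Hd_Tor_conj τ k _ _ hT
  have h0' : ((⟨A1, a⟩ * ⟨B1, b⟩ : Aff) ^ (2 * k + 1)).v = 0 := hHa hSm hTq k a b A1 B1 hI hT'
  have hyk : (⟨A1, a⟩ * ⟨B1, b⟩ : Aff) ^ k = Hd_i ((a * b) ^ k) := by
    rw [← hA1, ← hB1, Hd_conj_pow]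
    have e : (⟨A0, a⟩ * ⟨B0, b⟩ : Aff) ^ k = (τ * Hd_i (((a * b) ^ k)⁻¹) * τ⁻¹)⁻¹ := by
      rw [← hs, inv_inv]
    rw [e, map_inv]
    group
  have hyv : (⟨A1, a⟩ * ⟨B1, b⟩ : Aff).v = 0 := by
    have e : (⟨A1, a⟩ * ⟨B1, b⟩ : Aff) = (⟨A1, a⟩ * ⟨B1, b⟩ : Aff) ^ (2 * k + 1) *
        (((⟨A1, a⟩ * ⟨B1, b⟩ : Aff) ^ k)⁻¹) ^ 2 := by
      generalize (⟨A1, a⟩ * ⟨B1, b⟩ : Aff) = y
      rw [inv_pow, ← pow_mul, eq_mul_inv_iff_mul_eq, ← pow_succ', mul_comm k 2]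
    rw [e, Hd_eq_i _ h0', hyk, ← map_inv, ← map_pow, ← map_mul]
    exact Hd_i_v _
  obtain ⟨q1, q2, _, _⟩ := hTq Aff k (⟨A1, a⟩ : Aff) ⟨B1, b⟩ hT'
  -- `R A1 = - A1 R`
  have hc : ((a * (a * b) ^ k : SU3) : Mat) = (-ζ ^ 2) • R := by
    have e0 : ((a * (a * b) ^ k : SU3) : Mat) = (a : Mat) * ((a * b : SU3) : Mat) ^ k := rfl
    rw [e0, hMa, Matrix.smul_mul, Matrix.mul_assoc, y2, Matrix.mul_one]
  have hcv : (⟨A1, a⟩ * (⟨A1, a⟩ * ⟨B1, b⟩ : Aff) ^ k : Aff) = ⟨A1, a * (a * b) ^ k⟩ := by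
    rw [hyk]
    ext1
    · rw [Aff.mul_v, Hd_i_v, mul_zero, zero_mul, add_zero]
    · rfl
  have hsq : A1 + ((a * (a * b) ^ k : SU3) : Mat) * A1 * (((a * (a * b) ^ k)⁻¹ : SU3) : Mat) =
      0 := by
    have e1 : ((⟨A1, a * (a * b) ^ k⟩ : Aff) ^ 2).v = 0 := by
      rw [← hcv, q1]
      exact h0'
    rw [sq, Aff.mul_v] at e1
    exact e1
  have hanti : R * A1 = -(A1 * R) := by
    have e1 : A1 * ((a * (a * b) ^ k : SU3) : Mat) + ((a * (a * b) ^ k : SU3) : Mat) * A1 = 0 := by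
      have e2 := congrArg (fun M : Mat => M * ((a * (a * b) ^ k : SU3) : Mat)) hsq
      simp only [Matrix.add_mul, Matrix.zero_mul] at e2
      rw [Matrix.mul_assoc (((a * (a * b) ^ k : SU3) : Mat) * A1), Aff_inv, Matrix.mul_one] at e2
      exact e2
    rw [hc, Matrix.mul_smul, Matrix.smul_mul, ← smul_add] at e1
    have e3 : A1 * R + R * A1 = 0 := by
      rcases smul_eq_zero.1 e1 with h | h
      · exact absurd (neg_eq_zero.1 h) (pow_ne_zero 2 hζ)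
      · exact h
    exact eq_neg_of_add_eq_zero_right e3
  -- the traces
  have htr : ∀ j, 1 ≤ j → j ≤ 3 → Matrix.trace (A1 * (R * dA u) ^ j) = 0 := by
    intro j _ _
    have e1 := hHt a A1 (4 * k + 3) (Nat.succ_pos _) (by
      rw [← q2]
      exact h0') j
    rw [hMa, smul_pow, Matrix.mul_smul, Matrix.trace_smul, smul_eq_mul] at e1
    rcases mul_eq_zero.1 e1 with h | h
    · exact absurd h (pow_ne_zero j (neg_ne_zero.2 (pow_ne_zero 2 hζ)))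
    · exact h
  obtain ⟨x, hx⟩ := hHc hEe hLr u (ww u v) A1 hdist hw hws (by rw [hRdef]; exact hanti)
    (by rw [hRdef]; exact htr)
  rw [hRdef] at hx
  have hAD : dA u * Matrix.diagonal x = Matrix.diagonal x * dA u := by
    unfold dA
    rw [Matrix.diagonal_mul_diagonal, Matrix.diagonal_mul_diagonal]
    congr 1
    funext i
    exact mul_comm _ _
  obtain ⟨f1, f2⟩ := Hd_fin a b R (dA u) (Matrix.diagonal x) (-ζ ^ 2) ζ hRR hAD hMa hMab A1 B1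
    hx hyv
  -- back
  have g1 : (⟨A0, a⟩ : Aff) = Hd_t (X + Matrix.diagonal x) * Hd_i a *
      (Hd_t (X + Matrix.diagonal x))⁻¹ := by
    rw [← Hd_t_add, ← hτ]
    have e : (⟨A0, a⟩ : Aff) = τ * (τ⁻¹ * (⟨A0, a⟩ : Aff) * τ) * τ⁻¹ := by group
    rw [e, hA1, f1]
    group
  have g2 : (⟨B0, b⟩ : Aff) = Hd_t (X + Matrix.diagonal x) * Hd_i b *
      (Hd_t (X + Matrix.diagonal x))⁻¹ := by
    rw [← Hd_t_add, ← hτ]
    have e : (⟨B0, b⟩ : Aff) = τ * (τ⁻¹ * (⟨B0, b⟩ : Aff) * τ) * τ⁻¹ := by group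
    rw [e, hB1, f2]
    group
  rw [Hd_conj] at g1 g2
  exact ⟨X + Matrix.diagonal x, congrArg Aff.v g1, congrArg Aff.v g2⟩

end Pool.Agent.CM
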