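import Pool.Agent.Work.MP_8590b5_gt.CM.Stmts4

/-!
# Block CM, item Hf: from pairs to the group
-/

namespace Pool.Agent.CM

open Finset

/-- The elements of SU(3) which map a subspace into itself. -/
private def Hf_stab (W : Submodule ℂ (Fin 3 → ℂ)) : Subgroup SU3 where
  carrier := {a | ∀ v ∈ W, (a : Mat).mulVec v ∈ W}
  mul_mem' := by
    intro a b ha hb v hv
    rw [Aff_aux, ← Matrix.mulVec_mulVec]
    exact ha _ (hb _ hv)
  one_mem' := by
    intro v hv
    have h1 : ((1 : SU3) : Mat) = 1 := rfl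
    rw [h1, Matrix.one_mulVec]
    exact hv
  inv_mem' := by
    intro a ha v hv
    have hinv : ((a⁻¹ : SU3) : Mat) * (a : Mat) = 1 := Aff_inv a
    let f : W →ₗ[ℂ] W := ((a : Mat).mulVecLin).restrict (fun v hv => ha v hv)
    have hf : Function.Injective f := by
      intro x y hxy
      have h2 : (a : Mat).mulVec x.1 = (a : Mat).mulVec y.1 := congrArg Subtype.val hxy
      have h3 := congrArg (fun z => ((a⁻¹ : SU3) : Mat).mulVec z) h2
      simp only [Matrix.mulVec_mulVec, hinv, Matrix.one_mulVec] at h3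
      exact Subtype.ext h3
    obtain ⟨y, hy⟩ := (LinearMap.injective_iff_surjective.1 hf) ⟨v, hv⟩
    have h4 : (a : Mat).mulVec y.1 = v := congrArg Subtype.val hy
    rw [← h4, Matrix.mulVec_mulVec, hinv, Matrix.one_mulVec]
    exact y.2

private theorem Hf_range {G : Type} {rels : Set (FreeGroup ℕ)} [Group G]
    (ρ : PresentedGroup rels →* G) (H : Subgroup G)
    (h : ∀ p, ρ (PresentedGroup.of p) ∈ H) (g : PresentedGroup rels) : ρ g ∈ H := by
  have h1 : Subgroup.closure (Set.range (PresentedGroup.of (rels := rels))) ≤ H.comap ρ := by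
    rw [Subgroup.closure_le]
    rintro _ ⟨p, rfl⟩
    exact h p
  rw [PresentedGroup.closure_range_of] at h1
  exact h1 (Subgroup.mem_top g)

private theorem Hf_col (hCh : ChAt) (hCk : CkAt) {N : ℕ} {J : Finset ℕ} (hJ : J ⊆ range N)
    {Γ : Type} [Group Γ] (ρ : (lnk N).grp (sub J) →* Γ) :
    Tor (N - J.card) (ρ (PresentedGroup.of 0)) (ρ (PresentedGroup.of 1)) ∧
    (∀ i < N, ρ (PresentedGroup.of (i + 2)) =
      cval J (ρ (PresentedGroup.of 0)) (ρ (PresentedGroup.of 1)) i) ∧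
    ∀ p, N + 2 ≤ p → ρ (PresentedGroup.of p) = 1 := by
  have hcol : Col (lnk N) (sub J) (fun p => ρ (PresentedGroup.of p)) :=
    (hCh (lnk N) (sub J) Γ _).2 ⟨ρ, fun _ => rfl⟩
  exact (hCk Γ N J _ hJ).1 hcol

private theorem Hf_irr (hCh : ChAt) (hCk : CkAt) (hGc : StGc) {N : ℕ} {J : Finset ℕ}
    (hJ : J ⊆ range N) (ρ : (lnk N).grp (sub J) →* SU3) (h : Irr ρ) :
    IrrP (ρ (PresentedGroup.of 0)) (ρ (PresentedGroup.of 1)) := by
  obtain ⟨h1, h2, h3⟩ := Hf_col hCh hCk hJ ρ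
  intro W ha hb
  refine h W (fun g => ?_)
  have hcl : Subgroup.closure {ρ (PresentedGroup.of 0), ρ (PresentedGroup.of 1)} ≤
      Hf_stab W := by
    rw [Subgroup.closure_le]
    rintro x (rfl | rfl)
    · exact ha
    · exact hb
  have hm : ρ g ∈ Subgroup.closure {ρ (PresentedGroup.of 0), ρ (PresentedGroup.of 1)} := by
    refine Hf_range ρ _ (fun p => ?_) g
    rcases Nat.lt_or_ge p 2 with hp | hp
    · interval_cases p
      · exact Subgroup.subset_closure (Set.mem_insert _ _)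
      · exact Subgroup.subset_closure (Set.mem_insert_of_mem _ rfl)
    · obtain ⟨i, rfl⟩ : ∃ i, p = i + 2 := ⟨p - 2, by omega⟩
      rcases Nat.lt_or_ge i N with hi | hi
      · rw [h2 i hi]
        exact (hGc SU3 J _ _ i).2
      · rw [h3 (i + 2) (by omega)]
        exact one_mem _
  exact hcl hm

private theorem Hf_ext (hCh : ChAt) (hCk : CkAt) {N : ℕ} {J : Finset ℕ} (hJ : J ⊆ range N)
    {Γ : Type} [Group Γ] (φ ψ : (lnk N).grp (sub J) →* Γ)
    (h0 : φ (PresentedGroup.of 0) = ψ (PresentedGroup.of 0))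
    (h1 : φ (PresentedGroup.of 1) = ψ (PresentedGroup.of 1)) : φ = ψ := by
  obtain ⟨-, hφ2, hφ3⟩ := Hf_col hCh hCk hJ φ
  obtain ⟨-, hψ2, hψ3⟩ := Hf_col hCh hCk hJ ψ
  apply PresentedGroup.ext
  intro p
  rcases Nat.lt_or_ge p 2 with hp | hp
  · interval_cases p
    · exact h0
    · exact h1
  · obtain ⟨i, rfl⟩ : ∃ i, p = i + 2 := ⟨p - 2, by omega⟩
    rcases Nat.lt_or_ge i N with hi | hi
    · rw [hφ2 i hi, hψ2 i hi, h0, h1]
    · rw [hφ3 (i + 2) (by omega), hψ3 (i + 2) (by omega)]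

theorem pr_Hf : StHf := by
  intro hCh hCk hGc hX N J hJ ρ hρ c hc
  let φ : (lnk N).grp (sub J) →* Aff := MonoidHom.mk' (fun g => ⟨c g, ρ g⟩) (by
    intro g h
    ext1
    · rw [Aff.mul_v]
      exact hc g h
    · rw [Aff.mul_l]
      exact map_mul ρ g h)
  have hT : Tor (N - J.card) (⟨c (PresentedGroup.of 0), ρ (PresentedGroup.of 0)⟩ : Aff)
      ⟨c (PresentedGroup.of 1), ρ (PresentedGroup.of 1)⟩ := (Hf_col hCh hCk hJ φ).1
  obtain ⟨X, hX1, hX2⟩ := hX (N - J.card) _ _ _ _ (Hf_irr hCh hCk hGc hJ ρ hρ) hT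
  let ψ : (lnk N).grp (sub J) →* Aff := MonoidHom.mk'
    (fun g => ⟨X - (ρ g : Mat) * X * ((ρ g)⁻¹ : SU3), ρ g⟩) (by
    intro g h
    ext1
    · rw [Aff.mul_v]
      simp only [map_mul, mul_inv_rev, Aff_aux, Matrix.mul_sub, Matrix.sub_mul,
        Matrix.mul_assoc]
      abel
    · rw [Aff.mul_l]
      exact map_mul ρ g h)
  have hφψ : φ = ψ := by
    refine Hf_ext hCh hCk hJ φ ψ ?_ ?_
    · show (⟨c (PresentedGroup.of 0), ρ (PresentedGroup.of 0)⟩ : Aff) =
        ⟨X - (ρ (PresentedGroup.of 0) : Mat) * X * ((ρ (PresentedGroup.of 0))⁻¹ : SU3),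
          ρ (PresentedGroup.of 0)⟩
      ext1
      · exact hX1
      · rfl
    · show (⟨c (PresentedGroup.of 1), ρ (PresentedGroup.of 1)⟩ : Aff) =
        ⟨X - (ρ (PresentedGroup.of 1) : Mat) * X * ((ρ (PresentedGroup.of 1))⁻¹ : SU3),
          ρ (PresentedGroup.of 1)⟩
      ext1
      · exact hX2
      · rfl
  refine ⟨X, fun g => ?_⟩
  have h1 : (φ g).v = (ψ g).v := by rw [hφψ]
  exact h1

end Pool.Agent.CM
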