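import Pool.Agent.Work.MP_8590b5_gt.CM.Stmts4

/-! # Block CM, item Ht -/

namespace Pool.Agent.CM

open Finset

private theorem Ht_l (x : Aff) (m : ℕ) : (x ^ m).l = x.l ^ m := by
  induction m with
  | zero => rfl
  | succ m ih => rw [pow_succ, Aff.mul_l, ih, pow_succ]

private theorem Ht_coe (g : SU3) (m : ℕ) : ((g ^ m : SU3) : Mat) = (g : Mat) ^ m := by
  induction m with
  | zero => rfl
  | succ m ih => rw [pow_succ, Aff_aux, ih, pow_succ]

private theorem Ht_tr (a : SU3) (ξ : Mat) (j : ℕ) (m : ℕ) :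
    Matrix.trace (((⟨ξ, a⟩ : Aff) ^ m).v * (a : Mat) ^ j) = m * Matrix.trace (ξ * (a : Mat) ^ j) := by
  induction m with
  | zero =>
    rw [pow_zero, Aff.one_v]; simp
  | succ m ih =>
    rw [pow_succ, Aff.mul_v, Matrix.add_mul, Matrix.trace_add, ih, Ht_l]
    have h1 : ((a ^ m : SU3) : Mat) * ξ * (((a ^ m)⁻¹ : SU3) : Mat) * (a : Mat) ^ j =
        ((a ^ m : SU3) : Mat) * (ξ * ((((a ^ m)⁻¹ : SU3) : Mat) * (a : Mat) ^ j)) := by
      simp only [Matrix.mul_assoc]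
    have h2 : (((a ^ m)⁻¹ : SU3) : Mat) * (a : Mat) ^ j * ((a ^ m : SU3) : Mat) = (a : Mat) ^ j := by
      rw [← Ht_coe, ← Aff_aux, ← Aff_aux]
      congr 1
      have : Commute (a ^ j) (a ^ m) := (Commute.refl a).pow_pow _ _
      rw [mul_assoc, this.eq, ← mul_assoc, inv_mul_cancel, one_mul]
    change (m : ℂ) * Matrix.trace (ξ * (a : Mat) ^ j) +
      Matrix.trace (((a ^ m : SU3) : Mat) * ξ * (((a ^ m)⁻¹ : SU3) : Mat) * (a : Mat) ^ j) = _
    rw [h1, Matrix.trace_mul_comm ((a ^ m : SU3) : Mat), Matrix.mul_assoc, h2]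
    push_cast
    ring

theorem pr_Ht : StHt := by
  intro a ξ m hm h j
  have h1 := Ht_tr a ξ j m
  rw [h] at h1
  simp at h1
  rcases h1 with h1 | h1
  · omega
  · exact h1

end Pool.Agent.CM
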