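import Pool.Agent.Work.MP_8590b5_gt.CM.Stmts2

/-!
# Block CM, item Ia (helper40)
-/

namespace Pool.Agent.CM

open Finset

private theorem Ia_single (α : Fin 3 → ℂ) (hα : ∀ i j, i ≠ j → α i ≠ α j)
    (W : Submodule ℂ (Fin 3 → ℂ)) (hW : ∀ v ∈ W, (fun l => α l * v l) ∈ W)
    (v : Fin 3 → ℂ) (hv : v ∈ W) (i : Fin 3) (c : ℂ) (hvi : v i ≠ 0) :
    (Pi.single i c : Fin 3 → ℂ) ∈ W := by
  have hD : ∀ (b : ℂ) (x : Fin 3 → ℂ), x ∈ W → (fun l => (α l - b) * x l) ∈ W := by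
    intro b x hx
    have h := W.sub_mem (hW x hx) (W.smul_mem b hx)
    have e : (fun l => (α l - b) * x l) = (fun l => α l * x l) - b • x := by
      funext l
      simp [sub_mul]
    rw [e]
    exact h
  obtain ⟨j, k, hij, hik, hall⟩ : ∃ j k : Fin 3, i ≠ j ∧ i ≠ k ∧ ∀ l, l = i ∨ l = j ∨ l = k := by
    have h : ∀ i : Fin 3, ∃ j k : Fin 3, i ≠ j ∧ i ≠ k ∧ ∀ l, l = i ∨ l = j ∨ l = k := by decide
    exact h i
  have h1 := hD (α j) _ (hD (α k) v hv)
  have hc : (α i - α j) * ((α i - α k) * v i) ≠ 0 :=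
    mul_ne_zero (sub_ne_zero.2 (hα i j hij)) (mul_ne_zero (sub_ne_zero.2 (hα i k hik)) hvi)
  have h2 := W.smul_mem (c * ((α i - α j) * ((α i - α k) * v i))⁻¹) h1
  have e : (Pi.single i c : Fin 3 → ℂ) = (c * ((α i - α j) * ((α i - α k) * v i))⁻¹) •
      (fun l => (α l - α j) * ((α l - α k) * v l)) := by
    funext l
    rcases hall l with rfl | rfl | rfl
    · simp only [Pi.single_eq_same, Pi.smul_apply, smul_eq_mul]
      rw [mul_assoc, inv_mul_cancel₀ hc, mul_one]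
    · simp [hij.symm]
    · simp [hik.symm]
  rw [e]
  exact h2

theorem pr_Ia : StIa := by
  intro u w hu hw W hA hR
  have hα : ∀ v ∈ W, (fun l => ee (u l) * v l) ∈ W := by
    intro v hv
    have h := hA v hv
    have e : (dA u).mulVec v = fun l => ee (u l) * v l := by
      funext l
      simp [dA, Matrix.mulVec_diagonal]
    rwa [e] at h
  by_cases hb : W = ⊥
  · exact Or.inl hb
  right
  obtain ⟨z, hz, hz0⟩ := W.ne_bot_iff.1 hb
  obtain ⟨i, hi⟩ : ∃ i, z i ≠ 0 := by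
    by_contra h
    push Not at h
    exact hz0 (funext h)
  have hei : (Pi.single i 1 : Fin 3 → ℂ) ∈ W := Ia_single _ hu W hα z hz i 1 hi
  have hs : (fun l => 2 * (Real.sqrt (w l) : ℂ) * (Real.sqrt (w i) : ℂ)) ∈ W := by
    have h := W.sub_mem hei (hR _ hei)
    have e : (fun l => 2 * (Real.sqrt (w l) : ℂ) * (Real.sqrt (w i) : ℂ)) =
        (Pi.single i 1 : Fin 3 → ℂ) - (rR w).mulVec (Pi.single i 1) := by
      funext l
      by_cases hli : l = i
      · subst hli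
        simp [rR]
      · simp [rR, hli]
    rw [e]
    exact h
  have hall : ∀ j (c : ℂ), (Pi.single j c : Fin 3 → ℂ) ∈ W := by
    intro j c
    refine Ia_single _ hu W hα _ hs j c ?_
    have h1 : (Real.sqrt (w j) : ℂ) ≠ 0 := by
      exact_mod_cast (Real.sqrt_pos.2 (hw j)).ne'
    have h2 : (Real.sqrt (w i) : ℂ) ≠ 0 := by
      exact_mod_cast (Real.sqrt_pos.2 (hw i)).ne'
    exact mul_ne_zero (mul_ne_zero two_ne_zero h1) h2
  rw [Submodule.eq_top_iff']
  intro v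
  have e : v = ∑ j, (Pi.single j (v j) : Fin 3 → ℂ) := (Finset.univ_sum_single v).symm
  rw [e]
  exact W.sum_mem fun j _ => hall j (v j)

end Pool.Agent.CM
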