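import Pool.Agent.Work.MP_8590b5_gt.CM.Stmts2

/-!
# Block CM, item Inj (helper73): the data are determined by the conjugacy class
-/

namespace Pool.Agent.CM

open Finset

theorem Inj_inv1 (U : SU3) : (U : Mat) * ((U⁻¹ : SU3) : Mat) = 1 := by
  have h := congrArg (Subtype.val) (mul_inv_cancel U)
  exact h

theorem Inj_inv2 (U : SU3) : ((U⁻¹ : SU3) : Mat) * (U : Mat) = 1 := by
  have h := congrArg (Subtype.val) (inv_mul_cancel U)
  exact h

theorem Inj_det (U : SU3) (M : Mat) (z : ℂ) :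
    Matrix.det (z • (1 : Mat) - (U : Mat) * M * ((U⁻¹ : SU3) : Mat)) =
      Matrix.det (z • (1 : Mat) - M) := by
  have h1 : z • (1 : Mat) - (U : Mat) * M * ((U⁻¹ : SU3) : Mat) =
      (U : Mat) * (z • (1 : Mat) - M) * ((U⁻¹ : SU3) : Mat) := by
    rw [mul_sub, sub_mul, mul_smul_comm, mul_one, smul_mul_assoc, Inj_inv1]
  rw [h1, Matrix.det_mul, Matrix.det_mul, mul_comm (Matrix.det (U : Mat)), mul_assoc,
    ← Matrix.det_mul, Inj_inv1, Matrix.det_one, mul_one]

theorem Inj_pow (U y : SU3) (m : ℕ) :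
    (((U * y * U⁻¹ : SU3) : Mat)) ^ m = (U : Mat) * (y : Mat) ^ m * ((U⁻¹ : SU3) : Mat) := by
  have h1 : (U * y * U⁻¹) ^ m = U * y ^ m * U⁻¹ := conj_pow
  have h2 := congrArg (Subtype.val) h1
  exact h2

theorem Inj_diag (u : Fin 3 → ℝ) (z : ℂ) :
    Matrix.det (z • (1 : Mat) - dA u) = ∏ j, (z - ee (u j)) := by
  have h1 : z • (1 : Mat) - dA u = Matrix.diagonal (fun j => z - ee (u j)) := by
    ext i j
    by_cases h : i = j
    · subst h
      simp [dA]
    · simp [dA, h]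
  rw [h1, Matrix.det_diagonal]

theorem Inj_smul {c d : ℂ} (h : c • (1 : Mat) = d • (1 : Mat)) : c = d := by
  have h1 := congrFun (congrFun h 0) 0
  simpa using h1

/-- Equal products of linear factors. -/
theorem Inj_root (hee : StEe) {x y : Fin 3 → ℝ}
    (h : ∀ z : ℂ, ∏ j, (z - ee (x j)) = ∏ j, (z - ee (y j))) (j : Fin 3) :
    ∃ i : Fin 3, ∃ m : ℤ, y j = x i + m := by
  have h1 : ∏ i, (ee (y j) - ee (x i)) = 0 := by
    rw [h (ee (y j))]
    exact Finset.prod_eq_zero (Finset.mem_univ j) (sub_self _)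
  obtain ⟨i, _, hi⟩ := Finset.prod_eq_zero_iff.mp h1
  exact ⟨i, (hee.2.2.1 _ _).mp (sub_eq_zero.mp hi)⟩

theorem Inj_int {m : ℤ} {x y : ℝ} (h : y = x + m) (h1 : y - x < 1) (h2 : x - y < 1) : m = 0 := by
  have h3 : (m : ℝ) < 1 := by linarith
  have h4 : (-1 : ℝ) < m := by linarith
  have h5 : m < 1 := by exact_mod_cast h3
  have h6 : -1 < m := by exact_mod_cast h4
  omega

theorem Inj_uu {k : ℕ} {a b : ℤ} (h : (a : ℝ) / (3 * (2 * k + 1)) = (b : ℝ) / (3 * (2 * k + 1))) :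
    a = b := by
  have h0 : (3 * (2 * (k : ℝ) + 1)) ≠ 0 := by positivity
  have h1 : (a : ℝ) = b := by
    field_simp at h
    exact h
  exact_mod_cast h1

theorem Inj_vv {k : ℕ} {a b : ℤ} (h : (a : ℝ) / (6 * (4 * k + 3)) = (b : ℝ) / (6 * (4 * k + 3))) :
    a = b := by
  have h0 : (6 * (4 * (k : ℝ) + 3)) ≠ 0 := by positivity
  have h1 : (a : ℝ) = b := by
    field_simp at h
    exact h
  exact_mod_cast h1

theorem Inj_uu_mem {k : ℕ} {a : ℤ} (h0 : 0 ≤ a) (h1 : a < 3 * (2 * (k : ℤ) + 1)) :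
    0 ≤ (a : ℝ) / (3 * (2 * k + 1)) ∧ (a : ℝ) / (3 * (2 * k + 1)) < 1 := by
  have hp : (0 : ℝ) < 3 * (2 * (k : ℝ) + 1) := by positivity
  have h0' : (0 : ℝ) ≤ a := by exact_mod_cast h0
  have h1' : (a : ℝ) < 3 * (2 * (k : ℝ) + 1) := by exact_mod_cast h1
  exact ⟨div_nonneg h0' hp.le, (div_lt_one hp).mpr h1'⟩

theorem pr_Inj : StInj := by
  intro hee hLi hLd hYk k t t' n n' p p' a b U hD hD' hM hM'
  obtain ⟨ha, hab⟩ := hM
  obtain ⟨ha', hab'⟩ := hM'
  have hyy : U * a * U⁻¹ * (U * b * U⁻¹) = U * (a * b) * U⁻¹ := by group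
  obtain ⟨y1, y2, y3⟩ := hYk hee k t n p _ hD hab
  obtain ⟨y1', y2', y3'⟩ := hYk hee k t' n' p' _ hD' hab'
  rw [hyy, Inj_pow] at y1' y2' y3'
  -- the central element
  have hz : ee ((t.val : ℝ) / 3) = ee ((t'.val : ℝ) / 3) := by
    apply Inj_smul
    rw [← y3', y3, mul_smul_comm, mul_one, smul_mul_assoc, Inj_inv1]
  have ht : t = t' := by
    obtain ⟨m, hm⟩ := (hee.2.2.1 _ _).mp hz
    have h1 : (t.val : ℝ) = t'.val + 3 * m := by linarith
    have h2 : (t.val : ℤ) = t'.val + 3 * m := by exact_mod_cast h1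
    have h3 := t.isLt
    have h4 := t'.isLt
    apply Fin.ext
    omega
  subst ht
  -- the eigenvalues of `A`
  have hA : dA (uu k n') = (U : Mat) * dA (uu k n) * ((U⁻¹ : SU3) : Mat) := by
    have h1 : (U : Mat) * ((a * b : SU3) : Mat) ^ k * ((U⁻¹ : SU3) : Mat) *
        ((U : Mat) * dA (uu k n) * ((U⁻¹ : SU3) : Mat)) = 1 := by
      calc (U : Mat) * ((a * b : SU3) : Mat) ^ k * ((U⁻¹ : SU3) : Mat) *
            ((U : Mat) * dA (uu k n) * ((U⁻¹ : SU3) : Mat))
          = (U : Mat) * ((((a * b : SU3) : Mat) ^ k * (((U⁻¹ : SU3) : Mat) * (U : Mat))) *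
              dA (uu k n)) * ((U⁻¹ : SU3) : Mat) := by simp only [mul_assoc]
        _ = 1 := by rw [Inj_inv2, mul_one, y1, mul_one, Inj_inv1]
    calc dA (uu k n') = dA (uu k n') * ((U : Mat) * ((a * b : SU3) : Mat) ^ k *
            ((U⁻¹ : SU3) : Mat) * ((U : Mat) * dA (uu k n) * ((U⁻¹ : SU3) : Mat))) := by
          rw [h1, mul_one]
      _ = (dA (uu k n') * ((U : Mat) * ((a * b : SU3) : Mat) ^ k * ((U⁻¹ : SU3) : Mat))) *
            ((U : Mat) * dA (uu k n) * ((U⁻¹ : SU3) : Mat)) := by simp only [mul_assoc]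
      _ = (U : Mat) * dA (uu k n) * ((U⁻¹ : SU3) : Mat) := by rw [y2', one_mul]
  have hdetA : ∀ z : ℂ, ∏ j, (z - ee (uu k n j)) = ∏ j, (z - ee (uu k n' j)) := by
    intro z
    rw [← Inj_diag, ← Inj_diag, hA, Inj_det]
  have hn' : ∀ j, 0 ≤ n' j ∧ n' j < 3 * (2 * (k : ℤ) + 1) := by
    intro j
    have h0 := hD'.n0
    have h1 := hD'.n01
    have h2 := hD'.n12
    have h3 := hD'.n2
    fin_cases j
    · exact ⟨h0, by simp only [Fin.zero_eta]; omega⟩
    · exact ⟨by simp only [Fin.mk_one]; omega, by simp only [Fin.mk_one]; omega⟩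
    · exact ⟨by simp only [Fin.reduceFinMk]; omega, by simp only [Fin.reduceFinMk]; omega⟩
  have hn : ∀ j, 0 ≤ n j ∧ n j < 3 * (2 * (k : ℤ) + 1) := by
    intro j
    have h0 := hD.n0
    have h1 := hD.n01
    have h2 := hD.n12
    have h3 := hD.n2
    fin_cases j
    · exact ⟨h0, by simp only [Fin.zero_eta]; omega⟩
    · exact ⟨by simp only [Fin.mk_one]; omega, by simp only [Fin.mk_one]; omega⟩
    · exact ⟨by simp only [Fin.reduceFinMk]; omega, by simp only [Fin.reduceFinMk]; omega⟩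
  have hnn : ∀ j, n' j = n 0 ∨ n' j = n 1 ∨ n' j = n 2 := by
    intro j
    obtain ⟨i, m, hm⟩ := Inj_root hee hdetA j
    have hb := Inj_uu_mem (hn i).1 (hn i).2
    have hb' := Inj_uu_mem (hn' j).1 (hn' j).2
    simp only [uu] at hm
    have hm0 := Inj_int hm (by linarith [hb.1, hb'.2]) (by linarith [hb.2, hb'.1])
    rw [hm0, Int.cast_zero, add_zero] at hm
    have h3 := Inj_uu hm
    fin_cases i
    · exact Or.inl h3
    · exact Or.inr (Or.inl h3)
    · exact Or.inr (Or.inr h3)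
  have hneq : n = n' := by
    have h0 := hnn 0
    have h1 := hnn 1
    have h2 := hnn 2
    have e1 := hD.n01
    have e2 := hD.n12
    have e3 := hD'.n01
    have e4 := hD'.n12
    funext j
    fin_cases j
    · simp only [Fin.zero_eta]; omega
    · simp only [Fin.mk_one]; omega
    · simp only [Fin.reduceFinMk]; omega
  subst hneq
  -- the eigenvalues of `B`
  have hc : -(ee ((t.val : ℝ) / 3)) ^ 2 ≠ 0 := neg_ne_zero.mpr (pow_ne_zero _ (hee.2.2.2.2.2.2.1 _))
  have hB : rR (ww (uu k n) (vv k p')) * dA (uu k n) =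
      (U : Mat) * (rR (ww (uu k n) (vv k p)) * dA (uu k n)) * ((U⁻¹ : SU3) : Mat) := by
    have h1 : ((U * a * U⁻¹ : SU3) : Mat) = (U : Mat) * (a : Mat) * ((U⁻¹ : SU3) : Mat) := rfl
    rw [h1, ha, mul_smul_comm, smul_mul_assoc] at ha'
    exact (smul_right_injective _ hc ha').symm
  have hdetB : ∀ z : ℂ, ∏ j, (z - ee (vv k p j)) = ∏ j, (z - ee (vv k p' j)) := by
    intro z
    rw [← hLi _ _ z (hLd k t n p hD), ← hLi _ _ z (hLd k t n p' hD'), hB, Inj_det]
  obtain ⟨a1, a2, a3, a4, a5, a6, a7⟩ := hLd k t n p hD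
  obtain ⟨b1, b2, b3, b4, b5, b6, b7⟩ := hLd k t n p' hD'
  have hv : ∀ i, uu k n 0 < vv k p i ∧ vv k p i < uu k n 0 + 1 := by
    intro i
    fin_cases i
    · exact ⟨a1, by simp only [Fin.zero_eta]; linarith⟩
    · exact ⟨by simp only [Fin.mk_one]; linarith, by simp only [Fin.mk_one]; linarith⟩
    · exact ⟨by simp only [Fin.reduceFinMk]; linarith, by simp only [Fin.reduceFinMk]; linarith⟩
  have hv' : ∀ i, uu k n 0 < vv k p' i ∧ vv k p' i < uu k n 0 + 1 := by
    intro i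
    fin_cases i
    · exact ⟨b1, by simp only [Fin.zero_eta]; linarith⟩
    · exact ⟨by simp only [Fin.mk_one]; linarith, by simp only [Fin.mk_one]; linarith⟩
    · exact ⟨by simp only [Fin.reduceFinMk]; linarith, by simp only [Fin.reduceFinMk]; linarith⟩
  have hvv : ∀ j, vv k p' j = vv k p 0 ∨ vv k p' j = vv k p 1 ∨ vv k p' j = vv k p 2 := by
    intro j
    obtain ⟨i, m, hm⟩ := Inj_root hee hdetB j
    have hb := hv i
    have hb' := hv' j
    have hm0 := Inj_int hm (by linarith [hb.1, hb'.2]) (by linarith [hb.2, hb'.1])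
    rw [hm0, Int.cast_zero, add_zero] at hm
    fin_cases i
    · exact Or.inl hm
    · exact Or.inr (Or.inl hm)
    · exact Or.inr (Or.inr hm)
  have hpe : ∀ j, vv k p' j = vv k p j := by
    intro j
    have h0 := hvv 0
    have h1 := hvv 1
    have h2 := hvv 2
    fin_cases j
    · simp only [Fin.zero_eta]
      rcases h0 with h | h | h
      · exact h
      · exfalso; linarith
      · exfalso; linarith
    · simp only [Fin.mk_one]
      rcases h1 with h | h | h
      · exfalso; linarith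
      · exact h
      · exfalso; linarith
    · simp only [Fin.reduceFinMk]
      rcases h2 with h | h | h
      · exfalso; linarith
      · exfalso; linarith
      · exact h
  refine ⟨rfl, rfl, ?_⟩
  funext j
  have h := hpe j
  simp only [vv] at h
  exact (Inj_vv h).symm

end Pool.Agent.CM
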