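import Pool.Agent.Work.MP_8590b5_gt.CM.Stmts5

/-!
# Block CM, item Is: the surgery groups are the groups of Brieskorn spheres
-/

namespace Pool.Agent.CM

open Finset

private theorem Is_col (hCh : ChAt) (hCk : CkAt) {N : ℕ} {J : Finset ℕ} (hJ : J ⊆ range N)
    {Γ : Type} [Group Γ] (ρ : (lnk N).grp (sub J) →* Γ) :
    Tor (N - J.card) (ρ (PresentedGroup.of 0)) (ρ (PresentedGroup.of 1)) ∧
    (∀ i < N, ρ (PresentedGroup.of (i + 2)) =
      cval J (ρ (PresentedGroup.of 0)) (ρ (PresentedGroup.of 1)) i) ∧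
    ∀ p, N + 2 ≤ p → ρ (PresentedGroup.of p) = 1 := by
  have hcol : Col (lnk N) (sub J) (fun p => ρ (PresentedGroup.of p)) :=
    (hCh (lnk N) (sub J) Γ _).2 ⟨ρ, fun _ => rfl⟩
  exact (hCk Γ N J _ hJ).1 hcol

private theorem Is_ext (hCh : ChAt) (hCk : CkAt) {N : ℕ} {J : Finset ℕ} (hJ : J ⊆ range N)
    {Γ : Type} [Group Γ] (φ ψ : (lnk N).grp (sub J) →* Γ)
    (h0 : φ (PresentedGroup.of 0) = ψ (PresentedGroup.of 0))
    (h1 : φ (PresentedGroup.of 1) = ψ (PresentedGroup.of 1)) : φ = ψ := by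
  obtain ⟨-, hφ2, hφ3⟩ := Is_col hCh hCk hJ φ
  obtain ⟨-, hψ2, hψ3⟩ := Is_col hCh hCk hJ ψ
  apply PresentedGroup.ext
  intro p
  rcases Nat.lt_or_ge p 2 with hp | hp
  · interval_cases p
    · exact h0
    · exact h1
  · obtain ⟨i, rfl⟩ : ∃ i, p = i + 2 := ⟨p - 2, by omega⟩
    rcases Nat.lt_or_ge i N with hi | hi
    · rw [hφ2 i hi, hψ2 i hi, h0, h1]
    · rw [hφ3 (i + 2) (by omega), hψ3 (i + 2) (by omega)]

/-- The relators. -/
private abbrev Is_R (k : ℕ) : Set (FreeGroup Bool) :=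
  {FreeGroup.of true ^ 2 * (FreeGroup.of false ^ (2 * k + 1))⁻¹,
    FreeGroup.of true ^ 2 *
      ((FreeGroup.of true * (FreeGroup.of false ^ k)⁻¹) ^ (4 * k + 3))⁻¹}

private theorem Is_rel1 (k : ℕ) : (PresentedGroup.of true : PresentedGroup (Is_R k)) ^ 2 =
    (PresentedGroup.of false) ^ (2 * k + 1) := by
  have h := PresentedGroup.one_of_mem (rels := Is_R k)
    (x := FreeGroup.of true ^ 2 * (FreeGroup.of false ^ (2 * k + 1))⁻¹) (Set.mem_insert _ _)
  rw [map_mul, map_inv, map_pow, map_pow] at h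
  exact mul_inv_eq_one.1 h

private theorem Is_rel2 (k : ℕ) : (PresentedGroup.of true : PresentedGroup (Is_R k)) ^ 2 =
    (PresentedGroup.of true * (PresentedGroup.of false ^ k)⁻¹) ^ (4 * k + 3) := by
  have h := PresentedGroup.one_of_mem (rels := Is_R k)
    (x := FreeGroup.of true ^ 2 *
      ((FreeGroup.of true * (FreeGroup.of false ^ k)⁻¹) ^ (4 * k + 3))⁻¹)
    (Set.mem_insert_of_mem _ rfl)
  rw [map_mul, map_inv, map_pow, map_pow, map_mul, map_inv, map_pow] at h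
  exact mul_inv_eq_one.1 h

private theorem Is_Tor {Γ : Type} [Group Γ] (k : ℕ) (x y : Γ) (h1 : x ^ 2 = y ^ (2 * k + 1))
    (h2 : x ^ 2 = (x * (y ^ k)⁻¹) ^ (4 * k + 3)) :
    Tor k (x * (y ^ k)⁻¹) ((x * (y ^ k)⁻¹)⁻¹ * y) := by
  have e1 : x * (y ^ k)⁻¹ * ((x * (y ^ k)⁻¹)⁻¹ * y) = y := by group
  have e2 : y = x * x * ((y ^ k)⁻¹ * (y ^ k)⁻¹) := by
    rw [← sq, h1]
    have e3 : y ^ (2 * k + 1) = y * (y ^ k * y ^ k) := by
      rw [← pow_add, ← pow_succ']
      congr 1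
      ring
    rw [e3]
    group
  constructor
  · rw [e1, inv_mul_eq_iff_eq_mul]
    calc y = x * x * ((y ^ k)⁻¹ * (y ^ k)⁻¹) := e2
      _ = x * (y ^ k)⁻¹ * (y ^ k * (x * (y ^ k)⁻¹) * (y ^ k)⁻¹) := by group
  · rw [e1, ← h1, h2]

theorem pr_Is : StIs := by
  intro hCh hCk hTq N J hJ
  obtain ⟨k, hk⟩ : ∃ k, k = N - J.card := ⟨_, rfl⟩
  have h : Nonempty ((lnk N).grp (sub J) ≃* PresentedGroup (Is_R k)) := by
    obtain ⟨x, hx⟩ : ∃ x : PresentedGroup (Is_R k), x = PresentedGroup.of true := ⟨_, rfl⟩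
    obtain ⟨y, hy⟩ : ∃ y : PresentedGroup (Is_R k), y = PresentedGroup.of false := ⟨_, rfl⟩
    have r1 : x ^ 2 = y ^ (2 * k + 1) := by rw [hx, hy]; exact Is_rel1 k
    have r2 : x ^ 2 = (x * (y ^ k)⁻¹) ^ (4 * k + 3) := by rw [hx, hy]; exact Is_rel2 k
    have hT := Is_Tor k x y r1 r2
    obtain ⟨a, ha⟩ : ∃ a, a = x * (y ^ k)⁻¹ := ⟨_, rfl⟩
    obtain ⟨b, hb⟩ : ∃ b, b = a⁻¹ * y := ⟨_, rfl⟩
    rw [← ha, ← hb] at hT
    have hab : a * b = y := by rw [hb]; group
    have hax : a * y ^ k = x := by rw [ha]; group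
    obtain ⟨g, hg⟩ : ∃ g : ℕ → PresentedGroup (Is_R k), ∀ p, g p = if p = 0 then a
        else if p = 1 then b
        else if p < N + 2 then cval J a b (p - 2) else 1 := ⟨_, fun _ => rfl⟩
    have g0 : g 0 = a := by rw [hg, if_pos rfl]
    have g1 : g 1 = b := by rw [hg, if_neg one_ne_zero, if_pos rfl]
    have hcol : Col (lnk N) (sub J) g := by
      refine (hCk _ N J g hJ).2 ⟨?_, ?_, ?_⟩
      · rw [g0, g1, ← hk]
        exact hT
      · intro i hi
        rw [g0, g1, hg, if_neg (by omega), if_neg (by omega), if_pos (by omega),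
          Nat.add_sub_cancel]
      · intro p hp
        rw [hg, if_neg (by omega), if_neg (by omega), if_neg (by omega)]
    obtain ⟨φ, hφ⟩ := (hCh (lnk N) (sub J) _ g).1 hcol
    have hφ0 : φ (PresentedGroup.of 0) = a := by rw [hφ, g0]
    have hφ1 : φ (PresentedGroup.of 1) = b := by rw [hφ, g1]
    -- the inverse
    obtain ⟨x0, hx0⟩ : ∃ x0 : (lnk N).grp (sub J), x0 = PresentedGroup.of 0 := ⟨_, rfl⟩
    obtain ⟨x1, hx1⟩ : ∃ x1 : (lnk N).grp (sub J), x1 = PresentedGroup.of 1 := ⟨_, rfl⟩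
    have hT0 : Tor k x0 x1 := by
      rw [hk, hx0, hx1]
      exact (Is_col hCh hCk hJ (MonoidHom.id _)).1
    obtain ⟨q1, q2, -, -⟩ := hTq _ k x0 x1 hT0
    have hlift : ∀ r ∈ Is_R k, FreeGroup.lift
        (fun c : Bool => if c = true then x0 * (x0 * x1) ^ k else x0 * x1) r = 1 := by
      intro r hr
      rcases hr with rfl | hr
      · rw [map_mul, map_inv, map_pow, map_pow, FreeGroup.lift_apply_of,
          FreeGroup.lift_apply_of, if_pos rfl, if_neg (by decide), q1]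
        exact mul_inv_cancel _
      · rw [Set.mem_singleton_iff] at hr
        rw [hr, map_mul, map_inv, map_pow, map_pow, map_mul, map_inv, map_pow,
          FreeGroup.lift_apply_of, FreeGroup.lift_apply_of, if_pos rfl, if_neg (by decide),
          mul_inv_cancel_right, q1, q2]
        exact mul_inv_cancel _
    obtain ⟨ψ, hψ⟩ : ∃ ψ : PresentedGroup (Is_R k) →* (lnk N).grp (sub J),
        ∀ c, ψ (PresentedGroup.of c) =
          if c = true then x0 * (x0 * x1) ^ k else x0 * x1 :=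
      ⟨PresentedGroup.toGroup hlift, fun c => PresentedGroup.toGroup.of hlift⟩
    have hψx : ψ x = x0 * (x0 * x1) ^ k := by rw [hx, hψ, if_pos rfl]
    have hψy : ψ y = x0 * x1 := by rw [hy, hψ, if_neg (by decide)]
    have hψa : ψ a = x0 := by
      rw [ha, map_mul, map_inv, map_pow, hψx, hψy, mul_inv_cancel_right]
    have hψb : ψ b = x1 := by
      rw [hb, map_mul, map_inv, hψa, hψy, inv_mul_cancel_left]
    have c1 : ψ.comp φ = MonoidHom.id _ := by
      refine Is_ext hCh hCk hJ _ _ ?_ ?_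
      · rw [MonoidHom.comp_apply, hφ0, hψa, hx0]
        rfl
      · rw [MonoidHom.comp_apply, hφ1, hψb, hx1]
        rfl
    have c2 : φ.comp ψ = MonoidHom.id _ := by
      apply PresentedGroup.ext
      intro c
      rw [MonoidHom.comp_apply, hψ]
      cases c
      · rw [if_neg (by decide), map_mul, hx0, hx1, hφ0, hφ1, hab, hy]
        rfl
      · rw [if_pos rfl, map_mul, map_pow, map_mul, hx0, hx1, hφ0, hφ1, hab, hax, hx]
        rfl
    exact ⟨MonoidHom.toMulEquiv φ ψ c1 c2⟩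
  rw [hk] at h
  exact h

end Pool.Agent.CM
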