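import Pool.Agent.Work.MP_8590b5_gt.CM.Stmts1

/-!
# Block CM, item Ka: a surgered crossing circle changes the crossing
-/

set_option autoImplicit false

namespace Pool.Agent.CM

open Finset

theorem Ka_ext {Γ : Type} {s s' : ℕ} {l l' o o' : Γ} (h1 : s = s') (h2 : l = l') (h3 : o = o') :
    (⟨s, l, o⟩ : Str Γ) = ⟨s', l', o'⟩ := by
  subst h1 h2 h3
  rfl

theorem pr_Ka : StKa := by
  intro Γ _ A B C a0 b0 hC hA hB
  obtain ⟨sa, a, la⟩ := A
  obtain ⟨sb, b, lb⟩ := B
  obtain ⟨sc, c, lc⟩ := C
  simp only at hC hA hB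
  subst hC
  have hlon : (cC (⟨sa, a, la⟩ : Str Γ) ⟨sb, b, lb⟩ ⟨sc, c, 1⟩).lon = a⁻¹ * c⁻¹ * b * c := by
    simp only [cC, cD, cB, und]
    group
  constructor
  · rw [hlon]
    show a⁻¹ * c⁻¹ * b * c = c ↔ c = b * a⁻¹
    rw [mul_eq_right]
    constructor
    · intro h
      have h1 : b = c * a := by
        have h2 : c * a * (a⁻¹ * c⁻¹ * b) = c * a := by rw [h, mul_one]
        rw [← h2]
        group
      rw [h1]
      group
    · intro h
      rw [h]
      group
  · intro h
    replace h : c = b * a⁻¹ := h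
    subst h
    refine ⟨?_, ?_, ?_⟩
    · simp only [cC, cD, cB, und]
      refine Ka_ext rfl ?_ ?_
      · group
      · group
    · simp only [cB, und]
      refine Ka_ext rfl ?_ ?_
      · group
      · rw [← mul_assoc, hB, mul_assoc]
    · simp only [cA, cC, cD, cB, und]
      refine Ka_ext rfl ?_ ?_
      · group
      · rw [← hA]
        group

end Pool.Agent.CM
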