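import Pool.Agent.Work.MP_8590b5_gt.CM.Stmts6

/-! # Block CM, item Kc -/

namespace Pool.Agent.CM

open Finset

theorem pr_Kc : StKc := by
  intro Γ _ k a b h
  obtain ⟨h1, h2⟩ := h
  have hb : b = a := by
    rw [mul_comm ((a * b) ^ k) a, mul_assoc, mul_inv_cancel, mul_one] at h1
    exact h1
  subst hb
  have h3 : b ^ (4 * k + 2) = b ^ (4 * k + 3) := by
    rw [← h2, ← pow_two, ← pow_mul]
    congr 1; ring
  have h4 : b = 1 := by
    have : b ^ (4 * k + 3) = b ^ (4 * k + 2) * b := pow_succ _ _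
    rw [this] at h3
    exact (mul_eq_left.1 h3.symm)
  exact ⟨h4, h4⟩

end Pool.Agent.CM
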