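import Pool.Agent.Work.MP_8590b5_gt.CM.Stmts1

/-!
# Block CM, item Ki: an erased crossing circle
-/

namespace Pool.Agent.CM

open Finset

theorem Ki_und_one {Γ : Type} [Group Γ] (A : Str Γ) : und A 1 = A := by
  unfold und
  simp

theorem pr_Ki : StKi := by
  intro Γ _ A B C hC
  have h1 : cB B C = B := by
    unfold cB
    rw [hC, Ki_und_one]
  have h2 : (cC A B C).lab = 1 := by
    unfold cC und
    simp [hC]
  refine ⟨h1, ?_, h2⟩
  unfold cA
  rw [h2, inv_one, Ki_und_one]
  unfold cD
  rw [h1]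

end Pool.Agent.CM
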