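import Pool.Agent.Work.MP_8590b5_gt.CM.Stmts2

/-! # Block CM, item Ld -/

namespace Pool.Agent.CM

open Finset

theorem pr_Ld : StLd := by
  intro k t n p h
  have hq : (0 : ℝ) < 2 * (k : ℝ) + 1 := by positivity
  have hr : (0 : ℝ) < 4 * (k : ℝ) + 3 := by positivity
  have key : ∀ (x y : ℤ), 2 * (4 * (k : ℤ) + 3) * x < (2 * (k : ℤ) + 1) * y →
      (x : ℝ) / (3 * (2 * k + 1)) < (y : ℝ) / (6 * (4 * k + 3)) := by
    intro x y hxy
    have hxy' : 2 * (4 * (k : ℝ) + 3) * x < (2 * (k : ℝ) + 1) * y := by exact_mod_cast hxy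
    rw [div_lt_div_iff₀ (by positivity) (by positivity)]
    nlinarith
  have key' : ∀ (x y : ℤ), (2 * (k : ℤ) + 1) * y < 2 * (4 * (k : ℤ) + 3) * x →
      (y : ℝ) / (6 * (4 * k + 3)) < (x : ℝ) / (3 * (2 * k + 1)) := by
    intro x y hxy
    have hxy' : (2 * (k : ℝ) + 1) * y < 2 * (4 * (k : ℝ) + 3) * x := by exact_mod_cast hxy
    rw [div_lt_div_iff₀ (by positivity) (by positivity)]
    nlinarith
  refine ⟨key _ _ h.i0, key' _ _ h.i0', key _ _ h.i1, key' _ _ h.i1', key _ _ h.i2, ?_, ?_⟩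
  · have := key' _ _ h.i2'
    unfold uu vv
    refine lt_of_lt_of_eq this ?_
    push_cast
    field_simp
  · have hs : (2 * (k : ℝ) + 1) * (p 0 + p 1 + p 2) =
        2 * (4 * (k : ℝ) + 3) * (n 0 + n 1 + n 2) + 3 * (2 * (k : ℝ) + 1) * (4 * (k : ℝ) + 3) := by
      exact_mod_cast h.psum
    unfold uu vv
    field_simp
    nlinarith

end Pool.Agent.CM
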