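import Pool.Agent.Work.MP_8590b5_gt.CM.Stmts2

/-!
# Block CM, item Li (helper40)
-/

namespace Pool.Agent.CM

open Finset

private theorem Li_quarter : ee (1 / 4) = Complex.I := by
  have h : (2 * (Real.pi : ℂ) * ((1 / 4 : ℝ) : ℂ) * Complex.I) = (Real.pi : ℂ) / 2 * Complex.I := by
    push_cast
    ring
  rw [ee, h, Complex.exp_mul_I, Complex.cos_pi_div_two, Complex.sin_pi_div_two]
  simp

private theorem Li_point (hE : StEe) (x y₁ y₂ p₀ p₁ p₂ : ℝ)
    (hs : p₀ + p₁ + p₂ = x + y₁ + y₂ + 1 / 2)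
    (h₁ : Real.sin (Real.pi * (x - y₁)) ≠ 0) (h₂ : Real.sin (Real.pi * (x - y₂)) ≠ 0) :
    2 * (ee x * ((-(Real.sin (Real.pi * (x - p₀)) * Real.sin (Real.pi * (x - p₁)) *
      Real.sin (Real.pi * (x - p₂))) / (Real.sin (Real.pi * (x - y₁)) *
      Real.sin (Real.pi * (x - y₂))) : ℝ) : ℂ)) * ((ee x - ee y₁) * (ee x - ee y₂)) =
    (ee x - ee p₀) * (ee x - ee p₁) * (ee x - ee p₂) := by
  obtain ⟨hadd, -, -, -, -, -, -, -, hdiff, -⟩ := hE
  have hl : ee x * (ee ((x + y₁) / 2) * ee ((x + y₂) / 2)) = ee ((4 * x + y₁ + y₂) / 2) := by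
    rw [← hadd, ← hadd]
    congr 1
    ring
  have hr : ee ((x + p₀) / 2) * ee ((x + p₁) / 2) * ee ((x + p₂) / 2) =
      ee ((4 * x + y₁ + y₂) / 2) * Complex.I := by
    rw [← Li_quarter, ← hadd, ← hadd, ← hadd]
    congr 1
    linarith
  rw [hdiff x y₁, hdiff x y₂, hdiff x p₀, hdiff x p₁, hdiff x p₂]
  generalize Real.sin (Real.pi * (x - y₁)) = T₁ at *
  generalize Real.sin (Real.pi * (x - y₂)) = T₂ at *
  generalize Real.sin (Real.pi * (x - p₀)) = S₀ at *
  generalize Real.sin (Real.pi * (x - p₁)) = S₁ at *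
  generalize Real.sin (Real.pi * (x - p₂)) = S₂ at *
  have hT₁ : (T₁ : ℂ) ≠ 0 := by exact_mod_cast h₁
  have hT₂ : (T₂ : ℂ) ≠ 0 := by exact_mod_cast h₂
  have e₁ : 2 * (ee x * ((-(S₀ * S₁ * S₂) / (T₁ * T₂) : ℝ) : ℂ)) *
      (ee ((x + y₁) / 2) * (2 * Complex.I * T₁) * (ee ((x + y₂) / 2) * (2 * Complex.I * T₂))) =
      -8 * Complex.I ^ 2 * (S₀ * S₁ * S₂) *
        (ee x * (ee ((x + y₁) / 2) * ee ((x + y₂) / 2))) := by
    push_cast
    field_simp
    ring
  have e₂ : ee ((x + p₀) / 2) * (2 * Complex.I * S₀) * (ee ((x + p₁) / 2) * (2 * Complex.I * S₁)) *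
      (ee ((x + p₂) / 2) * (2 * Complex.I * S₂)) =
      8 * Complex.I ^ 3 * (S₀ * S₁ * S₂) *
        (ee ((x + p₀) / 2) * ee ((x + p₁) / 2) * ee ((x + p₂) / 2)) := by
    ring
  rw [e₁, e₂, hl, hr]
  have hI : Complex.I ^ 2 = -1 := Complex.I_sq
  linear_combination (-8 * (S₀ * S₁ * S₂) * ee ((4 * x + y₁ + y₂) / 2) * Complex.I ^ 2 : ℂ) * hI

private theorem Li_ne (hE : StEe) (x y : ℝ) (h₁ : x < y) (h₂ : y < x + 1) : ee x ≠ ee y := by
  obtain ⟨-, -, hinj, -⟩ := hE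
  intro h
  obtain ⟨m, hm⟩ := (hinj x y).1 h
  have h3 : (m : ℝ) < 0 := by linarith
  have h4 : (-1 : ℝ) < m := by linarith
  have h5 : m < 0 := by exact_mod_cast h3
  have h6 : -1 < m := by exact_mod_cast h4
  omega

private theorem Li_sin (x y : ℝ) (h₁ : x < y) (h₂ : y < x + 1) :
    Real.sin (Real.pi * (x - y)) ≠ 0 := by
  refine (Real.sin_neg_of_neg_of_neg_pi_lt ?_ ?_).ne
  · have := Real.pi_pos
    nlinarith
  · have := Real.pi_pos
    nlinarith

private theorem Li_sin' (x y : ℝ) (h₁ : x < y) (h₂ : y < x + 1) :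
    Real.sin (Real.pi * (y - x)) ≠ 0 := by
  have h := Li_sin x y h₁ h₂
  have e : Real.pi * (y - x) = -(Real.pi * (x - y)) := by ring
  rw [e, Real.sin_neg]
  exact neg_ne_zero.2 h

theorem pr_Li : StLi := by
  intro hE hw hp u v z hL
  rw [hp u (ww u v) z fun i => (hw u v hL i).le]
  obtain ⟨h1, h2, h3, h4, h5, h6, hs⟩ := hL
  have w0 : ww u v 0 = -(Real.sin (Real.pi * (u 0 - v 0)) * Real.sin (Real.pi * (u 0 - v 1)) *
      Real.sin (Real.pi * (u 0 - v 2))) / (Real.sin (Real.pi * (u 0 - u 1)) *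
      Real.sin (Real.pi * (u 0 - u 2))) := by
    have e : (univ : Finset (Fin 3)).erase 0 = {1, 2} := by decide
    rw [ww, e, Finset.prod_pair (by decide), Fin.prod_univ_three]
  have w1 : ww u v 1 = -(Real.sin (Real.pi * (u 1 - v 0)) * Real.sin (Real.pi * (u 1 - v 1)) *
      Real.sin (Real.pi * (u 1 - v 2))) / (Real.sin (Real.pi * (u 1 - u 0)) *
      Real.sin (Real.pi * (u 1 - u 2))) := by
    have e : (univ : Finset (Fin 3)).erase 1 = {0, 2} := by decide
    rw [ww, e, Finset.prod_pair (by decide), Fin.prod_univ_three]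
  have w2 : ww u v 2 = -(Real.sin (Real.pi * (u 2 - v 0)) * Real.sin (Real.pi * (u 2 - v 1)) *
      Real.sin (Real.pi * (u 2 - v 2))) / (Real.sin (Real.pi * (u 2 - u 0)) *
      Real.sin (Real.pi * (u 2 - u 1))) := by
    have e : (univ : Finset (Fin 3)).erase 2 = {0, 1} := by decide
    rw [ww, e, Finset.prod_pair (by decide), Fin.prod_univ_three]
  have p0 := Li_point hE (u 0) (u 1) (u 2) (v 0) (v 1) (v 2) (by linarith)
    (Li_sin _ _ (by linarith) (by linarith)) (Li_sin _ _ (by linarith) (by linarith))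
  have p1 := Li_point hE (u 1) (u 0) (u 2) (v 0) (v 1) (v 2) (by linarith)
    (Li_sin' _ _ (by linarith) (by linarith)) (Li_sin _ _ (by linarith) (by linarith))
  have p2 := Li_point hE (u 2) (u 0) (u 1) (v 0) (v 1) (v 2) (by linarith)
    (Li_sin' _ _ (by linarith) (by linarith)) (Li_sin' _ _ (by linarith) (by linarith))
  rw [← w0] at p0
  rw [← w1] at p1
  rw [← w2] at p2
  have n01 := Li_ne hE (u 0) (u 1) (by linarith) (by linarith)
  have n02 := Li_ne hE (u 0) (u 2) (by linarith) (by linarith)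
  have n12 := Li_ne hE (u 1) (u 2) (by linarith) (by linarith)
  have e0 : (univ : Finset (Fin 3)).erase 0 = {1, 2} := by decide
  have e1 : (univ : Finset (Fin 3)).erase 1 = {0, 2} := by decide
  have e2 : (univ : Finset (Fin 3)).erase 2 = {0, 1} := by decide
  rw [Fin.prod_univ_three, Fin.prod_univ_three, Fin.sum_univ_three, e0, e1, e2,
    Finset.prod_pair (by decide), Finset.prod_pair (by decide), Finset.prod_pair (by decide)]
  generalize ee (u 0) = a₀ at *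
  generalize ee (u 1) = a₁ at *
  generalize ee (u 2) = a₂ at *
  generalize ee (v 0) = b₀ at *
  generalize ee (v 1) = b₁ at *
  generalize ee (v 2) = b₂ at *
  have hD : (a₀ - a₁) * (a₀ - a₂) * (a₁ - a₂) ≠ 0 :=
    mul_ne_zero (mul_ne_zero (sub_ne_zero.2 n01) (sub_ne_zero.2 n02)) (sub_ne_zero.2 n12)
  refine mul_left_cancel₀ hD ?_
  linear_combination (z - a₁) * (z - a₂) * (a₁ - a₂) * p0 -
    (z - a₀) * (z - a₂) * (a₀ - a₂) * p1 + (z - a₀) * (z - a₁) * (a₀ - a₁) * p2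

end Pool.Agent.CM
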