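import Pool.Agent.Work.MP_8590b5_gt.CM.Stmts1

/-!
# Block CM, item Lk: linking numbers and writhe of the link `lnk N`
-/

set_option autoImplicit false

namespace Pool.Agent.CM

open Finset

private abbrev Lk_Z : Type := Multiplicative ℤ

private theorem Lk_und_lab (A : Str Lk_Z) (c : Lk_Z) : (und A c).lab = A.lab := by
  unfold und
  exact inv_mul_cancel_comm c A.lab

private theorem Lk_und_lon (A : Str Lk_Z) (c : Lk_Z) : (und A c).lon = A.lon * c := rfl

private theorem Lk_cB_lab (B C : Str Lk_Z) : (cB B C).lab = B.lab := Lk_und_lab _ _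

private theorem Lk_cB_lon (B C : Str Lk_Z) : (cB B C).lon = B.lon * C.lab := rfl

private theorem Lk_cD_lab (A B C : Str Lk_Z) : (cD A B C).lab = A.lab := Lk_und_lab _ _

private theorem Lk_cD_lon (A B C : Str Lk_Z) : (cD A B C).lon = A.lon * B.lab := by
  unfold cD
  rw [Lk_und_lon, Lk_cB_lab]

private theorem Lk_cC_lab (A B C : Str Lk_Z) : (cC A B C).lab = C.lab := by
  unfold cC
  rw [Lk_und_lab, Lk_und_lab]

private theorem Lk_cC_lon (A B C : Str Lk_Z) : (cC A B C).lon = C.lon * B.lab * A.lab⁻¹ := by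
  unfold cC
  rw [Lk_und_lon, Lk_und_lon, Lk_cB_lab, Lk_cD_lab]

private theorem Lk_cA_lab (A B C : Str Lk_Z) : (cA A B C).lab = A.lab := by
  unfold cA
  rw [Lk_und_lab, Lk_cD_lab]

private theorem Lk_cA_lon (A B C : Str Lk_Z) : (cA A B C).lon = A.lon * B.lab * C.lab⁻¹ := by
  unfold cA
  rw [Lk_und_lon, Lk_cD_lon, Lk_cC_lab]

private theorem Lk_run_append {Γ : Type} [Group Γ] (w w' : List (ℕ × Bool)) (s : ℕ → Str Γ) :
    run (w ++ w') s = run w' (run w s) := by
  unfold run
  rw [List.foldl_append]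

private theorem Lk_pieces_succ (i : ℕ) : pieces (i + 1) = pieces i ++ piece i := by
  unfold pieces
  rw [List.range_succ, List.flatMap_append]
  simp

/-- the invariant of the run -/
private structure Lk_Inv (g : ℕ → Lk_Z) (k : ℕ) (s : ℕ → Str Lk_Z) : Prop where
  l0 : (s 0).lab = g 0
  l1 : (s 1).lab = g 0
  lp : ∀ p, 2 ≤ p → (s p).lab = g p
  op : ∀ p, 2 ≤ p → (s p).lon = 1
  pr : (s 0).lon * (s 1).lon = g 0 ^ k

private theorem Lk_piece (hP : PcAt) (g : ℕ → Lk_Z) (k i : ℕ) (s : ℕ → Str Lk_Z)
    (h : Lk_Inv g k s) : Lk_Inv g (k + 1) (run (piece i) s) := by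
  have e0 : run (piece i) s 0 = cB (s 1) (s (i + 2)) := by
    rw [hP]
    simp
  have e1 : run (piece i) s 1 = cA (s 0) (s 1) (s (i + 2)) := by
    rw [hP]
    simp
  have hc := h.lp (i + 2) (by omega)
  refine ⟨?_, ?_, ?_, ?_, ?_⟩
  · rw [e0, Lk_cB_lab, h.l1]
  · rw [e1, Lk_cA_lab, h.l0]
  · intro p hp
    rw [hP, if_neg (by omega), if_neg (by omega)]
    split_ifs with h1 h2
    · rw [Lk_cC_lab, h1, hc]
    · rw [Lk_und_lab, Lk_und_lab, h.lp p hp]
    · exact h.lp p hp
  · intro p hp
    rw [hP, if_neg (by omega), if_neg (by omega)]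
    split_ifs with h1 h2
    · rw [Lk_cC_lon, h.l1, h.l0, h.op (i + 2) (by omega)]
      rw [one_mul, mul_inv_cancel]
    · rw [Lk_und_lon, Lk_und_lon, Lk_cC_lab, h.op p hp, one_mul, mul_inv_cancel]
    · exact h.op p hp
  · rw [e0, e1, Lk_cB_lon, Lk_cA_lon, h.l1, pow_succ, ← h.pr]
    generalize (s 0).lon = x
    generalize (s 1).lon = y
    generalize (s (i + 2)).lab = c
    generalize g 0 = a
    apply Multiplicative.toAdd.injective
    simp only [toAdd_mul, toAdd_inv]
    ring

private theorem Lk_start (g : ℕ → Lk_Z) (hg : g 0 = g 1) : Lk_Inv g 0 (start g) :=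
  ⟨rfl, hg.symm, fun _ _ => rfl, fun _ _ => rfl, by simp [start]⟩

private theorem Lk_pieces (hP : PcAt) (g : ℕ → Lk_Z) (hg : g 0 = g 1) (i : ℕ) :
    Lk_Inv g i (run (pieces i) (start g)) := by
  induction i with
  | zero =>
    have : pieces 0 = [] := rfl
    rw [this]
    exact Lk_start g hg
  | succ i ih =>
    rw [Lk_pieces_succ, Lk_run_append]
    exact Lk_piece hP g i i _ ih

private theorem Lk_rep (g : ℕ → Lk_Z) (m : ℕ) : ∀ (k : ℕ) (s : ℕ → Str Lk_Z), Lk_Inv g k s →
    Lk_Inv g (k + m) (run (List.replicate m (0, true)) s) := by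
  induction m with
  | zero =>
    intro k s h
    exact h
  | succ m ih =>
    intro k s h
    have e : run (List.replicate (m + 1) (0, true)) s =
        run (List.replicate m (0, true)) (cross s (0, true)) := by
      rw [List.replicate_succ]
      rfl
    rw [e]
    have h2 : Lk_Inv g (k + 1) (cross s (0, true)) := by
      refine ⟨?_, ?_, ?_, ?_, ?_⟩
      · have : cross s (0, true) 0 = s 1 := by simp [cross]
        rw [this]
        exact h.l1
      · have : cross s (0, true) 1 = und (s 0) (s 1).lab := by simp [cross, und]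
        rw [this, Lk_und_lab]
        exact h.l0
      · intro p hp
        have : cross s (0, true) p = s p := by
          have h1 : p ≠ 0 := by omega
          have h2 : p ≠ 1 := by omega
          simp [cross, h1, h2]
        rw [this]
        exact h.lp p hp
      · intro p hp
        have : cross s (0, true) p = s p := by
          have h1 : p ≠ 0 := by omega
          have h2 : p ≠ 1 := by omega
          simp [cross, h1, h2]
        rw [this]
        exact h.op p hp
      · have e0 : cross s (0, true) 0 = s 1 := by simp [cross]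
        have e1 : cross s (0, true) 1 = und (s 0) (s 1).lab := by simp [cross, und]
        rw [e0, e1, Lk_und_lon, h.l1, pow_succ, ← h.pr]
        generalize (s 0).lon = x
        generalize (s 1).lon = y
        generalize g 0 = a
        apply Multiplicative.toAdd.injective
        simp only [toAdd_mul]
        ring
    have h3 := ih (k + 1) _ h2
    have e3 : k + (m + 1) = k + 1 + m := by omega
    rw [e3]
    exact h3

private theorem Lk_all (hP : PcAt) (g : ℕ → Lk_Z) (hg : g 0 = g 1) (N : ℕ) :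
    Lk_Inv g (2 * N + 1) (run (lnk N).word (start g)) := by
  have e : (lnk N).word = pieces N ++ List.replicate (N + 1) (0, true) := rfl
  rw [e, Lk_run_append]
  have h := Lk_rep g (N + 1) N _ (Lk_pieces hP g hg N)
  have e2 : 2 * N + 1 = N + (N + 1) := by omega
  rw [e2]
  exact h

/-- **Lk**: linking numbers and writhe. -/
theorem pr_Lk : StLk := by
  intro hP hSc hLg _ _ N p c hp
  unfold FLink.lk
  obtain ⟨g, hg⟩ : ∃ g : ℕ → Multiplicative ℤ, g = (fun p =>
    if (lnk N).comp p = c ∧ p < (lnk N).n then Multiplicative.ofAdd (1 : ℤ) else 1) := ⟨_, rfl⟩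
  have hN : (lnk N).n = N + 2 := rfl
  have hc : ∀ q, (lnk N).comp q = q - 1 := fun _ => rfl
  have g0 : g 0 = if c = 0 then Multiplicative.ofAdd (1 : ℤ) else 1 := by
    rw [hg]
    simp only [hN, hc]
    by_cases h : c = 0
    · rw [if_pos h, if_pos ⟨by omega, by omega⟩]
    · rw [if_neg h, if_neg (by omega)]
  have g1 : g 1 = if c = 0 then Multiplicative.ofAdd (1 : ℤ) else 1 := by
    rw [hg]
    simp only [hN, hc]
    by_cases h : c = 0
    · rw [if_pos h, if_pos ⟨by omega, by omega⟩]
    · rw [if_neg h, if_neg (by omega)]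
  have hI := Lk_all hP g (g0.trans g1.symm) N
  obtain ⟨L0, L1, L2⟩ := hLg hP hSc (Multiplicative ℤ) N g
  rw [← hg]
  have hpow : Multiplicative.toAdd (g 0 ^ (2 * N + 1)) = if c = 0 then 2 * (N : ℤ) + 1 else 0 := by
    rw [g0]
    by_cases h : c = 0
    · rw [if_pos h, if_pos h, toAdd_pow, toAdd_ofAdd, nsmul_eq_mul, mul_one]
      push_cast
      ring
    · rw [if_neg h, if_neg h, one_pow, toAdd_one]
  by_cases h0 : p = 0
  · rw [h0, L0, mul_comm, hI.pr, hpow]
    by_cases h : c = 0
    · rw [if_pos h, if_pos ⟨h, by omega⟩]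
    · rw [if_neg h, if_neg (fun h' => h h'.1)]
  · by_cases h1 : p = 1
    · rw [h1, L1, hI.pr, hpow]
      by_cases h : c = 0
      · rw [if_pos h, if_pos ⟨h, by omega⟩]
      · rw [if_neg h, if_neg (fun h' => h h'.1)]
    · rw [L2 p (by omega), hI.op p (by omega), if_neg (by omega), toAdd_one]

end Pool.Agent.CM
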