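import Pool.Agent.Work.MP_8590b5_gt.CM.Stmts2

/-! # Block CM, item Lp -/

namespace Pool.Agent.CM

open Finset

private theorem Lp_er (f : Fin 3 → ℂ) :
    (∏ j ∈ univ.erase (0 : Fin 3), f j = f 1 * f 2) ∧
    (∏ j ∈ univ.erase (1 : Fin 3), f j = f 0 * f 2) ∧
    (∏ j ∈ univ.erase (2 : Fin 3), f j = f 0 * f 1) := by
  have h0 : (univ.erase (0 : Fin 3)) = {1, 2} := by decide
  have h1 : (univ.erase (1 : Fin 3)) = {0, 2} := by decide
  have h2 : (univ.erase (2 : Fin 3)) = {0, 1} := by decide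
  rw [h0, h1, h2]
  refine ⟨?_, ?_, ?_⟩
  · rw [Finset.prod_pair (by decide)]
  · rw [Finset.prod_pair (by decide)]
  · rw [Finset.prod_pair (by decide)]

theorem pr_Lp : StLp := by
  intro u w z hw
  have hsq : ∀ i, (w i : ℂ) = ((Real.sqrt (w i) : ℝ) : ℂ) * ((Real.sqrt (w i) : ℝ) : ℂ) := by
    intro i
    rw [← Complex.ofReal_mul, Real.mul_self_sqrt (hw i)]
  rw [Fin.sum_univ_three, Fin.prod_univ_three]
  obtain ⟨e0, e1, e2⟩ := Lp_er (fun j => z - ee (u j))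
  rw [e0, e1, e2, hsq 0, hsq 1, hsq 2]
  rw [Matrix.det_fin_three]
  unfold rR dA
  simp only [Matrix.sub_apply, Matrix.smul_apply, Matrix.mul_apply, Fin.sum_univ_three,
    Matrix.of_apply, Matrix.diagonal_apply, Matrix.one_apply, smul_eq_mul]
  simp
  ring

end Pool.Agent.CM
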