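import Pool.Agent.Work.MP_8590b5_gt.CM.Stmts2

/-! # Block CM, item Lr -/

namespace Pool.Agent.CM

open Finset

theorem pr_Lr : StLr := by
  intro w hw hs
  have hsq : ∀ i, ((Real.sqrt (w i) : ℝ) : ℂ) * ((Real.sqrt (w i) : ℝ) : ℂ) = (w i : ℂ) := by
    intro i
    rw [← Complex.ofReal_mul, Real.mul_self_sqrt (hw i)]
  have hsum : ((Real.sqrt (w 0) : ℝ) : ℂ) * (Real.sqrt (w 0) : ℝ) +
      ((Real.sqrt (w 1) : ℝ) : ℂ) * (Real.sqrt (w 1) : ℝ) +
      ((Real.sqrt (w 2) : ℝ) : ℂ) * (Real.sqrt (w 2) : ℝ) = 1 := by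
    rw [hsq, hsq, hsq]
    rw [Fin.sum_univ_three] at hs
    exact_mod_cast hs
  generalize ha : ((Real.sqrt (w 0) : ℝ) : ℂ) = a at hsum
  generalize hb : ((Real.sqrt (w 1) : ℝ) : ℂ) = b at hsum
  generalize hc : ((Real.sqrt (w 2) : ℝ) : ℂ) = c at hsum
  refine ⟨?_, ?_, ?_⟩
  · ext i j
    rw [Matrix.star_apply]
    unfold rR
    simp only [Matrix.of_apply, star_sub, star_mul', Complex.star_def, Complex.conj_ofReal]
    rw [map_ofNat]
    by_cases hij : i = j
    · subst hij; simp
    · rw [if_neg hij, if_neg (fun h => hij h.symm)]; simp; ring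
  · ext i j
    rw [Matrix.mul_apply, Fin.sum_univ_three]
    unfold rR
    simp only [Matrix.of_apply]
    fin_cases i <;> fin_cases j <;> simp [ha, hb, hc, Matrix.one_apply]
    all_goals first
      | linear_combination (4 * a * a) * hsum
      | linear_combination (4 * a * b) * hsum
      | linear_combination (4 * a * c) * hsum
      | linear_combination (4 * b * b) * hsum
      | linear_combination (4 * b * c) * hsum
      | linear_combination (4 * c * c) * hsum
  · rw [Matrix.det_fin_three]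
    unfold rR
    simp [ha, hb, hc]
    linear_combination (-2) * hsum

end Pool.Agent.CM
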