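import Pool.Agent.Work.MP_8590b5_gt.CM.Stmts2

/-! # Block CM, item Ls -/

namespace Pool.Agent.CM

open Finset

theorem pr_Ls : StLs := by
  intro hEe hLw hLp hLi u v h
  obtain ⟨hadd, -, -, -, -, hhalf, hne, -⟩ := hEe
  have e0 : (univ.erase (0 : Fin 3)) = {1, 2} := by decide
  have e1 : (univ.erase (1 : Fin 3)) = {0, 2} := by decide
  have e2 : (univ.erase (2 : Fin 3)) = {0, 1} := by decide
  have h1 := hLp u (ww u v) 0 (fun i => (hLw u v h i).le)
  rw [hLi u v 0 h] at h1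
  rw [Fin.sum_univ_three, Fin.prod_univ_three, Fin.prod_univ_three, e0, e1, e2,
    Finset.prod_pair (by decide), Finset.prod_pair (by decide), Finset.prod_pair (by decide)] at h1
  have h2 : ee (v 0) * ee (v 1) * ee (v 2) = - (ee (u 0) * ee (u 1) * ee (u 2)) := by
    rw [← hadd, ← hadd, h.2.2.2.2.2.2, hadd, hadd, hadd, hhalf]; ring
  have h3 : ee (u 0) * ee (u 1) * ee (u 2) ≠ 0 := mul_ne_zero (mul_ne_zero (hne _) (hne _)) (hne _)
  have h4 : (ee (u 0) * ee (u 1) * ee (u 2)) *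
      ((ww u v 0 : ℂ) + (ww u v 1 : ℂ) + (ww u v 2 : ℂ) - 1) = 0 := by
    linear_combination (-1 / 2) * h1 + (-1 / 2) * h2
  have h5 := (mul_eq_zero.1 h4).resolve_left h3
  rw [Fin.sum_univ_three]
  have h6 : ((ww u v 0 + ww u v 1 + ww u v 2 : ℝ) : ℂ) = ((1 : ℝ) : ℂ) := by
    push_cast
    linear_combination h5
  exact_mod_cast h6

end Pool.Agent.CM
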