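import Pool.Agent.Work.MP_8590b5_gt.CM.Stmts2

/-!
# Block CM, item Lu: uniqueness of the weights
-/

namespace Pool.Agent.CM

open Finset

private theorem Lu_quad (A B C b0 b1 b2 : ℂ) (h01 : b0 ≠ b1) (h02 : b0 ≠ b2) (h12 : b1 ≠ b2)
    (e0 : A * b0 ^ 2 + B * b0 + C = 0) (e1 : A * b1 ^ 2 + B * b1 + C = 0)
    (e2 : A * b2 ^ 2 + B * b2 + C = 0) : A = 0 ∧ B = 0 ∧ C = 0 := by
  have h1 : A * (b0 + b1) + B = 0 := by
    have : (b0 - b1) * (A * (b0 + b1) + B) = 0 := by linear_combination e0 - e1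
    exact (mul_eq_zero.1 this).resolve_left (sub_ne_zero.2 h01)
  have h2 : A * (b0 + b2) + B = 0 := by
    have : (b0 - b2) * (A * (b0 + b2) + B) = 0 := by linear_combination e0 - e2
    exact (mul_eq_zero.1 this).resolve_left (sub_ne_zero.2 h02)
  have hA : A = 0 := by
    have : (b1 - b2) * A = 0 := by linear_combination h1 - h2
    exact (mul_eq_zero.1 this).resolve_left (sub_ne_zero.2 h12)
  have hB : B = 0 := by
    rw [hA] at h1
    linear_combination h1
  refine ⟨hA, hB, ?_⟩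
  rw [hA, hB] at e0
  linear_combination e0

private theorem Lu_ne (hEe : StEe) (x y : ℝ) (h1 : x < y) (h2 : y < x + 1) : ee x ≠ ee y := by
  intro h
  obtain ⟨m, hm⟩ := (hEe.2.2.1 x y).1 h
  have h3 : (m : ℝ) < 0 := by linarith
  have h4 : (-1 : ℝ) < m := by linarith
  have h5 : m < 0 := by exact_mod_cast h3
  have h6 : -1 < m := by exact_mod_cast h4
  omega

private theorem Lu_e0 : (univ : Finset (Fin 3)).erase 0 = {1, 2} := by decide
private theorem Lu_e1 : (univ : Finset (Fin 3)).erase 1 = {0, 2} := by decide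
private theorem Lu_e2 : (univ : Finset (Fin 3)).erase 2 = {0, 1} := by decide

theorem pr_Lu : StLu := by
  intro hEe hLw hLp hLi u v w hL hw hz
  obtain ⟨l0, l1, l2, l3, l4, l5, l6⟩ := id hL
  have hW : ∀ i, 0 < ww u v i := hLw u v hL
  -- distinct points
  have a01 := Lu_ne hEe (u 0) (u 1) (by linarith) (by linarith)
  have a02 := Lu_ne hEe (u 0) (u 2) (by linarith) (by linarith)
  have a12 := Lu_ne hEe (u 1) (u 2) (by linarith) (by linarith)
  have b01 := Lu_ne hEe (v 0) (v 1) (by linarith) (by linarith)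
  have b02 := Lu_ne hEe (v 0) (v 2) (by linarith) (by linarith)
  have b12 := Lu_ne hEe (v 1) (v 2) (by linarith) (by linarith)
  have hne : ∀ x, ee x ≠ 0 := hEe.2.2.2.2.2.2.1
  -- the difference of the two polynomials
  obtain ⟨c, hc⟩ : ∃ c : Fin 3 → ℂ, ∀ i, c i = ee (u i) * ((w i : ℂ) - (ww u v i : ℂ)) :=
    ⟨_, fun i => rfl⟩
  have hq : ∀ j, (c 0 + c 1 + c 2) * ee (v j) ^ 2 +
      (-(c 0 * (ee (u 1) + ee (u 2)) + c 1 * (ee (u 0) + ee (u 2)) +
        c 2 * (ee (u 0) + ee (u 1)))) * ee (v j) +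
      (c 0 * ee (u 1) * ee (u 2) + c 1 * ee (u 0) * ee (u 2) + c 2 * ee (u 0) * ee (u 1)) = 0 := by
    intro j
    have h1 := hz j
    rw [hLp u w _ hw] at h1
    have h2 := hLi u v (ee (v j)) hL
    rw [Finset.prod_eq_zero (Finset.mem_univ j) (sub_self (ee (v j))),
      hLp u (ww u v) _ (fun i => (hW i).le)] at h2
    simp only [Fin.sum_univ_three, Lu_e0, Lu_e1, Lu_e2] at h1 h2
    rw [Finset.prod_pair (by decide), Finset.prod_pair (by decide), Finset.prod_pair (by decide)]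
      at h1 h2
    simp only [hc]
    linear_combination (1 / 2 : ℂ) * h1 - (1 / 2 : ℂ) * h2
  obtain ⟨hA, hB, hC⟩ := Lu_quad _ _ _ _ _ _ b01 b02 b12 (hq 0) (hq 1) (hq 2)
  have key : ∀ i, c i = 0 → w i = ww u v i := by
    intro i hi
    rw [hc] at hi
    have h1 := (mul_eq_zero.1 hi).resolve_left (hne _)
    exact_mod_cast sub_eq_zero.1 h1
  have h0 : c 0 = 0 := by
    have : (ee (u 0) - ee (u 1)) * ((ee (u 0) - ee (u 2)) * c 0) = 0 := by
      linear_combination (ee (u 0)) ^ 2 * hA + ee (u 0) * hB + hC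
    exact (mul_eq_zero.1 ((mul_eq_zero.1 this).resolve_left (sub_ne_zero.2 a01))).resolve_left
      (sub_ne_zero.2 a02)
  have h1 : c 1 = 0 := by
    have : (ee (u 0) - ee (u 1)) * ((ee (u 1) - ee (u 2)) * c 1) = 0 := by
      linear_combination -((ee (u 1)) ^ 2 * hA + ee (u 1) * hB + hC)
    exact (mul_eq_zero.1 ((mul_eq_zero.1 this).resolve_left (sub_ne_zero.2 a01))).resolve_left
      (sub_ne_zero.2 a12)
  have h2 : c 2 = 0 := by
    have : (ee (u 0) - ee (u 2)) * ((ee (u 1) - ee (u 2)) * c 2) = 0 := by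
      linear_combination (ee (u 2)) ^ 2 * hA + ee (u 2) * hB + hC
    exact (mul_eq_zero.1 ((mul_eq_zero.1 this).resolve_left (sub_ne_zero.2 a02))).resolve_left
      (sub_ne_zero.2 a12)
  funext i
  fin_cases i
  · exact key 0 h0
  · exact key 1 h1
  · exact key 2 h2

end Pool.Agent.CM
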