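import Pool.Agent.Work.MP_8590b5_gt.CM.Stmts2

/-!
# Block CM, item Lv: interlacing by the intermediate value theorem
-/

set_option autoImplicit false

namespace Pool.Agent.CM

open Finset

/-- the explicit form of the characteristic polynomial -/
theorem Lv_det (h : StLp) (u w : Fin 3 → ℝ) (z : ℂ) (hw : ∀ i, 0 ≤ w i) :
    Matrix.det (z • (1 : Mat) - rR w * dA u) =
      (z - ee (u 0)) * (z - ee (u 1)) * (z - ee (u 2)) +
        2 * (ee (u 0) * (w 0 : ℂ) * ((z - ee (u 1)) * (z - ee (u 2))) +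
          ee (u 1) * (w 1 : ℂ) * ((z - ee (u 0)) * (z - ee (u 2))) +
          ee (u 2) * (w 2 : ℂ) * ((z - ee (u 0)) * (z - ee (u 1)))) := by
  have e0 : (univ : Finset (Fin 3)).erase 0 = {1, 2} := by decide
  have e1 : (univ : Finset (Fin 3)).erase 1 = {0, 2} := by decide
  have e2 : (univ : Finset (Fin 3)).erase 2 = {0, 1} := by decide
  rw [h u w z hw, Fin.prod_univ_three, Fin.sum_univ_three, e0, e1, e2,
    Finset.prod_pair (by decide), Finset.prod_pair (by decide), Finset.prod_pair (by decide)]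

/-- the real function -/
noncomputable def Lv_F (u w : Fin 3 → ℝ) (θ : ℝ) : ℝ :=
  w 0 * Real.cos (Real.pi * (θ - u 0)) * Real.sin (Real.pi * (θ - u 1)) *
      Real.sin (Real.pi * (θ - u 2)) +
    w 1 * Real.cos (Real.pi * (θ - u 1)) * Real.sin (Real.pi * (θ - u 0)) *
      Real.sin (Real.pi * (θ - u 2)) +
    w 2 * Real.cos (Real.pi * (θ - u 2)) * Real.sin (Real.pi * (θ - u 0)) *
      Real.sin (Real.pi * (θ - u 1))

theorem Lv_zero (hE : StEe) (h : StLp) (u w : Fin 3 → ℝ) (hw : ∀ i, 0 ≤ w i)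
    (hs : w 0 + w 1 + w 2 = 1) (θ : ℝ) (hF : Lv_F u w θ = 0) :
    Matrix.det (ee θ • (1 : Mat) - rR w * dA u) = 0 := by
  obtain ⟨-, -, -, -, -, -, -, -, hd, hp⟩ := hE
  have hsC : (w 0 : ℂ) + (w 1 : ℂ) + (w 2 : ℂ) = 1 := by exact_mod_cast hs
  rw [Lv_det h u w (ee θ) hw]
  have d0 := hd θ (u 0)
  have d1 := hd θ (u 1)
  have d2 := hd θ (u 2)
  have p0 := hp θ (u 0)
  have p1 := hp θ (u 1)
  have p2 := hp θ (u 2)
  have e1 : (ee θ - ee (u 0)) * (ee θ - ee (u 1)) * (ee θ - ee (u 2)) +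
        2 * (ee (u 0) * (w 0 : ℂ) * ((ee θ - ee (u 1)) * (ee θ - ee (u 2))) +
          ee (u 1) * (w 1 : ℂ) * ((ee θ - ee (u 0)) * (ee θ - ee (u 2))) +
          ee (u 2) * (w 2 : ℂ) * ((ee θ - ee (u 0)) * (ee θ - ee (u 1)))) =
      (w 0 : ℂ) * (ee θ + ee (u 0)) * (ee θ - ee (u 1)) * (ee θ - ee (u 2)) +
      (w 1 : ℂ) * (ee θ + ee (u 1)) * (ee θ - ee (u 0)) * (ee θ - ee (u 2)) +
      (w 2 : ℂ) * (ee θ + ee (u 2)) * (ee θ - ee (u 0)) * (ee θ - ee (u 1)) := by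
    linear_combination (-(ee θ - ee (u 0)) * (ee θ - ee (u 1)) * (ee θ - ee (u 2))) * hsC
  rw [e1, d0, d1, d2, p0, p1, p2]
  have hF' : ((Lv_F u w θ : ℝ) : ℂ) = 0 := by rw [hF]; simp
  unfold Lv_F at hF'
  push_cast at hF' ⊢
  linear_combination (ee ((θ + u 0) / 2) * ee ((θ + u 1) / 2) * ee ((θ + u 2) / 2) * 2 *
    (2 * Complex.I) ^ 2) * hF'

/-- the constant coefficient of a monic cubic polynomial with three different zeros -/
theorem Lv_vieta (p2 p1 p0 x0 x1 x2 : ℂ) (h01 : x0 ≠ x1) (h02 : x0 ≠ x2) (h12 : x1 ≠ x2)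
    (e0 : x0 ^ 3 + p2 * x0 ^ 2 + p1 * x0 + p0 = 0)
    (e1 : x1 ^ 3 + p2 * x1 ^ 2 + p1 * x1 + p0 = 0)
    (e2 : x2 ^ 3 + p2 * x2 ^ 2 + p1 * x2 + p0 = 0) : p0 = -(x0 * x1 * x2) := by
  have f1 : x0 ^ 2 + x0 * x1 + x1 ^ 2 + p2 * (x0 + x1) + p1 = 0 := by
    have : (x0 - x1) * (x0 ^ 2 + x0 * x1 + x1 ^ 2 + p2 * (x0 + x1) + p1) = 0 := by
      linear_combination e0 - e1
    exact (mul_eq_zero.1 this).resolve_left (sub_ne_zero.2 h01)
  have f2 : x0 ^ 2 + x0 * x2 + x2 ^ 2 + p2 * (x0 + x2) + p1 = 0 := by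
    have : (x0 - x2) * (x0 ^ 2 + x0 * x2 + x2 ^ 2 + p2 * (x0 + x2) + p1) = 0 := by
      linear_combination e0 - e2
    exact (mul_eq_zero.1 this).resolve_left (sub_ne_zero.2 h02)
  have g : x0 + x1 + x2 + p2 = 0 := by
    have : (x1 - x2) * (x0 + x1 + x2 + p2) = 0 := by
      linear_combination f1 - f2
    exact (mul_eq_zero.1 this).resolve_left (sub_ne_zero.2 h12)
  have k1 : p2 = -(x0 + x1 + x2) := by linear_combination g
  have k2 : p1 = x0 * x1 + x0 * x2 + x1 * x2 := by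
    rw [k1] at f1
    linear_combination f1
  rw [k1, k2] at e0
  linear_combination e0

theorem Lv_sin_neg (x : ℝ) (h1 : -1 < x) (h2 : x < 0) : Real.sin (Real.pi * x) < 0 := by
  have hpi := Real.pi_pos
  refine Real.sin_neg_of_neg_of_neg_pi_lt ?_ ?_
  · exact mul_neg_of_pos_of_neg hpi h2
  · nlinarith

theorem Lv_sin_pos (x : ℝ) (h1 : 0 < x) (h2 : x < 1) : 0 < Real.sin (Real.pi * x) := by
  have hpi := Real.pi_pos
  refine Real.sin_pos_of_pos_of_lt_pi ?_ ?_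
  · exact mul_pos hpi h1
  · nlinarith

theorem Lv_ne (hE : StEe) (x y : ℝ) (h1 : x < y) (h2 : y < x + 1) : ee x ≠ ee y := by
  obtain ⟨-, -, hi, -⟩ := hE
  intro h
  obtain ⟨m, hm⟩ := (hi x y).1 h
  have h3 : (m : ℝ) < 0 := by linarith
  have h4 : (-1 : ℝ) < m := by linarith
  have h5 : m < 0 := by exact_mod_cast h3
  have h6 : -1 < m := by exact_mod_cast h4
  omega

theorem pr_Lv : StLv := by
  intro hE hLp u w h01 h12 h20 hw hs
  have hw' : ∀ i, 0 ≤ w i := fun i => (hw i).le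
  rw [Fin.sum_univ_three] at hs
  have hcont : Continuous (Lv_F u w) := by
    unfold Lv_F
    fun_prop
  have F0 : 0 < Lv_F u w (u 0) := by
    unfold Lv_F
    rw [sub_self, mul_zero, Real.cos_zero, Real.sin_zero]
    have a1 := Lv_sin_neg (u 0 - u 1) (by linarith) (by linarith)
    have a2 := Lv_sin_neg (u 0 - u 2) (by linarith) (by linarith)
    have a3 := mul_pos (hw 0) (mul_pos_of_neg_of_neg a1 a2)
    nlinarith
  have F1 : Lv_F u w (u 1) < 0 := by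
    unfold Lv_F
    rw [sub_self, mul_zero, Real.cos_zero, Real.sin_zero]
    have a1 := Lv_sin_pos (u 1 - u 0) (by linarith) (by linarith)
    have a2 := Lv_sin_neg (u 1 - u 2) (by linarith) (by linarith)
    have a3 := mul_neg_of_pos_of_neg (hw 1) (mul_neg_of_pos_of_neg a1 a2)
    nlinarith
  have F2 : 0 < Lv_F u w (u 2) := by
    unfold Lv_F
    rw [sub_self, mul_zero, Real.cos_zero, Real.sin_zero]
    have a1 := Lv_sin_pos (u 2 - u 0) (by linarith) (by linarith)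
    have a2 := Lv_sin_pos (u 2 - u 1) (by linarith) (by linarith)
    have a3 := mul_pos (hw 2) (mul_pos a1 a2)
    nlinarith
  have F3 : Lv_F u w (u 0 + 1) < 0 := by
    unfold Lv_F
    have e : Real.pi * (u 0 + 1 - u 0) = Real.pi := by ring
    rw [e, Real.cos_pi, Real.sin_pi]
    have a1 := Lv_sin_pos (u 0 + 1 - u 1) (by linarith) (by linarith)
    have a2 := Lv_sin_pos (u 0 + 1 - u 2) (by linarith) (by linarith)
    have a3 := mul_pos (hw 0) (mul_pos a1 a2)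
    nlinarith
  obtain ⟨v0, ⟨hv0, hv0'⟩, z0⟩ := intermediate_value_Ioo' h01.le hcont.continuousOn
    (show (0 : ℝ) ∈ Set.Ioo (Lv_F u w (u 1)) (Lv_F u w (u 0)) from ⟨F1, F0⟩)
  obtain ⟨v1, ⟨hv1, hv1'⟩, z1⟩ := intermediate_value_Ioo h12.le hcont.continuousOn
    (show (0 : ℝ) ∈ Set.Ioo (Lv_F u w (u 1)) (Lv_F u w (u 2)) from ⟨F1, F2⟩)
  obtain ⟨v2, ⟨hv2, hv2'⟩, z2⟩ := intermediate_value_Ioo' h20.le hcont.continuousOn
    (show (0 : ℝ) ∈ Set.Ioo (Lv_F u w (u 0 + 1)) (Lv_F u w (u 2)) from ⟨F3, F2⟩)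
  have d0 := Lv_zero hE hLp u w hw' hs v0 z0
  have d1 := Lv_zero hE hLp u w hw' hs v1 z1
  have d2 := Lv_zero hE hLp u w hw' hs v2 z2
  have hn01 := Lv_ne hE v0 v1 (by linarith) (by linarith)
  have hn02 := Lv_ne hE v0 v2 (by linarith) (by linarith)
  have hn12 := Lv_ne hE v1 v2 (by linarith) (by linarith)
  have hsC : (w 0 : ℂ) + (w 1 : ℂ) + (w 2 : ℂ) = 1 := by exact_mod_cast hs
  have hvieta : ee (u 0) * ee (u 1) * ee (u 2) = -(ee v0 * ee v1 * ee v2) := by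
    refine Lv_vieta
      (-(ee (u 0) + ee (u 1) + ee (u 2)) +
        2 * (ee (u 0) * (w 0 : ℂ) + ee (u 1) * (w 1 : ℂ) + ee (u 2) * (w 2 : ℂ)))
      (ee (u 0) * ee (u 1) + ee (u 0) * ee (u 2) + ee (u 1) * ee (u 2) -
        2 * (ee (u 0) * (w 0 : ℂ) * (ee (u 1) + ee (u 2)) +
          ee (u 1) * (w 1 : ℂ) * (ee (u 0) + ee (u 2)) +
          ee (u 2) * (w 2 : ℂ) * (ee (u 0) + ee (u 1))))
      (ee (u 0) * ee (u 1) * ee (u 2)) (ee v0) (ee v1) (ee v2) hn01 hn02 hn12 ?_ ?_ ?_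
    · rw [Lv_det hLp u w _ hw'] at d0
      linear_combination d0 - 2 * (ee (u 0) * ee (u 1) * ee (u 2)) * hsC
    · rw [Lv_det hLp u w _ hw'] at d1
      linear_combination d1 - 2 * (ee (u 0) * ee (u 1) * ee (u 2)) * hsC
    · rw [Lv_det hLp u w _ hw'] at d2
      linear_combination d2 - 2 * (ee (u 0) * ee (u 1) * ee (u 2)) * hsC
  have hsum : v0 + v1 + v2 = u 0 + u 1 + u 2 + 1 / 2 := by
    obtain ⟨hadd, -, hi, -, -, hhalf, -⟩ := hE
    have e1 : ee (v0 + v1 + v2) = ee (u 0 + u 1 + u 2 + 1 / 2) := by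
      rw [hadd, hadd, hadd, hadd, hadd, hhalf, hvieta]
      ring
    obtain ⟨m, hm⟩ := (hi _ _).1 e1
    have h3 : (m : ℝ) < 1 := by linarith
    have h4 : (-1 : ℝ) < m := by linarith
    have h5 : m < 1 := by exact_mod_cast h3
    have h6 : -1 < m := by exact_mod_cast h4
    have h7 : m = 0 := by omega
    rw [h7] at hm
    simpa using hm
  refine ⟨![v0, v1, v2], ⟨hv0, hv0', hv1, hv1', hv2, hv2', hsum⟩, ?_⟩
  intro j
  fin_cases j
  · exact d0
  · exact d1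
  · exact d2

end Pool.Agent.CM
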