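import Pool.Agent.Work.MP_8590b5_gt.CM.Stmts2

/-! # Block CM, item Lw -/

namespace Pool.Agent.CM

open Finset

private theorem Lw_pos {x : ℝ} (h0 : 0 < x) (h1 : x < 1) : 0 < Real.sin (Real.pi * x) := by
  apply Real.sin_pos_of_pos_of_lt_pi
  · exact mul_pos Real.pi_pos h0
  · nlinarith [Real.pi_pos]

private theorem Lw_neg {x : ℝ} (h0 : x < 0) (h1 : -1 < x) : Real.sin (Real.pi * x) < 0 := by
  have := Lw_pos (x := -x) (by linarith) (by linarith)
  rw [mul_neg, Real.sin_neg] at this
  linarith

theorem pr_Lw : StLw := by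
  intro u v h i
  obtain ⟨h1, h2, h3, h4, h5, h6, h7⟩ := h
  have e0 : (univ.erase (0 : Fin 3)) = {1, 2} := by decide
  have e1 : (univ.erase (1 : Fin 3)) = {0, 2} := by decide
  have e2 : (univ.erase (2 : Fin 3)) = {0, 1} := by decide
  unfold ww
  rw [Fin.prod_univ_three]
  fin_cases i
  · change 0 < -(Real.sin (Real.pi * (u 0 - v 0)) * Real.sin (Real.pi * (u 0 - v 1)) *
      Real.sin (Real.pi * (u 0 - v 2))) / ∏ j ∈ univ.erase (0 : Fin 3), Real.sin (Real.pi * (u 0 - u j))
    rw [e0, Finset.prod_pair (by decide)]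
    have a1 := Lw_neg (x := u 0 - v 0) (by linarith) (by linarith)
    have a2 := Lw_neg (x := u 0 - v 1) (by linarith) (by linarith)
    have a3 := Lw_neg (x := u 0 - v 2) (by linarith) (by linarith)
    have b1 := Lw_neg (x := u 0 - u 1) (by linarith) (by linarith)
    have b2 := Lw_neg (x := u 0 - u 2) (by linarith) (by linarith)
    apply div_pos
    · have := mul_pos_of_neg_of_neg a1 a2
      nlinarith
    · exact mul_pos_of_neg_of_neg b1 b2
  · change 0 < -(Real.sin (Real.pi * (u 1 - v 0)) * Real.sin (Real.pi * (u 1 - v 1)) *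
      Real.sin (Real.pi * (u 1 - v 2))) / ∏ j ∈ univ.erase (1 : Fin 3), Real.sin (Real.pi * (u 1 - u j))
    rw [e1, Finset.prod_pair (by decide)]
    have a1 := Lw_pos (x := u 1 - v 0) (by linarith) (by linarith)
    have a2 := Lw_neg (x := u 1 - v 1) (by linarith) (by linarith)
    have a3 := Lw_neg (x := u 1 - v 2) (by linarith) (by linarith)
    have b1 := Lw_pos (x := u 1 - u 0) (by linarith) (by linarith)
    have b2 := Lw_neg (x := u 1 - u 2) (by linarith) (by linarith)
    apply div_pos_of_neg_of_neg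
    · have := mul_pos_of_neg_of_neg a2 a3
      nlinarith
    · exact mul_neg_of_pos_of_neg b1 b2
  · change 0 < -(Real.sin (Real.pi * (u 2 - v 0)) * Real.sin (Real.pi * (u 2 - v 1)) *
      Real.sin (Real.pi * (u 2 - v 2))) / ∏ j ∈ univ.erase (2 : Fin 3), Real.sin (Real.pi * (u 2 - u j))
    rw [e2, Finset.prod_pair (by decide)]
    have a1 := Lw_pos (x := u 2 - v 0) (by linarith) (by linarith)
    have a2 := Lw_pos (x := u 2 - v 1) (by linarith) (by linarith)
    have a3 := Lw_neg (x := u 2 - v 2) (by linarith) (by linarith)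
    have b1 := Lw_pos (x := u 2 - u 0) (by linarith) (by linarith)
    have b2 := Lw_pos (x := u 2 - u 1) (by linarith) (by linarith)
    apply div_pos
    · have := mul_pos a1 a2
      nlinarith
    · exact mul_pos b1 b2

end Pool.Agent.CM
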