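import Pool.Agent.Work.MP_8590b5_gt.CM.Stmts2

/-!
# Block CM, item Ma: the normal forms are irreducible pairs with the relations
-/

set_option autoImplicit false

namespace Pool.Agent.CM

open Finset

private theorem Ma_smul_unit (c : ℂ) (M : Mat) (hc : c * star c = 1) (hM : M * star M = 1) :
    (c • M) * star (c • M) = 1 := by
  rw [star_smul, smul_mul_smul_comm, hM, hc, one_smul]

private theorem Ma_mul_unit (M N : Mat) (hM : M * star M = 1) (hN : N * star N = 1) :
    (M * N) * star (M * N) = 1 := by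
  rw [star_mul, mul_assoc M N, ← mul_assoc N, hN, one_mul, hM]

private theorem Ma_mem (c : ℂ) (M : Mat) (hc : c * star c = 1) (hM : M * star M = 1)
    (hd : c ^ 3 * M.det = 1) : c • M ∈ Matrix.specialUnitaryGroup (Fin 3) ℂ := by
  rw [Matrix.mem_specialUnitaryGroup_iff, Matrix.mem_unitaryGroup_iff]
  refine ⟨Ma_smul_unit c M hc hM, ?_⟩
  rw [Matrix.det_smul, Fintype.card_fin]
  exact hd

private theorem Ma_pow_coe (x : SU3) (m : ℕ) : ((x ^ m : SU3) : Mat) = (x : Mat) ^ m :=
  SubmonoidClass.coe_pow x m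

private theorem Ma_mul_coe (x y : SU3) : ((x * y : SU3) : Mat) = (x : Mat) * (y : Mat) := rfl

/-- invariance under powers -/
private theorem Ma_inv_pow (W : Submodule ℂ (Fin 3 → ℂ)) (M : Mat)
    (h : ∀ v ∈ W, M.mulVec v ∈ W) (m : ℕ) : ∀ v ∈ W, (M ^ m).mulVec v ∈ W := by
  induction m with
  | zero => intro v hv; rw [pow_zero, Matrix.one_mulVec]; exact hv
  | succ m ih =>
    intro v hv
    rw [pow_succ', ← Matrix.mulVec_mulVec]
    exact h _ (ih v hv)

theorem pr_Ma : StMa := by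
  intro hEe hLw hLp hLi hLs hLr hLd hIa hBr hYk k t n p hD
  have hEe' := hEe
  obtain ⟨eadd, eint, einj, estar, epow, ehalf, ene, -, -, -⟩ := hEe'
  have hL : Lace (uu k n) (vv k p) := hLd k t n p hD
  set u := uu k n with hu
  set v := vv k p with hv
  have hw : ∀ i, 0 < ww u v i := hLw u v hL
  have hws : ∑ i, ww u v i = 1 := hLs hEe hLw hLp hLi u v hL
  obtain ⟨r1, r2, r3⟩ := hLr (ww u v) (fun i => (hw i).le) hws
  set R := rR (ww u v) with hR
  set A := dA u with hA
  set ζ := ee ((t.val : ℝ) / 3) with hζ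
  have he0 : ee 0 = 1 := by
    have := eint 0
    rwa [Int.cast_zero] at this
  have hunit : ∀ x, ee x * star (ee x) = 1 := by
    intro x
    rw [estar, ← eadd, add_neg_cancel, he0]
  have hζ3 : ζ ^ 3 = 1 := by
    rw [hζ, epow]
    have h1 : (((3 : ℕ) : ℝ) * ((t.val : ℝ) / 3)) = ((t.val : ℤ) : ℝ) := by
      push_cast; ring
    rw [h1]
    exact eint _
  have hζu : ζ * star ζ = 1 := hunit _
  have hAA : A * star A = 1 := by
    rw [hA, dA, Matrix.star_eq_conjTranspose, Matrix.diagonal_conjTranspose,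
      Matrix.diagonal_mul_diagonal, ← Matrix.diagonal_one]
    congr 1
    funext j
    exact hunit _
  have hq : (0 : ℝ) < 3 * (2 * (k : ℝ) + 1) := by positivity
  have hdetA : A.det = 1 := by
    rw [hA, dA, Matrix.det_diagonal, Fin.prod_univ_three, ← eadd, ← eadd]
    obtain ⟨m, hm⟩ := hD.nsum
    have h1 : u 0 + u 1 + u 2 = (m : ℝ) := by
      have hm' : ((n 0 : ℤ) : ℝ) + n 1 + n 2 = (3 * (2 * (k : ℝ) + 1)) * m := by
        exact_mod_cast hm
      show (n 0 : ℝ) / (3 * (2 * k + 1)) + (n 1 : ℝ) / (3 * (2 * k + 1)) +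
        (n 2 : ℝ) / (3 * (2 * k + 1)) = m
      rw [← add_div, ← add_div, hm']
      field_simp
    rw [h1]
    exact eint m
  have hRR : R * star R = 1 := by rw [r1, r2]
  have hc : (-ζ ^ 2) * star (-ζ ^ 2) = 1 := by
    rw [star_neg, star_pow]
    linear_combination (ζ * star ζ + 1) * hζu
  have hζ6 : ζ ^ 6 = 1 := by
    have : ζ ^ 6 = (ζ ^ 3) ^ 2 := by ring
    rw [this, hζ3]; ring
  have ha : (-ζ ^ 2) • (R * A) ∈ Matrix.specialUnitaryGroup (Fin 3) ℂ := by
    apply Ma_mem _ _ hc (Ma_mul_unit R A hRR hAA)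
    rw [Matrix.det_mul, r3, hdetA]
    linear_combination hζ6
  have hy : ζ • A ^ 2 ∈ Matrix.specialUnitaryGroup (Fin 3) ℂ := by
    apply Ma_mem _ _ hζu
    · rw [pow_two]; exact Ma_mul_unit A A hAA hAA
    · rw [Matrix.det_pow, hdetA, hζ3]; ring
  let a : SU3 := ⟨(-ζ ^ 2) • (R * A), ha⟩
  let y : SU3 := ⟨ζ • A ^ 2, hy⟩
  have hab : a * (a⁻¹ * y) = y := mul_inv_cancel_left a y
  obtain ⟨y1, y2, y3⟩ := hYk hEe k t n p (y : Mat) hD rfl
  have ham : (a : Mat) = (-ζ ^ 2) • (R * A) := rfl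
  -- `a y^k = - ζ² R`
  have hx : (a : Mat) * (y : Mat) ^ k = (-ζ ^ 2) • R := by
    rw [ham, smul_mul_assoc, mul_assoc, y2, mul_one]
  have hxx : (a * y ^ k) * (a * y ^ k) = y ^ (2 * k + 1) := by
    apply Subtype.ext
    rw [Ma_mul_coe, Ma_mul_coe, Ma_pow_coe, Ma_pow_coe, hx, y3, smul_mul_smul_comm, r2]
    congr 1
    linear_combination ζ * hζ3
  refine ⟨a, a⁻¹ * y, ⟨rfl, by rw [hab]⟩, ⟨?_, ?_⟩, ?_⟩
  · rw [hab]
    have h1 : y ^ (2 * k + 1) = y * y ^ k * y ^ k := by
      rw [← pow_succ', ← pow_add]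
      congr 1
      omega
    rw [h1, ← mul_assoc] at hxx
    have h2 : a * y ^ k * a = y * y ^ k := mul_right_cancel hxx
    have h3 : y = a * (y ^ k * a * (y ^ k)⁻¹) := by
      calc y = y * y ^ k * (y ^ k)⁻¹ := by group
        _ = a * y ^ k * a * (y ^ k)⁻¹ := by rw [h2]
        _ = _ := by group
    calc a⁻¹ * y = a⁻¹ * (a * (y ^ k * a * (y ^ k)⁻¹)) := by rw [← h3]
      _ = _ := by group
  · rw [hab]
    apply Subtype.ext
    rw [Ma_pow_coe, Ma_pow_coe, y3, ham, smul_pow]
    have hv1 : ∀ j, ee (v j) ^ (4 * k + 3) = -ζ ^ (k + 1) := by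
      intro j
      rw [epow, hζ, epow, ← neg_one_mul, ← ehalf, ← eadd, einj]
      obtain ⟨m, hm⟩ := hD.pmod j
      refine ⟨m, ?_⟩
      have hm' : (p j : ℝ) - 3 - 2 * (t.val : ℝ) * ((k : ℝ) + 1) = 6 * m := by
        exact_mod_cast hm
      show ((4 * k + 3 : ℕ) : ℝ) * ((p j : ℝ) / (6 * (4 * k + 3))) = _
      have h4 : (0 : ℝ) < 4 * (k : ℝ) + 3 := by positivity
      have h5 : ((4 * k + 3 : ℕ) : ℝ) * ((p j : ℝ) / (6 * (4 * k + 3))) = (p j : ℝ) / 6 := by
        push_cast
        field_simp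
      rw [h5]
      push_cast
      linarith
    rw [hBr hEe hLi u v (4 * k + 3) _ hL hv1, smul_smul]
    congr 1
    have h1 : (-ζ ^ 2) ^ (4 * k + 3) = -ζ ^ (8 * k + 6) := by
      rw [Odd.neg_pow ⟨2 * k + 1, by ring⟩, ← pow_mul]
      congr 2
      ring
    rw [h1]
    have h2 : -ζ ^ (8 * k + 6) * -ζ ^ (k + 1) = (ζ ^ 3) ^ (3 * k + 2) * ζ := by
      rw [← pow_mul, neg_mul_neg, ← pow_add, ← pow_succ]
      congr 1
      ring
    rw [h2, hζ3, one_pow, one_mul]
  · intro W hWa hWb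
    have hWy : ∀ z ∈ W, (y : Mat).mulVec z ∈ W := by
      intro z hz
      have h1 : (y : Mat) = (a : Mat) * ((a⁻¹ * y : SU3) : Mat) := by
        rw [← Ma_mul_coe, hab]
      rw [h1, ← Matrix.mulVec_mulVec]
      exact hWa _ (hWb z hz)
    have hζ0 : ζ ≠ 0 := ene _
    apply hIa u (ww u v) _ hw W
    · -- `A = ζ⁻¹ y^(k+1)`
      intro z hz
      have h1 : A = ζ⁻¹ • (y : Mat) ^ (k + 1) := by
        have h2 : A * (y : Mat) ^ (2 * k + 1) = (y : Mat) ^ (k + 1) := by
          have h3 : (y : Mat) ^ (2 * k + 1) = (y : Mat) ^ k * (y : Mat) ^ (k + 1) := by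
            rw [← pow_add]
            congr 1
            omega
          rw [h3, ← mul_assoc, y2, one_mul]
        rw [← h2, y3, mul_smul_comm, mul_one, smul_smul, inv_mul_cancel₀ hζ0, one_smul]
      show A.mulVec z ∈ W
      rw [h1, Matrix.smul_mulVec]
      exact W.smul_mem _ (Ma_inv_pow W _ hWy _ z hz)
    · intro z hz
      have h1 : R = (-ζ) • ((a : Mat) * (y : Mat) ^ k) := by
        rw [hx, smul_smul]
        have h2 : -ζ * -ζ ^ 2 = 1 := by linear_combination hζ3
        rw [h2, one_smul]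
      show R.mulVec z ∈ W
      rw [h1, Matrix.smul_mulVec, ← Matrix.mulVec_mulVec]
      exact W.smul_mem _ (hWa _ (Ma_inv_pow W _ hWy _ z hz))
    · -- the numbers `e(u_i)` are different
      have hn0 := hD.n0
      have hn01 := hD.n01
      have hn12 := hD.n12
      have hn2 := hD.n2
      have hb : ∀ i, 0 ≤ n i ∧ n i < 3 * (2 * (k : ℤ) + 1) := by
        intro i
        fin_cases i
        · exact ⟨hn0, by show n 0 < _; linarith⟩
        · exact ⟨by show 0 ≤ n 1; linarith, by show n 1 < _; linarith⟩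
        · exact ⟨by show 0 ≤ n 2; linarith, hn2⟩
      have hinj : ∀ i j, i ≠ j → n i ≠ n j := by
        intro i j hij
        fin_cases i <;> fin_cases j
        · exact absurd rfl hij
        · show n 0 ≠ n 1; omega
        · show n 0 ≠ n 2; omega
        · show n 1 ≠ n 0; omega
        · exact absurd rfl hij
        · show n 1 ≠ n 2; omega
        · show n 2 ≠ n 0; omega
        · show n 2 ≠ n 1; omega
        · exact absurd rfl hij
      intro i j hij heq
      rw [einj] at heq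
      obtain ⟨m, hm⟩ := heq
      have hm1 : (n i : ℝ) / (3 * (2 * k + 1)) = (n j : ℝ) / (3 * (2 * k + 1)) + m := hm
      have hm2 : (n i : ℝ) = n j + m * (3 * (2 * k + 1)) := by
        field_simp at hm1
        linarith
      have hm3 : n i = n j + m * (3 * (2 * (k : ℤ) + 1)) := by
        exact_mod_cast hm2
      have b1 := hb i
      have b2 := hb j
      have hqz : (0 : ℤ) < 3 * (2 * (k : ℤ) + 1) := by positivity
      rcases lt_trichotomy m 0 with h | h | h
      · nlinarith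
      · rw [h, zero_mul, add_zero] at hm3
        exact hinj i j hij hm3
      · nlinarith

end Pool.Agent.CM
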