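import Pool.Agent.Work.MP_8590b5_gt.CM.Stmts1

/-!
# Block CM, item Mo: the strand at position 2 moves back
-/

set_option autoImplicit false

namespace Pool.Agent.CM

open Finset

theorem Mo_succ {Γ : Type} [Group Γ] (i : ℕ) (s : ℕ → Str Γ) :
    run (mvOut (i + 1)) s = cross (run (mvOut i) s) (i + 2, false) := by
  unfold run mvOut
  rw [List.range_succ, List.map_append, List.foldl_append]
  rfl

theorem Mo_cross {Γ : Type} [Group Γ] (t : ℕ → Str Γ) (q p : ℕ) :
    cross t (q, false) p = if p = q + 1 then t q else if p = q then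
      und (t (q + 1)) ((t q).lab)⁻¹ else t p := by
  unfold cross und
  simp

theorem pr_Mo : StMo := by
  intro Γ _ i
  induction i with
  | zero =>
    intro s p
    have h0 : run (mvOut 0) s = s := rfl
    rw [h0]
    by_cases h : p = 0 + 2
    · rw [if_pos h, h]
    · have h' : ¬ (2 ≤ p ∧ p < 0 + 2) := by omega
      rw [if_neg h, if_neg h']
  | succ i ih =>
    intro s p
    rw [Mo_succ, Mo_cross]
    have e1 : run (mvOut i) s (i + 2) = s 2 := by rw [ih s (i + 2), if_pos rfl]
    have e2 : run (mvOut i) s (i + 2 + 1) = s (i + 2 + 1) := by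
      have k1 : ¬ (i + 2 + 1 = i + 2) := by omega
      have k2 : ¬ (2 ≤ i + 2 + 1 ∧ i + 2 + 1 < i + 2) := by omega
      rw [ih s (i + 2 + 1), if_neg k1, if_neg k2]
    rw [e1, e2]
    by_cases h1 : p = i + 2 + 1
    · have h1' : p = i + 1 + 2 := by omega
      rw [if_pos h1, if_pos h1']
    · have h1' : ¬ (p = i + 1 + 2) := by omega
      rw [if_neg h1, if_neg h1']
      by_cases h2 : p = i + 2
      · have h2' : 2 ≤ p ∧ p < i + 1 + 2 := by omega
        rw [if_pos h2, if_pos h2', h2]
      · rw [if_neg h2, ih s p, if_neg h2]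
        by_cases h3 : 2 ≤ p ∧ p < i + 2
        · have h3' : 2 ≤ p ∧ p < i + 1 + 2 := by omega
          rw [if_pos h3, if_pos h3']
        · have h3' : ¬ (2 ≤ p ∧ p < i + 1 + 2) := by omega
          rw [if_neg h3, if_neg h3']

end Pool.Agent.CM
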