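import Pool.Agent.Work.MP_8590b5_gt.CM.Stmts2

/-!
# Block CM, item Mu (helper55): a pair is determined by its normal form
-/

namespace Pool.Agent.CM

open Finset

theorem pr_Mu : StMu := by
  intro k t n p a b a' b' h h'
  have h1 : a = a' := Subtype.ext (h.1.trans h'.1.symm)
  have h2 : a * b = a' * b' := Subtype.ext (h.2.trans h'.2.symm)
  subst h1
  exact ⟨rfl, mul_left_cancel h2⟩

end Pool.Agent.CM
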