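import Pool.Agent.Work.MP_8590b5_gt.CM.Stmts3

/-!
# Block CM, item Nf (helper30): closed form of the lattice count
-/

set_option autoImplicit false

namespace Pool.Agent.CM

open Finset

/-- the sum of the two exceptional sets -/
def Nf_S (k : ℕ) : ℕ := ∑ c ∈ range (k / 2 + 1), (k - 2 * c) * (k - 2 * c + 1)

theorem Nf_rec (k : ℕ) : Nf_S (k + 2) = Nf_S k + (k + 2) * (k + 3) := by
  unfold Nf_S
  have h1 : (k + 2) / 2 + 1 = (k / 2 + 1) + 1 := by omega
  rw [h1, Finset.sum_range_succ']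
  have h2 : ∀ c, (k + 2 - 2 * (c + 1)) = k - 2 * c := fun c => by omega
  simp only [h2]
  simp

theorem Nf_closed (k : ℕ) : 24 * (Nf_S k : ℤ) = 2 * k * (k + 2) * (2 * k + 5) + 3 - 3 * (-1) ^ k := by
  induction k using Nat.twoStepInduction with
  | zero => simp [Nf_S]
  | one => simp [Nf_S]
  | more n ih _ =>
    rw [Nf_rec]
    push_cast
    rw [pow_add]
    linarith [ih]

theorem Nf_le (k : ℕ) : 2 * Nf_S k ≤ k * (k + 1) ^ 3 := by
  induction k using Nat.twoStepInduction with
  | zero => simp [Nf_S]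
  | one => simp [Nf_S]
  | more n ih _ =>
    rw [Nf_rec]
    nlinarith [ih]

theorem pr_Nf : StNf := by
  intro k
  have h1 : Np k = k * (k + 1) ^ 3 - 2 * Nf_S k := rfl
  have h2 := Nf_closed k
  rw [h1, Nat.cast_sub (Nf_le k)]
  push_cast
  linarith [h2]

end Pool.Agent.CM
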