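import Pool.Agent.Work.MP_8590b5_gt.CM.Stmts2

/-!
# Block CM, item Nm: the normal form
-/

namespace Pool.Agent.CM

open Finset Matrix

/-- the projections are orthogonal -/
private theorem Nm_orth (m : ℕ) (P : ℕ → Mat) (v : Fin 3 → ℂ) (hst : ∀ j < m, star (P j) = P j)
    (horth : ∀ i < m, ∀ j < m, i ≠ j → P j * P i = 0) (i j : ℕ) (hi : i < m) (hj : j < m)
    (hij : i ≠ j) : star (P i *ᵥ v) ⬝ᵥ (P j *ᵥ v) = 0 := by
  have h1 : (P i)ᴴ = P i := by
    rw [← Matrix.star_eq_conjTranspose]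
    exact hst i hi
  rw [Matrix.star_mulVec, h1, ← Matrix.dotProduct_mulVec, Matrix.mulVec_mulVec,
    horth j hj i hi hij.symm, Matrix.zero_mulVec, dotProduct_zero]

/-- the square of the norm -/
private theorem Nm_sq (x : Fin 3 → ℂ) : star x ⬝ᵥ x = (((star x ⬝ᵥ x).re : ℝ) : ℂ) ∧
    0 ≤ (star x ⬝ᵥ x).re ∧ (x ≠ 0 → 0 < (star x ⬝ᵥ x).re) := by
  have e : star x ⬝ᵥ x = ((∑ i, Complex.normSq (x i) : ℝ) : ℂ) := by
    rw [dotProduct, Complex.ofReal_sum]
    refine Finset.sum_congr rfl fun i _ => ?_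
    rw [Pi.star_apply, Complex.normSq_eq_conj_mul_self]
    rfl
  rw [e, Complex.ofReal_re]
  refine ⟨rfl, Finset.sum_nonneg fun i _ => Complex.normSq_nonneg _, fun hx => ?_⟩
  obtain ⟨i, hi⟩ : ∃ i, x i ≠ 0 := by
    by_contra h
    push Not at h
    exact hx (funext h)
  exact Finset.sum_pos' (fun i _ => Complex.normSq_nonneg _)
    ⟨i, Finset.mem_univ _, Complex.normSq_pos.2 hi⟩

/-- a scalar of absolute value one that makes the determinant one -/
private theorem Nm_scal (V : Mat) (hV : V * star V = 1) :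
    ∃ c : ℂ, c * star c = 1 ∧ (c • V).det = 1 := by
  have hd : V.det * star V.det = 1 := by
    have h := congrArg Matrix.det hV
    rw [Matrix.det_mul, Matrix.det_one, Matrix.star_eq_conjTranspose,
      Matrix.det_conjTranspose] at h
    exact h
  have hd0 : V.det ≠ 0 := by
    intro h
    rw [h, zero_mul] at hd
    exact zero_ne_one hd
  obtain ⟨c, hc⟩ := IsAlgClosed.exists_pow_nat_eq (V.det)⁻¹ (by norm_num : 0 < 3)
  refine ⟨c, ?_, ?_⟩
  · have h1 : (c * star c) ^ 3 = 1 := by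
      rw [mul_pow, ← star_pow, hc, star_inv₀, ← mul_inv, hd, inv_one]
    have h2 : c * star c = ((Complex.normSq c : ℝ) : ℂ) := by
      rw [mul_comm, Complex.normSq_eq_conj_mul_self]
      rfl
    rw [h2] at h1 ⊢
    have h3 : Complex.normSq c ^ 3 = 1 := by
      exact_mod_cast h1
    have h4 : Complex.normSq c = 1 :=
      (pow_eq_one_iff_of_nonneg (Complex.normSq_nonneg c) (by norm_num)).1 h3
    rw [h4, Complex.ofReal_one]
  · rw [Matrix.det_smul, Fintype.card_fin, hc, inv_mul_cancel₀ hd0]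

/-- the unitary matrix of an orthogonal system of eigenvectors -/
private theorem Nm_mat (A : Mat) (v : Fin 3 → ℂ) (F : Fin 3 → Fin 3 → ℂ) (w : Fin 3 → ℝ)
    (l : Fin 3 → ℂ) (hw : ∀ i, 0 < w i)
    (hFF : ∀ i j, star (F i) ⬝ᵥ F j = if i = j then (w i : ℂ) else 0)
    (hA : ∀ i, A *ᵥ F i = l i • F i) (hv : ∀ i, star (F i) ⬝ᵥ v = w i) :
    ∃ U : SU3, (U : Mat) * A * star (U : Mat) = Matrix.diagonal l ∧
      (U : Mat) * ((1 : Mat) - (2 : ℂ) • Matrix.vecMulVec v (star v)) * star (U : Mat) = rR w := by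
  have hs : ∀ i, ((Real.sqrt (w i) : ℝ) : ℂ) ≠ 0 := by
    intro i
    exact_mod_cast (Real.sqrt_pos.2 (hw i)).ne'
  have hss : ∀ i, ((Real.sqrt (w i) : ℝ) : ℂ) * ((Real.sqrt (w i) : ℝ) : ℂ) = (w i : ℂ) := by
    intro i
    rw [← Complex.ofReal_mul, Real.mul_self_sqrt (hw i).le]
  obtain ⟨V, hVdef⟩ : ∃ V : Mat, V = Matrix.of fun i k =>
      (((Real.sqrt (w i) : ℝ) : ℂ))⁻¹ * star (F i k) := ⟨_, rfl⟩
  have hVs : ∀ k i, (star V) k i = (((Real.sqrt (w i) : ℝ) : ℂ))⁻¹ * F i k := by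
    intro k i
    rw [Matrix.star_apply, hVdef, Matrix.of_apply, star_mul', star_star, star_inv₀]
    congr 2
    exact Complex.conj_ofReal _
  have hVV : V * star V = 1 := by
    ext i j
    rw [Matrix.mul_apply]
    have e : ∀ k, V i k * (star V) k j = ((((Real.sqrt (w i) : ℝ) : ℂ))⁻¹ *
        (((Real.sqrt (w j) : ℝ) : ℂ))⁻¹) * (star (F i) k * F j k) := by
      intro k
      rw [hVs, hVdef, Matrix.of_apply, Pi.star_apply]
      ring
    simp only [e]
    rw [← Finset.mul_sum]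
    have e2 : ∑ k, star (F i) k * F j k = star (F i) ⬝ᵥ F j := rfl
    rw [e2, hFF i j]
    by_cases hij : i = j
    · subst hij
      rw [if_pos rfl, Matrix.one_apply_eq, ← hss i, ← mul_inv]
      exact inv_mul_cancel₀ (mul_ne_zero (hs i) (hs i))
    · rw [if_neg hij, Matrix.one_apply_ne hij, mul_zero]
  have hAV : A * star V = star V * Matrix.diagonal l := by
    ext k j
    rw [Matrix.mul_apply, Matrix.mul_diagonal, hVs]
    have e : ∀ i, A k i * (star V) i j = (((Real.sqrt (w j) : ℝ) : ℂ))⁻¹ * (A k i * F j i) := by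
      intro i
      rw [hVs]
      ring
    simp only [e]
    rw [← Finset.mul_sum]
    have e2 : ∑ i, A k i * F j i = (A *ᵥ F j) k := rfl
    rw [e2, hA j, Pi.smul_apply, smul_eq_mul]
    ring
  have hVv : V *ᵥ v = fun i => ((Real.sqrt (w i) : ℝ) : ℂ) := by
    funext i
    have e : (V *ᵥ v) i = (((Real.sqrt (w i) : ℝ) : ℂ))⁻¹ * (star (F i) ⬝ᵥ v) := by
      rw [Matrix.mulVec, dotProduct, dotProduct, Finset.mul_sum]
      refine Finset.sum_congr rfl fun k _ => ?_
      rw [hVdef, Matrix.of_apply, Pi.star_apply]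
      ring
    rw [e, hv i, ← hss i, ← mul_assoc, inv_mul_cancel₀ (hs i), one_mul]
  have hvV : star v ᵥ* star V = fun i => ((Real.sqrt (w i) : ℝ) : ℂ) := by
    have e : star (V *ᵥ v) = star v ᵥ* star V := by
      rw [Matrix.star_mulVec, Matrix.star_eq_conjTranspose]
    rw [← e, hVv]
    funext i
    exact Complex.conj_ofReal _
  have hR : V * ((1 : Mat) - (2 : ℂ) • Matrix.vecMulVec v (star v)) * star V = rR w := by
    rw [Matrix.mul_sub, Matrix.sub_mul, Matrix.mul_one, hVV, Matrix.mul_smul, Matrix.smul_mul,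
      Matrix.mul_vecMulVec, Matrix.vecMulVec_mul, hVv, hvV]
    ext i j
    rw [Matrix.sub_apply, Matrix.smul_apply, Matrix.vecMulVec_apply, rR, Matrix.of_apply,
      Matrix.one_apply, smul_eq_mul]
    ring
  obtain ⟨c, hc, hdet⟩ := Nm_scal V hVV
  have hconj : ∀ X : Mat, (c • V) * X * star (c • V) = V * X * star V := by
    intro X
    rw [star_smul, Matrix.smul_mul, Matrix.smul_mul, Matrix.mul_smul, smul_smul, hc, one_smul]
  have hunit : c • V ∈ Matrix.unitaryGroup (Fin 3) ℂ := by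
    rw [Matrix.mem_unitaryGroup_iff]
    have h := hconj 1
    rw [Matrix.mul_one, Matrix.mul_one, hVV] at h
    exact h
  refine ⟨⟨c • V, Matrix.mem_specialUnitaryGroup_iff.2 ⟨hunit, hdet⟩⟩, ?_, ?_⟩
  · show (c • V) * A * star (c • V) = _
    rw [hconj, Matrix.mul_assoc, hAV, ← Matrix.mul_assoc, hVV, Matrix.one_mul]
  · show (c • V) * _ * star (c • V) = _
    rw [hconj, hR]

/-- exactly three of the vectors are not zero -/
private theorem Nm_card (m : ℕ) (A : Mat) (v : Fin 3 → ℂ) (f : ℕ → Fin 3 → ℂ) (l : ℕ → ℂ)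
    (hsum : ∑ j ∈ range m, f j = v) (hA : ∀ j < m, A *ᵥ f j = l j • f j)
    (horth : ∀ i < m, ∀ j < m, i ≠ j → star (f i) ⬝ᵥ f j = 0) (hv : v ≠ 0)
    (hirr : ∀ W : Submodule ℂ (Fin 3 → ℂ), (∀ z ∈ W, A.mulVec z ∈ W) →
      (∀ z ∈ W, ((1 : Mat) - (2 : ℂ) • Matrix.vecMulVec v (star v)).mulVec z ∈ W) →
      W = ⊥ ∨ W = ⊤) :
    ((range m).filter fun j => f j ≠ 0).card = 3 := by
  classical
  obtain ⟨S, hS⟩ : ∃ S : Finset ℕ, S = (range m).filter fun j => f j ≠ 0 := ⟨_, rfl⟩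
  have hSm : ∀ j ∈ S, j < m ∧ f j ≠ 0 := by
    intro j hj
    rw [hS, Finset.mem_filter, Finset.mem_range] at hj
    exact hj
  obtain ⟨g, hg⟩ : ∃ g : S → Fin 3 → ℂ, g = fun j => f j.1 := ⟨_, rfl⟩
  -- the vectors are independent
  have hlin : LinearIndependent ℂ g := by
    rw [Fintype.linearIndependent_iff]
    intro c hc i
    have h1 : star (g i) ⬝ᵥ ∑ j, c j • g j = 0 := by rw [hc, dotProduct_zero]
    rw [dotProduct_sum] at h1
    have h2 : ∀ j : S, j ≠ i → star (g i) ⬝ᵥ (c j • g j) = 0 := by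
      intro j hj
      rw [dotProduct_smul, hg]
      have : star (f i.1) ⬝ᵥ f j.1 = 0 :=
        horth i.1 (hSm _ i.2).1 j.1 (hSm _ j.2).1 fun h => hj (Subtype.ext h.symm)
      rw [show star ((fun j : S => f j.1) i) ⬝ᵥ (fun j : S => f j.1) j = 0 from this, smul_zero]
    rw [Finset.sum_eq_single i (fun j _ hj => h2 j hj) (fun h => absurd (Finset.mem_univ _) h),
      dotProduct_smul, smul_eq_mul] at h1
    refine (mul_eq_zero.1 h1).resolve_right ?_
    intro h3
    have h4 := (Nm_sq (g i)).2.2 (by rw [hg]; exact (hSm _ i.2).2)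
    rw [h3] at h4
    exact lt_irrefl _ h4
  -- the span
  have hmem : ∀ j < m, f j ∈ Submodule.span ℂ (Set.range g) := by
    intro j hj
    by_cases h0 : f j = 0
    · rw [h0]
      exact Submodule.zero_mem _
    · refine Submodule.subset_span ⟨⟨j, ?_⟩, by rw [hg]⟩
      rw [hS, Finset.mem_filter, Finset.mem_range]
      exact ⟨hj, h0⟩
  have hvW : v ∈ Submodule.span ℂ (Set.range g) := by
    rw [← hsum]
    exact Submodule.sum_mem _ fun j hj => hmem j (Finset.mem_range.1 hj)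
  have hWA : ∀ z ∈ Submodule.span ℂ (Set.range g), A.mulVec z ∈ Submodule.span ℂ (Set.range g) := by
    intro z hz
    induction hz using Submodule.span_induction with
    | mem x hx =>
      obtain ⟨j, rfl⟩ := hx
      have h1 : A *ᵥ g j = l j.1 • g j := by
        rw [hg]
        exact hA j.1 (hSm _ j.2).1
      rw [h1]
      exact Submodule.smul_mem _ _ (Submodule.subset_span ⟨j, rfl⟩)
    | zero =>
      rw [Matrix.mulVec_zero]
      exact Submodule.zero_mem _
    | add x y _ _ hx hy =>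
      rw [Matrix.mulVec_add]
      exact Submodule.add_mem _ hx hy
    | smul a x _ hx =>
      rw [Matrix.mulVec_smul]
      exact Submodule.smul_mem _ _ hx
  have hWR : ∀ z ∈ Submodule.span ℂ (Set.range g),
      ((1 : Mat) - (2 : ℂ) • Matrix.vecMulVec v (star v)).mulVec z ∈
        Submodule.span ℂ (Set.range g) := by
    intro z hz
    have h1 : ((1 : Mat) - (2 : ℂ) • Matrix.vecMulVec v (star v)).mulVec z =
        z - (2 * (star v ⬝ᵥ z)) • v := by
      rw [Matrix.sub_mulVec, Matrix.one_mulVec, Matrix.smul_mulVec]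
      congr 1
      funext i
      rw [Pi.smul_apply, Pi.smul_apply, Matrix.vecMulVec_mulVec]
      simp only [smul_eq_mul, Pi.smul_apply, MulOpposite.smul_eq_mul_unop,
        MulOpposite.unop_op]
      ring
    rw [h1]
    exact Submodule.sub_mem _ hz (Submodule.smul_mem _ _ hvW)
  have htop : Submodule.span ℂ (Set.range g) = ⊤ := by
    refine (hirr _ hWA hWR).resolve_left ?_
    intro hbot
    rw [hbot, Submodule.mem_bot] at hvW
    exact hv hvW
  have hfr := finrank_span_eq_card hlin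
  rw [htop, finrank_top, Module.finrank_fin_fun, Fintype.card_coe] at hfr
  rw [← hS]
  exact hfr.symm

theorem pr_Nm : StNm := by
  intro hE hP m A v hm hAm hv hirr
  obtain ⟨P, hP1, hP2, hP3, hP4⟩ := hP hE m A hm hAm
  obtain ⟨f, hf⟩ : ∃ f : ℕ → Fin 3 → ℂ, f = fun j => P j *ᵥ v := ⟨_, rfl⟩
  have hsum : ∑ j ∈ range m, f j = v := by
    rw [hf]
    show ∑ j ∈ range m, P j *ᵥ v = v
    rw [← Matrix.sum_mulVec, hP1, Matrix.one_mulVec]
  have hAf : ∀ j < m, (A : Mat) *ᵥ f j = ee ((j : ℝ) / m) • f j := by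
    intro j hj
    rw [hf]
    show (A : Mat) *ᵥ (P j *ᵥ v) = ee ((j : ℝ) / m) • (P j *ᵥ v)
    rw [Matrix.mulVec_mulVec, hP2 j hj, Matrix.smul_mulVec]
  have horth : ∀ i < m, ∀ j < m, i ≠ j → star (f i) ⬝ᵥ f j = 0 := by
    intro i hi j hj hij
    rw [hf]
    exact Nm_orth m P v hP3 hP4 i j hi hj hij
  have hvd : star v ⬝ᵥ v = 1 := hv
  have hv0 : v ≠ 0 := by
    intro h
    rw [h, dotProduct_zero] at hvd
    exact zero_ne_one hvd
  have hcard := Nm_card m (A : Mat) v f (fun j => ee ((j : ℝ) / m)) hsum hAf horth hv0 hirr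
  obtain ⟨S, hS⟩ : ∃ S : Finset ℕ, S = (range m).filter fun j => f j ≠ 0 := ⟨_, rfl⟩
  rw [← hS] at hcard
  obtain ⟨e, he⟩ : ∃ e : Fin 3 ↪o ℕ, e = S.orderEmbOfFin hcard := ⟨_, rfl⟩
  have heS : ∀ i, e i ∈ S := by
    intro i
    rw [he]
    exact Finset.orderEmbOfFin_mem S hcard i
  have hem : ∀ i, e i < m ∧ f (e i) ≠ 0 := by
    intro i
    have := heS i
    rw [hS, Finset.mem_filter, Finset.mem_range] at this
    exact this
  have hfv : ∀ j < m, star (f j) ⬝ᵥ v = star (f j) ⬝ᵥ f j := by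
    intro j hj
    have h1 : star (f j) ⬝ᵥ v = ∑ i ∈ range m, star (f j) ⬝ᵥ f i := by
      rw [← dotProduct_sum, hsum]
    rw [h1, Finset.sum_eq_single j (fun i hi hij => horth j hj i (Finset.mem_range.1 hi) hij.symm)
      (fun h => absurd (Finset.mem_range.2 hj) h)]
  obtain ⟨w, hw⟩ : ∃ w : Fin 3 → ℝ, w = fun i => (star (f (e i)) ⬝ᵥ f (e i)).re := ⟨_, rfl⟩
  have hwpos : ∀ i, 0 < w i := by
    intro i
    rw [hw]
    exact (Nm_sq _).2.2 (hem i).2
  have hwc : ∀ i, star (f (e i)) ⬝ᵥ f (e i) = (w i : ℂ) := by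
    intro i
    rw [hw]
    exact (Nm_sq _).1
  -- the sum of the weights
  have hwsum : ∑ i, w i = 1 := by
    have h1 : ((∑ i, w i : ℝ) : ℂ) = 1 := by
      rw [Complex.ofReal_sum]
      have h2 : ∑ i, (w i : ℂ) = ∑ j ∈ S, star (f j) ⬝ᵥ f j := by
        have h3 : S = Finset.univ.map e.toEmbedding := by
          rw [he]
          exact (Finset.map_orderEmbOfFin_univ S hcard).symm
        rw [h3, Finset.sum_map]
        exact Finset.sum_congr rfl fun i _ => (hwc i).symm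
      have h4 : ∑ j ∈ S, star (f j) ⬝ᵥ f j = ∑ j ∈ range m, star (f j) ⬝ᵥ f j := by
        rw [hS]
        refine Finset.sum_filter_of_ne fun j _ hj h0 => hj ?_
        rw [h0, dotProduct_zero]
      have h5 : ∑ j ∈ range m, star (f j) ⬝ᵥ f j = ∑ j ∈ range m, star (f j) ⬝ᵥ v :=
        Finset.sum_congr rfl fun j hj => (hfv j (Finset.mem_range.1 hj)).symm
      have h6 : ∑ j ∈ range m, star (f j) ⬝ᵥ v = star v ⬝ᵥ v := by
        rw [← sum_dotProduct, ← star_sum, hsum]
      rw [h2, h4, h5, h6, hvd]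
    exact_mod_cast h1
  obtain ⟨U, hU1, hU2⟩ := Nm_mat (A : Mat) v (fun i => f (e i)) w
    (fun i => ee (((e i : ℕ) : ℝ) / m)) hwpos
    (fun i j => by
      by_cases hij : i = j
      · subst hij
        rw [if_pos rfl]
        exact hwc i
      · rw [if_neg hij]
        exact horth _ (hem i).1 _ (hem j).1 fun h => hij (e.injective h))
    (fun i => hAf _ (hem i).1) (fun i => by
      rw [hfv _ (hem i).1]
      exact hwc i)
  refine ⟨fun i => ((e i : ℕ) : ℤ), w, U, ?_, ?_, ?_, ?_, hwpos, hwsum, ?_, ?_⟩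
  · show (0 : ℤ) ≤ ((e 0 : ℕ) : ℤ)
    exact Int.natCast_nonneg _
  · show ((e 0 : ℕ) : ℤ) < ((e 1 : ℕ) : ℤ)
    have : e 0 < e 1 := e.strictMono (by decide)
    exact_mod_cast this
  · show ((e 1 : ℕ) : ℤ) < ((e 2 : ℕ) : ℤ)
    have : e 1 < e 2 := e.strictMono (by decide)
    exact_mod_cast this
  · show ((e 2 : ℕ) : ℤ) < (m : ℤ)
    exact_mod_cast (hem 2).1
  · show (U : Mat) * (A : Mat) * star (U : Mat) = _
    rw [hU1, dA]
    congr 1
  · exact hU2

end Pool.Agent.CM
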