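import Pool.Agent.Work.MP_8590b5_gt.CM.Stmts1

/-!
# Item Pc of block CM: the description of a piece
-/

set_option autoImplicit false

namespace Pool.Agent.CM

open Finset

theorem Pc_run_append {Γ : Type} [Group Γ] (w v : List (ℕ × Bool)) (s : ℕ → Str Γ) :
    run (w ++ v) s = run v (run w s) := by
  unfold run
  rw [List.foldl_append]

/-- Item [Pc] -/
theorem pr_Pc : StPc := by
  intro hMi hMo hCo Γ _ i s p
  have e0 : run (piece i) s = run (mvOut i) (run core (run (mvIn i) s)) := by
    unfold piece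
    rw [Pc_run_append, Pc_run_append]
  rw [e0]
  set s1 := run (mvIn i) s with hs1
  set s2 := run core s1 with hs2
  have a0 : s1 0 = s 0 := by
    rw [hs1, hMi, if_neg (by omega), if_neg (by omega)]
  have a1 : s1 1 = s 1 := by
    rw [hs1, hMi, if_neg (by omega), if_neg (by omega)]
  have a2 : s1 2 = s (i + 2) := by
    rw [hs1, hMi, if_pos rfl]
  have b2 : s2 2 = cC (s 0) (s 1) (s (i + 2)) := by
    rw [hs2, hCo, if_neg (by omega), if_neg (by omega), if_pos rfl, a0, a1, a2]
  rw [hMo Γ i s2 p]
  by_cases hp0 : p = 0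
  · subst hp0
    rw [if_neg (by omega), if_neg (by omega), if_pos rfl, hs2, hCo, if_pos rfl, a1, a2]
  by_cases hp1 : p = 1
  · subst hp1
    rw [if_neg (by omega), if_neg (by omega), if_neg (by omega), if_pos rfl, hs2, hCo,
      if_neg (by omega), if_pos rfl, a0, a1, a2]
  by_cases hpi : p = i + 2
  · rw [if_pos hpi, if_neg hp0, if_neg hp1, if_pos hpi, b2]
  by_cases hlt : p < i + 2
  · rw [if_neg hpi, if_pos ⟨by omega, hlt⟩, if_neg hp0, if_neg hp1, if_neg hpi, if_pos hlt, b2]
    have c1 : s2 (p + 1) = und (s p) (s (i + 2)).lab := by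
      rw [hs2, hCo, if_neg (by omega), if_neg (by omega), if_neg (by omega), hs1, hMi,
        if_neg (by omega), if_pos ⟨by omega, by omega⟩]
      rfl
    rw [c1]
  · rw [if_neg hpi, if_neg (by omega), if_neg hp0, if_neg hp1, if_neg hpi, if_neg hlt, hs2, hCo,
      if_neg hp0, if_neg hp1, if_neg (by omega), hs1, hMi, if_neg (by omega), if_neg (by omega)]

end Pool.Agent.CM
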