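import Pool.Agent.Work.MP_8590b5_gt.CM.Stmts2

/-!
# Block CM, item Pj: the eigenprojections of a unitary matrix of finite order
-/

set_option autoImplicit false

namespace Pool.Agent.CM

open Finset

theorem Pj_pow_coe (A : SU3) (l : ℕ) : ((A ^ l : SU3) : Mat) = (A : Mat) ^ l := rfl

theorem Pj_star (A : SU3) : star (A : Mat) = ((A⁻¹ : SU3) : Mat) := rfl

/-- A geometric sum of roots of unity. -/
theorem Pj_geom (h : StEe) (m l : ℕ) (hl : 0 < l) (hlm : l < m) :
    ∑ j ∈ range m, ee (-((j : ℝ) * l / m)) = 0 := by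
  obtain ⟨hadd, hint, heq, -, hpow, -⟩ := h
  have hm : (m : ℝ) ≠ 0 := by
    have : 0 < m := by omega
    exact_mod_cast this.ne'
  have h1 : ∀ j ∈ range m, ee (-((j : ℝ) * l / m)) = ee (-((l : ℝ) / m)) ^ j := by
    intro j _
    rw [hpow]
    congr 1
    ring
  rw [Finset.sum_congr rfl h1]
  have hne : ee (-((l : ℝ) / m)) ≠ 1 := by
    intro h2
    rw [← hint 0, heq] at h2
    obtain ⟨z, hz⟩ := h2
    have h3 : (l : ℝ) = -(z * m) := by
      have : (l : ℝ) / m = - z := by
        have := hz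
        push_cast at this
        linarith
      field_simp at this
      linarith
    have h4 : (l : ℤ) = -(z * m) := by exact_mod_cast h3
    have h5 : 0 < (l : ℤ) := by exact_mod_cast hl
    have h6 : (l : ℤ) < m := by exact_mod_cast hlm
    have h7 : 0 < -z := by
      by_contra hc
      push Not at hc
      have : (l : ℤ) ≤ 0 := by
        rw [h4]
        have hm0 : (0 : ℤ) ≤ m := by positivity
        nlinarith
      omega
    have : (m : ℤ) ≤ l := by
      rw [h4]
      have hm0 : (0 : ℤ) ≤ m := by positivity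
      nlinarith
    omega
  rw [geom_sum_eq hne]
  have : ee (-((l : ℝ) / m)) ^ m = 1 := by
    rw [hpow]
    have : (m : ℝ) * -((l : ℝ) / m) = ((-(l : ℤ) : ℤ) : ℝ) := by
      push_cast
      field_simp
    rw [this, hint]
  rw [this, sub_self, zero_div]

/-- A sum over a period may be shifted. -/
theorem Pj_shift {M : Type*} [AddCommMonoid M] (m : ℕ) (f : ℕ → M) (h : f m = f 0) :
    ∑ l ∈ range m, f (l + 1) = ∑ l ∈ range m, f l := by
  rcases Nat.eq_zero_or_pos m with h0 | h0
  · rw [h0]; simp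
  · obtain ⟨n, rfl⟩ : ∃ n, m = n + 1 := ⟨m - 1, by omega⟩
    rw [Finset.sum_range_succ, h, Finset.sum_range_succ' f n]

/-- A sum over a period may be reflected. -/
theorem Pj_refl {M : Type*} [AddCommMonoid M] (m : ℕ) (f g : ℕ → M) (h0 : g 0 = f 0)
    (h : ∀ l, 0 < l → l < m → g l = f (m - l)) :
    ∑ l ∈ range m, g l = ∑ l ∈ range m, f l := by
  rcases Nat.eq_zero_or_pos m with hm | hm
  · rw [hm]; simp
  · obtain ⟨n, rfl⟩ : ∃ n, m = n + 1 := ⟨m - 1, by omega⟩
    rw [Finset.sum_range_succ' f n, Finset.sum_range_succ' g n, h0]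
    congr 1
    rw [← Finset.sum_range_reflect (fun k => f (k + 1)) n]
    refine Finset.sum_congr rfl fun l hl => ?_
    rw [Finset.mem_range] at hl
    rw [h (l + 1) (by omega) (by omega)]
    congr 1
    omega

/-- The projections. -/
noncomputable def Pj_P (m : ℕ) (A : SU3) (j : ℕ) : Mat :=
  ((m : ℂ)⁻¹) • ∑ l ∈ range m, ee (-((j : ℝ) * l / m)) • ((A ^ l : SU3) : Mat)

theorem pr_Pj : StPj := by
  intro h m A hm hA
  have h' := h
  obtain ⟨hadd, hint, heq, hstar, hpow, -, hne, -⟩ := h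
  have hmR : (m : ℝ) ≠ 0 := by exact_mod_cast hm.ne'
  have hmC : (m : ℂ) ≠ 0 := by exact_mod_cast hm.ne'
  refine ⟨Pj_P m A, ?_, ?_, ?_, ?_⟩
  · -- the sum is 1
    unfold Pj_P
    rw [← Finset.smul_sum, Finset.sum_comm]
    have h1 : ∀ l ∈ range m, ∑ j ∈ range m, ee (-((j : ℝ) * l / m)) • ((A ^ l : SU3) : Mat) =
        if l = 0 then (m : ℂ) • (1 : Mat) else 0 := by
      intro l hl
      rw [← Finset.sum_smul]
      by_cases h0 : l = 0
      · rw [if_pos h0, h0]
        have : ∀ j ∈ range m, ee (-((j : ℝ) * ((0 : ℕ) : ℝ) / m)) = 1 := by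
          intro j _
          have h2 : -((j : ℝ) * ((0 : ℕ) : ℝ) / m) = ((0 : ℤ) : ℝ) := by simp
          rw [h2, hint]
        rw [Finset.sum_congr rfl this, Finset.sum_const, Finset.card_range, nsmul_eq_mul, mul_one,
          pow_zero]
        rfl
      · rw [if_neg h0, Pj_geom h' m l (Nat.pos_of_ne_zero h0) (Finset.mem_range.1 hl), zero_smul]
    rw [Finset.sum_congr rfl h1, Finset.sum_ite_eq' (range m) 0, if_pos (Finset.mem_range.2 hm),
      smul_smul, inv_mul_cancel₀ hmC, one_smul]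
  · -- eigenvectors
    intro j _
    unfold Pj_P
    rw [Matrix.mul_smul, Finset.mul_sum, smul_comm]
    congr 1
    rw [Finset.smul_sum]
    rw [← Pj_shift m (fun l => ee ((j : ℝ) / m) • (ee (-((j : ℝ) * l / m)) • ((A ^ l : SU3) : Mat)))]
    · refine Finset.sum_congr rfl fun l _ => ?_
      rw [Matrix.mul_smul, smul_smul, ← hadd]
      have e1 : (A : Mat) * ((A ^ l : SU3) : Mat) = ((A ^ (l + 1) : SU3) : Mat) := by
        rw [pow_succ']; rfl
      rw [e1]
      congr 2
      push_cast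
      ring
    · show ee ((j : ℝ) / m) • (ee (-((j : ℝ) * (m : ℕ) / m)) • ((A ^ m : SU3) : Mat)) =
        ee ((j : ℝ) / m) • (ee (-((j : ℝ) * ((0 : ℕ) : ℝ) / m)) • ((A ^ 0 : SU3) : Mat))
      rw [hA, pow_zero]
      have h2 : -((j : ℝ) * ((0 : ℕ) : ℝ) / m) = ((0 : ℤ) : ℝ) := by simp
      have h3 : -((j : ℝ) * (m : ℕ) / m) = ((-(j : ℤ) : ℤ) : ℝ) := by
        push_cast
        field_simp
      rw [h2, h3, hint, hint]
  · -- self adjoint
    intro j _
    unfold Pj_P
    rw [star_smul, star_sum]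
    have e0 : star ((m : ℂ)⁻¹) = (m : ℂ)⁻¹ := by
      rw [star_inv₀, star_natCast]
    rw [e0]
    congr 1
    refine Pj_refl m (fun l => ee (-((j : ℝ) * l / m)) • ((A ^ l : SU3) : Mat)) _ ?_ ?_
    · show star (ee (-((j : ℝ) * ((0 : ℕ) : ℝ) / m)) • ((A ^ 0 : SU3) : Mat)) =
        ee (-((j : ℝ) * ((0 : ℕ) : ℝ) / m)) • ((A ^ 0 : SU3) : Mat)
      have h2 : -((j : ℝ) * ((0 : ℕ) : ℝ) / m) = ((0 : ℤ) : ℝ) := by simp
      rw [h2, hint, one_smul, pow_zero, Pj_star, inv_one]
    · intro l hl hlm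
      show star (ee (-((j : ℝ) * l / m)) • ((A ^ l : SU3) : Mat)) =
        ee (-((j : ℝ) * ((m - l : ℕ) : ℝ) / m)) • ((A ^ (m - l) : SU3) : Mat)
      rw [star_smul, Pj_star, hstar]
      have e1 : (A ^ l)⁻¹ = A ^ (m - l) := by
        rw [inv_eq_iff_mul_eq_one, ← pow_add, Nat.add_sub_cancel' hlm.le, hA]
      rw [e1]
      congr 1
      rw [heq]
      refine ⟨(j : ℤ), ?_⟩
      rw [Nat.cast_sub hlm.le]
      push_cast
      field_simp
      ring
  · -- orthogonal
    intro i hi j hj hij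
    have hP : ∀ j, (A : Mat) * Pj_P m A j = Pj_P m A j * (A : Mat) := by
      intro j
      unfold Pj_P
      rw [Matrix.mul_smul, Matrix.smul_mul, Finset.mul_sum, Finset.sum_mul]
      congr 1
      refine Finset.sum_congr rfl fun l _ => ?_
      rw [Matrix.mul_smul, Matrix.smul_mul]
      congr 1
      rw [Pj_pow_coe, ← pow_succ, ← pow_succ']
    have hE : ∀ j, (A : Mat) * Pj_P m A j = ee ((j : ℝ) / m) • Pj_P m A j := by
      intro j
      unfold Pj_P
      rw [Matrix.mul_smul, Finset.mul_sum, smul_comm]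
      congr 1
      rw [Finset.smul_sum]
      rw [← Pj_shift m (fun l => ee ((j : ℝ) / m) •
        (ee (-((j : ℝ) * l / m)) • ((A ^ l : SU3) : Mat)))]
      · refine Finset.sum_congr rfl fun l _ => ?_
        rw [Matrix.mul_smul, smul_smul, ← hadd]
        have e1 : (A : Mat) * ((A ^ l : SU3) : Mat) = ((A ^ (l + 1) : SU3) : Mat) := by
          rw [pow_succ']; rfl
        rw [e1]
        congr 2
        push_cast
        ring
      · show ee ((j : ℝ) / m) • (ee (-((j : ℝ) * (m : ℕ) / m)) • ((A ^ m : SU3) : Mat)) =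
          ee ((j : ℝ) / m) • (ee (-((j : ℝ) * ((0 : ℕ) : ℝ) / m)) • ((A ^ 0 : SU3) : Mat))
        rw [hA, pow_zero]
        have h2 : -((j : ℝ) * ((0 : ℕ) : ℝ) / m) = ((0 : ℤ) : ℝ) := by simp
        have h3 : -((j : ℝ) * (m : ℕ) / m) = ((-(j : ℤ) : ℤ) : ℝ) := by
          push_cast
          field_simp
        rw [h2, h3, hint, hint]
    have h1 : ee ((i : ℝ) / m) • (Pj_P m A j * Pj_P m A i) =
        ee ((j : ℝ) / m) • (Pj_P m A j * Pj_P m A i) := by
      rw [← Matrix.mul_smul, ← hE i, ← Matrix.mul_assoc, ← hP j, hE j, Matrix.smul_mul]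
    have hd : ee ((i : ℝ) / m) ≠ ee ((j : ℝ) / m) := by
      intro h2
      rw [heq] at h2
      obtain ⟨z, hz⟩ := h2
      have h3 : (i : ℝ) = j + z * m := by
        field_simp at hz
        linarith
      have h4 : (i : ℤ) = j + z * m := by exact_mod_cast h3
      have h5 : (i : ℤ) < m := by exact_mod_cast hi
      have h6 : (j : ℤ) < m := by exact_mod_cast hj
      have h7 : z = 0 := by
        have a1 : z < 1 := by
          by_contra hc
          push Not at hc
          nlinarith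
        have a2 : -1 < z := by
          by_contra hc
          push Not at hc
          nlinarith
        omega
      rw [h7, zero_mul, add_zero] at h4
      exact hij (by exact_mod_cast h4)
    have h2 : (ee ((i : ℝ) / m) - ee ((j : ℝ) / m)) • (Pj_P m A j * Pj_P m A i) = 0 := by
      rw [sub_smul, h1, sub_self]
    exact (smul_eq_zero.1 h2).resolve_left (sub_ne_zero.2 hd)

end Pool.Agent.CM
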