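import Pool.Agent.Work.MP_8590b5_gt.CM.Stmts6

/-!
# Block CM, item Ra: reducible pairs have a common fixed vector
-/

set_option autoImplicit false

namespace Pool.Agent.CM

open Finset Matrix

theorem Ra_coe (x y : SU3) : ((x * y : SU3) : Mat) = (x : Mat) * (y : Mat) := rfl

theorem Ra_pow (x : SU3) (m : ℕ) : ((x ^ m : SU3) : Mat) = (x : Mat) ^ m := rfl

theorem Ra_star (x : SU3) : star (x : Mat) = ((x⁻¹ : SU3) : Mat) := rfl

/-- Powers on eigenvectors. -/
theorem Ra_powv (M : Mat) (e : Fin 3 → ℂ) (c : ℂ) (h : M.mulVec e = c • e) (m : ℕ) :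
    (M ^ m).mulVec e = c ^ m • e := by
  induction m with
  | zero => rw [pow_zero, Matrix.one_mulVec, pow_zero, one_smul]
  | succ m ih =>
    rw [pow_succ, ← Matrix.mulVec_mulVec, h, Matrix.mulVec_smul, ih, smul_smul, ← pow_succ']

theorem Ra_inj {e : Fin 3 → ℂ} (he : e ≠ 0) {x y : ℂ} (h : x • e = y • e) : x = y := by
  obtain ⟨i, hi⟩ : ∃ i, e i ≠ 0 := by
    by_contra hc
    push Not at hc
    exact he (funext hc)
  have h1 : x * e i = y * e i := congrFun h i
  exact mul_right_cancel₀ hi h1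

/-- The eigenvalues of a common eigenvector are 1. -/
theorem Ra_one (k : ℕ) (a b : SU3) (h : Tor k a b) (e : Fin 3 → ℂ) (he : e ≠ 0) (c d : ℂ)
    (ha : (a : Mat).mulVec e = c • e) (hb : (b : Mat).mulVec e = d • e) : c = 1 ∧ d = 1 := by
  have hne : ∀ (x : SU3) (z : ℂ), (x : Mat).mulVec e = z • e → z ≠ 0 := by
    intro x z hx hz
    rw [hz, zero_smul] at hx
    have h1 : ((x⁻¹ : SU3) : Mat).mulVec ((x : Mat).mulVec e) = e := by
      rw [Matrix.mulVec_mulVec, Aff_inv, Matrix.one_mulVec]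
    rw [hx, Matrix.mulVec_zero] at h1
    exact he h1.symm
  have hc := hne a c ha
  have hd := hne b d hb
  have hab : ((a * b : SU3) : Mat).mulVec e = (d * c) • e := by
    rw [Ra_coe, ← Matrix.mulVec_mulVec, hb, Matrix.mulVec_smul, ha, smul_smul]
  have h1 : b * (a * b) ^ k = (a * b) ^ k * a := eq_mul_inv_iff_mul_eq.1 h.1
  have h2 : ((b * (a * b) ^ k : SU3) : Mat).mulVec e = (((a * b) ^ k * a : SU3) : Mat).mulVec e := by
    rw [h1]
  have hk : (((a * b) ^ k : SU3) : Mat).mulVec e = (d * c) ^ k • e := by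
    rw [Ra_pow]
    exact Ra_powv _ e _ hab k
  rw [Ra_coe, Ra_coe, ← Matrix.mulVec_mulVec, ← Matrix.mulVec_mulVec, hk, ha, Matrix.mulVec_smul,
    Matrix.mulVec_smul, hk, hb, smul_smul, smul_smul] at h2
  have h3 := Ra_inj he h2
  have hdc : (d * c) ^ k ≠ 0 := pow_ne_zero _ (mul_ne_zero hd hc)
  have h4 : d = c := by
    rw [mul_comm c] at h3
    exact mul_left_cancel₀ hdc h3
  have h5 : (((a * b) ^ (2 * k + 1) : SU3) : Mat).mulVec e =
      ((a ^ (4 * k + 3) : SU3) : Mat).mulVec e := by rw [h.2]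
  rw [Ra_pow, Ra_pow, Ra_powv _ e _ hab, Ra_powv _ e _ ha] at h5
  have h6 := Ra_inj he h5
  rw [h4] at h6 ⊢
  have h7 : c ^ (4 * k + 2) * 1 = c ^ (4 * k + 2) * c := by
    calc c ^ (4 * k + 2) * 1 = (c * c) ^ (2 * k + 1) := by ring
      _ = c ^ (4 * k + 3) := h6
      _ = c ^ (4 * k + 2) * c := by ring
  have h8 := mul_left_cancel₀ (pow_ne_zero _ hc) h7
  exact ⟨h8.symm, h8.symm⟩

/-- A common eigenvector. -/
theorem Ra_eig (a b : SU3) (h : ¬ IrrP a b) : ∃ (e : Fin 3 → ℂ) (c d : ℂ), e ≠ 0 ∧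
    (a : Mat).mulVec e = c • e ∧ (b : Mat).mulVec e = d • e := by
  unfold IrrP at h
  push Not at h
  obtain ⟨W, h1, h2, h3, h4⟩ := h
  have hlt : Module.finrank ℂ W < 3 := by
    have := Submodule.finrank_lt h4
    rwa [Module.finrank_fin_fun] at this
  have hpos : Module.finrank ℂ W ≠ 0 := fun h0 => h3 (Submodule.finrank_eq_zero.1 h0)
  have hcases : Module.finrank ℂ W = 1 ∨ Module.finrank ℂ W = 2 := by omega
  rcases hcases with hd | hd
  · obtain ⟨⟨e, heW⟩, hne, hall⟩ := finrank_eq_one_iff'.1 hd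
    obtain ⟨c, hc⟩ := hall ⟨(a : Mat).mulVec e, h1 e heW⟩
    obtain ⟨d, hd⟩ := hall ⟨(b : Mat).mulVec e, h2 e heW⟩
    refine ⟨e, c, d, fun h0 => hne (Subtype.ext h0), ?_, ?_⟩
    · exact (congrArg Subtype.val hc).symm
    · exact (congrArg Subtype.val hd).symm
  · have hann : Module.finrank ℂ W.dualAnnihilator = 1 := by
      have := Subspace.finrank_add_finrank_dualAnnihilator_eq W
      rw [Module.finrank_fin_fun, hd] at this
      omega
    obtain ⟨⟨φ, hφ⟩, hne, hall⟩ := finrank_eq_one_iff'.1 hann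
    obtain ⟨f, hf⟩ : ∃ f : Fin 3 → ℂ, ∀ v, φ v = f ⬝ᵥ v := by
      refine ⟨fun i => φ (fun j => if i = j then 1 else 0), fun v => ?_⟩
      rw [LinearMap.pi_apply_eq_sum_univ φ v]
      unfold dotProduct
      refine Finset.sum_congr rfl fun i _ => ?_
      rw [smul_eq_mul, mul_comm]
    have hf0 : f ≠ 0 := by
      intro h0
      refine hne (Subtype.ext (LinearMap.ext fun v => ?_))
      change φ v = 0
      rw [hf, h0, zero_dotProduct]
    have key : ∀ x : SU3, (∀ v ∈ W, (x : Mat).mulVec v ∈ W) →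
        ∃ c : ℂ, (x : Mat).mulVec (star f) = c • star f := by
      intro x hx
      have hmem : φ.comp (Matrix.mulVecLin (x : Mat)) ∈ W.dualAnnihilator := by
        rw [Submodule.mem_dualAnnihilator] at hφ ⊢
        intro w hw
        exact hφ _ (hx w hw)
      obtain ⟨c, hc⟩ := hall ⟨_, hmem⟩
      have h5 : c • φ = φ.comp (Matrix.mulVecLin (x : Mat)) := congrArg Subtype.val hc
      have h6 : c • f = f ᵥ* (x : Mat) := by
        refine dotProduct_eq _ _ fun v => ?_
        have h7 : c • φ v = φ ((x : Mat).mulVec v) := by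
          have := LinearMap.congr_fun h5 v
          exact this
        rw [hf, hf, dotProduct_mulVec] at h7
        rw [smul_dotProduct]
        exact h7
      have h8 : ((x⁻¹ : SU3) : Mat).mulVec (star f) = star c • star f := by
        rw [← Ra_star, Matrix.star_eq_conjTranspose, ← Matrix.star_vecMul, ← h6, star_smul]
      have h9 : (x : Mat).mulVec (((x⁻¹ : SU3) : Mat).mulVec (star f)) = star f := by
        rw [Matrix.mulVec_mulVec, Aff_inv', Matrix.one_mulVec]
      rw [h8, Matrix.mulVec_smul] at h9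
      have hc0 : star c ≠ 0 := by
        intro h0
        rw [h0, zero_smul] at h9
        exact hf0 (star_eq_zero.1 h9.symm)
      refine ⟨(star c)⁻¹, ?_⟩
      calc (x : Mat).mulVec (star f) = (star c)⁻¹ • star c • (x : Mat).mulVec (star f) := by
            rw [smul_smul, inv_mul_cancel₀ hc0, one_smul]
        _ = (star c)⁻¹ • star f := by rw [h9]
    obtain ⟨c, hc⟩ := key a h1
    obtain ⟨d, hd⟩ := key b h2
    exact ⟨star f, c, d, fun h0 => hf0 (star_eq_zero.1 h0), hc, hd⟩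

/-- A special unitary matrix whose third column is proportional to `e`. -/
theorem Ra_basis (e : Fin 3 → ℂ) (he : e ≠ 0) :
    ∃ (V : SU3) (r : ℂ), (V : Mat).mulVec (Pi.single 2 1) = r • e := by
  obtain ⟨x, hx⟩ : ∃ x : EuclideanSpace ℂ (Fin 3), x = WithLp.toLp 2 e := ⟨_, rfl⟩
  have hx0 : ‖x‖ ≠ 0 := by
    rw [norm_ne_zero_iff]
    intro h0
    apply he
    have : WithLp.ofLp x = 0 := by rw [h0]; rfl
    rw [hx] at this
    exact this
  obtain ⟨u, hu⟩ : ∃ u : EuclideanSpace ℂ (Fin 3), u = ((‖x‖⁻¹ : ℝ) : ℂ) • x := ⟨_, rfl⟩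
  have hun : ‖u‖ = 1 := by
    rw [hu, norm_smul, Complex.norm_real, norm_inv, norm_norm, inv_mul_cancel₀ hx0]
  have hON : Orthonormal ℂ (({2} : Set (Fin 3)).domRestrict
      (fun _ : Fin 3 => u)) := by
    refine ⟨fun _ => hun, fun i j hij => absurd (Subtype.ext ?_) hij⟩
    rw [Set.mem_singleton_iff.1 i.2, Set.mem_singleton_iff.1 j.2]
  obtain ⟨bb, hbb⟩ := Orthonormal.exists_orthonormalBasis_extension_of_card_eq
    (by rw [finrank_euclideanSpace]) hON
  have hb2 : bb 2 = u := hbb 2 (Set.mem_singleton _)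
  obtain ⟨M, hM⟩ : ∃ M : Mat, M = (EuclideanSpace.basisFun (Fin 3) ℂ).toBasis.toMatrix bb :=
    ⟨_, rfl⟩
  have hMu : M ∈ Matrix.unitaryGroup (Fin 3) ℂ := by
    rw [hM]
    exact (EuclideanSpace.basisFun (Fin 3) ℂ).toMatrix_orthonormalBasis_mem_unitary bb
  have hMe : ∀ i, M i 2 = u i := by
    intro i
    rw [hM, Module.Basis.toMatrix_apply, hb2]
    rfl
  have hdet : star M.det * M.det = 1 := by
    have h1 := (Matrix.mem_unitaryGroup_iff'.1 hMu)
    have h2 := congrArg Matrix.det h1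
    rw [Matrix.det_mul, Matrix.det_one, Matrix.star_eq_conjTranspose, Matrix.det_conjTranspose] at h2
    exact h2
  obtain ⟨D, hD⟩ : ∃ D : Mat, D = Matrix.diagonal ![star M.det, 1, 1] := ⟨_, rfl⟩
  have hDu : D ∈ Matrix.unitaryGroup (Fin 3) ℂ := by
    rw [Matrix.mem_unitaryGroup_iff', hD, Matrix.star_eq_conjTranspose,
      Matrix.diagonal_conjTranspose, Matrix.diagonal_mul_diagonal]
    have h1 : (fun i => star ![star M.det, 1, 1] i * ![star M.det, 1, 1] i) =
        (fun _ => (1 : ℂ)) := by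
      funext i
      fin_cases i
      · change star (star M.det) * star M.det = 1
        rw [star_star, mul_comm]
        exact hdet
      · change star (1 : ℂ) * 1 = 1
        rw [star_one, mul_one]
      · change star (1 : ℂ) * 1 = 1
        rw [star_one, mul_one]
    rw [h1]
    exact Matrix.diagonal_one
  have hDdet : D.det = star M.det := by
    rw [hD, Matrix.det_diagonal, Fin.prod_univ_three]
    change star M.det * 1 * 1 = star M.det
    rw [mul_one, mul_one]
  have hV : M * D ∈ Matrix.specialUnitaryGroup (Fin 3) ℂ := by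
    rw [Matrix.mem_specialUnitaryGroup_iff]
    refine ⟨mul_mem hMu hDu, ?_⟩
    rw [Matrix.det_mul, hDdet, mul_comm]
    exact hdet
  refine ⟨⟨M * D, hV⟩, ((‖x‖⁻¹ : ℝ) : ℂ), ?_⟩
  change (M * D).mulVec (Pi.single 2 1) = ((‖x‖⁻¹ : ℝ) : ℂ) • e
  have hD2 : D.mulVec (Pi.single 2 1) = Pi.single 2 1 := by
    rw [hD]
    funext i
    rw [Matrix.mulVec_diagonal]
    fin_cases i
    · change star M.det * 0 = 0
      rw [mul_zero]
    · change (1 : ℂ) * 0 = 0
      rw [mul_zero]
    · change (1 : ℂ) * 1 = 1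
      rw [mul_one]
  rw [← Matrix.mulVec_mulVec, hD2]
  funext i
  rw [Matrix.mulVec_single_one]
  change M i 2 = ((‖x‖⁻¹ : ℝ) : ℂ) * e i
  rw [hMe, hu, hx]
  rfl

/-- A matrix which fixes the third basis vector. -/
theorem Ra_fx (c : SU3) (h : (c : Mat).mulVec (Pi.single 2 1) = Pi.single 2 1) : Fx c := by
  have hE : star E3 = E3 := by
    unfold E3
    rw [Matrix.star_eq_conjTranspose, Matrix.diagonal_conjTranspose]
    congr 1
    funext i
    fin_cases i
    · exact star_zero ℂ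
    · exact star_zero ℂ
    · exact star_one ℂ
  have hcol : ∀ i, (c : Mat) i 2 = (Pi.single 2 1 : Fin 3 → ℂ) i := by
    intro i
    have h1 := congrFun h i
    rw [Matrix.mulVec_single_one] at h1
    exact h1
  have h1 : (c : Mat) * E3 = E3 := by
    ext i j
    unfold E3
    rw [Matrix.mul_diagonal, Matrix.diagonal_apply]
    fin_cases j
    · change (c : Mat) i 0 * 0 = _
      rw [mul_zero]
      fin_cases i <;> rfl
    · change (c : Mat) i 1 * 0 = _
      rw [mul_zero]
      fin_cases i <;> rfl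
    · change (c : Mat) i 2 * 1 = _
      rw [mul_one, hcol]
      fin_cases i <;> rfl
  refine ⟨h1, ?_⟩
  have h2 : star (c : Mat) * E3 = E3 := by
    calc star (c : Mat) * E3 = star (c : Mat) * ((c : Mat) * E3) := by rw [h1]
      _ = (((c⁻¹ : SU3) : Mat) * (c : Mat)) * E3 := by rw [← Matrix.mul_assoc, Ra_star]
      _ = E3 := by rw [Aff_inv, Matrix.one_mul]
  have h3 := congrArg star h2
  rw [star_mul, star_star, hE] at h3
  exact h3

/-- Item Ra. -/
theorem pr_Ra : StRa := by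
  intro _ k a b hT hI
  obtain ⟨e, c, d, he, ha, hb⟩ := Ra_eig a b hI
  obtain ⟨hc, hd⟩ := Ra_one k a b hT e he c d ha hb
  rw [hc, one_smul] at ha
  rw [hd, one_smul] at hb
  obtain ⟨V, r, hV⟩ := Ra_basis e he
  have key : ∀ x : SU3, (x : Mat).mulVec e = e → Fx (V⁻¹ * x * (V⁻¹)⁻¹) := by
    intro x hx
    rw [inv_inv]
    refine Ra_fx _ ?_
    rw [Ra_coe, Ra_coe, ← Matrix.mulVec_mulVec, ← Matrix.mulVec_mulVec, hV, Matrix.mulVec_smul, hx,
      ← hV, Matrix.mulVec_mulVec, Aff_inv, Matrix.one_mulVec]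
  exact ⟨V⁻¹, key a ha, key b hb⟩

end Pool.Agent.CM
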