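import Pool.Agent.Work.MP_8590b5_gt.CM.Stmts2

/-!
# Block CM, item Rf (helper73): square roots of scalar matrices in SU(3) are multiples of reflections
-/

namespace Pool.Agent.CM

open Finset

/-- A Hermitian idempotent matrix of trace zero is zero. -/
theorem Rf_zero (Q : Mat) (h1 : star Q = Q) (h2 : Q * Q = Q) (h3 : Q.trace = 0) : Q = 0 := by
  have h4 : ∀ i j, star (Q i j) = Q j i := by
    intro i j
    have := congrFun (congrFun h1 j) i
    rw [← this]; rfl
  have h5 : ∀ i, Q i i = ∑ j, Q i j * star (Q i j) := by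
    intro i
    have := congrFun (congrFun h2 i) i
    rw [Matrix.mul_apply] at this
    rw [← this]
    apply Finset.sum_congr rfl
    intro j _
    rw [h4]
  have h6 : (∑ i, ∑ j, (Complex.normSq (Q i j)) : ℝ) = 0 := by
    have h7 : ((∑ i, ∑ j, (Complex.normSq (Q i j)) : ℝ) : ℂ) = 0 := by
      push_cast
      rw [← h3, Matrix.trace]
      apply Finset.sum_congr rfl
      intro i _
      rw [Matrix.diag_apply, h5 i]
      apply Finset.sum_congr rfl
      intro j _
      rw [Complex.star_def, Complex.mul_conj]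
    exact_mod_cast h7
  have h8 : ∀ i, ∑ j, Complex.normSq (Q i j) = 0 := by
    have := (Finset.sum_eq_zero_iff_of_nonneg (fun i _ =>
      Finset.sum_nonneg (fun j _ => Complex.normSq_nonneg (Q i j)))).mp h6
    intro i
    exact this i (Finset.mem_univ i)
  ext i j
  have := (Finset.sum_eq_zero_iff_of_nonneg (fun j _ =>
      Complex.normSq_nonneg (Q i j))).mp (h8 i) j (Finset.mem_univ j)
  exact Complex.normSq_eq_zero.mp this

theorem Rf_tr (R : Mat) : 2 * (R.adjugate).trace = R.trace ^ 2 - (R * R).trace := by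
  rw [Matrix.adjugate_fin_three]
  simp [Matrix.trace_fin_three, Matrix.mul_apply, Fin.sum_univ_three]
  ring

/-- A Hermitian idempotent matrix of trace one is `v v*`. -/
theorem Rf_one (P : Mat) (h1 : star P = P) (h2 : P * P = P) (h3 : P.trace = 1) :
    ∃ v : Fin 3 → ℂ, ∑ i, star (v i) * v i = 1 ∧ P = Matrix.vecMulVec v (star v) := by
  have h4 : ∀ i j, star (P i j) = P j i := by
    intro i j
    have := congrFun (congrFun h1 j) i
    rw [← this]; rfl
  obtain ⟨j, hj⟩ : ∃ j, P j j ≠ 0 := by
    by_contra hcon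
    push Not at hcon
    rw [Matrix.trace] at h3
    simp only [Matrix.diag_apply, hcon, Finset.sum_const_zero] at h3
    exact zero_ne_one h3
  have h5 : P j j = ∑ i, P j i * P i j := by
    have := congrFun (congrFun h2 j) j
    rw [Matrix.mul_apply] at this
    exact this.symm
  have h6 : P j j = ((∑ i, Complex.normSq (P i j) : ℝ) : ℂ) := by
    rw [h5]
    push_cast
    apply Finset.sum_congr rfl
    intro i _
    rw [← h4 i j, Complex.star_def, mul_comm, Complex.mul_conj]
  set r : ℝ := ∑ i, Complex.normSq (P i j) with hr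
  have hr0 : 0 ≤ r := Finset.sum_nonneg (fun i _ => Complex.normSq_nonneg _)
  have hrpos : 0 < r := by
    rcases hr0.lt_or_eq with h | h
    · exact h
    · exfalso; apply hj; rw [h6, ← h]; simp
  have hs : (Real.sqrt r : ℂ) * (Real.sqrt r : ℂ) = (r : ℂ) := by
    rw [← Complex.ofReal_mul, Real.mul_self_sqrt hr0]
  have hs0 : (Real.sqrt r : ℂ) ≠ 0 := by
    rw [Complex.ofReal_ne_zero]
    exact (Real.sqrt_pos.mpr hrpos).ne'
  have hrc : (r : ℂ) ≠ 0 := by rw [Complex.ofReal_ne_zero]; exact hrpos.ne'
  set v : Fin 3 → ℂ := fun i => P i j / (Real.sqrt r : ℂ) with hv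
  have hstarv : ∀ i, star (v i) = P j i / (Real.sqrt r : ℂ) := by
    intro i
    rw [hv]
    simp only [star_div₀, h4]
    congr 1
    rw [Complex.star_def, Complex.conj_ofReal]
  have hvv : ∑ i, star (v i) * v i = 1 := by
    have e1 : ∀ i, star (v i) * v i = P j i * P i j / (r : ℂ) := by
      intro i
      rw [hstarv, hv]
      simp only
      rw [div_mul_div_comm, hs]
    simp only [e1]
    rw [← Finset.sum_div, ← h5, h6, div_self hrc]
  have hvv' : star v ⬝ᵥ v = 1 := hvv
  have hPv : P.mulVec v = v := by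
    funext i
    have e1 : ∑ l, P i l * P l j = P i j := by
      have := congrFun (congrFun h2 i) j
      rw [Matrix.mul_apply] at this
      exact this
    rw [Matrix.mulVec, dotProduct]
    simp only [hv]
    simp only [← mul_div_assoc]
    rw [← Finset.sum_div, e1]
  set W : Mat := Matrix.vecMulVec v (star v) with hW
  have hWs : star W = W := by
    rw [hW, Matrix.star_eq_conjTranspose, Matrix.conjTranspose_vecMulVec, star_star]
  have hPW : P * W = W := by
    rw [hW, Matrix.mul_vecMulVec, hPv]
  have hWP : W * P = W := by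
    have h := congrArg star hPW
    rwa [star_mul, h1, hWs] at h
  have hWW : W * W = W := by
    rw [hW, Matrix.vecMulVec_mul_vecMulVec, hvv', one_smul]
  have hQ : P - W = 0 := by
    apply Rf_zero
    · rw [star_sub, h1, hWs]
    · rw [sub_mul, mul_sub, mul_sub, h2, hPW, hWP, hWW, sub_self, sub_zero]
    · rw [Matrix.trace_sub, h3, hW, Matrix.trace_vecMulVec, dotProduct_comm, hvv', sub_self]
  exact ⟨v, hvv, by rw [← sub_eq_zero, hQ]⟩

theorem pr_Rf : StRf := by
  intro hee X t hX hns
  have hζ3 : ee ((t.val : ℝ) / 3) ^ 3 = 1 := by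
    rw [hee.2.2.2.2.1]
    have h1 : ((3 : ℕ) : ℝ) * ((t.val : ℝ) / 3) = ((t.val : ℤ) : ℝ) := by
      push_cast; ring
    rw [h1, hee.2.1]
  have hζs : star (ee ((t.val : ℝ) / 3)) * ee ((t.val : ℝ) / 3) = 1 := by
    rw [hee.2.2.2.1, ← hee.1]
    have h1 : -((t.val : ℝ) / 3) + (t.val : ℝ) / 3 = ((0 : ℤ) : ℝ) := by
      push_cast; ring
    rw [h1, hee.2.1]
  set ζ : ℂ := ee ((t.val : ℝ) / 3) with hζ
  have hXu : star (X : Mat) * (X : Mat) = 1 := by
    have h := X.2
    rw [Matrix.mem_specialUnitaryGroup_iff] at h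
    exact (Matrix.mem_unitaryGroup_iff').mp h.1
  have hXd : (X : Mat).det = 1 := (Matrix.mem_specialUnitaryGroup_iff.mp X.2).2
  set R : Mat := (-ζ) • (X : Mat) with hR
  have hXR : (X : Mat) = (-ζ ^ 2) • R := by
    rw [hR, smul_smul]
    have : -ζ ^ 2 * -ζ = 1 := by rw [neg_mul_neg, ← pow_succ]; exact hζ3
    rw [this, one_smul]
  have hR2 : R * R = 1 := by
    have h1 : (X : Mat) * (X : Mat) = ζ • (1 : Mat) := by rw [← pow_two]; exact hX
    rw [hR, smul_mul_smul_comm, h1, smul_smul]
    have : -ζ * -ζ * ζ = 1 := by rw [neg_mul_neg, ← pow_two, ← pow_succ]; exact hζ3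
    rw [this, one_smul]
  have hRu : star R * R = 1 := by
    rw [hR, star_smul, smul_mul_smul_comm, hXu]
    have : star (-ζ) * -ζ = 1 := by rw [star_neg, neg_mul_neg]; exact hζs
    rw [this, one_smul]
  have hRs : star R = R := by
    calc star R = star R * (R * R) := by rw [hR2, mul_one]
      _ = R := by rw [← mul_assoc, hRu, one_mul]
  have hRd : R.det = -1 := by
    rw [hR, Matrix.det_smul, hXd, mul_one, Fintype.card_fin]
    have : (-ζ) ^ 3 = -(ζ ^ 3) := by ring
    rw [this, hζ3]
  have hadj : R.adjugate = -R := by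
    have h1 : R * R.adjugate = R.det • (1 : Mat) := Matrix.mul_adjugate R
    calc R.adjugate = (R * R) * R.adjugate := by rw [hR2, one_mul]
      _ = R * (R * R.adjugate) := by rw [mul_assoc]
      _ = -R := by rw [h1, hRd, mul_smul_comm, mul_one, neg_smul, one_smul]
  have htr : (R.trace + 3) * (R.trace - 1) = 0 := by
    have h1 := Rf_tr R
    rw [hadj, hR2, Matrix.trace_neg, Matrix.trace_one, Fintype.card_fin] at h1
    push_cast at h1
    linear_combination -h1
  set P : Mat := (1 / 2 : ℂ) • ((1 : Mat) - R) with hP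
  have hRP : R = 1 - (2 : ℂ) • P := by
    rw [hP, smul_smul]
    norm_num
  have hPs : star P = P := by
    rw [hP, star_smul, star_sub, star_one, hRs]
    have h1 : (1 / 2 : ℂ) = ((1 / 2 : ℝ) : ℂ) := by push_cast; ring
    rw [h1, Complex.star_def, Complex.conj_ofReal]
  have hP2 : P * P = P := by
    have e1 : ((1 : Mat) - R) * (1 - R) = (2 : ℂ) • ((1 : Mat) - R) := by
      simp only [sub_mul, mul_sub, hR2, one_mul, mul_one, two_smul]
      abel
    rw [hP, smul_mul_smul_comm, e1, smul_smul]
    norm_num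
  have hPt : P.trace = (3 - R.trace) / 2 := by
    rw [hP, Matrix.trace_smul, Matrix.trace_sub, Matrix.trace_one, Fintype.card_fin, smul_eq_mul]
    push_cast
    ring
  rcases mul_eq_zero.mp htr with h | h
  · exfalso
    have h1 : (1 : Mat) - P = 0 := by
      apply Rf_zero
      · rw [star_sub, star_one, hPs]
      · rw [sub_mul, mul_sub, mul_sub, hP2, one_mul, mul_one, one_mul, sub_self, sub_zero]
      · rw [Matrix.trace_sub, Matrix.trace_one, Fintype.card_fin, hPt]
        have : R.trace = -3 := by linear_combination h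
        rw [this]; norm_num
    have h2 : P = 1 := (sub_eq_zero.mp h1).symm
    have h3 : R = (-1 : ℂ) • (1 : Mat) := by
      rw [hRP, h2, two_smul]
      rw [neg_smul, one_smul]; abel
    apply hns (-ζ ^ 2 * -1)
    rw [hXR, h3, smul_smul]
  · have h1 : P.trace = 1 := by
      rw [hPt]
      have : R.trace = 1 := by linear_combination h
      rw [this]; norm_num
    obtain ⟨v, hv1, hv2⟩ := Rf_one P hPs hP2 h1
    refine ⟨v, hv1, ?_⟩
    rw [hXR, hRP, hv2]

end Pool.Agent.CM
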