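import Pool.Agent.Work.MP_8590b5_gt.CM.Stmts6

/-!
# Block CM, item Rx (helper73): diagonalization in the plane
-/

namespace Pool.Agent.CM

open Finset

theorem Rx_fx_mul {a b : SU3} (ha : Fx a) (hb : Fx b) : Fx (a * b) := by
  refine ⟨?_, ?_⟩
  · rw [Aff_aux, mul_assoc, hb.1, ha.1]
  · rw [Aff_aux, ← mul_assoc, ha.2, hb.2]

theorem Rx_fx_one : Fx 1 := by
  refine ⟨?_, ?_⟩
  · change (1 : Mat) * E3 = E3
    rw [one_mul]
  · change E3 * (1 : Mat) = E3
    rw [mul_one]

theorem Rx_fx_inv {a : SU3} (ha : Fx a) : Fx a⁻¹ := by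
  refine ⟨?_, ?_⟩
  · calc ((a⁻¹ : SU3) : Mat) * E3 = ((a⁻¹ : SU3) : Mat) * ((a : Mat) * E3) := by rw [ha.1]
      _ = E3 := by rw [← mul_assoc, Aff_inv, one_mul]
  · calc E3 * ((a⁻¹ : SU3) : Mat) = (E3 * (a : Mat)) * ((a⁻¹ : SU3) : Mat) := by rw [ha.2]
      _ = E3 := by rw [mul_assoc, Aff_inv', mul_one]

theorem Rx_fx_pow {a : SU3} (ha : Fx a) (m : ℕ) : Fx (a ^ m) := by
  induction m with
  | zero => rw [pow_zero]; exact Rx_fx_one
  | succ m ih => rw [pow_succ]; exact Rx_fx_mul ih ha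

theorem Rx_entries {a : SU3} (ha : Fx a) :
    (a : Mat) 0 2 = 0 ∧ (a : Mat) 1 2 = 0 ∧ (a : Mat) 2 2 = 1 ∧ (a : Mat) 2 0 = 0 ∧
      (a : Mat) 2 1 = 0 := by
  obtain ⟨h1, h2⟩ := ha
  have e1 : ∀ i, (a : Mat) i 2 = E3 i 2 := by
    intro i
    have := congrFun (congrFun h1 i) 2
    rw [← this]
    simp [E3, Matrix.mul_apply, Fin.sum_univ_three, Matrix.diagonal]
  have e2 : ∀ j, (a : Mat) 2 j = E3 2 j := by
    intro j
    have := congrFun (congrFun h2 2) j
    rw [← this]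
    simp [E3, Matrix.mul_apply, Fin.sum_univ_three, Matrix.diagonal]
  refine ⟨?_, ?_, ?_, ?_, ?_⟩
  · rw [e1]; simp [E3, Matrix.diagonal]
  · rw [e1]; simp [E3, Matrix.diagonal]
  · rw [e1]; simp [E3, Matrix.diagonal]
  · rw [e2]; simp [E3, Matrix.diagonal]
  · rw [e2]; simp [E3, Matrix.diagonal]

/-- The third coordinate of the image of a vector. -/
theorem Rx_third {a : SU3} (ha : Fx a) {z : Fin 3 → ℂ} (hz : z 2 = 0) :
    ((a : Mat).mulVec z) 2 = 0 := by
  obtain ⟨h1, h2, h3, h4, h5⟩ := Rx_entries ha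
  rw [Matrix.mulVec, dotProduct, Fin.sum_univ_three, h4, h5, hz]
  ring

/-- An eigenvector in the plane. -/
theorem Rx_eig {a : SU3} (ha : Fx a) :
    ∃ (z : Fin 3 → ℂ) (c : ℂ), z 2 = 0 ∧ z ≠ 0 ∧ c ≠ 0 ∧ (a : Mat).mulVec z = c • z := by
  obtain ⟨h1, h2, h3, h4, h5⟩ := Rx_entries ha
  set N : Matrix (Fin 2) (Fin 2) ℂ := !![(a : Mat) 0 0, (a : Mat) 0 1; (a : Mat) 1 0, (a : Mat) 1 1]
    with hN
  obtain ⟨c, hc⟩ := Module.End.exists_eigenvalue (Matrix.mulVecLin N)
  obtain ⟨w, hw⟩ := hc.exists_hasEigenvector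
  have hw1 : N.mulVec w = c • w := hw.apply_eq_smul
  have hw0 : w ≠ 0 := hw.2
  have e0 : (a : Mat) 0 0 * w 0 + (a : Mat) 0 1 * w 1 = c * w 0 := by
    have := congrFun hw1 0
    simpa [hN, Matrix.mulVec, dotProduct, Fin.sum_univ_two] using this
  have e1 : (a : Mat) 1 0 * w 0 + (a : Mat) 1 1 * w 1 = c * w 1 := by
    have := congrFun hw1 1
    simpa [hN, Matrix.mulVec, dotProduct, Fin.sum_univ_two] using this
  have haz : (a : Mat).mulVec ![w 0, w 1, 0] = c • ![w 0, w 1, 0] := by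
    funext i
    rw [Matrix.mulVec, dotProduct, Fin.sum_univ_three]
    fin_cases i
    · simp [e0]
    · simp [e1]
    · simp [h4, h5]
  have hz0 : (![w 0, w 1, 0] : Fin 3 → ℂ) ≠ 0 := by
    intro h
    apply hw0
    funext i
    fin_cases i
    · exact congrFun h 0
    · exact congrFun h 1
  refine ⟨![w 0, w 1, 0], c, rfl, hz0, ?_, haz⟩
  rintro rfl
  rw [zero_smul] at haz
  apply hz0
  have h6 : ((a⁻¹ : SU3) : Mat).mulVec ((a : Mat).mulVec ![w 0, w 1, 0]) = ![w 0, w 1, 0] := by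
    rw [Matrix.mulVec_mulVec, Aff_inv, Matrix.one_mulVec]
  rw [haz, Matrix.mulVec_zero] at h6
  exact h6.symm

/-- The unitary matrix which takes the unit vector `(p, q, 0)` to the first basis vector. -/
theorem Rx_U (p q : ℂ) (h : star p * p + star q * q = 1) :
    ∃ U : SU3, Fx U ∧ (U : Mat).mulVec ![p, q, 0] = ![1, 0, 0] := by
  have h' : p * star p + q * star q = 1 := by rw [← h]; ring
  set U0 : Mat := !![star p, star q, 0; -q, p, 0; 0, 0, 1] with hU0
  have hu : U0 * star U0 = 1 := by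
    rw [Matrix.star_eq_conjTranspose]
    ext i j
    rw [Matrix.mul_apply, Fin.sum_univ_three]
    simp only [Matrix.conjTranspose_apply]
    fin_cases i <;> fin_cases j
    · simp [hU0]; simpa using h
    · simp [hU0]; ring
    · simp [hU0]
    · simp [hU0]; ring
    · simp [hU0]
      have := h'
      simp only [Complex.star_def] at this
      linear_combination this
    · simp [hU0]
    · simp [hU0]
    · simp [hU0]
    · simp [hU0]
  have hd : U0.det = 1 := by
    rw [Matrix.det_fin_three]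
    simp [hU0]
    have := h
    simp only [Complex.star_def] at this
    linear_combination this
  refine ⟨⟨U0, Matrix.mem_specialUnitaryGroup_iff.mpr
    ⟨Matrix.mem_unitaryGroup_iff.mpr hu, hd⟩⟩, ⟨?_, ?_⟩, ?_⟩
  · change U0 * E3 = E3
    ext i j
    fin_cases i <;> fin_cases j <;>
      simp [hU0, E3, Matrix.mul_apply, Fin.sum_univ_three, Matrix.diagonal]
  · change E3 * U0 = E3
    ext i j
    fin_cases i <;> fin_cases j <;>
      simp [hU0, E3, Matrix.mul_apply, Fin.sum_univ_three, Matrix.diagonal]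
  · change U0.mulVec ![p, q, 0] = ![1, 0, 0]
    funext i
    rw [Matrix.mulVec, dotProduct, Fin.sum_univ_three]
    fin_cases i
    · simp [hU0]; simpa using h
    · simp [hU0]; ring
    · simp [hU0]

/-- A matrix of SU(3) which fixes the third basis vector and has the first basis vector as an
eigenvector is diagonal. -/
theorem Rx_diag {M : SU3} (hM : Fx M) (c : ℂ) (h : (M : Mat).mulVec ![1, 0, 0] = c • ![1, 0, 0]) :
    (M : Mat) = Matrix.diagonal ![(M : Mat) 0 0, (M : Mat) 1 1, 1] := by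
  obtain ⟨h1, h2, h3, h4, h5⟩ := Rx_entries hM
  have h6 : (M : Mat) 1 0 = 0 := by
    have := congrFun h 1
    rw [Matrix.mulVec, dotProduct, Fin.sum_univ_three] at this
    simpa using this
  have hu1 : (M : Mat) * star (M : Mat) = 1 :=
    Matrix.mem_unitaryGroup_iff.mp (Matrix.mem_specialUnitaryGroup_iff.mp M.2).1
  have hu2 : star (M : Mat) * (M : Mat) = 1 :=
    Matrix.mem_unitaryGroup_iff'.mp (Matrix.mem_specialUnitaryGroup_iff.mp M.2).1
  have e1 : (M : Mat) 0 0 * star ((M : Mat) 0 0) + (M : Mat) 0 1 * star ((M : Mat) 0 1) = 1 := by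
    have := congrFun (congrFun hu1 0) 0
    rw [Matrix.star_eq_conjTranspose, Matrix.mul_apply, Fin.sum_univ_three] at this
    simp only [Matrix.conjTranspose_apply, h1, Matrix.one_apply_eq] at this
    simpa using this
  have e2 : star ((M : Mat) 0 0) * (M : Mat) 0 0 = 1 := by
    have := congrFun (congrFun hu2 0) 0
    rw [Matrix.star_eq_conjTranspose, Matrix.mul_apply, Fin.sum_univ_three] at this
    simp only [Matrix.conjTranspose_apply, h6, h4, Matrix.one_apply_eq] at this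
    simpa using this
  have e3 : (M : Mat) 0 1 * star ((M : Mat) 0 1) = 0 := by
    rw [mul_comm] at e2
    rw [e2] at e1
    linear_combination e1
  have h7 : (M : Mat) 0 1 = 0 := by
    rw [Complex.star_def, Complex.mul_conj] at e3
    exact Complex.normSq_eq_zero.mp (by exact_mod_cast e3)
  ext i j
  fin_cases i <;> fin_cases j <;> simp [h1, h2, h3, h4, h5, h6, h7]

theorem Rx_noev {a b U : SU3} (hU : Fx U) (h : NoEv a b) :
    NoEv (U * a * U⁻¹) (U * b * U⁻¹) := by
  intro z c d hz ha hb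
  have key : ∀ (x : SU3) (e : ℂ), ((U * x * U⁻¹ : SU3) : Mat).mulVec z = e • z →
      (x : Mat).mulVec (((U⁻¹ : SU3) : Mat).mulVec z) = e • (((U⁻¹ : SU3) : Mat).mulVec z) := by
    intro x e hx
    have h1 : ((U⁻¹ : SU3) : Mat).mulVec (((U * x * U⁻¹ : SU3) : Mat).mulVec z) =
        e • (((U⁻¹ : SU3) : Mat).mulVec z) := by
      rw [hx, Matrix.mulVec_smul]
    rw [← h1, Matrix.mulVec_mulVec, Matrix.mulVec_mulVec, Aff_aux, Aff_aux, ← mul_assoc,
      ← mul_assoc, Aff_inv, one_mul]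
  have h2 := h (((U⁻¹ : SU3) : Mat).mulVec z) c d (Rx_third (Rx_fx_inv hU) hz) (key a c ha)
    (key b d hb)
  have h3 : (U : Mat).mulVec (((U⁻¹ : SU3) : Mat).mulVec z) = z := by
    rw [Matrix.mulVec_mulVec, Aff_inv', Matrix.one_mulVec]
  rw [← h3, h2, Matrix.mulVec_zero]

theorem pr_Rx : StRx := by
  intro k a b ha hb hne hab
  set Y : SU3 := ((a * b) ^ k)⁻¹ with hY
  have hYf : Fx Y := Rx_fx_inv (Rx_fx_pow (Rx_fx_mul ha hb) k)
  obtain ⟨z, c, hz2, hz0, hc, hYz⟩ := Rx_eig hYf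
  -- the normalized eigenvector
  set r : ℝ := Complex.normSq (z 0) + Complex.normSq (z 1) with hr
  have hrpos : 0 < r := by
    by_contra hcon
    have h0 := Complex.normSq_nonneg (z 0)
    have h1 := Complex.normSq_nonneg (z 1)
    have h2 : Complex.normSq (z 0) = 0 := by linarith
    have h3 : Complex.normSq (z 1) = 0 := by linarith
    apply hz0
    funext i
    fin_cases i
    · exact Complex.normSq_eq_zero.mp h2
    · exact Complex.normSq_eq_zero.mp h3
    · exact hz2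
  have hs : (Real.sqrt r : ℂ) * (Real.sqrt r : ℂ) = (r : ℂ) := by
    rw [← Complex.ofReal_mul, Real.mul_self_sqrt hrpos.le]
  have hs0 : (Real.sqrt r : ℂ) ≠ 0 := by
    rw [Complex.ofReal_ne_zero]
    exact (Real.sqrt_pos.mpr hrpos).ne'
  have hrc : (r : ℂ) ≠ 0 := by rw [Complex.ofReal_ne_zero]; exact hrpos.ne'
  set p : ℂ := z 0 / (Real.sqrt r : ℂ) with hp
  set q : ℂ := z 1 / (Real.sqrt r : ℂ) with hq
  have hstar : star (Real.sqrt r : ℂ) = (Real.sqrt r : ℂ) := by
    rw [Complex.star_def, Complex.conj_ofReal]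
  have hpq : star p * p + star q * q = 1 := by
    rw [hp, hq, star_div₀, star_div₀, hstar, div_mul_div_comm, div_mul_div_comm, hs, ← add_div]
    have h1 : star (z 0) * z 0 + star (z 1) * z 1 = (r : ℂ) := by
      rw [Complex.star_def, mul_comm, Complex.mul_conj, mul_comm, Complex.mul_conj, hr]
      push_cast
      rfl
    rw [h1, div_self hrc]
  have hzz : (![p, q, 0] : Fin 3 → ℂ) = ((Real.sqrt r : ℂ))⁻¹ • z := by
    funext i
    fin_cases i
    · simp [hp, div_eq_inv_mul]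
    · simp [hq, div_eq_inv_mul]
    · simp [hz2]
  have hYp : (Y : Mat).mulVec ![p, q, 0] = c • ![p, q, 0] := by
    rw [hzz, Matrix.mulVec_smul, hYz, smul_comm]
  obtain ⟨U, hU, hUz⟩ := Rx_U p q hpq
  have hUi : ((U⁻¹ : SU3) : Mat).mulVec ![1, 0, 0] = ![p, q, 0] := by
    rw [← hUz, Matrix.mulVec_mulVec, Aff_inv, Matrix.one_mulVec]
  have hMf : Fx (U * Y * U⁻¹) := Rx_fx_mul (Rx_fx_mul hU hYf) (Rx_fx_inv hU)
  have hM1 : ((U * Y * U⁻¹ : SU3) : Mat).mulVec ![1, 0, 0] = c • ![1, 0, 0] := by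
    rw [Aff_aux, Aff_aux, ← Matrix.mulVec_mulVec, ← Matrix.mulVec_mulVec, hUi, hYp,
      Matrix.mulVec_smul, hUz]
  have hD := Rx_diag hMf c hM1
  set M : SU3 := U * Y * U⁻¹ with hM
  set α : ℂ := (M : Mat) 0 0 with hα
  set β : ℂ := (M : Mat) 1 1 with hβ
  have hdet : α * β = 1 := by
    have h1 : (M : Mat).det = 1 := (Matrix.mem_specialUnitaryGroup_iff.mp M.2).2
    rw [hD, Matrix.det_diagonal, Fin.prod_univ_three] at h1
    simpa using h1
  have hconj : ∀ m : ℕ, (U * a * U⁻¹ * (U * b * U⁻¹)) ^ m = U * (a * b) ^ m * U⁻¹ := by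
    intro m
    have h1 : U * a * U⁻¹ * (U * b * U⁻¹) = U * (a * b) * U⁻¹ := by group
    rw [h1, conj_pow]
  have hαβ : α ≠ β := by
    intro h
    -- `Y` is a scalar on the plane
    have hMv : ∀ v : Fin 3 → ℂ, v 2 = 0 → (M : Mat).mulVec v = α • v := by
      intro v hv
      rw [hD]
      funext i
      rw [Matrix.mulVec_diagonal]
      fin_cases i
      · simp
      · simp [h]
      · simp [hv]
    have hYM : Y = U⁻¹ * M * U := by rw [hM]; group
    have hYv : ∀ v : Fin 3 → ℂ, v 2 = 0 → (Y : Mat).mulVec v = α • v := by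
      intro v hv
      rw [hYM, Aff_aux, Aff_aux, ← Matrix.mulVec_mulVec, ← Matrix.mulVec_mulVec,
        hMv _ (Rx_third hU hv), Matrix.mulVec_smul, Matrix.mulVec_mulVec, Aff_inv,
        Matrix.one_mulVec]
    have habY : a * b = (a * b) ^ (2 * k + 1) * (Y * Y) := by
      rw [hY, ← mul_inv_rev, ← pow_add]
      have : 2 * k + 1 = 1 + (k + k) := by ring
      rw [this, pow_add, pow_one, mul_assoc, mul_inv_cancel, mul_one]
    have habv : ∀ v : Fin 3 → ℂ, v 2 = 0 → ((a * b : SU3) : Mat).mulVec v = (-(α * α)) • v := by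
      intro v hv
      have h2 : ((Y * Y : SU3) : Mat).mulVec v = (α * α) • v := by
        rw [Aff_aux, ← Matrix.mulVec_mulVec, hYv v hv, Matrix.mulVec_smul, hYv v hv, smul_smul]
      rw [habY, Aff_aux, ← Matrix.mulVec_mulVec, h2, Matrix.mulVec_smul, hab]
      funext i
      rw [Matrix.sub_mulVec, Matrix.one_mulVec, Matrix.smul_mulVec, E3]
      simp only [Pi.smul_apply, Pi.sub_apply, Matrix.mulVec_diagonal, smul_eq_mul]
      fin_cases i
      · simp
      · simp
      · simp [hv]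
    obtain ⟨v, e, hv2, hv0, he, hav⟩ := Rx_eig ha
    apply hv0
    refine hne v e (-(α * α) * e⁻¹) hv2 hav ?_
    have h3 : (a : Mat).mulVec ((b : Mat).mulVec v) = (-(α * α)) • v := by
      rw [Matrix.mulVec_mulVec, ← Aff_aux]; exact habv v hv2
    have h4 : ((a⁻¹ : SU3) : Mat).mulVec v = e⁻¹ • v := by
      have h5 : ((a⁻¹ : SU3) : Mat).mulVec ((a : Mat).mulVec v) = v := by
        rw [Matrix.mulVec_mulVec, Aff_inv, Matrix.one_mulVec]
      rw [hav, Matrix.mulVec_smul] at h5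
      rw [← h5, smul_smul, inv_mul_cancel₀ he, one_smul, h5]
    calc (b : Mat).mulVec v = ((a⁻¹ : SU3) : Mat).mulVec ((a : Mat).mulVec ((b : Mat).mulVec v)) := by
          rw [Matrix.mulVec_mulVec, Aff_inv, Matrix.one_mulVec]
      _ = (-(α * α) * e⁻¹) • v := by rw [h3, Matrix.mulVec_smul, h4, smul_smul]
  refine ⟨U, α, β, hU, hαβ, left_ne_zero_of_mul_eq_one hdet, right_ne_zero_of_mul_eq_one hdet,
    ?_, Rx_fx_mul (Rx_fx_mul hU ha) (Rx_fx_inv hU), Rx_fx_mul (Rx_fx_mul hU hb) (Rx_fx_inv hU),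
    Rx_noev hU hne, ?_⟩
  · rw [hconj k, ← hD, ← Aff_aux]
    have h1 : U * (a * b) ^ k * U⁻¹ * M = 1 := by rw [hM, hY]; group
    rw [h1]; rfl
  · rw [hconj, Aff_aux, Aff_aux, hab, mul_sub, sub_mul, mul_smul_comm, smul_mul_assoc, hU.1,
      (Rx_fx_inv hU).2, mul_one, Aff_inv']

end Pool.Agent.CM
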