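import Pool.Agent.Work.MP_8590b5_gt.CM.Stmts6
import Pool.Agent.Work.MP_8590b5_gt.CM.I_Rx

/-!
# Block CM, item Rg (helper73): the central element of a reducible pair
-/

namespace Pool.Agent.CM

open Finset

/-- Two vectors of the plane are parallel or a basis. -/
theorem Rg_two {z w : Fin 3 → ℂ} (hz : z 2 = 0) (hw : w 2 = 0) (hz0 : z ≠ 0) :
    (∃ c : ℂ, w = c • z) ∨ ∀ v : Fin 3 → ℂ, v 2 = 0 → ∃ s t : ℂ, v = s • z + t • w := by
  by_cases hd : z 0 * w 1 - z 1 * w 0 = 0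
  · left
    by_cases h0 : z 0 = 0
    · have h1 : z 1 ≠ 0 := by
        intro h1
        apply hz0
        funext i
        fin_cases i
        · exact h0
        · exact h1
        · exact hz
      refine ⟨w 1 / z 1, ?_⟩
      have h2 : w 0 = 0 := by
        rw [h0, zero_mul, zero_sub, neg_eq_zero] at hd
        exact (mul_eq_zero.mp hd).resolve_left h1
      funext i
      fin_cases i
      · simp [h0, h2]
      · simp [h1]
      · simp [hz, hw]
    · refine ⟨w 0 / z 0, ?_⟩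
      funext i
      fin_cases i
      · simp [h0]
      · simp only [Fin.mk_one, Pi.smul_apply, smul_eq_mul]
        field_simp
        linear_combination hd
      · simp [hz, hw]
  · right
    intro v hv
    refine ⟨(v 0 * w 1 - v 1 * w 0) / (z 0 * w 1 - z 1 * w 0),
      (z 0 * v 1 - z 1 * v 0) / (z 0 * w 1 - z 1 * w 0), ?_⟩
    funext i
    fin_cases i
    · simp only [Fin.zero_eta, Pi.add_apply, Pi.smul_apply, smul_eq_mul]
      rw [div_mul_eq_mul_div, div_mul_eq_mul_div, ← add_div, eq_div_iff hd]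
      ring
    · simp only [Fin.mk_one, Pi.add_apply, Pi.smul_apply, smul_eq_mul]
      rw [div_mul_eq_mul_div, div_mul_eq_mul_div, ← add_div, eq_div_iff hd]
      ring
    · simp [hz, hw, hv]

theorem Rg_comm {c a : SU3} (h : Commute c a) (z : Fin 3 → ℂ) :
    (c : Mat).mulVec ((a : Mat).mulVec z) = (a : Mat).mulVec ((c : Mat).mulVec z) := by
  have h1 : (c : Mat) * (a : Mat) = (a : Mat) * (c : Mat) := congrArg Subtype.val h.eq
  rw [Matrix.mulVec_mulVec, Matrix.mulVec_mulVec, h1]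

/-- Schur lemma in the plane. -/
theorem Rg_scalar {a b M : SU3} (ha : Fx a) (hb : Fx b) (hne : NoEv a b)
    (hMa : Commute M a) (hMb : Commute M b) {z : Fin 3 → ℂ} {c : ℂ} (hz : z 2 = 0) (hz0 : z ≠ 0)
    (hM : (M : Mat).mulVec z = c • z) (v : Fin 3 → ℂ) (hv : v 2 = 0) :
    (M : Mat).mulVec v = c • v := by
  have key : ∀ x : SU3, Commute M x → (∀ v : Fin 3 → ℂ, v 2 = 0 →
      ∃ s t : ℂ, v = s • z + t • ((x : Mat).mulVec z)) → (M : Mat).mulVec v = c • v := by
    intro x hx h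
    obtain ⟨s, t, hst⟩ := h v hv
    have h1 : (M : Mat).mulVec ((x : Mat).mulVec z) = c • ((x : Mat).mulVec z) := by
      rw [Rg_comm hx, hM, Matrix.mulVec_smul]
    rw [hst, Matrix.mulVec_add, Matrix.mulVec_smul, Matrix.mulVec_smul, hM, h1, smul_add,
      smul_comm c s, smul_comm c t]
  rcases Rg_two hz (Rx_third ha hz) hz0 with ⟨d, hd⟩ | h
  · rcases Rg_two hz (Rx_third hb hz) hz0 with ⟨e, he⟩ | h
    · exact absurd (hne z d e hz hd he) hz0
    · exact key b hMb h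
  · exact key a hMa h

theorem Rg_mat {M : SU3} (hM : Fx M) {c : ℂ}
    (h : ∀ v : Fin 3 → ℂ, v 2 = 0 → (M : Mat).mulVec v = c • v) :
    (M : Mat) = Matrix.diagonal ![c, c, 1] := by
  obtain ⟨h1, h2, h3, h4, h5⟩ := Rx_entries hM
  have e0 : ∀ i, (M : Mat) i 0 = c * (![1, 0, 0] : Fin 3 → ℂ) i := by
    intro i
    have := congrFun (h ![1, 0, 0] rfl) i
    rw [Matrix.mulVec, dotProduct, Fin.sum_univ_three] at this
    simpa using this
  have e1 : ∀ i, (M : Mat) i 1 = c * (![0, 1, 0] : Fin 3 → ℂ) i := by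
    intro i
    have := congrFun (h ![0, 1, 0] rfl) i
    rw [Matrix.mulVec, dotProduct, Fin.sum_univ_three] at this
    simpa using this
  ext i j
  fin_cases i <;> fin_cases j <;> simp [e0, e1, h1, h2, h3]

/-- A matrix with an eigenvector in the plane is unitarily diagonalizable. -/
theorem Rg_diag {M : SU3} (hM : Fx M) {z : Fin 3 → ℂ} {c : ℂ} (hz2 : z 2 = 0) (hz0 : z ≠ 0)
    (hMz : (M : Mat).mulVec z = c • z) :
    c ≠ 0 ∧ ∃ U : SU3, Fx U ∧ ((U * M * U⁻¹ : SU3) : Mat) = Matrix.diagonal ![c, c⁻¹, 1] := by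
  set r : ℝ := Complex.normSq (z 0) + Complex.normSq (z 1) with hr
  have hrpos : 0 < r := by
    by_contra hcon
    have h0 := Complex.normSq_nonneg (z 0)
    have h1 := Complex.normSq_nonneg (z 1)
    have h2 : Complex.normSq (z 0) = 0 := by linarith
    have h3 : Complex.normSq (z 1) = 0 := by linarith
    apply hz0
    funext i
    fin_cases i
    · exact Complex.normSq_eq_zero.mp h2
    · exact Complex.normSq_eq_zero.mp h3
    · exact hz2
  have hs : (Real.sqrt r : ℂ) * (Real.sqrt r : ℂ) = (r : ℂ) := by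
    rw [← Complex.ofReal_mul, Real.mul_self_sqrt hrpos.le]
  have hrc : (r : ℂ) ≠ 0 := by rw [Complex.ofReal_ne_zero]; exact hrpos.ne'
  set p : ℂ := z 0 / (Real.sqrt r : ℂ) with hp
  set q : ℂ := z 1 / (Real.sqrt r : ℂ) with hq
  have hstar : star (Real.sqrt r : ℂ) = (Real.sqrt r : ℂ) := by
    rw [Complex.star_def, Complex.conj_ofReal]
  have hpq : star p * p + star q * q = 1 := by
    rw [hp, hq, star_div₀, star_div₀, hstar, div_mul_div_comm, div_mul_div_comm, hs, ← add_div]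
    have h1 : star (z 0) * z 0 + star (z 1) * z 1 = (r : ℂ) := by
      rw [Complex.star_def, mul_comm, Complex.mul_conj, mul_comm, Complex.mul_conj, hr]
      push_cast
      rfl
    rw [h1, div_self hrc]
  have hzz : (![p, q, 0] : Fin 3 → ℂ) = ((Real.sqrt r : ℂ))⁻¹ • z := by
    funext i
    fin_cases i
    · simp [hp, div_eq_inv_mul]
    · simp [hq, div_eq_inv_mul]
    · simp [hz2]
  have hMp : (M : Mat).mulVec ![p, q, 0] = c • ![p, q, 0] := by
    rw [hzz, Matrix.mulVec_smul, hMz, smul_comm]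
  obtain ⟨U, hU, hUz⟩ := Rx_U p q hpq
  have hUi : ((U⁻¹ : SU3) : Mat).mulVec ![1, 0, 0] = ![p, q, 0] := by
    rw [← hUz, Matrix.mulVec_mulVec, Aff_inv, Matrix.one_mulVec]
  have hMf : Fx (U * M * U⁻¹) := Rx_fx_mul (Rx_fx_mul hU hM) (Rx_fx_inv hU)
  have hM1 : ((U * M * U⁻¹ : SU3) : Mat).mulVec ![1, 0, 0] = c • ![1, 0, 0] := by
    rw [Aff_aux, Aff_aux, ← Matrix.mulVec_mulVec, ← Matrix.mulVec_mulVec, hUi, hMp,
      Matrix.mulVec_smul, hUz]
  have hD := Rx_diag hMf c hM1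
  have hc0 : ((U * M * U⁻¹ : SU3) : Mat) 0 0 = c := by
    have := congrFun hM1 0
    rw [Matrix.mulVec, dotProduct, Fin.sum_univ_three] at this
    simpa using this
  have hdet : c * ((U * M * U⁻¹ : SU3) : Mat) 1 1 = 1 := by
    have h1 : ((U * M * U⁻¹ : SU3) : Mat).det = 1 :=
      (Matrix.mem_specialUnitaryGroup_iff.mp (U * M * U⁻¹).2).2
    rw [hD, Matrix.det_diagonal, Fin.prod_univ_three] at h1
    rw [← hc0]
    simpa using h1
  have hc : c ≠ 0 := left_ne_zero_of_mul_eq_one hdet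
  refine ⟨hc, U, hU, ?_⟩
  rw [hD, hc0]
  have h2 : ((U * M * U⁻¹ : SU3) : Mat) 1 1 = c⁻¹ := eq_inv_of_mul_eq_one_right hdet
  rw [h2]

theorem Rg_fix {M : SU3} (hM : Fx M) {z : Fin 3 → ℂ} (hz2 : z 2 = 0) (hz0 : z ≠ 0)
    (hMz : (M : Mat).mulVec z = z) : M = 1 := by
  obtain ⟨-, U, hU, h⟩ := Rg_diag hM hz2 hz0 (c := 1) (by rw [hMz, one_smul])
  have h1 : U * M * U⁻¹ = 1 := by
    apply Subtype.ext
    rw [h, inv_one]
    change Matrix.diagonal ![1, 1, 1] = (1 : Mat)
    rw [← Matrix.diagonal_one]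
    congr 1
    funext i
    fin_cases i <;> rfl
  have h2 : M = U⁻¹ * (U * M * U⁻¹) * U := by group
  rw [h2, h1, mul_one, inv_mul_cancel]

/-- An involution with an eigenvector in the plane is a scalar on the plane. -/
theorem Rg_invol {x : SU3} (hx : Fx x) (hx2 : x * x = 1) :
    ∃ c : ℂ, c ≠ 0 ∧ ∀ v : Fin 3 → ℂ, v 2 = 0 → (x : Mat).mulVec v = c • v := by
  obtain ⟨z, c, hz2, hz0, hc, hz⟩ := Rx_eig hx
  refine ⟨c, hc, ?_⟩
  have hcc : c * c = 1 := by
    have h1 : (x : Mat).mulVec ((x : Mat).mulVec z) = z := by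
      rw [Matrix.mulVec_mulVec, ← Aff_aux, hx2]
      exact Matrix.one_mulVec z
    rw [hz, Matrix.mulVec_smul, hz, smul_smul] at h1
    by_contra hcon
    apply hz0
    have h2 : (c * c - 1) • z = 0 := by rw [sub_smul, h1, one_smul, sub_self]
    exact (smul_eq_zero.mp h2).resolve_left (sub_ne_zero.mpr hcon)
  have hci : c⁻¹ = c := inv_eq_of_mul_eq_one_right hcc
  obtain ⟨-, U, hU, h⟩ := Rg_diag hx hz2 hz0 hz
  rw [hci] at h
  intro v hv
  have hDv : ∀ w : Fin 3 → ℂ, w 2 = 0 → ((U * x * U⁻¹ : SU3) : Mat).mulVec w = c • w := by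
    intro w hw
    rw [h]
    funext i
    rw [Matrix.mulVec_diagonal]
    fin_cases i
    · simp
    · simp
    · simp [hw]
  have hxU : x = U⁻¹ * (U * x * U⁻¹) * U := by group
  rw [hxU, Aff_aux, Aff_aux, ← Matrix.mulVec_mulVec, ← Matrix.mulVec_mulVec,
    hDv _ (Rx_third hU hv), Matrix.mulVec_smul, Matrix.mulVec_mulVec, Aff_inv,
    Matrix.one_mulVec]

theorem Rg_powv {y : SU3} {v : Fin 3 → ℂ} {e : ℂ} (h : (y : Mat).mulVec v = e • v) (m : ℕ) :
    ((y ^ m : SU3) : Mat).mulVec v = e ^ m • v := by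
  induction m with
  | zero =>
    rw [pow_zero, pow_zero, one_smul]
    exact Matrix.one_mulVec v
  | succ m ih =>
    rw [pow_succ, Aff_aux, ← Matrix.mulVec_mulVec, h, Matrix.mulVec_smul, ih, smul_smul, pow_succ,
      mul_comm]

theorem Rg_invv {y : SU3} {v : Fin 3 → ℂ} {e : ℂ} (he : e ≠ 0) (h : (y : Mat).mulVec v = e • v) :
    ((y⁻¹ : SU3) : Mat).mulVec v = e⁻¹ • v := by
  have h5 : ((y⁻¹ : SU3) : Mat).mulVec ((y : Mat).mulVec v) = v := by
    rw [Matrix.mulVec_mulVec, Aff_inv, Matrix.one_mulVec]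
  rw [h, Matrix.mulVec_smul] at h5
  calc ((y⁻¹ : SU3) : Mat).mulVec v = e⁻¹ • (e • ((y⁻¹ : SU3) : Mat).mulVec v) := by
        rw [smul_smul, inv_mul_cancel₀ he, one_smul]
    _ = e⁻¹ • v := by rw [h5]

theorem Rg_mulv {x y : SU3} {v : Fin 3 → ℂ} {c e : ℂ} (hx : (x : Mat).mulVec v = c • v)
    (hy : (y : Mat).mulVec v = e • v) : ((x * y : SU3) : Mat).mulVec v = (c * e) • v := by
  rw [Aff_aux, ← Matrix.mulVec_mulVec, hy, Matrix.mulVec_smul, hx, smul_smul, mul_comm]

theorem Rg_ne {y : SU3} {v : Fin 3 → ℂ} {e : ℂ} (hv : v ≠ 0) (h : (y : Mat).mulVec v = e • v) :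
    e ≠ 0 := by
  rintro rfl
  apply hv
  have h5 : ((y⁻¹ : SU3) : Mat).mulVec ((y : Mat).mulVec v) = v := by
    rw [Matrix.mulVec_mulVec, Aff_inv, Matrix.one_mulVec]
  rw [h, zero_smul, Matrix.mulVec_zero] at h5
  exact h5.symm

theorem Rg_cancel {v : Fin 3 → ℂ} (hv : v ≠ 0) {c d : ℂ} (h : c • v = d • v) : c = d := by
  by_contra hcd
  have h2 : (c - d) • v = 0 := by rw [sub_smul, h, sub_self]
  exact hv ((smul_eq_zero.mp h2).resolve_left (sub_ne_zero.mpr hcd))

theorem pr_Rg : StRg := by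
  intro _ hTq k a b hT ha hb
  by_cases hne : NoEv a b
  · right
    refine ⟨hne, ?_⟩
    obtain ⟨t1, t2, t3, t4⟩ := hTq SU3 k a b hT
    set h : SU3 := (a * b) ^ (2 * k + 1) with hh
    have hhf : Fx h := Rx_fx_pow (Rx_fx_mul ha hb) _
    obtain ⟨z, l, hz2, hz0, hl, hhz⟩ := Rx_eig hhf
    have hsc : ∀ v : Fin 3 → ℂ, v 2 = 0 → (h : Mat).mulVec v = l • v :=
      Rg_scalar ha hb hne t3 t4 hz2 hz0 hhz
    have hmat := Rg_mat hhf hsc
    have hdet : l * l = 1 := by
      have h1 : (h : Mat).det = 1 := (Matrix.mem_specialUnitaryGroup_iff.mp h.2).2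
      rw [hmat, Matrix.det_diagonal, Fin.prod_univ_three] at h1
      simpa using h1
    rcases mul_self_eq_one_iff.mp hdet with h1 | h1
    · exfalso
      have hone : h = 1 := by
        apply Subtype.ext
        rw [hmat, h1]
        change Matrix.diagonal ![1, 1, 1] = (1 : Mat)
        rw [← Matrix.diagonal_one]
        congr 1
        funext i
        fin_cases i <;> rfl
      set x : SU3 := a * (a * b) ^ k with hx
      have hxf : Fx x := Rx_fx_mul ha (Rx_fx_pow (Rx_fx_mul ha hb) k)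
      have hxx : x * x = 1 := by rw [← pow_two, t1, hone]
      obtain ⟨c, hc, hxc⟩ := Rg_invol hxf hxx
      obtain ⟨v, e, hv2, hv0, he, hyv⟩ := Rx_eig (Rx_fx_mul ha hb)
      have hyk := Rg_powv hyv k
      have hyk0 : e ^ k ≠ 0 := pow_ne_zero _ he
      have hyi := Rg_invv hyk0 hyk
      have ha1 : a = x * ((a * b) ^ k)⁻¹ := by rw [hx]; group
      have hav : (a : Mat).mulVec v = (c * (e ^ k)⁻¹) • v := by
        conv_lhs => rw [ha1]
        exact Rg_mulv (hxc v hv2) hyi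
      have ha0 := Rg_ne hv0 hav
      have hb1 : b = a⁻¹ * (a * b) := by group
      have hbv : (b : Mat).mulVec v = ((c * (e ^ k)⁻¹)⁻¹ * e) • v := by
        conv_lhs => rw [hb1]
        exact Rg_mulv (Rg_invv ha0 hav) hyv
      exact hv0 (hne v _ _ hv2 hav hbv)
    · rw [hmat, h1]
      ext i j
      fin_cases i <;> fin_cases j <;> simp [E3, Matrix.diagonal] <;> norm_num
  · left
    unfold NoEv at hne
    push Not at hne
    obtain ⟨z, c, d, hz2, haz, hbz, hz0⟩ := hne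
    have hc := Rg_ne hz0 haz
    have hd := Rg_ne hz0 hbz
    have hy := Rg_mulv haz hbz
    have hyk := Rg_powv hy k
    have hyk0 : (c * d) ^ k ≠ 0 := pow_ne_zero _ (mul_ne_zero hc hd)
    obtain ⟨r1, r2⟩ := hT
    have hdc : d = c := by
      have h1 : ((b : SU3) : Mat).mulVec z = ((c * d) ^ k * c * ((c * d) ^ k)⁻¹) • z := by
        conv_lhs => rw [r1]
        exact Rg_mulv (Rg_mulv hyk haz) (Rg_invv hyk0 hyk)
      have h2 := Rg_cancel hz0 (hbz.symm.trans h1)
      rw [h2]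
      field_simp
    rw [hdc] at hbz hy
    have hc1 : c = 1 := by
      have h1 := Rg_powv hy (2 * k + 1)
      have h2 := Rg_powv haz (4 * k + 3)
      rw [r2, h2] at h1
      have h3 := Rg_cancel hz0 h1
      have h4 : (c * c) ^ (2 * k + 1) = c ^ (4 * k + 2) := by
        rw [← pow_two, ← pow_mul]; congr 1; ring
      rw [h4, pow_succ c (4 * k + 2)] at h3
      have h5 : c ^ (4 * k + 2) ≠ 0 := pow_ne_zero _ hc
      exact mul_left_cancel₀ h5 (by rw [h3, mul_one])
    rw [hc1, one_smul] at haz hbz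
    exact ⟨Rg_fix ha hz2 hz0 haz, Rg_fix hb hz2 hz0 hbz⟩

end Pool.Agent.CM
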