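import Pool.Agent.Work.MP_8590b5_gt.CM.Stmts1

/-!
# Block CM, item Rl (helper37)
-/

set_option autoImplicit false

namespace Pool.Agent.CM

open Finset

theorem pr_Rl : StRl := by
  intro Γ Δ _ _ φ s t
  unfold longi
  rw [map_list_prod, List.map_map]
  rfl

end Pool.Agent.CM
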