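import Pool.Agent.Work.MP_8590b5_gt.CM.Stmts6

/-! # Block CM, item Rl2 -/

namespace Pool.Agent.CM

open Finset

private def Rl2_sub (P Q : Mat) : Subgroup Aff where
  carrier := {x | P * (x.l : Mat) = (x.l : Mat) * P ∧ Q * (x.l : Mat) = (x.l : Mat) * Q}
  mul_mem' := by
    rintro x y ⟨h1, h2⟩ ⟨h3, h4⟩
    constructor
    · rw [Aff.mul_l, Aff_aux, ← Matrix.mul_assoc, h1, Matrix.mul_assoc, h3, Matrix.mul_assoc]
    · rw [Aff.mul_l, Aff_aux, ← Matrix.mul_assoc, h2, Matrix.mul_assoc, h4, Matrix.mul_assoc]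
  one_mem' := by
    constructor
    · rw [Aff.one_l]; simp
    · rw [Aff.one_l]; simp
  inv_mem' := by
    rintro x ⟨h1, h2⟩
    have key : ∀ P : Mat, P * (x.l : Mat) = (x.l : Mat) * P →
        P * ((x.l⁻¹ : SU3) : Mat) = ((x.l⁻¹ : SU3) : Mat) * P := by
      intro P hP
      calc P * ((x.l⁻¹ : SU3) : Mat)
          = ((x.l⁻¹ : SU3) : Mat) * (x.l : Mat) * P * ((x.l⁻¹ : SU3) : Mat) := by
            rw [Aff_inv]; simp
        _ = ((x.l⁻¹ : SU3) : Mat) * ((x.l : Mat) * P) * ((x.l⁻¹ : SU3) : Mat) := by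
            simp only [Matrix.mul_assoc]
        _ = ((x.l⁻¹ : SU3) : Mat) * (P * (x.l : Mat)) * ((x.l⁻¹ : SU3) : Mat) := by rw [hP]
        _ = ((x.l⁻¹ : SU3) : Mat) * P * ((x.l : Mat) * ((x.l⁻¹ : SU3) : Mat)) := by
            simp only [Matrix.mul_assoc]
        _ = ((x.l⁻¹ : SU3) : Mat) * P := by rw [Aff_inv']; simp
    exact ⟨key P h1, key Q h2⟩

private def Rl2_hom (P Q : Mat) : Rl2_sub P Q →* Aff where
  toFun x := ⟨P * x.1.v * Q, x.1.l⟩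
  map_one' := by
    change (⟨P * 0 * Q, 1⟩ : Aff) = 1
    rw [Matrix.mul_zero, Matrix.zero_mul]; rfl
  map_mul' x y := by
    ext1
    · change P * (x.1.v + (x.1.l : Mat) * y.1.v * ((x.1.l⁻¹ : SU3) : Mat)) * Q =
        P * x.1.v * Q + (x.1.l : Mat) * (P * y.1.v * Q) * ((x.1.l⁻¹ : SU3) : Mat)
      have h1 := x.2.1
      have h2 := ((Rl2_sub P Q).inv_mem x.2).2
      rw [Aff.inv_l] at h2
      rw [Matrix.mul_add, Matrix.add_mul]
      congr 1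
      calc P * ((x.1.l : Mat) * y.1.v * ((x.1.l⁻¹ : SU3) : Mat)) * Q
          = (P * (x.1.l : Mat)) * y.1.v * (((x.1.l⁻¹ : SU3) : Mat) * Q) := by
            simp only [Matrix.mul_assoc]
        _ = ((x.1.l : Mat) * P) * y.1.v * (Q * ((x.1.l⁻¹ : SU3) : Mat)) := by rw [h1, ← h2]
        _ = (x.1.l : Mat) * (P * y.1.v * Q) * ((x.1.l⁻¹ : SU3) : Mat) := by
            simp only [Matrix.mul_assoc]
    · rfl

theorem pr_Rl2 : StRl2 := by
  intro k a b A0 B0 P Q h1 h2 h3 h4 h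
  let x : Rl2_sub P Q := ⟨⟨A0, a⟩, ⟨h1, h3⟩⟩
  let y : Rl2_sub P Q := ⟨⟨B0, b⟩, ⟨h2, h4⟩⟩
  have e1 : (⟨P * A0 * Q, a⟩ : Aff) = Rl2_hom P Q x := rfl
  have e2 : (⟨P * B0 * Q, b⟩ : Aff) = Rl2_hom P Q y := rfl
  have hxy : Tor k x y := by
    obtain ⟨ha, hb⟩ := h
    constructor
    · apply Subtype.ext
      exact ha
    · apply Subtype.ext
      exact hb
  obtain ⟨ha, hb⟩ := hxy
  rw [e1, e2]
  constructor
  · rw [← map_mul, ← map_pow, ← map_mul, ← map_inv, ← map_mul, ← ha]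
  · rw [← map_mul, ← map_pow, ← map_pow, ← hb]

end Pool.Agent.CM
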