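import Pool.Agent.Work.MP_8590b5_gt.CM.Stmts1

/-!
# Block CM, item Rn: naturality
-/

namespace Pool.Agent.CM

open Finset

theorem Rn_cross {Γ Δ : Type} [Group Γ] [Group Δ] (φ : Γ →* Δ) (s : ℕ → Str Γ) (c : ℕ × Bool) :
    cross (mapS φ s) c = mapS φ (cross s c) := by
  funext p
  by_cases hc : c.2 = true
  · by_cases h1 : p = c.1
    · simp only [cross, mapS, if_pos hc, if_pos h1]
    · by_cases h2 : p = c.1 + 1
      · simp only [cross, mapS, if_pos hc, if_neg h1, if_pos h2, map_mul, map_inv]
      · simp only [cross, mapS, if_pos hc, if_neg h1, if_neg h2]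
  · by_cases h1 : p = c.1 + 1
    · simp only [cross, mapS, if_neg hc, if_pos h1]
    · by_cases h2 : p = c.1
      · simp only [cross, mapS, if_neg hc, if_neg h1, if_pos h2, map_mul, map_inv]
      · simp only [cross, mapS, if_neg hc, if_neg h1, if_neg h2]

theorem pr_Rn : StRn := by
  intro Γ Δ _ _ φ w
  induction w with
  | nil => exact fun s => rfl
  | cons c w ih =>
    intro s
    show run w (cross (mapS φ s) c) = mapS φ (run w (cross s c))
    rw [Rn_cross, ih]

end Pool.Agent.CM
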