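import Pool.Agent.Work.MP_8590b5_gt.CM.Stmts1

/-!
# Block CM, item Rp: the remaining crossings (helper37)
-/

set_option autoImplicit false

namespace Pool.Agent.CM

open Finset

theorem Rp_und {Γ : Type} [Group Γ] (a b : Γ) (t : ℕ) (A : Str Γ) (c : Γ) :
    und (bump a b t A) c = bump a b t (und A c) := by
  unfold und bump
  dsimp only
  rw [mul_assoc (_ ^ t)]

theorem Rp_run {Γ : Type} [Group Γ] (m : ℕ) (s : ℕ → Str Γ) (c : ℕ × Bool) :
    run (List.replicate (m + 1) c) s = cross (run (List.replicate m c) s) c := by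
  unfold run
  rw [List.replicate_succ', List.foldl_append]
  rfl

theorem Rp_cross {Γ : Type} [Group Γ] (r : ℕ → Str Γ) (p : ℕ) :
    cross r (0, true) p = if p = 0 then r 1 else if p = 1 then und (r 0) (r 1).lab else r p := by
  unfold cross und
  rfl

theorem pr_Rp : StRp := by
  intro hTw Γ _ a b t e m s h0 h1
  induction m with
  | zero =>
    intro p
    by_cases hp0 : p = 0
    · rw [if_pos hp0, hp0]
      rw [show e + ((0 : ℕ) : ℤ) = e by simp]
      exact h0
    by_cases hp1 : p = 1
    · rw [if_neg hp0, if_pos hp1, hp1]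
      rw [show e + ((0 : ℕ) : ℤ) = e by simp]
      exact h1
    rw [if_neg hp0, if_neg hp1]
    rfl
  | succ m ih =>
    intro p
    have e0 := ih 0
    rw [if_pos rfl] at e0
    have e1 := ih 1
    rw [if_neg one_ne_zero, if_pos rfl] at e1
    have hT := hTw Γ a b (e + m)
    have hcast : e + ((m + 1 : ℕ) : ℤ) = e + m + 1 := by push_cast; ring
    rw [Rp_run, Rp_cross, hcast, hT, e0, e1]
    by_cases hp0 : p = 0
    · rw [if_pos hp0, if_pos hp0]
    by_cases hp1 : p = 1
    · rw [if_neg hp0, if_neg hp0, if_pos hp1, if_pos hp1, Rp_und]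
      rfl
    rw [if_neg hp0, if_neg hp0, if_neg hp1, if_neg hp1]
    have e2 := ih p
    rwa [if_neg hp0, if_neg hp1] at e2

end Pool.Agent.CM
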