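import Pool.Agent.Work.MP_8590b5_gt.CM.Stmts6

/-! # Block CM, item Rp2 -/

namespace Pool.Agent.CM

open Finset

private theorem Rp2_l (x : Aff) (m : ℕ) : (x ^ m).l = x.l ^ m := by
  induction m with
  | zero => rfl
  | succ m ih => rw [pow_succ, Aff.mul_l, ih, pow_succ]

private theorem Rp2_EE : (E3 : Mat) * E3 = E3 := by
  unfold E3
  rw [Matrix.diagonal_mul_diagonal]
  congr 1
  funext i
  fin_cases i <;> simp

private theorem Rp2_HH : ((2 : ℂ) • E3 - 1 : Mat) * ((2 : ℂ) • E3 - 1) = 1 := by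
  have h := Rp2_EE
  rw [Matrix.sub_mul, Matrix.mul_sub, Matrix.one_mul, Matrix.mul_one, Matrix.smul_mul,
    Matrix.mul_smul, h, smul_smul]
  module

/-- The blocks on which the central element acts as `-1`. -/
private theorem Rp2_blk (M : Mat) (h : M = (1 - E3) * M * E3 ∨ M = E3 * M * (1 - E3)) :
    ((2 : ℂ) • E3 - 1 : Mat) * M * ((2 : ℂ) • E3 - 1) = -M := by
  have hE := Rp2_EE
  rcases h with h | h
  · have h1 : E3 * M = 0 := by
      rw [h, ← Matrix.mul_assoc, ← Matrix.mul_assoc, Matrix.mul_sub, Matrix.mul_one, hE]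
      simp
    have h2 : M * E3 = M := by
      conv_lhs => rw [h]
      conv_rhs => rw [h]
      rw [Matrix.mul_assoc, hE]
    rw [Matrix.sub_mul, Matrix.smul_mul, h1, Matrix.one_mul, smul_zero, zero_sub, Matrix.neg_mul,
      Matrix.mul_sub, Matrix.mul_smul, h2, Matrix.mul_one]
    module
  · have h1 : E3 * M = M := by
      conv_lhs => rw [h]
      conv_rhs => rw [h]
      rw [← Matrix.mul_assoc, ← Matrix.mul_assoc, hE]
    have h2 : M * E3 = 0 := by
      rw [h, Matrix.mul_assoc, Matrix.sub_mul, Matrix.one_mul, hE]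
      simp
    have h3 : ((2 : ℂ) • E3 - 1 : Mat) * M = M := by
      rw [Matrix.sub_mul, Matrix.smul_mul, h1, Matrix.one_mul]
      module
    have h4 : M * ((2 : ℂ) • E3 - 1 : Mat) = -M := by
      rw [Matrix.mul_sub, Matrix.mul_smul, h2, Matrix.mul_one, smul_zero, zero_sub]
    rw [h3, h4]

theorem pr_Rp2 : StRp2 := by
  intro hTq k a b A0 B0 hH hblk hT
  obtain ⟨-, -, hc1, hc2⟩ := hTq Aff k _ _ hT
  set h : Aff := ((⟨A0, a⟩ : Aff) * ⟨B0, b⟩) ^ (2 * k + 1) with hh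
  have hl : (h.l : Mat) = (2 : ℂ) • E3 - 1 := by
    rw [hh, Rp2_l, Aff.mul_l]
    exact hH
  have hli : ((h.l⁻¹ : SU3) : Mat) = (2 : ℂ) • E3 - 1 := by
    calc ((h.l⁻¹ : SU3) : Mat) = ((h.l⁻¹ : SU3) : Mat) * (((2 : ℂ) • E3 - 1) * ((2 : ℂ) • E3 - 1)) := by
          rw [Rp2_HH, Matrix.mul_one]
      _ = ((h.l⁻¹ : SU3) : Mat) * (h.l : Mat) * ((2 : ℂ) • E3 - 1) := by
          rw [← Matrix.mul_assoc]; rw [hl]
      _ = _ := by rw [Aff_inv, Matrix.one_mul]
  have key : ∀ (M : Mat) (g : SU3), (M = (1 - E3) * M * E3 ∨ M = E3 * M * (1 - E3)) →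
      Commute h (⟨M, g⟩ : Aff) →
      M = ((1 / 2 : ℂ) • h.v) - (g : Mat) * ((1 / 2 : ℂ) • h.v) * ((g⁻¹ : SU3) : Mat) := by
    intro M g hM hc
    have h1 : (h * ⟨M, g⟩).v = ((⟨M, g⟩ : Aff) * h).v := by rw [hc.eq]
    rw [Aff.mul_v, Aff.mul_v] at h1
    change h.v + (h.l : Mat) * M * ((h.l⁻¹ : SU3) : Mat) = M + (g : Mat) * h.v * ((g⁻¹ : SU3) : Mat) at h1
    rw [hl, hli, Rp2_blk M hM] at h1
    rw [Matrix.mul_smul, Matrix.smul_mul]
    have h2 : (2 : ℂ) • M = h.v - (g : Mat) * h.v * ((g⁻¹ : SU3) : Mat) := by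
      rw [two_smul, eq_sub_iff_add_eq, add_assoc, ← h1]
      abel
    rw [← smul_sub, ← h2, smul_smul]
    norm_num
  refine ⟨(1 / 2 : ℂ) • h.v, ?_, ?_⟩
  · apply key A0 a _ hc1
    rcases hblk with hb | hb
    · exact Or.inl hb.1
    · exact Or.inr hb.1
  · apply key B0 b _ hc2
    rcases hblk with hb | hb
    · exact Or.inl hb.2
    · exact Or.inr hb.2

end Pool.Agent.CM
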