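import Pool.Agent.Work.MP_8590b5_gt.CM.Stmts1

/-!
# Block CM, item Rq (helper43): the remaining crossings do not change the positions from 2 on
-/

set_option autoImplicit false

namespace Pool.Agent.CM

open Finset

private theorem Rq_cross {Γ : Type} [Group Γ] (s : ℕ → Str Γ) (p : ℕ) (hp : 2 ≤ p) :
    cross s (0, true) p = s p := by
  unfold cross
  rw [if_pos rfl, if_neg (show ¬ p = 0 by omega), if_neg (show ¬ p = 0 + 1 by omega)]

/-- Item Rq. -/
theorem pr_Rq : StRq := by
  intro Γ _ m
  induction m with
  | zero => intro s p _; rfl
  | succ m ih =>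
    intro s p hp
    rw [List.replicate_succ]
    show run (List.replicate m (0, true)) (cross s (0, true)) p = s p
    rw [ih _ p hp, Rq_cross s p hp]

end Pool.Agent.CM
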