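import Pool.Agent.Work.MP_8590b5_gt.CM.Stmts6

/-!
# Block CM, item Rq2: from pairs to the group
-/

namespace Pool.Agent.CM

open Finset

private theorem Rq2_col (hCh : ChAt) (hCk : CkAt) {N : ℕ} {J : Finset ℕ} (hJ : J ⊆ range N)
    {Γ : Type} [Group Γ] (ρ : (lnk N).grp (sub J) →* Γ) :
    Tor (N - J.card) (ρ (PresentedGroup.of 0)) (ρ (PresentedGroup.of 1)) ∧
    (∀ i < N, ρ (PresentedGroup.of (i + 2)) =
      cval J (ρ (PresentedGroup.of 0)) (ρ (PresentedGroup.of 1)) i) ∧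
    ∀ p, N + 2 ≤ p → ρ (PresentedGroup.of p) = 1 := by
  have hcol : Col (lnk N) (sub J) (fun p => ρ (PresentedGroup.of p)) :=
    (hCh (lnk N) (sub J) Γ _).2 ⟨ρ, fun _ => rfl⟩
  exact (hCk Γ N J _ hJ).1 hcol

private theorem Rq2_ext (hCh : ChAt) (hCk : CkAt) {N : ℕ} {J : Finset ℕ} (hJ : J ⊆ range N)
    {Γ : Type} [Group Γ] (φ ψ : (lnk N).grp (sub J) →* Γ)
    (h0 : φ (PresentedGroup.of 0) = ψ (PresentedGroup.of 0))
    (h1 : φ (PresentedGroup.of 1) = ψ (PresentedGroup.of 1)) : φ = ψ := by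
  obtain ⟨-, hφ2, hφ3⟩ := Rq2_col hCh hCk hJ φ
  obtain ⟨-, hψ2, hψ3⟩ := Rq2_col hCh hCk hJ ψ
  apply PresentedGroup.ext
  intro p
  rcases Nat.lt_or_ge p 2 with hp | hp
  · interval_cases p
    · exact h0
    · exact h1
  · obtain ⟨i, rfl⟩ : ∃ i, p = i + 2 := ⟨p - 2, by omega⟩
    rcases Nat.lt_or_ge i N with hi | hi
    · rw [hφ2 i hi, hψ2 i hi, h0, h1]
    · rw [hφ3 (i + 2) (by omega), hψ3 (i + 2) (by omega)]

theorem pr_Rq2 : StRq2 := by
  intro hCh hCk hGc hX N J hJ ρ c hc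
  let φ : (lnk N).grp (sub J) →* Aff := MonoidHom.mk' (fun g => ⟨c g, ρ g⟩) (by
    intro g h
    ext1
    · rw [Aff.mul_v]
      exact hc g h
    · rw [Aff.mul_l]
      exact map_mul ρ g h)
  have hT : Tor (N - J.card) (⟨c (PresentedGroup.of 0), ρ (PresentedGroup.of 0)⟩ : Aff)
      ⟨c (PresentedGroup.of 1), ρ (PresentedGroup.of 1)⟩ := (Rq2_col hCh hCk hJ φ).1
  obtain ⟨X, hX1, hX2⟩ := hX (N - J.card) _ _ _ _ hT
  let ψ : (lnk N).grp (sub J) →* Aff := MonoidHom.mk'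
    (fun g => ⟨X - (ρ g : Mat) * X * ((ρ g)⁻¹ : SU3), ρ g⟩) (by
    intro g h
    ext1
    · rw [Aff.mul_v]
      simp only [map_mul, mul_inv_rev, Aff_aux, Matrix.mul_sub, Matrix.sub_mul,
        Matrix.mul_assoc]
      abel
    · rw [Aff.mul_l]
      exact map_mul ρ g h)
  have hφψ : φ = ψ := by
    refine Rq2_ext hCh hCk hJ φ ψ ?_ ?_
    · show (⟨c (PresentedGroup.of 0), ρ (PresentedGroup.of 0)⟩ : Aff) =
        ⟨X - (ρ (PresentedGroup.of 0) : Mat) * X * ((ρ (PresentedGroup.of 0))⁻¹ : SU3),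
          ρ (PresentedGroup.of 0)⟩
      ext1
      · exact hX1
      · rfl
    · show (⟨c (PresentedGroup.of 1), ρ (PresentedGroup.of 1)⟩ : Aff) =
        ⟨X - (ρ (PresentedGroup.of 1) : Mat) * X * ((ρ (PresentedGroup.of 1))⁻¹ : SU3),
          ρ (PresentedGroup.of 1)⟩
      ext1
      · exact hX2
      · rfl
  refine ⟨X, fun g => ?_⟩
  have h1 : (φ g).v = (ψ g).v := by rw [hφψ]
  exact h1

end Pool.Agent.CM
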