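import Pool.Agent.Work.MP_8590b5_gt.CM.Stmts6

/-! # Block CM, item Rs -/

namespace Pool.Agent.CM

open Finset

private theorem Rs_fix_row (a : SU3) (h : E3 * (a : Mat) = E3) (j : Fin 3) :
    (a : Mat) 2 j = if j = 2 then 1 else 0 := by
  have h1 := congrFun (congrFun h 2) j
  unfold E3 at h1
  rw [Matrix.diagonal_mul, Matrix.diagonal_apply] at h1
  simp at h1
  rw [h1]
  fin_cases j <;> simp

private theorem Rs_fix_col (a : SU3) (h : (a : Mat) * E3 = E3) (j : Fin 3) :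
    (a : Mat) j 2 = if j = 2 then 1 else 0 := by
  have h1 := congrFun (congrFun h j) 2
  unfold E3 at h1
  rw [Matrix.mul_diagonal, Matrix.diagonal_apply] at h1
  simp at h1
  rw [h1]
  fin_cases j <;> simp

private theorem Rs_inv (a : SU3) (h : Fx a) : Fx a⁻¹ := by
  constructor
  · calc ((a⁻¹ : SU3) : Mat) * E3 = ((a⁻¹ : SU3) : Mat) * ((a : Mat) * E3) := by rw [h.1]
      _ = E3 := by rw [← Matrix.mul_assoc, Aff_inv, Matrix.one_mul]
  · calc E3 * ((a⁻¹ : SU3) : Mat) = (E3 * (a : Mat)) * ((a⁻¹ : SU3) : Mat) := by rw [h.2]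
      _ = E3 := by rw [Matrix.mul_assoc, Aff_inv', Matrix.mul_one]

private def Rs_sub : Subgroup Aff where
  carrier := {x | Fx x.l}
  mul_mem' := by
    rintro x y ⟨h1, h2⟩ ⟨h3, h4⟩
    constructor
    · rw [Aff.mul_l, Aff_aux, Matrix.mul_assoc, h3, h1]
    · rw [Aff.mul_l, Aff_aux, ← Matrix.mul_assoc, h2, h4]
  one_mem' := by
    constructor
    · rw [Aff.one_l]; simp
    · rw [Aff.one_l]; simp
  inv_mem' := by
    intro x hx
    exact Rs_inv x.l hx

private def Rs_hom : Rs_sub →* Multiplicative ℂ where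
  toFun x := Multiplicative.ofAdd (x.1.v 2 2)
  map_one' := by
    change Multiplicative.ofAdd ((0 : Mat) 2 2) = 1
    rfl
  map_mul' x y := by
    rw [← ofAdd_add]
    congr 1
    change (x.1.v + (x.1.l : Mat) * y.1.v * ((x.1.l⁻¹ : SU3) : Mat)) 2 2 = x.1.v 2 2 + y.1.v 2 2
    rw [Matrix.add_apply]
    congr 1
    have hx : Fx x.1.l := x.2
    have hx' := Rs_inv x.1.l hx
    rw [Matrix.mul_apply, Fin.sum_univ_three, Rs_fix_col _ hx'.1, Rs_fix_col _ hx'.1,
      Rs_fix_col _ hx'.1]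
    simp only [Fin.reduceEq, if_false, mul_zero, if_true, mul_one, zero_add]
    rw [Matrix.mul_apply, Fin.sum_univ_three, Rs_fix_row _ hx.2, Rs_fix_row _ hx.2,
      Rs_fix_row _ hx.2]
    simp

private theorem Rs_E (M : Mat) (h : M 2 2 = 0) : E3 * M * E3 = 0 := by
  ext i j
  unfold E3
  rw [Matrix.mul_diagonal, Matrix.diagonal_mul]
  fin_cases i <;> fin_cases j <;> simp [h]

theorem pr_Rs : StRs := by
  intro hKc k a b A0 B0 ha hb h
  let x : Rs_sub := ⟨⟨A0, a⟩, ha⟩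
  let y : Rs_sub := ⟨⟨B0, b⟩, hb⟩
  have hxy : Tor k x y := by
    obtain ⟨h1, h2⟩ := h
    constructor
    · apply Subtype.ext
      exact h1
    · apply Subtype.ext
      exact h2
  have hT : Tor k (Rs_hom x) (Rs_hom y) := by
    obtain ⟨h1, h2⟩ := hxy
    constructor
    · rw [← map_mul, ← map_pow, ← map_mul, ← map_inv, ← map_mul, ← h1]
    · rw [← map_mul, ← map_pow, ← map_pow, ← h2]
  obtain ⟨h1, h2⟩ := hKc (Multiplicative ℂ) k _ _ hT
  exact ⟨Rs_E A0 h1, Rs_E B0 h2⟩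

end Pool.Agent.CM
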