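import Pool.Agent.Work.MP_8590b5_gt.CM.Stmts6

/-! # Block CM, item Rv -/

namespace Pool.Agent.CM

open Finset

private theorem Rv_row (M : Mat) (h : M = (1 - E3) * M * (1 - E3)) (j : Fin 3) :
    M 2 j = 0 ∧ M j 2 = 0 := by
  have e : (1 - E3 : Mat) = Matrix.diagonal ![1, 1, 0] := by
    unfold E3
    ext i j
    fin_cases i <;> fin_cases j <;> simp [Matrix.sub_apply, Matrix.one_apply]
  rw [e] at h
  constructor
  · rw [h, Matrix.mul_diagonal, Matrix.diagonal_mul]
    simp
  · rw [h, Matrix.mul_diagonal, Matrix.diagonal_mul]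
    simp

private theorem Rv_fix_row (a : SU3) (h : E3 * (a : Mat) = E3) (j : Fin 3) :
    (a : Mat) 2 j = if j = 2 then 1 else 0 := by
  have h1 := congrFun (congrFun h 2) j
  unfold E3 at h1
  rw [Matrix.diagonal_mul, Matrix.diagonal_apply] at h1
  simp at h1
  rw [h1]
  fin_cases j <;> simp

/-- a two by two matrix over the complex numbers has an eigenvector -/
private theorem Rv_eig (p q r s : ℂ) : ∃ c x y : ℂ, (x ≠ 0 ∨ y ≠ 0) ∧
    p * x + q * y = c * x ∧ r * x + s * y = c * y := by
  obtain ⟨c, hc⟩ := Module.End.exists_eigenvalue (K := ℂ) (V := Fin 2 → ℂ)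
    (Matrix.mulVecLin !![p, q; r, s])
  obtain ⟨v, hv⟩ := hc.exists_hasEigenvector
  have h1 := hv.apply_eq_smul
  rw [Matrix.mulVecLin_apply] at h1
  refine ⟨c, v 0, v 1, ?_, ?_, ?_⟩
  · by_contra hcon
    push Not at hcon
    apply hv.2
    ext i
    fin_cases i
    · exact hcon.1
    · exact hcon.2
  · have := congrFun h1 0
    simpa [Matrix.mulVec, dotProduct, Fin.sum_univ_two] using this
  · have := congrFun h1 1
    simpa [Matrix.mulVec, dotProduct, Fin.sum_univ_two] using this

theorem pr_Rv : StRv := by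
  intro a b M ha hb hno hM h1 h2
  have hrow := Rv_row M hM
  obtain ⟨c, x, y, hxy, hx, hy⟩ := Rv_eig (M 0 0) (M 0 1) (M 1 0) (M 1 1)
  -- the eigenspace of M for c in the plane
  have hMz : ∀ z : Fin 3 → ℂ, z 2 = 0 → (M.mulVec z = c • z ↔
      (M 0 0 * z 0 + M 0 1 * z 1 = c * z 0 ∧ M 1 0 * z 0 + M 1 1 * z 1 = c * z 1)) := by
    intro z hz
    constructor
    · intro h
      have e0 := congrFun h 0
      have e1 := congrFun h 1
      simp [Matrix.mulVec, dotProduct, Fin.sum_univ_three, hz] at e0 e1
      exact ⟨e0, e1⟩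
    · rintro ⟨e0, e1⟩
      ext i
      fin_cases i
      · simp [Matrix.mulVec, dotProduct, Fin.sum_univ_three, hz]; exact e0
      · simp [Matrix.mulVec, dotProduct, Fin.sum_univ_three, hz]; exact e1
      · simp [Matrix.mulVec, dotProduct, Fin.sum_univ_three, hz, (hrow 0).1, (hrow 1).1, (hrow 2).1]
  have hplane : ∀ g : SU3, Fx g → ∀ z : Fin 3 → ℂ, z 2 = 0 → (g : Mat).mulVec z 2 = 0 := by
    intro g hg z hz
    simp [Matrix.mulVec, dotProduct, Fin.sum_univ_three, hz, Rv_fix_row g hg.2]
  -- determinant of M' - c vanishes; suppose M' ≠ c; then the eigenspace is a line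
  by_contra hcon
  -- first vector
  set z : Fin 3 → ℂ := ![x, y, 0] with hz
  have hz2 : z 2 = 0 := by rw [hz]; rfl
  have hz0 : z ≠ 0 := by
    intro h
    have e0 := congrFun h 0
    have e1 := congrFun h 1
    rw [hz] at e0 e1
    simp at e0 e1
    rcases hxy with h | h
    · exact h e0
    · exact h e1
  have hMzz : M.mulVec z = c • z := by
    rw [hMz z hz2]
    exact ⟨hx, hy⟩
  have hline : ∀ w : Fin 3 → ℂ, w 2 = 0 → M.mulVec w = c • w → ∃ d : ℂ, w = d • z := by
    intro w hw hMw
    rw [hMz w hw] at hMw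
    by_contra hnd
    -- determinant of (z, w) is non-zero
    have hdet : x * w 1 - y * w 0 ≠ 0 := by
      intro hd
      apply hnd
      by_cases hx0 : x = 0
      · have hy0 : y ≠ 0 := by
          rcases hxy with h | h
          · exact absurd hx0 h
          · exact h
        have hw0 : w 0 = 0 := by
          rw [hx0] at hd
          have : y * w 0 = 0 := by linear_combination -hd
          exact (mul_eq_zero.1 this).resolve_left hy0
        refine ⟨w 1 / y, ?_⟩
        ext i
        fin_cases i
        · simp [hz, hx0, hw0]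
        · simp [hz]; field_simp
        · simp [hz, hw]
      · refine ⟨w 0 / x, ?_⟩
        ext i
        fin_cases i
        · simp [hz]; field_simp
        · simp [hz]
          field_simp
          linear_combination hd
        · simp [hz, hw]
    -- then M' = c
    apply hcon
    refine ⟨c, ?_⟩
    have m00 : M 0 0 = c := by
      apply mul_right_cancel₀ hdet
      linear_combination (w 1) * hx - y * hMw.1
    have m01 : M 0 1 = 0 := by
      apply mul_right_cancel₀ hdet
      linear_combination (-w 0) * hx + x * hMw.1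
    have m10 : M 1 0 = 0 := by
      apply mul_right_cancel₀ hdet
      linear_combination (w 1) * hy - y * hMw.2
    have m11 : M 1 1 = c := by
      apply mul_right_cancel₀ hdet
      linear_combination (-w 0) * hy + x * hMw.2
    have e : (1 - E3 : Mat) = Matrix.diagonal ![1, 1, 0] := by
      unfold E3
      ext i j
      fin_cases i <;> fin_cases j <;> simp [Matrix.sub_apply, Matrix.one_apply]
    rw [e]
    ext i j
    fin_cases i <;> fin_cases j <;>
      simp [m00, m01, m10, m11, (hrow 0).1, (hrow 1).1, (hrow 2).1, (hrow 0).2, (hrow 1).2]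
  have hinv : ∀ g : SU3, Fx g → M * (g : Mat) = (g : Mat) * M → ∃ d : ℂ,
      (g : Mat).mulVec z = d • z := by
    intro g hg hMg
    apply hline
    · exact hplane g hg z hz2
    · rw [Matrix.mulVec_mulVec, hMg, ← Matrix.mulVec_mulVec, hMzz, Matrix.mulVec_smul]
  obtain ⟨d1, hd1⟩ := hinv a ha h1
  obtain ⟨d2, hd2⟩ := hinv b hb h2
  exact hz0 (hno z d1 d2 hz2 hd1 hd2)

end Pool.Agent.CM
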