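import Pool.Agent.Work.MP_8590b5_gt.CM.Stmts6

/-! # Block CM, item Rw -/

namespace Pool.Agent.CM

open Finset

private theorem Rw_l (x : Aff) (m : ℕ) : (x ^ m).l = x.l ^ m := by
  induction m with
  | zero => rfl
  | succ m ih => rw [pow_succ, Aff.mul_l, ih, pow_succ]

private theorem Rw_EE : (E3 : Mat) * E3 = E3 := by
  unfold E3
  rw [Matrix.diagonal_mul_diagonal]
  congr 1
  funext i
  fin_cases i <;> simp

private theorem Rw_HH : ((2 : ℂ) • E3 - 1 : Mat) * ((2 : ℂ) • E3 - 1) = 1 := by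
  have h := Rw_EE
  rw [Matrix.sub_mul, Matrix.mul_sub, Matrix.one_mul, Matrix.mul_one, Matrix.smul_mul,
    Matrix.mul_smul, h, smul_smul]
  module

private theorem Rw_blk (M : Mat) (h : M = (1 - E3) * M * (1 - E3)) :
    ((2 : ℂ) • E3 - 1 : Mat) * M * ((2 : ℂ) • E3 - 1) = M ∧ E3 * M = 0 ∧ M * E3 = 0 := by
  have hE := Rw_EE
  have hE0 : E3 * (1 - E3) = 0 := by
    rw [Matrix.mul_sub, Matrix.mul_one, hE, sub_self]
  have hE1 : (1 - E3) * E3 = 0 := by
    rw [Matrix.sub_mul, Matrix.one_mul, hE, sub_self]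
  have h1 : E3 * M = 0 := by
    calc E3 * M = E3 * ((1 - E3) * M * (1 - E3)) := by rw [← h]
      _ = (E3 * (1 - E3)) * M * (1 - E3) := by simp only [Matrix.mul_assoc]
      _ = 0 := by rw [hE0, Matrix.zero_mul, Matrix.zero_mul]
  have h2 : M * E3 = 0 := by
    calc M * E3 = ((1 - E3) * M * (1 - E3)) * E3 := by rw [← h]
      _ = (1 - E3) * M * ((1 - E3) * E3) := by simp only [Matrix.mul_assoc]
      _ = 0 := by rw [hE1, Matrix.mul_zero]
  refine ⟨?_, h1, h2⟩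
  have h3 : ((2 : ℂ) • E3 - 1 : Mat) * M = -M := by
    rw [Matrix.sub_mul, Matrix.smul_mul, h1, Matrix.one_mul, smul_zero, zero_sub]
  have h4 : M * ((2 : ℂ) • E3 - 1 : Mat) = -M := by
    rw [Matrix.mul_sub, Matrix.mul_smul, h2, Matrix.mul_one, smul_zero, zero_sub]
  rw [h3, Matrix.neg_mul, h4, neg_neg]

/-- The elements whose translation is in the block and whose linear part fixes the vector. -/
private def Rw_sub : Subgroup Aff where
  carrier := {x | Fx x.l ∧ E3 * x.v = 0 ∧ x.v * E3 = 0}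
  mul_mem' := by
    rintro x y ⟨⟨h1, h2⟩, h3, h4⟩ ⟨⟨h5, h6⟩, h7, h8⟩
    have hx' : ((x.l⁻¹ : SU3) : Mat) * E3 = E3 := by
      calc ((x.l⁻¹ : SU3) : Mat) * E3 = ((x.l⁻¹ : SU3) : Mat) * ((x.l : Mat) * E3) := by rw [h1]
        _ = E3 := by rw [← Matrix.mul_assoc, Aff_inv, Matrix.one_mul]
    refine ⟨⟨?_, ?_⟩, ?_, ?_⟩
    · rw [Aff.mul_l, Aff_aux, Matrix.mul_assoc, h5, h1]
    · rw [Aff.mul_l, Aff_aux, ← Matrix.mul_assoc, h2, h6]
    · rw [Aff.mul_v, Matrix.mul_add, h3, ← Matrix.mul_assoc, ← Matrix.mul_assoc, h2, h7]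
      simp
    · rw [Aff.mul_v, Matrix.add_mul, h4, Matrix.mul_assoc, hx', Matrix.mul_assoc, h8]
      simp
  one_mem' := by
    refine ⟨⟨?_, ?_⟩, ?_, ?_⟩
    · rw [Aff.one_l]; simp
    · rw [Aff.one_l]; simp
    · rw [Aff.one_v]; simp
    · rw [Aff.one_v]; simp
  inv_mem' := by
    rintro x ⟨⟨h1, h2⟩, h3, h4⟩
    have hx' : ((x.l⁻¹ : SU3) : Mat) * E3 = E3 := by
      calc ((x.l⁻¹ : SU3) : Mat) * E3 = ((x.l⁻¹ : SU3) : Mat) * ((x.l : Mat) * E3) := by rw [h1]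
        _ = E3 := by rw [← Matrix.mul_assoc, Aff_inv, Matrix.one_mul]
    have hx'' : E3 * ((x.l⁻¹ : SU3) : Mat) = E3 := by
      calc E3 * ((x.l⁻¹ : SU3) : Mat) = (E3 * (x.l : Mat)) * ((x.l⁻¹ : SU3) : Mat) := by rw [h2]
        _ = E3 := by rw [Matrix.mul_assoc, Aff_inv', Matrix.mul_one]
    refine ⟨⟨hx', hx''⟩, ?_, ?_⟩
    · rw [Aff.inv_v, ← Matrix.mul_assoc, ← Matrix.mul_assoc, Matrix.mul_neg, hx'', Matrix.neg_mul, h3]
      simp
    · rw [Aff.inv_v, Matrix.mul_assoc, h1, Matrix.mul_assoc, h4]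
      simp

/-- The trace is additive. -/
private noncomputable def Rw_T : Aff →* Multiplicative ℂ where
  toFun x := Multiplicative.ofAdd (Matrix.trace x.v)
  map_one' := by
    rw [Aff.one_v, Matrix.trace_zero]; rfl
  map_mul' x y := by
    rw [← ofAdd_add]
    congr 1
    rw [Aff.mul_v, Matrix.trace_add, Matrix.trace_mul_comm, ← Matrix.mul_assoc, Aff_inv,
      Matrix.one_mul]

theorem pr_Rw : StRw := by
  intro hTq hRv k a b A0 B0 ha hb hno hH hA hB hT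
  obtain ⟨hx2, hr, hc1, hc2⟩ := hTq Aff k _ _ hT
  have hmem : ((⟨A0, a⟩ : Aff) * ⟨B0, b⟩) ^ (2 * k + 1) ∈ Rw_sub := by
    apply Rw_sub.pow_mem
    apply Rw_sub.mul_mem
    · exact ⟨ha, (Rw_blk A0 hA).2.1, (Rw_blk A0 hA).2.2⟩
    · exact ⟨hb, (Rw_blk B0 hB).2.1, (Rw_blk B0 hB).2.2⟩
  set y : Aff := (⟨A0, a⟩ : Aff) * ⟨B0, b⟩ with hy
  set h : Aff := y ^ (2 * k + 1) with hh
  obtain ⟨hFx, hE1, hE2⟩ := hmem
  have hl : (h.l : Mat) = (2 : ℂ) • E3 - 1 := by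
    rw [hh, Rw_l, hy, Aff.mul_l]
    exact hH
  have hli : ((h.l⁻¹ : SU3) : Mat) = (2 : ℂ) • E3 - 1 := by
    calc ((h.l⁻¹ : SU3) : Mat) = ((h.l⁻¹ : SU3) : Mat) * (((2 : ℂ) • E3 - 1) * ((2 : ℂ) • E3 - 1)) := by
          rw [Rw_HH, Matrix.mul_one]
      _ = ((h.l⁻¹ : SU3) : Mat) * (h.l : Mat) * ((2 : ℂ) • E3 - 1) := by
          rw [← Matrix.mul_assoc]; rw [hl]
      _ = _ := by rw [Aff_inv, Matrix.one_mul]
  have key : ∀ (M : Mat) (g : SU3), M = (1 - E3) * M * (1 - E3) → Commute h (⟨M, g⟩ : Aff) →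
      h.v * (g : Mat) = (g : Mat) * h.v := by
    intro M g hM hc
    have h1 : (h * ⟨M, g⟩).v = ((⟨M, g⟩ : Aff) * h).v := by rw [hc.eq]
    rw [Aff.mul_v, Aff.mul_v] at h1
    change h.v + (h.l : Mat) * M * ((h.l⁻¹ : SU3) : Mat) = M + (g : Mat) * h.v * ((g⁻¹ : SU3) : Mat) at h1
    rw [hl, hli, (Rw_blk M hM).1] at h1
    have h2 : h.v = (g : Mat) * h.v * ((g⁻¹ : SU3) : Mat) := by
      rw [add_comm] at h1
      exact add_left_cancel h1
    conv_lhs => rw [h2]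
    rw [Matrix.mul_assoc, Aff_inv, Matrix.mul_one]
  have hv : h.v = (1 - E3) * h.v * (1 - E3) := by
    rw [Matrix.sub_mul, Matrix.one_mul, hE1, sub_zero, Matrix.mul_sub, hE2, Matrix.mul_one, sub_zero]
  obtain ⟨c, hc⟩ := hRv a b h.v ha hb hno hv (key A0 a hA hc1) (key B0 b hB hc2)
  -- the trace
  have t1 : Rw_T h = Rw_T y ^ (2 * k + 1) := by rw [hh, map_pow]
  have t2 : Rw_T h = Rw_T ⟨A0, a⟩ ^ (4 * k + 3) := by rw [hr, map_pow]
  have t3 : (Rw_T ⟨A0, a⟩ * Rw_T y ^ k) ^ 2 = Rw_T h := by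
    rw [← map_pow, ← map_mul, ← map_pow, hx2]
  have t1' : Matrix.trace h.v = (2 * (k : ℂ) + 1) * Matrix.trace y.v := by
    have := congrArg Multiplicative.toAdd t1
    change Matrix.trace h.v = (2 * k + 1) • Matrix.trace y.v at this
    rw [this, nsmul_eq_mul]; push_cast; ring
  have t2' : Matrix.trace h.v = (4 * (k : ℂ) + 3) * Matrix.trace A0 := by
    have := congrArg Multiplicative.toAdd t2
    change Matrix.trace h.v = (4 * k + 3) • Matrix.trace A0 at this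
    rw [this, nsmul_eq_mul]; push_cast; ring
  have t3' : 2 * (Matrix.trace A0 + (k : ℂ) * Matrix.trace y.v) = Matrix.trace h.v := by
    have := congrArg Multiplicative.toAdd t3
    change 2 • (Matrix.trace A0 + k • Matrix.trace y.v) = Matrix.trace h.v at this
    rw [← this, nsmul_eq_mul, nsmul_eq_mul]; push_cast; ring
  have hq : (2 * (k : ℂ) + 1) ≠ 0 := by
    have : ((2 * k + 1 : ℕ) : ℂ) ≠ 0 := by exact_mod_cast (by omega : 2 * k + 1 ≠ 0)
    intro h; apply this; push_cast; exact h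
  have hr' : (4 * (k : ℂ) + 3) ≠ 0 := by
    have : ((4 * k + 3 : ℕ) : ℂ) ≠ 0 := by exact_mod_cast (by omega : 4 * k + 3 ≠ 0)
    intro h; apply this; push_cast; exact h
  have htr : Matrix.trace h.v = 0 := by
    have h5 : (4 * (k : ℂ) + 3) * (2 * k + 1) * Matrix.trace h.v =
        2 * (2 * k + 1) * Matrix.trace h.v + 2 * k * (4 * k + 3) * Matrix.trace h.v := by
      linear_combination (-(4 * (k : ℂ) + 3) * (2 * k + 1)) * t3' - 2 * (2 * k + 1) * t2' -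
        2 * k * (4 * k + 3) * t1'
    linear_combination h5
  have hcc : (2 : ℂ) * c = 0 := by
    rw [hc, Matrix.trace_smul] at htr
    have : Matrix.trace (1 - E3 : Mat) = 2 := by
      unfold E3
      rw [Matrix.trace_sub, Matrix.trace_one, Matrix.trace_diagonal, Fin.sum_univ_three]
      simp
      norm_num
    rw [this, smul_eq_mul] at htr
    linear_combination htr
  have hc0 : c = 0 := by
    rcases mul_eq_zero.1 hcc with h | h
    · norm_num at h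
    · exact h
  rw [hc, hc0, zero_smul]

end Pool.Agent.CM
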