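import Pool.Agent.Work.MP_8590b5_gt.CM.Stmts6

/-!
# Block CM, item Ry: rigidity in the plane
-/

set_option autoImplicit false

namespace Pool.Agent.CM

open Finset

/-- the linear part of a power -/
theorem Ry_pow_l (x : Aff) (m : ℕ) : (x ^ m).l = x.l ^ m := by
  induction m with
  | zero => rw [pow_zero, pow_zero]; rfl
  | succ m ih => rw [pow_succ, Aff.mul_l, ih, pow_succ]

/-- the elements with `v = 0` -/
noncomputable def Ry_i : SU3 →* Aff where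
  toFun g := ⟨0, g⟩
  map_one' := rfl
  map_mul' g h := by
    ext1
    · rw [Aff.mul_v]
      simp
    · rfl

theorem Ry_i_v (g : SU3) : (Ry_i g).v = 0 := rfl
theorem Ry_i_l (g : SU3) : (Ry_i g).l = g := rfl

theorem Ry_eq_i (x : Aff) (h : x.v = 0) : x = Ry_i x.l := by
  ext1
  · exact h
  · rfl

/-- translations -/
noncomputable def Ry_t (M : Mat) : Aff := ⟨M, 1⟩

theorem Ry_t_v (M : Mat) : (Ry_t M).v = M := rfl
theorem Ry_t_l (M : Mat) : (Ry_t M).l = 1 := rfl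

theorem Ry_one : (((1 : SU3)⁻¹ : SU3) : Mat) = 1 := by
  rw [inv_one]; rfl

theorem Ry_one' : ((1 : SU3) : Mat) = 1 := rfl

theorem Ry_conj (M : Mat) (g : SU3) : Ry_t M * Ry_i g * (Ry_t M)⁻¹ =
    ⟨M - (g : Mat) * M * ((g⁻¹ : SU3) : Mat), g⟩ := by
  ext1
  · rw [Aff.mul_v, Aff.mul_v, Aff.mul_l, Aff.inv_v, Ry_t_v, Ry_t_l, Ry_i_v, Ry_i_l, Ry_one,
      Ry_one', one_mul, one_mul, zero_mul, add_zero, mul_one, neg_one_mul, mul_neg, neg_mul,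
      ← sub_eq_add_neg]
  · rw [Aff.mul_l, Aff.mul_l, Aff.inv_l, Ry_t_l, Ry_i_l, inv_one, mul_one, one_mul]

theorem Ry_conj_l (M : Mat) (x : Aff) : ((Ry_t M)⁻¹ * x * Ry_t M).l = x.l := by
  rw [Aff.mul_l, Aff.mul_l, Aff.inv_l, Ry_t_l, inv_one, mul_one, one_mul]

theorem Ry_t_add (M N : Mat) : Ry_t M * Ry_t N = Ry_t (M + N) := by
  ext1
  · rw [Aff.mul_v, Ry_t_v, Ry_t_v, Ry_t_v, Ry_t_l, Ry_one, Ry_one', one_mul, mul_one]
  · rw [Aff.mul_l, Ry_t_l, Ry_t_l, Ry_t_l, mul_one]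

/-- `Tor` is preserved by homomorphisms -/
theorem Ry_Tor_map {Γ Γ' : Type} [Group Γ] [Group Γ'] (f : Γ →* Γ') (k : ℕ) (a b : Γ)
    (h : Tor k a b) : Tor k (f a) (f b) := by
  obtain ⟨h1, h2⟩ := h
  refine ⟨?_, ?_⟩
  · rw [← map_mul, ← map_pow, ← map_inv, ← map_mul, ← map_mul, ← h1]
  · rw [← map_mul, ← map_pow, ← map_pow, h2]

theorem Ry_Tor_conj {Γ : Type} [Group Γ] (g : Γ) (k : ℕ) (a b : Γ)
    (h : Tor k a b) : Tor k (g⁻¹ * a * g) (g⁻¹ * b * g) := by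
  have := Ry_Tor_map (MulAut.conj g⁻¹).toMonoidHom k a b h
  simpa [MulAut.conj_apply] using this

theorem Ry_conj_pow {Γ : Type} [Group Γ] (g a b : Γ) (m : ℕ) :
    ((g⁻¹ * a * g) * (g⁻¹ * b * g)) ^ m = g⁻¹ * (a * b) ^ m * g := by
  have e : (g⁻¹ * a * g) * (g⁻¹ * b * g) = g⁻¹ * (a * b) * g⁻¹⁻¹ := by group
  rw [e, conj_pow]
  group

theorem Ry_E3 : E3 * E3 = E3 := by
  unfold E3
  rw [Matrix.diagonal_mul_diagonal]
  congr 1
  funext i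
  fin_cases i <;> simp

/-- the two forms of the block condition -/
theorem Ry_blk (M : Mat) : M = (1 - E3) * M * (1 - E3) ↔ M * E3 = 0 ∧ E3 * M = 0 := by
  constructor
  · intro h
    have z1 : (1 - E3) * E3 = 0 := by rw [sub_mul, one_mul, Ry_E3, sub_self]
    have z2 : E3 * (1 - E3) = 0 := by rw [mul_sub, mul_one, Ry_E3, sub_self]
    constructor
    · rw [h, mul_assoc, z1, mul_zero]
    · rw [h, ← mul_assoc, ← mul_assoc, z2, zero_mul, zero_mul]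
  · rintro ⟨h1, h2⟩
    rw [sub_mul, one_mul, h2, sub_zero, mul_sub, mul_one, h1, sub_zero]

theorem Ry_inv1 (g : SU3) (h : (g : Mat) * E3 = E3) : ((g⁻¹ : SU3) : Mat) * E3 = E3 := by
  calc ((g⁻¹ : SU3) : Mat) * E3 = ((g⁻¹ : SU3) : Mat) * ((g : Mat) * E3) := by rw [h]
    _ = E3 := by rw [← mul_assoc, Aff_inv, one_mul]

theorem Ry_inv2 (g : SU3) (h : E3 * (g : Mat) = E3) : E3 * ((g⁻¹ : SU3) : Mat) = E3 := by
  calc E3 * ((g⁻¹ : SU3) : Mat) = (E3 * (g : Mat)) * ((g⁻¹ : SU3) : Mat) := by rw [h]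
    _ = E3 := by rw [mul_assoc, Aff_inv', mul_one]

/-- the elements which live in the plane -/
def Ry_S : Subgroup Aff where
  carrier := {x | (x.l : Mat) * E3 = E3 ∧ E3 * (x.l : Mat) = E3 ∧ x.v * E3 = 0 ∧ E3 * x.v = 0}
  mul_mem' := by
    rintro x y ⟨h1, h2, h3, h4⟩ ⟨g1, g2, g3, g4⟩
    refine ⟨?_, ?_, ?_, ?_⟩
    · rw [Aff.mul_l, Aff_aux, mul_assoc, g1, h1]
    · rw [Aff.mul_l, Aff_aux, ← mul_assoc, h2, g2]
    · rw [Aff.mul_v, add_mul, h3, mul_assoc, Ry_inv1 _ h1, mul_assoc, g3, mul_zero, add_zero]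
    · rw [Aff.mul_v, mul_add, h4, ← mul_assoc, ← mul_assoc, h2, g4, zero_mul, add_zero]
  one_mem' := by
    refine ⟨?_, ?_, ?_, ?_⟩
    · rw [Aff.one_l, Ry_one', one_mul]
    · rw [Aff.one_l, Ry_one', mul_one]
    · rw [Aff.one_v, zero_mul]
    · rw [Aff.one_v, mul_zero]
  inv_mem' := by
    rintro x ⟨h1, h2, h3, h4⟩
    refine ⟨?_, ?_, ?_, ?_⟩
    · rw [Aff.inv_l]; exact Ry_inv1 _ h1
    · rw [Aff.inv_l]; exact Ry_inv2 _ h2
    · rw [Aff.inv_v, mul_assoc, h1, mul_assoc, h3, mul_zero]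
    · rw [Aff.inv_v, ← mul_assoc, ← mul_assoc, mul_neg, Ry_inv2 _ h2, neg_mul, h4, neg_zero,
        zero_mul]

theorem Ry_mem (x : Aff) : x ∈ Ry_S ↔ ((x.l : Mat) * E3 = E3 ∧ E3 * (x.l : Mat) = E3 ∧
    x.v * E3 = 0 ∧ E3 * x.v = 0) := Iff.rfl

theorem Ry_ent (M : Mat) (h1 : M * E3 = 0) (h2 : E3 * M = 0) :
    (∀ i, M i 2 = 0) ∧ ∀ j, M 2 j = 0 := by
  constructor
  · intro i
    have := congrFun (congrFun h1 i) 2
    unfold E3 at this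
    rw [Matrix.mul_diagonal] at this
    simpa using this
  · intro j
    have := congrFun (congrFun h2 2) j
    unfold E3 at this
    rw [Matrix.diagonal_mul] at this
    simpa using this

theorem Ry_entg (g : Mat) (h1 : g * E3 = E3) (h2 : E3 * g = E3) :
    g 0 2 = 0 ∧ g 1 2 = 0 ∧ g 2 2 = 1 ∧ g 2 0 = 0 ∧ g 2 1 = 0 := by
  have e1 : ∀ i, g i 2 = E3 i 2 := by
    intro i
    have := congrFun (congrFun h1 i) 2
    rw [← this]
    unfold E3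
    rw [Matrix.mul_diagonal]
    simp
  have e2 : ∀ j, g 2 j = E3 2 j := by
    intro j
    have := congrFun (congrFun h2 2) j
    rw [← this]
    unfold E3
    rw [Matrix.diagonal_mul]
    simp
  refine ⟨?_, ?_, ?_, ?_, ?_⟩
  · rw [e1]; unfold E3; simp
  · rw [e1]; unfold E3; simp
  · rw [e1]; unfold E3; simp
  · rw [e2]; unfold E3; simp
  · rw [e2]; unfold E3; simp

/-- the linear algebra in the plane -/
theorem Ry_core (x M : Mat) (α β : ℂ) (hαβ : α ≠ β)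
    (hx1 : x * E3 = E3) (hx2 : E3 * x = E3) (hM1 : M * E3 = 0) (hM2 : E3 * M = 0)
    (hxx : x * x = (2 : ℂ) • E3 - 1) (hanti : M * x + x * M = 0)
    (htr : Matrix.trace (M * (x * Matrix.diagonal ![α, β, 1])) = 0)
    (h01 : x 0 1 ≠ 0) :
    ∃ d : ℂ, M * x = Matrix.diagonal ![d, 0, 0] * x - x * Matrix.diagonal ![d, 0, 0] := by
  obtain ⟨a1, a2, a3, a4, a5⟩ := Ry_entg x hx1 hx2
  obtain ⟨b1, b2⟩ := Ry_ent M hM1 hM2
  have c1 := b1 0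
  have c2 := b1 1
  have c3 := b1 2
  have c4 := b2 0
  have c5 := b2 1
  have e00 : x 0 0 * x 0 0 + x 0 1 * x 1 0 = -1 := by
    have := congrFun (congrFun hxx 0) 0
    simpa [Matrix.mul_apply, Fin.sum_univ_three, E3, a1, a2, a3, a4, a5] using this
  have e01 : x 0 0 * x 0 1 + x 0 1 * x 1 1 = 0 := by
    have := congrFun (congrFun hxx 0) 1
    simpa [Matrix.mul_apply, Fin.sum_univ_three, E3, a1, a2, a3, a4, a5] using this
  have f00 : M 0 0 * x 0 0 + M 0 1 * x 1 0 + (x 0 0 * M 0 0 + x 0 1 * M 1 0) = 0 := by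
    have := congrFun (congrFun hanti 0) 0
    simpa [Matrix.mul_apply, Fin.sum_univ_three, a1, a2, a3, a4, a5, c1, c2, c3, c4, c5]
      using this
  have f01 : M 0 0 * x 0 1 + M 0 1 * x 1 1 + (x 0 0 * M 0 1 + x 0 1 * M 1 1) = 0 := by
    have := congrFun (congrFun hanti 0) 1
    simpa [Matrix.mul_apply, Fin.sum_univ_three, a1, a2, a3, a4, a5, c1, c2, c3, c4, c5]
      using this
  have g1 : x 1 1 = - x 0 0 := by
    have : x 0 1 * (x 0 0 + x 1 1) = 0 := by rw [← e01]; ring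
    rcases mul_eq_zero.1 this with h | h
    · exact absurd h h01
    · linear_combination h
  have g2 : M 1 1 = - M 0 0 := by
    have : x 0 1 * (M 0 0 + M 1 1) = 0 := by
      rw [g1] at f01
      linear_combination f01
    rcases mul_eq_zero.1 this with h | h
    · exact absurd h h01
    · linear_combination h
  have t1 : α * (M 0 0 * x 0 0 + M 0 1 * x 1 0) + β * (M 1 0 * x 0 1 + M 1 1 * x 1 1) = 0 := by
    rw [Matrix.trace_fin_three] at htr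
    simp [Matrix.mul_apply, Fin.sum_univ_three, a1, a2, a3, a4, a5, c1, c2, c3, c4, c5] at htr
    linear_combination htr
  have t2 : M 0 0 * x 0 0 + M 0 1 * x 1 0 = 0 := by
    rw [g1, g2] at t1
    have : (α - β) * (M 0 0 * x 0 0 + M 0 1 * x 1 0) = 0 := by
      linear_combination t1 - β * f00
    rcases mul_eq_zero.1 this with h | h
    · exact absurd (sub_eq_zero.1 h) hαβ
    · exact h
  have t3 : M 1 0 * x 0 1 + M 0 0 * x 0 0 = 0 := by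
    linear_combination f00 - t2
  refine ⟨(M * x) 0 1 / x 0 1, ?_⟩
  have d1 : (M * x) 0 1 = M 0 0 * x 0 1 - M 0 1 * x 0 0 := by
    rw [Matrix.mul_apply, Fin.sum_univ_three, a5, g1]
    ring
  rw [d1]
  ext i j
  rw [Matrix.sub_apply, Matrix.diagonal_mul, Matrix.mul_diagonal, Matrix.mul_apply,
    Fin.sum_univ_three]
  fin_cases i <;> fin_cases j <;>
    simp [a1, a2, a3, a4, a5, c1, c2, c3, c4, c5, g1, g2]
  · linear_combination t2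
  · field_simp
    ring
  · field_simp
    linear_combination x 0 0 * t3 - x 0 0 * t2
  · linear_combination t3

/-- the inverse of a diagonal element -/
theorem Ry_dinv (g : SU3) (α β : ℂ) (hα : α ≠ 0) (hβ : β ≠ 0)
    (hg : (g : Mat) = Matrix.diagonal ![α, β, 1]) :
    ((g⁻¹ : SU3) : Mat) = Matrix.diagonal ![α⁻¹, β⁻¹, 1] := by
  have e : (g : Mat) * Matrix.diagonal ![α⁻¹, β⁻¹, 1] = 1 := by
    rw [hg, Matrix.diagonal_mul_diagonal, ← Matrix.diagonal_one]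
    congr 1
    funext i
    fin_cases i
    · show α * α⁻¹ = 1
      exact mul_inv_cancel₀ hα
    · show β * β⁻¹ = 1
      exact mul_inv_cancel₀ hβ
    · show (1 : ℂ) * 1 = 1
      exact one_mul 1
  calc ((g⁻¹ : SU3) : Mat) = ((g⁻¹ : SU3) : Mat) * ((g : Mat) * Matrix.diagonal ![α⁻¹, β⁻¹, 1]) := by
        rw [e, mul_one]
    _ = Matrix.diagonal ![α⁻¹, β⁻¹, 1] := by rw [← mul_assoc, Aff_inv, one_mul]

/-- entries of a conjugate -/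
theorem Ry_cent (g : SU3) (α β : ℂ) (hα : α ≠ 0) (hβ : β ≠ 0)
    (hg : (g : Mat) = Matrix.diagonal ![α, β, 1]) (M : Mat) (i j : Fin 3) :
    ((g : Mat) * M * ((g⁻¹ : SU3) : Mat)) i j =
      (![α, β, 1] : Fin 3 → ℂ) i * M i j * (![α⁻¹, β⁻¹, 1] : Fin 3 → ℂ) j := by
  rw [Ry_dinv g α β hα hβ hg, hg, Matrix.mul_diagonal, Matrix.diagonal_mul]

/-- diagonal entries of a power -/
theorem Ry_powent (g : SU3) (α β : ℂ) (hα : α ≠ 0) (hβ : β ≠ 0)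
    (hg : (g : Mat) = Matrix.diagonal ![α, β, 1]) (Θ : Mat) (m : ℕ) (i : Fin 3) :
    ((⟨Θ, g⟩ : Aff) ^ m).v i i = m * Θ i i := by
  have hd : ∀ i : Fin 3, (![α, β, 1] : Fin 3 → ℂ) i * (![α⁻¹, β⁻¹, 1] : Fin 3 → ℂ) i = 1 := by
    intro i
    fin_cases i
    · show α * α⁻¹ = 1
      exact mul_inv_cancel₀ hα
    · show β * β⁻¹ = 1
      exact mul_inv_cancel₀ hβ
    · show (1 : ℂ) * 1 = 1
      exact one_mul 1
  induction m with
  | zero => rw [pow_zero, Aff.one_v, Matrix.zero_apply, Nat.cast_zero, zero_mul]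
  | succ m ih =>
    rw [pow_succ', Aff.mul_v, Matrix.add_apply, Ry_cent g α β hα hβ hg, ih]
    push_cast
    linear_combination ((m : ℂ) * Θ i i) * hd i

/-- a translation part with zero diagonal is a coboundary -/
theorem Ry_hb (g : SU3) (α β : ℂ) (hα : α ≠ 0) (hβ : β ≠ 0) (hαβ : α ≠ β)
    (hg : (g : Mat) = Matrix.diagonal ![α, β, 1]) (Θ : Mat) (m : ℕ) (hm : 0 < m)
    (h1 : Θ * E3 = 0) (h2 : E3 * Θ = 0) (h0 : ((⟨Θ, g⟩ : Aff) ^ m).v = 0) :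
    ∃ X : Mat, X * E3 = 0 ∧ E3 * X = 0 ∧ Θ = X - (g : Mat) * X * ((g⁻¹ : SU3) : Mat) := by
  have hd : ∀ i, Θ i i = 0 := by
    intro i
    have := Ry_powent g α β hα hβ hg Θ m i
    rw [h0, Matrix.zero_apply] at this
    rcases mul_eq_zero.1 this.symm with h | h
    · exact absurd (Nat.cast_eq_zero.1 h) hm.ne'
    · exact h
  obtain ⟨b1, b2⟩ := Ry_ent Θ h1 h2
  have k1 : 1 - α * β⁻¹ ≠ 0 := by
    intro h
    apply hαβ
    field_simp at h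
    linear_combination -h
  have k2 : 1 - β * α⁻¹ ≠ 0 := by
    intro h
    apply hαβ
    field_simp at h
    linear_combination h
  refine ⟨!![0, Θ 0 1 / (1 - α * β⁻¹), 0; Θ 1 0 / (1 - β * α⁻¹), 0, 0; 0, 0, 0], ?_, ?_, ?_⟩
  · ext i j
    unfold E3
    rw [Matrix.mul_diagonal]
    fin_cases i <;> fin_cases j <;> simp
  · ext i j
    unfold E3
    rw [Matrix.diagonal_mul]
    fin_cases i <;> fin_cases j <;> simp
  · ext i j
    rw [Matrix.sub_apply, Ry_cent g α β hα hβ hg]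
    fin_cases i <;> fin_cases j
    · simp [hd 0]
    · show Θ 0 1 = Θ 0 1 / (1 - α * β⁻¹) - α * (Θ 0 1 / (1 - α * β⁻¹)) * β⁻¹
      rw [eq_comm]
      calc Θ 0 1 / (1 - α * β⁻¹) - α * (Θ 0 1 / (1 - α * β⁻¹)) * β⁻¹
          = (Θ 0 1 / (1 - α * β⁻¹)) * (1 - α * β⁻¹) := by ring
        _ = Θ 0 1 := div_mul_cancel₀ _ k1
    · simp [b1 0]
    · show Θ 1 0 = Θ 1 0 / (1 - β * α⁻¹) - β * (Θ 1 0 / (1 - β * α⁻¹)) * α⁻¹
      rw [eq_comm]
      calc Θ 1 0 / (1 - β * α⁻¹) - β * (Θ 1 0 / (1 - β * α⁻¹)) * α⁻¹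
          = (Θ 1 0 / (1 - β * α⁻¹)) * (1 - β * α⁻¹) := by ring
        _ = Θ 1 0 := div_mul_cancel₀ _ k2
    · simp [hd 1]
    · simp [b1 1]
    · simp [b2 0]
    · simp [b2 1]
    · simp [b2 2]

/-- the trace -/
theorem Ry_tr (a : SU3) (ξ : Mat) (m : ℕ) :
    Matrix.trace (((⟨ξ, a⟩ : Aff) ^ m).v * (a : Mat)) = m * Matrix.trace (ξ * (a : Mat)) := by
  induction m with
  | zero => rw [pow_zero, Aff.one_v, Matrix.zero_mul, Matrix.trace_zero, Nat.cast_zero, zero_mul]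
  | succ m ih =>
    rw [pow_succ', Aff.mul_v, Matrix.add_mul, Matrix.trace_add]
    have e : Matrix.trace ((a : Mat) * ((⟨ξ, a⟩ : Aff) ^ m).v * ((a⁻¹ : SU3) : Mat) * (a : Mat)) =
        Matrix.trace (((⟨ξ, a⟩ : Aff) ^ m).v * (a : Mat)) := by
      rw [Matrix.mul_assoc _ ((a⁻¹ : SU3) : Mat), Aff_inv, Matrix.mul_one, Matrix.trace_mul_comm]
    have e' : Matrix.trace (((⟨ξ, a⟩ : Aff).l : Mat) * ((⟨ξ, a⟩ : Aff) ^ m).v *
        ((((⟨ξ, a⟩ : Aff).l)⁻¹ : SU3) : Mat) * (a : Mat)) =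
        m * Matrix.trace (ξ * (a : Mat)) := by
      rw [← ih, ← e]
    rw [e']
    push_cast
    ring

/-- from `D` to the coboundary -/
theorem Ry_fin (a b x : SU3) (A D : Mat) (hAD : A * D = D * A)
    (ha : (a : Mat) = (x : Mat) * A)
    (hy : ((a * b : SU3) : Mat) * D = D * ((a * b : SU3) : Mat))
    (A0 B0 : Mat) (h0 : A0 * (x : Mat) = D * (x : Mat) - (x : Mat) * D)
    (hy0 : ((⟨A0, a⟩ : Aff) * ⟨B0, b⟩).v = 0) :
    (⟨A0, a⟩ : Aff) = Ry_t D * Ry_i a * (Ry_t D)⁻¹ ∧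
      (⟨B0, b⟩ : Aff) = Ry_t D * Ry_i b * (Ry_t D)⁻¹ := by
  have e1 : A0 * (a : Mat) = D * (a : Mat) - (a : Mat) * D := by
    rw [ha, ← Matrix.mul_assoc, h0, Matrix.sub_mul, Matrix.mul_assoc (x : Mat) D A, ← hAD]
    simp only [Matrix.mul_assoc]
  have e2 : A0 = D - (a : Mat) * D * ((a⁻¹ : SU3) : Mat) := by
    calc A0 = A0 * (a : Mat) * ((a⁻¹ : SU3) : Mat) := by
          rw [Matrix.mul_assoc, Aff_inv', Matrix.mul_one]
      _ = D - (a : Mat) * D * ((a⁻¹ : SU3) : Mat) := by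
          rw [e1, Matrix.sub_mul, Matrix.mul_assoc D, Aff_inv', Matrix.mul_one]
  have e3 : (⟨A0, a⟩ : Aff) = Ry_t D * Ry_i a * (Ry_t D)⁻¹ := by
    rw [Ry_conj, ← e2]
  have e5 : ((⟨A0, a⟩ : Aff) * ⟨B0, b⟩) = Ry_t D * Ry_i (a * b) * (Ry_t D)⁻¹ := by
    rw [Ry_conj]
    ext1
    · rw [hy0]
      show (0 : Mat) = D - ((a * b : SU3) : Mat) * D * (((a * b)⁻¹ : SU3) : Mat)
      rw [hy, Matrix.mul_assoc, Aff_inv', Matrix.mul_one, sub_self]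
    · rfl
  refine ⟨e3, ?_⟩
  have e6 : (⟨B0, b⟩ : Aff) = (⟨A0, a⟩ : Aff)⁻¹ * ((⟨A0, a⟩ : Aff) * ⟨B0, b⟩) := by
    group
  rw [e6, e5, e3, map_mul]
  group

/-- `y = h A²` -/
theorem Ry_yA (k : ℕ) (a b : SU3) (α β : ℂ)
    (hk : (((a * b) ^ k : SU3) : Mat) * Matrix.diagonal ![α, β, 1] = 1)
    (hh : (((a * b) ^ (2 * k + 1) : SU3) : Mat) = (2 : ℂ) • E3 - 1) :
    ((a * b : SU3) : Mat) = ((2 : ℂ) • E3 - 1) * Matrix.diagonal ![α, β, 1] *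
      Matrix.diagonal ![α, β, 1] := by
  rw [← hh]
  have e : ((a * b) ^ (2 * k + 1) : SU3) = (a * b) * (a * b) ^ k * (a * b) ^ k := by
    rw [← pow_succ', ← pow_add]
    congr 1
    omega
  rw [e, Aff_aux (a * b * (a * b) ^ k) ((a * b) ^ k), Aff_aux (a * b) ((a * b) ^ k)]
  rw [Matrix.mul_assoc _ (((a * b) ^ k : SU3) : Mat) (Matrix.diagonal ![α, β, 1]), hk,
    Matrix.mul_one, Matrix.mul_assoc, hk, Matrix.mul_one]

/-- the entry of `x` which is not zero -/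
theorem Ry_noev (k : ℕ) (a b : SU3) (α β : ℂ) (hN : NoEv a b) (hβ : β ≠ 0)
    (hx2 : E3 * ((a * (a * b) ^ k : SU3) : Mat) = E3)
    (hk : (((a * b) ^ k : SU3) : Mat) * Matrix.diagonal ![α, β, 1] = 1)
    (hh : (((a * b) ^ (2 * k + 1) : SU3) : Mat) = (2 : ℂ) • E3 - 1)
    (hxx : ((a * (a * b) ^ k : SU3) : Mat) * ((a * (a * b) ^ k : SU3) : Mat) =
      (2 : ℂ) • E3 - 1) :
    ((a * (a * b) ^ k : SU3) : Mat) 0 1 ≠ 0 := by
  intro h01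
  have haA : (a : Mat) = ((a * (a * b) ^ k : SU3) : Mat) * Matrix.diagonal ![α, β, 1] := by
    rw [Aff_aux, Matrix.mul_assoc, hk, Matrix.mul_one]
  have hyA := Ry_yA k a b α β hk hh
  generalize ((a * (a * b) ^ k : SU3) : Mat) = x at *
  have h21 : x 2 1 = 0 := by
    have := congrFun (congrFun hx2 2) 1
    unfold E3 at this
    rw [Matrix.diagonal_mul] at this
    simpa using this
  have h11 : x 1 1 ≠ 0 := by
    intro h
    have := congrFun (congrFun hxx 1) 1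
    simp [Matrix.mul_apply, Fin.sum_univ_three, E3, h01, h21, h] at this
  have hAz : (Matrix.diagonal ![α, β, 1] : Mat).mulVec (Pi.single 1 1) =
      β • (Pi.single 1 1 : Fin 3 → ℂ) := by
    funext i
    rw [Matrix.mulVec_diagonal]
    fin_cases i <;> simp
  have hxz : x.mulVec (Pi.single 1 1) = x 1 1 • (Pi.single 1 1 : Fin 3 → ℂ) := by
    funext i
    rw [Matrix.mulVec_single_one]
    fin_cases i <;> simp [h01, h21]
  have hHz : ((2 : ℂ) • E3 - 1 : Mat).mulVec (Pi.single 1 1) =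
      (-1 : ℂ) • (Pi.single 1 1 : Fin 3 → ℂ) := by
    funext i
    rw [Matrix.mulVec_single_one]
    fin_cases i <;> simp [E3]
  have haz : (a : Mat).mulVec (Pi.single 1 1) = (β * x 1 1) • (Pi.single 1 1 : Fin 3 → ℂ) := by
    rw [haA, ← Matrix.mulVec_mulVec, hAz, Matrix.mulVec_smul, hxz, smul_smul]
  have hyz : ((a * b : SU3) : Mat).mulVec (Pi.single 1 1) =
      (-(β * β)) • (Pi.single 1 1 : Fin 3 → ℂ) := by
    rw [hyA, ← Matrix.mulVec_mulVec, ← Matrix.mulVec_mulVec, hAz, Matrix.mulVec_smul, hAz,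
      Matrix.mulVec_smul, Matrix.mulVec_smul, hHz, smul_smul, smul_smul]
    congr 1
    ring
  have hc : β * x 1 1 ≠ 0 := mul_ne_zero hβ h11
  have haz' : ((a⁻¹ : SU3) : Mat).mulVec (Pi.single 1 1) =
      (β * x 1 1)⁻¹ • (Pi.single 1 1 : Fin 3 → ℂ) := by
    have e1 : ((a⁻¹ : SU3) : Mat).mulVec ((a : Mat).mulVec (Pi.single 1 1)) =
        (Pi.single 1 1 : Fin 3 → ℂ) := by
      rw [Matrix.mulVec_mulVec, Aff_inv, Matrix.one_mulVec]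
    rw [haz, Matrix.mulVec_smul] at e1
    rw [eq_inv_smul_iff₀ hc]
    exact e1
  have hb : (b : Mat) = ((a⁻¹ : SU3) : Mat) * ((a * b : SU3) : Mat) := by
    rw [← Aff_aux, inv_mul_cancel_left]
  have hbz : (b : Mat).mulVec (Pi.single 1 1) =
      (-(β * β) * (β * x 1 1)⁻¹) • (Pi.single 1 1 : Fin 3 → ℂ) := by
    rw [hb, ← Matrix.mulVec_mulVec, hyz, Matrix.mulVec_smul, haz', smul_smul]
  have := hN (Pi.single 1 1) _ _ (by simp) haz hbz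
  have h1 := congrFun this 1
  simp at h1

theorem pr_Ry : StRy := by
  intro hTq hRw hRv k a b A0 B0 α β hFa hFb hN hαβ hα hβ hk hh hA0 hB0 hT
  -- the linear part of `y^(-k)`
  have hg : ((((a * b) ^ k)⁻¹ : SU3) : Mat) = Matrix.diagonal ![α, β, 1] := by
    calc ((((a * b) ^ k)⁻¹ : SU3) : Mat)
        = ((((a * b) ^ k)⁻¹ : SU3) : Mat) * ((((a * b) ^ k : SU3) : Mat) *
            Matrix.diagonal ![α, β, 1]) := by
          rw [hk, Matrix.mul_one]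
      _ = Matrix.diagonal ![α, β, 1] := by rw [← Matrix.mul_assoc, Aff_inv, Matrix.one_mul]
  have h0 : ((⟨A0, a⟩ * ⟨B0, b⟩ : Aff) ^ (2 * k + 1)).v = 0 :=
    hRw hTq hRv k a b A0 B0 hFa hFb hN hh hA0 hB0 hT
  have hl : ((⟨A0, a⟩ * ⟨B0, b⟩ : Aff) ^ k)⁻¹.l = ((a * b) ^ k)⁻¹ := by
    rw [Aff.inv_l, Ry_pow_l]
    rfl
  have hpow : ((((⟨A0, a⟩ * ⟨B0, b⟩ : Aff) ^ k)⁻¹) ^ (2 * k + 1)).v = 0 := by
    have e : (((⟨A0, a⟩ * ⟨B0, b⟩ : Aff) ^ k)⁻¹) ^ (2 * k + 1) =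
        (((⟨A0, a⟩ * ⟨B0, b⟩ : Aff) ^ (2 * k + 1)) ^ k)⁻¹ := by
      rw [inv_pow, ← pow_mul, ← pow_mul, mul_comm]
    rw [e, Ry_eq_i _ h0, ← map_pow, ← map_inv]
    exact Ry_i_v _
  have hmA : (⟨A0, a⟩ : Aff) ∈ Ry_S := by
    rw [Ry_mem]
    obtain ⟨q1, q2⟩ := (Ry_blk A0).1 hA0
    exact ⟨hFa.1, hFa.2, q1, q2⟩
  have hmB : (⟨B0, b⟩ : Aff) ∈ Ry_S := by
    rw [Ry_mem]
    obtain ⟨q1, q2⟩ := (Ry_blk B0).1 hB0
    exact ⟨hFb.1, hFb.2, q1, q2⟩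
  have hmα : ((⟨A0, a⟩ * ⟨B0, b⟩ : Aff) ^ k)⁻¹ ∈ Ry_S :=
    Ry_S.inv_mem (Ry_S.pow_mem (Ry_S.mul_mem hmA hmB) k)
  obtain ⟨X, hX1, hX2, hX⟩ := Ry_hb (((a * b) ^ k)⁻¹) α β hα hβ hαβ hg
    (((⟨A0, a⟩ * ⟨B0, b⟩ : Aff) ^ k)⁻¹).v (2 * k + 1)
    (Nat.succ_pos _) ((Ry_mem _).1 hmα).2.2.1 ((Ry_mem _).1 hmα).2.2.2 (by
      rw [← hl]
      exact hpow)
  have hs : ((⟨A0, a⟩ * ⟨B0, b⟩ : Aff) ^ k)⁻¹ = Ry_t X * Ry_i (((a * b) ^ k)⁻¹) * (Ry_t X)⁻¹ := by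
    rw [Ry_conj]
    ext1
    · exact hX
    · exact hl
  -- conjugate with the translation
  set τ := Ry_t X with hτ
  have hmτ : τ ∈ Ry_S := by
    rw [Ry_mem, hτ]
    refine ⟨?_, ?_, hX1, hX2⟩
    · rw [Ry_t_l, Ry_one', one_mul]
    · rw [Ry_t_l, Ry_one', mul_one]
  obtain ⟨A1, hA1⟩ : ∃ A1, τ⁻¹ * (⟨A0, a⟩ : Aff) * τ = ⟨A1, a⟩ :=
    ⟨(τ⁻¹ * (⟨A0, a⟩ : Aff) * τ).v, by
      ext1
      · rfl
      · exact Ry_conj_l X _⟩
  obtain ⟨B1, hB1⟩ : ∃ B1, τ⁻¹ * (⟨B0, b⟩ : Aff) * τ = ⟨B1, b⟩ :=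
    ⟨(τ⁻¹ * (⟨B0, b⟩ : Aff) * τ).v, by
      ext1
      · rfl
      · exact Ry_conj_l X _⟩
  have hmA1 : A1 * E3 = 0 ∧ E3 * A1 = 0 := by
    have := Ry_S.mul_mem (Ry_S.mul_mem (Ry_S.inv_mem hmτ) hmA) hmτ
    rw [hA1, Ry_mem] at this
    exact ⟨this.2.2.1, this.2.2.2⟩
  have hmB1 : B1 * E3 = 0 ∧ E3 * B1 = 0 := by
    have := Ry_S.mul_mem (Ry_S.mul_mem (Ry_S.inv_mem hmτ) hmB) hmτ
    rw [hB1, Ry_mem] at this
    exact ⟨this.2.2.1, this.2.2.2⟩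
  have hT' : Tor k (⟨A1, a⟩ : Aff) ⟨B1, b⟩ := by
    rw [← hA1, ← hB1]
    exact Ry_Tor_conj τ k _ _ hT
  have h0' : ((⟨A1, a⟩ * ⟨B1, b⟩ : Aff) ^ (2 * k + 1)).v = 0 :=
    hRw hTq hRv k a b A1 B1 hFa hFb hN hh ((Ry_blk A1).2 hmA1) ((Ry_blk B1).2 hmB1) hT'
  have hyk : (⟨A1, a⟩ * ⟨B1, b⟩ : Aff) ^ k = Ry_i ((a * b) ^ k) := by
    rw [← hA1, ← hB1, Ry_conj_pow]
    have e : (⟨A0, a⟩ * ⟨B0, b⟩ : Aff) ^ k = (τ * Ry_i (((a * b) ^ k)⁻¹) * τ⁻¹)⁻¹ := by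
      rw [← hs, inv_inv]
    rw [e, map_inv]
    group
  have hyv : (⟨A1, a⟩ * ⟨B1, b⟩ : Aff).v = 0 := by
    have e : (⟨A1, a⟩ * ⟨B1, b⟩ : Aff) = (⟨A1, a⟩ * ⟨B1, b⟩ : Aff) ^ (2 * k + 1) *
        (((⟨A1, a⟩ * ⟨B1, b⟩ : Aff) ^ k)⁻¹) ^ 2 := by
      generalize (⟨A1, a⟩ * ⟨B1, b⟩ : Aff) = y
      rw [inv_pow, ← pow_mul, eq_mul_inv_iff_mul_eq, ← pow_succ', mul_comm k 2]
    rw [e, Ry_eq_i _ h0', hyk, ← map_inv, ← map_pow, ← map_mul]
    exact Ry_i_v _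
  obtain ⟨q1, q2, _, _⟩ := hTq Aff k (⟨A1, a⟩ : Aff) ⟨B1, b⟩ hT'
  have hcv : (⟨A1, a⟩ * (⟨A1, a⟩ * ⟨B1, b⟩ : Aff) ^ k : Aff) = ⟨A1, a * (a * b) ^ k⟩ := by
    rw [hyk]
    ext1
    · rw [Aff.mul_v, Ry_i_v, mul_zero, zero_mul, add_zero]
    · rfl
  -- the linear part of the square
  have hxx : ((a * (a * b) ^ k : SU3) : Mat) * ((a * (a * b) ^ k : SU3) : Mat) =
      (2 : ℂ) • E3 - 1 := by
    rw [← hh, ← Aff_aux]
    congr 1
    have e1 := congrArg Aff.l q1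
    rw [Ry_pow_l, Ry_pow_l, hcv] at e1
    rw [← sq]
    exact e1
  have hanti : A1 * ((a * (a * b) ^ k : SU3) : Mat) + ((a * (a * b) ^ k : SU3) : Mat) * A1 = 0 := by
    have e1 : ((⟨A1, a * (a * b) ^ k⟩ : Aff) ^ 2).v = 0 := by
      rw [← hcv, q1]
      exact h0'
    rw [sq, Aff.mul_v] at e1
    have e2 := congrArg (fun M : Mat => M * ((a * (a * b) ^ k : SU3) : Mat)) e1
    simp only [Matrix.add_mul, Matrix.zero_mul] at e2
    rw [Matrix.mul_assoc (((a * (a * b) ^ k : SU3) : Mat) * A1), Aff_inv, Matrix.mul_one] at e2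
    exact e2
  have haA : (a : Mat) = ((a * (a * b) ^ k : SU3) : Mat) * Matrix.diagonal ![α, β, 1] := by
    rw [Aff_aux, Matrix.mul_assoc, hk, Matrix.mul_one]
  -- the trace
  have htr : Matrix.trace (A1 * (((a * (a * b) ^ k : SU3) : Mat) *
      Matrix.diagonal ![α, β, 1])) = 0 := by
    rw [← haA]
    have e1 := Ry_tr a A1 (4 * k + 3)
    rw [← q2, h0', Matrix.zero_mul, Matrix.trace_zero] at e1
    rcases mul_eq_zero.1 e1.symm with h | h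
    · exact absurd (Nat.cast_eq_zero.1 h) (by omega)
    · exact h
  have hmx := (Ry_mem _).1 (Ry_S.mul_mem hmA (Ry_S.pow_mem (Ry_S.mul_mem hmA hmB) k))
  have hlx : (⟨A0, a⟩ * (⟨A0, a⟩ * ⟨B0, b⟩ : Aff) ^ k : Aff).l = a * (a * b) ^ k := by
    rw [Aff.mul_l, Ry_pow_l]
    rfl
  rw [hlx] at hmx
  obtain ⟨d, hd⟩ := Ry_core ((a * (a * b) ^ k : SU3) : Mat) A1 α β hαβ hmx.1 hmx.2.1 hmA1.1 hmA1.2
    hxx hanti htr (Ry_noev k a b α β hN hβ hmx.2.1 hk hh hxx)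
  have hAD : (Matrix.diagonal ![α, β, 1] : Mat) * Matrix.diagonal ![d, 0, 0] =
      Matrix.diagonal ![d, 0, 0] * Matrix.diagonal ![α, β, 1] := by
    rw [Matrix.diagonal_mul_diagonal, Matrix.diagonal_mul_diagonal]
    congr 1
    funext i
    exact mul_comm _ _
  have hHD : ((2 : ℂ) • E3 - 1 : Mat) * Matrix.diagonal ![d, 0, 0] =
      Matrix.diagonal ![d, 0, 0] * ((2 : ℂ) • E3 - 1) := by
    have e : E3 * Matrix.diagonal ![d, 0, 0] = Matrix.diagonal ![d, 0, 0] * E3 := by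
      unfold E3
      rw [Matrix.diagonal_mul_diagonal, Matrix.diagonal_mul_diagonal]
      congr 1
      funext i
      exact mul_comm _ _
    rw [sub_mul, one_mul, Matrix.smul_mul, e, mul_sub, mul_one, Matrix.mul_smul]
  have hyD : ((a * b : SU3) : Mat) * Matrix.diagonal ![d, 0, 0] =
      Matrix.diagonal ![d, 0, 0] * ((a * b : SU3) : Mat) := by
    rw [Ry_yA k a b α β hk hh, Matrix.mul_assoc, hAD, ← Matrix.mul_assoc, Matrix.mul_assoc _ _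
      (Matrix.diagonal ![d, 0, 0]), hAD, ← Matrix.mul_assoc, hHD]
    simp only [Matrix.mul_assoc]
  obtain ⟨f1, f2⟩ := Ry_fin a b (a * (a * b) ^ k) (Matrix.diagonal ![α, β, 1])
    (Matrix.diagonal ![d, 0, 0]) hAD haA hyD A1 B1 hd hyv
  -- back
  have g1 : (⟨A0, a⟩ : Aff) = Ry_t (X + Matrix.diagonal ![d, 0, 0]) * Ry_i a *
      (Ry_t (X + Matrix.diagonal ![d, 0, 0]))⁻¹ := by
    rw [← Ry_t_add, ← hτ]
    have e : (⟨A0, a⟩ : Aff) = τ * (τ⁻¹ * (⟨A0, a⟩ : Aff) * τ) * τ⁻¹ := by group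
    rw [e, hA1, f1]
    group
  have g2 : (⟨B0, b⟩ : Aff) = Ry_t (X + Matrix.diagonal ![d, 0, 0]) * Ry_i b *
      (Ry_t (X + Matrix.diagonal ![d, 0, 0]))⁻¹ := by
    rw [← Ry_t_add, ← hτ]
    have e : (⟨B0, b⟩ : Aff) = τ * (τ⁻¹ * (⟨B0, b⟩ : Aff) * τ) * τ⁻¹ := by group
    rw [e, hB1, f2]
    group
  rw [Ry_conj] at g1 g2
  exact ⟨X + Matrix.diagonal ![d, 0, 0], congrArg Aff.v g1, congrArg Aff.v g2⟩

end Pool.Agent.CM
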