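import Pool.Agent.Work.MP_8590b5_gt.CM.Stmts6

/-! # Block CM, item Rz: the reducible representations, assembly -/

namespace Pool.Agent.CM

open Finset

private theorem Rz_Tor {Γ Δ : Type} [Group Γ] [Group Δ] (f : Γ →* Δ) {k : ℕ} {a b : Γ}
    (h : Tor k a b) : Tor k (f a) (f b) := by
  obtain ⟨h1, h2⟩ := h
  constructor
  · have h3 := congrArg f h1
    simpa only [map_mul, map_pow, map_inv] using h3
  · have h3 := congrArg f h2
    simpa only [map_mul, map_pow, map_inv] using h3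

/-- The linear part. -/
private def Rz_lin : Aff →* SU3 where
  toFun := Aff.l
  map_one' := Aff.one_l
  map_mul' := Aff.mul_l

private theorem Rz_conj (A : Mat) (a U : SU3) :
    (⟨0, U⟩ : Aff) * ⟨A, a⟩ * (⟨0, U⟩ : Aff)⁻¹ =
      ⟨(U : Mat) * A * ((U⁻¹ : SU3) : Mat), U * a * U⁻¹⟩ := by
  ext1
  · rw [Aff.mul_v, Aff.mul_v, Aff.inv_v]
    simp
  · rw [Aff.mul_l, Aff.mul_l, Aff.inv_l]

private theorem Rz_calc {U V a b A X : Mat} (h1 : V * U = 1)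
    (h : U * A * V = X - U * a * V * X * (U * b * V)) :
    A = V * X * U - a * (V * X * U) * b := by
  calc A = (V * U) * A * (V * U) := by rw [h1, Matrix.one_mul, Matrix.mul_one]
    _ = V * (U * A * V) * U := by simp only [Matrix.mul_assoc]
    _ = V * (X - U * a * V * X * (U * b * V)) * U := by rw [h]
    _ = V * X * U - (V * U) * (a * (V * X * U) * b) * (V * U) := by
        simp only [Matrix.mul_sub, Matrix.sub_mul, Matrix.mul_assoc]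
    _ = V * X * U - a * (V * X * U) * b := by rw [h1, Matrix.one_mul, Matrix.mul_one]

private theorem Rz_back {A X : Mat} {a U : SU3}
    (h : (U : Mat) * A * ((U⁻¹ : SU3) : Mat) =
      X - ((U * a * U⁻¹ : SU3) : Mat) * X * (((U * a * U⁻¹)⁻¹ : SU3) : Mat)) :
    A = ((U⁻¹ : SU3) : Mat) * X * (U : Mat) -
      (a : Mat) * (((U⁻¹ : SU3) : Mat) * X * (U : Mat)) * ((a⁻¹ : SU3) : Mat) := by
  have h2 : (U * a * U⁻¹)⁻¹ = U * a⁻¹ * U⁻¹ := by group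
  rw [h2, Aff_aux, Aff_aux, Aff_aux, Aff_aux] at h
  exact Rz_calc (Aff_inv U) h

/-- `Tor` of the conjugated pair. -/
private theorem Rz_torc {k : ℕ} {a b : SU3} {A0 B0 : Mat} (U : SU3)
    (hT : Tor k (⟨A0, a⟩ : Aff) ⟨B0, b⟩) :
    Tor k (⟨(U : Mat) * A0 * ((U⁻¹ : SU3) : Mat), U * a * U⁻¹⟩ : Aff)
      ⟨(U : Mat) * B0 * ((U⁻¹ : SU3) : Mat), U * b * U⁻¹⟩ := by
  have hTc := Rz_Tor (MulAut.conj (⟨0, U⟩ : Aff)).toMonoidHom hT
  have e1 : (MulAut.conj (⟨0, U⟩ : Aff)).toMonoidHom ⟨A0, a⟩ =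
      ⟨(U : Mat) * A0 * ((U⁻¹ : SU3) : Mat), U * a * U⁻¹⟩ := Rz_conj A0 a U
  have e2 : (MulAut.conj (⟨0, U⟩ : Aff)).toMonoidHom ⟨B0, b⟩ =
      ⟨(U : Mat) * B0 * ((U⁻¹ : SU3) : Mat), U * b * U⁻¹⟩ := Rz_conj B0 b U
  rwa [e1, e2] at hTc

/-- Back from the conjugated pair. -/
private theorem Rz_cobc {a b : SU3} {A0 B0 : Mat} (U : SU3)
    (h : ∃ X : Mat, Cob (⟨(U : Mat) * A0 * ((U⁻¹ : SU3) : Mat), U * a * U⁻¹⟩ : Aff)
      ⟨(U : Mat) * B0 * ((U⁻¹ : SU3) : Mat), U * b * U⁻¹⟩ X) :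
    ∃ X : Mat, Cob (⟨A0, a⟩ : Aff) ⟨B0, b⟩ X := by
  obtain ⟨X, h1, h2⟩ := h
  exact ⟨((U⁻¹ : SU3) : Mat) * X * (U : Mat), Rz_back h1, Rz_back h2⟩

private theorem Rz_EE : (E3 : Mat) * E3 = E3 := by
  unfold E3
  rw [Matrix.diagonal_mul_diagonal]
  congr 1
  funext i
  fin_cases i <;> simp

private theorem Rz_FF : (1 - E3 : Mat) * (1 - E3) = 1 - E3 := by
  have h := Rz_EE
  simp only [Matrix.sub_mul, Matrix.mul_sub, Matrix.one_mul, Matrix.mul_one, h]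
  abel

private theorem Rz_idem {P Q : Mat} (hP : P * P = P) (hQ : Q * Q = Q) (M : Mat) :
    P * M * Q = P * (P * M * Q) * Q := by
  calc P * M * Q = (P * P) * M * (Q * Q) := by rw [hP, hQ]
    _ = _ := by simp only [Matrix.mul_assoc]

private theorem Rz_sum (M : Mat) :
    M = E3 * M * E3 + (1 - E3) * M * E3 + E3 * M * (1 - E3) + (1 - E3) * M * (1 - E3) := by
  simp only [Matrix.sub_mul, Matrix.mul_sub, Matrix.one_mul, Matrix.mul_one]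
  abel

private theorem Rz_commE {U : SU3} (hU : Fx U) (P : Mat) (hP : P = 1 - E3) :
    P * (U : Mat) = (U : Mat) * P := by
  subst hP
  rw [Matrix.sub_mul, Matrix.mul_sub, hU.1, hU.2, Matrix.one_mul, Matrix.mul_one]

private theorem Rz_inv {U : SU3} {P : Mat} (h : P * (U : Mat) = (U : Mat) * P) :
    P * ((U⁻¹ : SU3) : Mat) = ((U⁻¹ : SU3) : Mat) * P := by
  calc P * ((U⁻¹ : SU3) : Mat) = ((U⁻¹ : SU3) : Mat) * ((U : Mat) * P) * ((U⁻¹ : SU3) : Mat) := by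
        rw [← Matrix.mul_assoc ((U⁻¹ : SU3) : Mat), Aff_inv, Matrix.one_mul]
    _ = ((U⁻¹ : SU3) : Mat) * (P * (U : Mat)) * ((U⁻¹ : SU3) : Mat) := by rw [h]
    _ = ((U⁻¹ : SU3) : Mat) * P := by
        rw [Matrix.mul_assoc, Matrix.mul_assoc, Aff_inv', Matrix.mul_one]

private theorem Rz_blk {U : SU3} (hU : Fx U) {M : Mat} (hM : M = (1 - E3) * M * (1 - E3)) :
    (U : Mat) * M * ((U⁻¹ : SU3) : Mat) =
      (1 - E3) * ((U : Mat) * M * ((U⁻¹ : SU3) : Mat)) * (1 - E3) := by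
  have c1 := Rz_commE hU (1 - E3) rfl
  have c2 := Rz_inv c1
  calc (U : Mat) * M * ((U⁻¹ : SU3) : Mat)
      = (U : Mat) * ((1 - E3) * M * (1 - E3)) * ((U⁻¹ : SU3) : Mat) := by rw [← hM]
    _ = ((U : Mat) * (1 - E3)) * M * ((1 - E3) * ((U⁻¹ : SU3) : Mat)) := by
        simp only [Matrix.mul_assoc]
    _ = ((1 - E3) * (U : Mat)) * M * (((U⁻¹ : SU3) : Mat) * (1 - E3)) := by rw [c1, c2]
    _ = _ := by simp only [Matrix.mul_assoc]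

private theorem Rz_add {a M1 M2 M3 b X1 X2 X3 : Mat} (h1 : M1 = X1 - a * X1 * b)
    (h2 : M2 = X2 - a * X2 * b) (h3 : M3 = X3 - a * X3 * b) :
    0 + M1 + M2 + M3 = (X1 + X2 + X3) - a * (X1 + X2 + X3) * b := by
  simp only [Matrix.mul_add, Matrix.add_mul]
  rw [h1, h2, h3]
  abel

theorem pr_Rz : StRz := by
  intro hKc hTq hRa hRg hRk hRl2 hRs hRp2 hRv hRw hRx hRy k a b A0 B0 hI hT
  obtain ⟨U, hU1, hU2⟩ := hRa hKc k a b (Rz_Tor Rz_lin hT) hI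
  apply Rz_cobc U
  have hT' := Rz_torc U hT
  revert hT' hU1 hU2
  generalize (U : Mat) * A0 * ((U⁻¹ : SU3) : Mat) = A1
  generalize (U : Mat) * B0 * ((U⁻¹ : SU3) : Mat) = B1
  generalize U * a * U⁻¹ = a1
  generalize U * b * U⁻¹ = b1
  intro hU1 hU2 hT'
  clear hT hI
  rcases hRg hKc hTq k a1 b1 (Rz_Tor Rz_lin hT') hU1 hU2 with ⟨ha, hb⟩ | ⟨hno, hH⟩
  · subst ha hb
    obtain ⟨h1, h2⟩ := hRk hKc k A1 B1 hT'
    refine ⟨0, ?_, ?_⟩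
    · simpa using h1
    · simpa using h2
  · have hE := Rz_EE
    have hF := Rz_FF
    obtain ⟨hz1, hz2⟩ := hRs hKc k a1 b1 A1 B1 hU1 hU2 hT'
    have cE1 : E3 * (a1 : Mat) = (a1 : Mat) * E3 := by rw [hU1.1, hU1.2]
    have cE2 : E3 * (b1 : Mat) = (b1 : Mat) * E3 := by rw [hU2.1, hU2.2]
    have cF1 := Rz_commE hU1 (1 - E3) rfl
    have cF2 := Rz_commE hU2 (1 - E3) rfl
    have T1 := hRl2 k a1 b1 A1 B1 (1 - E3) E3 cF1 cF2 cE1 cE2 hT'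
    have T2 := hRl2 k a1 b1 A1 B1 E3 (1 - E3) cE1 cE2 cF1 cF2 hT'
    have T3 := hRl2 k a1 b1 A1 B1 (1 - E3) (1 - E3) cF1 cF2 cF1 cF2 hT'
    obtain ⟨X1, p1, q1⟩ := hRp2 hTq k a1 b1 _ _ hH (Or.inl ⟨Rz_idem hF hE A1, Rz_idem hF hE B1⟩) T1
    obtain ⟨X2, p2, q2⟩ := hRp2 hTq k a1 b1 _ _ hH (Or.inr ⟨Rz_idem hE hF A1, Rz_idem hE hF B1⟩) T2
    obtain ⟨V, α, β, hV, hab, hα, hβ, hd, hVa, hVb, hVn, hVH⟩ := hRx k a1 b1 hU1 hU2 hno hH
    obtain ⟨X3, p3, q3⟩ := Rz_cobc V (hRy hTq hRw hRv k (V * a1 * V⁻¹) (V * b1 * V⁻¹) _ _ α β hVa hVb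
      hVn hab hα hβ hd hVH (Rz_blk hV (Rz_idem hF hF A1)) (Rz_blk hV (Rz_idem hF hF B1))
      (Rz_torc V T3))
    refine ⟨X1 + X2 + X3, ?_, ?_⟩
    · have h := Rz_add p1 p2 p3
      rw [← hz1, ← Rz_sum A1] at h
      exact h
    · have h := Rz_add q1 q2 q3
      rw [← hz2, ← Rz_sum B1] at h
      exact h

end Pool.Agent.CM
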