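import Pool.Agent.Work.MP_8590b5_gt.CM.Stmts1

/-!
# Block CM, item Sc: the closure of the braid
-/

set_option autoImplicit false

namespace Pool.Agent.CM

open Finset

/-- the exchange of 0 and 1 -/
def Sc_sw (p : ℕ) : ℕ := if p = 0 then 1 else if p = 1 then 0 else p

theorem Sc_inv : Function.LeftInverse Sc_sw Sc_sw := by
  intro p
  unfold Sc_sw
  rcases p with _ | _ | p <;> simp

theorem Sc_piece (h : PcAt) (Γ : Type) [Group Γ] (i : ℕ) (s : ℕ → Str Γ) (p : ℕ) :
    (run (piece i) s p).src = (s (Sc_sw p)).src := by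
  rw [h Γ i s p]
  unfold Sc_sw
  by_cases h0 : p = 0
  · rw [if_pos h0, if_pos h0]
    rfl
  · rw [if_neg h0, if_neg h0]
    by_cases h1 : p = 1
    · rw [if_pos h1, if_pos h1]
      rfl
    · rw [if_neg h1, if_neg h1]
      by_cases h2 : p = i + 2
      · rw [if_pos h2, h2]
        rfl
      · rw [if_neg h2]
        by_cases h3 : p < i + 2
        · rw [if_pos h3]
          rfl
        · rw [if_neg h3]

theorem Sc_cross (Γ : Type) [Group Γ] (s : ℕ → Str Γ) (p : ℕ) :
    (cross s (0, true) p).src = (s (Sc_sw p)).src := by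
  unfold cross Sc_sw
  rw [if_pos (show ((0, true) : ℕ × Bool).2 = true from rfl)]
  by_cases h0 : p = 0
  · rw [if_pos (show p = ((0, true) : ℕ × Bool).1 from h0), if_pos h0]
  · rw [if_neg (show ¬ p = ((0, true) : ℕ × Bool).1 from h0), if_neg h0]
    by_cases h1 : p = 1
    · rw [if_pos (show p = ((0, true) : ℕ × Bool).1 + 1 from h1), if_pos h1]
    · rw [if_neg (show ¬ p = ((0, true) : ℕ × Bool).1 + 1 from h1), if_neg h1]

theorem Sc_pieces (h : PcAt) (Γ : Type) [Group Γ] (s : ℕ → Str Γ) (N : ℕ) : ∀ p,
    (run (pieces N) s p).src = (s (Sc_sw^[N] p)).src := by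
  induction N with
  | zero =>
    intro p
    rfl
  | succ N ih =>
    intro p
    have h1 : pieces (N + 1) = pieces N ++ piece N := by
      unfold pieces
      rw [List.range_succ, List.flatMap_append, List.flatMap_singleton]
    have h2 : run (pieces (N + 1)) s = run (piece N) (run (pieces N) s) := by
      rw [h1]
      unfold run
      rw [List.foldl_append]
    rw [h2, Sc_piece h, ih, ← Function.iterate_succ_apply]

theorem Sc_rep (Γ : Type) [Group Γ] (m : ℕ) : ∀ (s : ℕ → Str Γ) (p : ℕ),
    (run (List.replicate m (0, true)) s p).src = (s (Sc_sw^[m] p)).src := by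
  induction m with
  | zero =>
    intro s p
    rfl
  | succ m ih =>
    intro s p
    have h2 : run (List.replicate (m + 1) (0, true)) s =
        run (List.replicate m (0, true)) (cross s (0, true)) := by
      rw [List.replicate_succ]
      rfl
    rw [h2, ih, Sc_cross, Function.iterate_succ_apply']

theorem pr_Sc : StSc := by
  intro h Γ _ N g p
  have h1 : run (lnk N).word (start g) =
      run (List.replicate (N + 1) (0, true)) (run (pieces N) (start g)) := by
    show run (pieces N ++ List.replicate (N + 1) (0, true)) (start g) = _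
    unfold run
    rw [List.foldl_append]
  rw [h1, Sc_rep, Sc_pieces h, Function.iterate_succ_apply, (Sc_inv.iterate N) (Sc_sw p)]
  rfl

end Pool.Agent.CM
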