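import Pool.Agent.Work.MP_8590b5_gt.CM.Stmts2

/-!
# Block CM, item Sj: every irreducible pair is conjugate to a normal form
-/

namespace Pool.Agent.CM

open Finset

theorem Sj_mul (x y : SU3) : ((x * y : SU3) : Mat) = (x : Mat) * (y : Mat) := rfl

theorem Sj_one : ((1 : SU3) : Mat) = 1 := rfl

theorem Sj_pow (x : SU3) (n : ℕ) : ((x ^ n : SU3) : Mat) = (x : Mat) ^ n := by
  induction n with
  | zero => rw [pow_zero, pow_zero, Sj_one]
  | succ n ih => rw [pow_succ, pow_succ, Sj_mul, ih]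

theorem Sj_inv (U : SU3) : ((U⁻¹ : SU3) : Mat) * (U : Mat) = 1 := by
  rw [← Sj_mul, inv_mul_cancel, Sj_one]

theorem Sj_inv' (U : SU3) : (U : Mat) * ((U⁻¹ : SU3) : Mat) = 1 := by
  rw [← Sj_mul, mul_inv_cancel, Sj_one]

/-- invariance under products -/
theorem Sj_invMul (W : Submodule ℂ (Fin 3 → ℂ)) (M N : Mat) (hM : ∀ v ∈ W, M.mulVec v ∈ W)
    (hN : ∀ v ∈ W, N.mulVec v ∈ W) : ∀ v ∈ W, (M * N).mulVec v ∈ W := by
  intro v hv
  rw [← Matrix.mulVec_mulVec]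
  exact hM _ (hN v hv)

theorem Sj_invSmul (W : Submodule ℂ (Fin 3 → ℂ)) (c : ℂ) (M : Mat)
    (hM : ∀ v ∈ W, M.mulVec v ∈ W) : ∀ v ∈ W, (c • M).mulVec v ∈ W := by
  intro v hv
  rw [Matrix.smul_mulVec]
  exact W.smul_mem c (hM v hv)

theorem Sj_invPow (W : Submodule ℂ (Fin 3 → ℂ)) (M : Mat) (hM : ∀ v ∈ W, M.mulVec v ∈ W)
    (n : ℕ) : ∀ v ∈ W, (M ^ n).mulVec v ∈ W := by
  induction n with
  | zero =>
    intro v hv
    rw [pow_zero, Matrix.one_mulVec]
    exact hv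
  | succ n ih =>
    rw [pow_succ]
    exact Sj_invMul W _ _ ih hM

/-- two scalar matrices are not irreducible -/
theorem Sj_scalar (a b : SU3) (c d : ℂ) (ha : (a : Mat) = c • (1 : Mat))
    (hb : (b : Mat) = d • (1 : Mat)) : ¬ IrrP a b := by
  intro h
  have h1 := h (Submodule.span ℂ {Pi.single 0 1}) (fun v hv => by
    rw [ha, Matrix.smul_mulVec, Matrix.one_mulVec]
    exact Submodule.smul_mem _ _ hv) (fun v hv => by
    rw [hb, Matrix.smul_mulVec, Matrix.one_mulVec]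
    exact Submodule.smul_mem _ _ hv)
  rcases h1 with h1 | h1
  · rw [Submodule.span_singleton_eq_bot] at h1
    have h2 := congrFun h1 0
    rw [Pi.single_eq_same] at h2
    exact one_ne_zero h2
  · have h2 : (Pi.single 1 1 : Fin 3 → ℂ) ∈ Submodule.span ℂ {(Pi.single 0 1 : Fin 3 → ℂ)} := by
      rw [h1]
      exact Submodule.mem_top
    rw [Submodule.mem_span_singleton] at h2
    obtain ⟨e, he⟩ := h2
    have h3 := congrFun he 1
    rw [Pi.single_eq_same, Pi.smul_apply, Pi.single_eq_of_ne (by decide), smul_zero] at h3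
    exact zero_ne_one h3

/-- a power of a diagonal matrix -/
theorem Sj_dApow (hE : StEe) (u : Fin 3 → ℝ) (m : ℕ) :
    (dA u) ^ m = Matrix.diagonal (fun j => ee (m * u j)) := by
  unfold dA
  rw [Matrix.diagonal_pow]
  congr 1
  funext j
  rw [Pi.pow_apply]
  exact hE.2.2.2.2.1 (u j) m

/-- eigenvalues of a matrix with a scalar power -/
theorem Sj_eig (B : Mat) (μ c : ℂ) (m : ℕ) (h : B ^ m = c • (1 : Mat))
    (hd : Matrix.det (μ • (1 : Mat) - B) = 0) : μ ^ m = c := by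
  obtain ⟨z, hz, hz2⟩ := Matrix.exists_mulVec_eq_zero_iff.2 hd
  have h1 : B.mulVec z = μ • z := by
    rw [Matrix.sub_mulVec, Matrix.smul_mulVec, Matrix.one_mulVec, sub_eq_zero] at hz2
    exact hz2.symm
  have h2 : ∀ n : ℕ, (B ^ n).mulVec z = μ ^ n • z := by
    intro n
    induction n with
    | zero => rw [pow_zero, pow_zero, Matrix.one_mulVec, one_smul]
    | succ n ih =>
      rw [pow_succ, ← Matrix.mulVec_mulVec, h1, Matrix.mulVec_smul, ih, smul_smul, pow_succ,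
        mul_comm]
  have h3 := h2 m
  rw [h, Matrix.smul_mulVec, Matrix.one_mulVec] at h3
  have h4 : (μ ^ m - c) • z = 0 := by
    rw [sub_smul, h3, sub_self]
  rcases smul_eq_zero.1 h4 with h5 | h5
  · exact sub_eq_zero.1 h5
  · exact absurd h5 hz

/-- item Sj -/
theorem pr_Sj : StSj := by
  intro hE hLw hLp hLi hLv hLu hTq hSr hRf hNm hPj k a b hT hI
  have hE' := hE
  obtain ⟨eadd, eint, einj, -, epow, ehalf, ene, -, -, -⟩ := hE'
  obtain ⟨q1, q2, q3, q4⟩ := hTq SU3 k a b hT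
  set y : SU3 := a * b with hy
  set x : SU3 := a * y ^ k with hx
  set h : SU3 := y ^ (2 * k + 1) with hh
  obtain ⟨t, ht⟩ := hSr hE a b h hI q3 q4
  set ζ : ℂ := ee ((t.val : ℝ) / 3) with hζ
  have hζ0 : ζ ≠ 0 := ene _
  have hζ3 : ζ ^ 3 = 1 := by
    rw [hζ, epow]
    have : ((3 : ℕ) : ℝ) * ((t.val : ℝ) / 3) = ((t.val : ℤ) : ℝ) := by
      push_cast
      ring
    rw [this, eint]
  have hh3 : h ^ 3 = 1 := by
    apply Subtype.ext
    rw [Sj_pow, ht, smul_pow, one_pow, hζ3, one_smul, Sj_one]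
  have hx2 : (x : Mat) ^ 2 = ζ • (1 : Mat) := by
    rw [← Sj_pow, q1, ht]
  have hxs : ∀ c : ℂ, (x : Mat) ≠ c • (1 : Mat) := by
    intro c hc
    have c1 : ∀ z : SU3, Commute x z := fun z => by
      apply Subtype.ext
      rw [Sj_mul x z, Sj_mul z x, hc, smul_mul_assoc, one_mul, mul_smul_comm, mul_one]
    have c2 : a = x * (y ^ k)⁻¹ := by
      rw [hx, mul_inv_cancel_right]
    have c3 : Commute y a := by
      rw [c2]
      exact (c1 y).symm.mul_right (((Commute.refl y).pow_right k).inv_right)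
    have c4 : b = a⁻¹ * y := by
      rw [hy, inv_mul_cancel_left]
    have c5 : Commute y b := by
      rw [c4]
      exact c3.inv_right.mul_right (Commute.refl y)
    obtain ⟨t', ht'⟩ := hSr hE a b y hI c3 c5
    set ζ' : ℂ := ee ((t'.val : ℝ) / 3) with hζ'
    have hζ'0 : ζ' ≠ 0 := ene _
    have c6 : (a : Mat) = (c * (ζ' ^ k)⁻¹) • (1 : Mat) := by
      have d1 : (a : Mat) * (y : Mat) ^ k = c • (1 : Mat) := by
        rw [← hc, hx, Sj_mul a (y ^ k), Sj_pow y k]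
      rw [ht', smul_pow, one_pow, mul_smul_comm, mul_one] at d1
      rw [mul_comm, mul_smul, ← d1, smul_smul, inv_mul_cancel₀ (pow_ne_zero k hζ'0), one_smul]
    have c7 : c * (ζ' ^ k)⁻¹ ≠ 0 := by
      intro d1
      have d2 : (a : Mat) = 0 := by rw [c6, d1, zero_smul]
      have d3 := Sj_inv a
      rw [d2, mul_zero] at d3
      exact zero_ne_one d3
    have c8 : (b : Mat) = ((c * (ζ' ^ k)⁻¹)⁻¹ * ζ') • (1 : Mat) := by
      have d1 : (a : Mat) * (b : Mat) = ζ' • (1 : Mat) := by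
        rw [← ht', hy, Sj_mul]
      rw [c6, smul_mul_assoc, one_mul] at d1
      rw [mul_smul, ← d1, smul_smul, inv_mul_cancel₀ c7, one_smul]
    exact Sj_scalar a b _ _ c6 c8 hI
  obtain ⟨v, hv1, hv2⟩ := hRf hE x t hx2 hxs
  rw [← hζ] at hv2
  set R₀ : Mat := (1 : Mat) - (2 : ℂ) • Matrix.vecMulVec v (star v) with hR₀
  set A : SU3 := (y ^ k)⁻¹ with hA
  have hAm : A ^ (3 * (2 * k + 1)) = 1 := by
    rw [hA, inv_pow, ← pow_mul, show k * (3 * (2 * k + 1)) = (2 * k + 1) * 3 * k by ring, pow_mul,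
      pow_mul, ← hh, hh3, one_pow, inv_one]
  have hAy : y ^ k * A = 1 := by rw [hA, mul_inv_cancel]
  have hyA : y = h * A ^ 2 := by
    rw [hh, hA, inv_pow, ← pow_mul, pow_succ', show k * 2 = 2 * k by ring, mul_inv_cancel_right]
  have haA : a = x * A := by
    rw [hx, hA, mul_inv_cancel_right]
  have hbA : b = A ^ (3 * (2 * k + 1) - 1) * a * A := by
    have c1 : A ^ (3 * (2 * k + 1) - 1) = y ^ k := by
      have d1 : A ^ (3 * (2 * k + 1) - 1) * A = 1 := by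
        rw [← pow_succ, show 3 * (2 * k + 1) - 1 + 1 = 3 * (2 * k + 1) by omega, hAm]
      rw [eq_inv_of_mul_eq_one_left d1, hA, inv_inv]
    rw [c1, hA]
    exact hT.1
  have hyM : (y : Mat) = ζ • (A : Mat) ^ 2 := by
    rw [hyA, Sj_mul, ht, Sj_pow, smul_mul_assoc, one_mul]
  have hinv : ∀ W : Submodule ℂ (Fin 3 → ℂ), (∀ z ∈ W, (A : Mat).mulVec z ∈ W) →
      (∀ z ∈ W, R₀.mulVec z ∈ W) → W = ⊥ ∨ W = ⊤ := by
    intro W w1 w2
    have w3 : ∀ z ∈ W, (x : Mat).mulVec z ∈ W := by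
      rw [hv2]
      exact Sj_invSmul W _ _ w2
    have w4 : ∀ z ∈ W, (a : Mat).mulVec z ∈ W := by
      rw [haA, Sj_mul]
      exact Sj_invMul W _ _ w3 w1
    refine hI W w4 ?_
    rw [hbA, Sj_mul, Sj_mul, Sj_pow]
    exact Sj_invMul W _ _ (Sj_invMul W _ _ (Sj_invPow W _ w1 _) w4) w1
  obtain ⟨n, w, U, n0, n01, n12, n2, hw, hws, hUA, hUR⟩ :=
    hNm hE hPj (3 * (2 * k + 1)) A v (by omega) hAm hv1 hinv
  set u : Fin 3 → ℝ := uu k n with hu
  have huu : (fun j => (n j : ℝ) / ((3 * (2 * k + 1) : ℕ) : ℝ)) = u := by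
    funext j
    rw [hu]
    unfold uu
    push_cast
    rfl
  rw [huu] at hUA
  have hUA' : (U : Mat) * (A : Mat) * ((U⁻¹ : SU3) : Mat) = dA u := by
    rw [← hUA, Sj_mul, Sj_mul]
  have hk0 : (0 : ℝ) ≤ k := Nat.cast_nonneg k
  have hq0 : (0 : ℝ) < 3 * (2 * (k : ℝ) + 1) := by positivity
  have hr0 : (0 : ℝ) < 6 * (4 * (k : ℝ) + 3) := by positivity
  have huj : ∀ j, u j = n j / (3 * (2 * (k : ℝ) + 1)) := fun j => by
    rw [hu]
    rfl
  have u01 : u 0 < u 1 := by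
    rw [huj, huj]
    have : (n 0 : ℝ) < n 1 := by exact_mod_cast n01
    gcongr
  have u12 : u 1 < u 2 := by
    rw [huj, huj]
    have : (n 1 : ℝ) < n 2 := by exact_mod_cast n12
    gcongr
  have u20 : u 2 < u 0 + 1 := by
    have c1 : u 2 < 1 := by
      rw [huj, div_lt_one hq0]
      have : (n 2 : ℝ) < ((3 * (2 * k + 1) : ℕ) : ℝ) := by exact_mod_cast n2
      push_cast at this
      exact this
    have c2 : 0 ≤ u 0 := by
      rw [huj]
      have : (0 : ℝ) ≤ n 0 := by exact_mod_cast n0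
      positivity
    linarith
  obtain ⟨v', hL, hdet⟩ := hLv hE hLp u w u01 u12 u20 hw hws
  have hwv : w = ww u v' := hLu hE hLw hLp hLi u v' w hL (fun i => (hw i).le) hdet
  set B : Mat := rR w * dA u with hB
  -- the conjugated element `a`
  have hUx : (U : Mat) * (x : Mat) * ((U⁻¹ : SU3) : Mat) = (-(ζ) ^ 2) • rR w := by
    rw [hv2, mul_smul_comm, smul_mul_assoc, hUR]
  have hUa : ((U * a * U⁻¹ : SU3) : Mat) = (-(ζ) ^ 2) • B := by
    have c1 : U * a * U⁻¹ = (U * x * U⁻¹) * (U * A * U⁻¹) := by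
      rw [haA]
      group
    rw [c1, Sj_mul, hUA, Sj_mul, Sj_mul, hUx, smul_mul_assoc, hB]
  have hUh : U * h * U⁻¹ = h := by
    apply Subtype.ext
    rw [Sj_mul, Sj_mul, ht, mul_smul_comm, mul_one, smul_mul_assoc, Sj_inv']
  have hBr : ((-(ζ) ^ 2) • B) ^ (4 * k + 3) = ζ • (1 : Mat) := by
    rw [← hUa, ← Sj_pow, conj_pow, ← q2, hUh, ht]
  have hBr' : B ^ (4 * k + 3) = ((-(ζ) ^ 2) ^ (4 * k + 3))⁻¹ • ζ • (1 : Mat) := by
    have c1 : (-(ζ) ^ 2) ^ (4 * k + 3) ≠ 0 := pow_ne_zero _ (neg_ne_zero.2 (pow_ne_zero 2 hζ0))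
    rw [← hBr, smul_pow, smul_smul, inv_mul_cancel₀ c1, one_smul]
  -- the exponents `p`
  have hp : ∀ j, ∃ p : ℤ, v' j = p / (6 * (4 * (k : ℝ) + 3)) ∧
      (6 : ℤ) ∣ p - 3 - 2 * (t.val : ℤ) * ((k : ℤ) + 1) := by
    intro j
    have c1 : (-(ζ) ^ 2) ^ (4 * k + 3) ≠ 0 := pow_ne_zero _ (neg_ne_zero.2 (pow_ne_zero 2 hζ0))
    have c2 : ee (v' j) ^ (4 * k + 3) = ((-(ζ) ^ 2) ^ (4 * k + 3))⁻¹ * ζ :=
      Sj_eig B _ _ _ (by rw [hBr', smul_smul]) (hdet j)
    have c3 : (-(ζ) ^ 2) ^ (4 * k + 3) * ee (v' j) ^ (4 * k + 3) = ζ := by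
      rw [c2, mul_inv_cancel_left₀ c1]
    have c4 : -(ζ) ^ 2 = ee (1 / 2 + ((2 : ℕ) : ℝ) * ((t.val : ℝ) / 3)) := by
      rw [eadd, ehalf, ← epow, hζ]
      ring
    rw [c4, epow, epow, ← eadd, hζ, einj] at c3
    obtain ⟨M, hM⟩ := c3
    refine ⟨2 * (t.val : ℤ) - 3 * (4 * (k : ℤ) + 3) - 4 * (4 * (k : ℤ) + 3) * (t.val : ℤ) + 6 * M,
      ?_, ?_⟩
    · rw [eq_div_iff hr0.ne']
      push_cast at hM ⊢
      linarith
    · refine ⟨-(2 * (k : ℤ)) - 2 - (t.val : ℤ) * (3 * (k : ℤ) + 2) + M, ?_⟩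
      ring
  choose p hp1 hp2 using hp
  have hvv : v' = vv k p := by
    funext j
    rw [hp1 j]
    rfl
  refine ⟨t, n, p, U, ?_, ?_, ?_⟩
  · obtain ⟨l0, l0', l1, l1', l2, l2', ls⟩ := hL
    have hq1 : (0 : ℝ) < 2 * (k : ℝ) + 1 := by positivity
    have hr1 : (0 : ℝ) < 4 * (k : ℝ) + 3 := by positivity
    rw [huj, hp1, div_lt_div_iff₀ hq0 hr0] at l0
    rw [huj, hp1, div_lt_div_iff₀ hr0 hq0] at l0'
    rw [huj, hp1, div_lt_div_iff₀ hq0 hr0] at l1
    rw [huj, hp1, div_lt_div_iff₀ hr0 hq0] at l1'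
    rw [huj, hp1, div_lt_div_iff₀ hq0 hr0] at l2
    have e0 : u 0 + 1 = (n 0 + 3 * (2 * (k : ℝ) + 1)) / (3 * (2 * (k : ℝ) + 1)) := by
      rw [huj, add_div, div_self hq0.ne']
    rw [e0, hp1, div_lt_div_iff₀ hr0 hq0] at l2'
    rw [hp1, hp1, hp1, huj, huj, huj] at ls
    refine ⟨n0, n01, n12, ?_, ?_, ?_, hp2, ?_, ?_, ?_, ?_, ?_, ?_, ?_⟩
    · push_cast at n2
      exact n2
    · intro j
      have c1 : A ^ (2 * k + 1) * h ^ k = 1 := by
        rw [hA, hh, inv_pow, ← pow_mul, ← pow_mul, mul_comm k, inv_mul_cancel]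
      have c2 : (U * A * U⁻¹) ^ (2 * k + 1) * h ^ k = 1 := by
        rw [conj_pow]
        have d1 : U⁻¹ * h ^ k = h ^ k * U⁻¹ := by
          have d2 : Commute U h := by
            show U * h = h * U
            exact mul_inv_eq_iff_eq_mul.1 hUh
          exact (d2.inv_left.pow_right k).eq
        rw [mul_assoc, d1, ← mul_assoc, mul_assoc U, c1, mul_one, mul_inv_cancel]
      have c3 := congrArg (fun z : SU3 => (z : Mat) j j) c2
      simp only [Sj_mul, Sj_pow, Sj_one] at c3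
      rw [hUA', Sj_dApow hE, ht, smul_pow, one_pow, mul_smul_comm, mul_one, Matrix.smul_apply,
        Matrix.diagonal_apply_eq, Matrix.one_apply_eq, smul_eq_mul, hζ, epow, ← eadd,
        ← eint 0, einj] at c3
      obtain ⟨M, hM⟩ := c3
      rw [huj] at hM
      refine ⟨M, ?_⟩
      have c4 : (n j : ℝ) + k * t.val = 3 * M := by
        have d1 : ((2 * k + 1 : ℕ) : ℝ) * (n j / (3 * (2 * (k : ℝ) + 1))) = n j / 3 := by
          push_cast
          field_simp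
        rw [d1] at hM
        push_cast at hM
        linarith
      exact_mod_cast c4
    · have c1 : (dA u).det = 1 := by
        rw [← hUA', Matrix.det_mul, Matrix.det_mul, mul_right_comm, ← Matrix.det_mul, Sj_inv',
          Matrix.det_one, one_mul]
        exact (Matrix.mem_specialUnitaryGroup_iff.1 A.2).2
      unfold dA at c1
      rw [Matrix.det_diagonal, Fin.prod_univ_three, ← eadd, ← eadd, ← eint 0, einj] at c1
      obtain ⟨M, hM⟩ := c1
      rw [huj, huj, huj, ← add_div, ← add_div, div_eq_iff hq0.ne'] at hM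
      refine ⟨M, ?_⟩
      have c2 : (n 0 : ℝ) + n 1 + n 2 = 3 * (2 * k + 1) * M := by
        push_cast at hM
        linarith
      exact_mod_cast c2
    · have : 2 * (4 * (k : ℝ) + 3) * n 0 < (2 * (k : ℝ) + 1) * p 0 := by linarith
      exact_mod_cast this
    · have : (2 * (k : ℝ) + 1) * p 0 < 2 * (4 * (k : ℝ) + 3) * n 1 := by linarith
      exact_mod_cast this
    · have : 2 * (4 * (k : ℝ) + 3) * n 1 < (2 * (k : ℝ) + 1) * p 1 := by linarith
      exact_mod_cast this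
    · have : (2 * (k : ℝ) + 1) * p 1 < 2 * (4 * (k : ℝ) + 3) * n 2 := by linarith
      exact_mod_cast this
    · have : 2 * (4 * (k : ℝ) + 3) * n 2 < (2 * (k : ℝ) + 1) * p 2 := by linarith
      exact_mod_cast this
    · have : (2 * (k : ℝ) + 1) * p 2 < 2 * (4 * (k : ℝ) + 3) * (n 0 + 3 * (2 * (k : ℝ) + 1)) := by
        linarith
      exact_mod_cast this
    · have : (2 * (k : ℝ) + 1) * (p 0 + p 1 + p 2) =
          2 * (4 * (k : ℝ) + 3) * (n 0 + n 1 + n 2) + 3 * (2 * (k : ℝ) + 1) * (4 * (k : ℝ) + 3) := by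
        field_simp at ls
        linarith
      exact_mod_cast this
  · rw [hUa, hB, hwv, hvv]
  · have c1 : U * a * U⁻¹ * (U * b * U⁻¹) = U * y * U⁻¹ := by
      rw [hy]
      group
    rw [c1, Sj_mul, Sj_mul, hyM, mul_smul_comm, smul_mul_assoc]
    congr 1
    rw [← Sj_pow, ← Sj_mul, ← Sj_mul, ← conj_pow, Sj_pow, hUA]

end Pool.Agent.CM
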