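import Pool.Agent.Work.MP_8590b5_gt.CM.Stmts4

/-! # Block CM, item Sm -/

namespace Pool.Agent.CM

open Finset

theorem pr_Sm : StSm := by
  intro a b M hirr ha hb
  obtain ⟨c, hc⟩ := Module.End.exists_eigenvalue (K := ℂ) (V := Fin 3 → ℂ) (Matrix.mulVecLin M)
  refine ⟨c, ?_⟩
  have key : ∀ g : SU3, M * (g : Mat) = (g : Mat) * M →
      ∀ v ∈ Module.End.eigenspace (Matrix.mulVecLin M) c,
        (g : Mat).mulVec v ∈ Module.End.eigenspace (Matrix.mulVecLin M) c := by
    intro g hg v hv
    rw [Module.End.mem_eigenspace_iff] at hv ⊢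
    rw [Matrix.mulVecLin_apply] at hv ⊢
    rw [Matrix.mulVec_mulVec, hg, ← Matrix.mulVec_mulVec, hv, Matrix.mulVec_smul]
  have h := hirr (Module.End.eigenspace (Matrix.mulVecLin M) c) (key a ha) (key b hb)
  have h2 : Module.End.eigenspace (Matrix.mulVecLin M) c = ⊤ := by
    rcases h with h | h
    · exact absurd h hc
    · exact h
  ext i j
  have h3 : (Pi.single j 1 : Fin 3 → ℂ) ∈ Module.End.eigenspace (Matrix.mulVecLin M) c := by
    rw [h2]; trivial
  rw [Module.End.mem_eigenspace_iff, Matrix.mulVecLin_apply, Matrix.mulVec_single_one] at h3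
  have h4 := congrFun h3 i
  rw [Matrix.smul_apply, Matrix.one_apply]
  rw [Matrix.col_apply] at h4
  rw [h4, Pi.smul_apply, Pi.single_apply]

end Pool.Agent.CM
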