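import Pool.Agent.Work.MP_8590b5_gt.CM.Stmts3

/-!
# Block CM, item Sq: squares of functions of small degree on the Boolean lattice
-/

set_option autoImplicit false

namespace Pool.Agent.CM

open Finset

theorem Sq_alt (U S : Finset ℕ) (hUS : U ⊆ S) (hne : U ≠ S) :
    ∑ T ∈ S.powerset, (if U ⊆ T then (-1 : ℚ) ^ T.card else 0) = 0 := by
  obtain ⟨x, hxS, hxU⟩ : ∃ x ∈ S, x ∉ U := by
    by_contra h
    push Not at h
    exact hne (Finset.Subset.antisymm hUS h)
  rw [← Finset.insert_erase hxS, Finset.sum_powerset_insert (Finset.notMem_erase x S),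
    ← Finset.sum_add_distrib]
  refine Finset.sum_eq_zero fun T hT => ?_
  have hxT : x ∉ T := fun h => Finset.notMem_erase x S (Finset.mem_powerset.1 hT h)
  have h1 : U ⊆ insert x T ↔ U ⊆ T := by
    constructor
    · intro h y hy
      rcases Finset.mem_insert.1 (h hy) with h2 | h2
      · rw [h2] at hy
        exact absurd hy hxU
      · exact h2
    · intro h
      exact h.trans (Finset.subset_insert _ _)
  by_cases h : U ⊆ T
  · rw [if_pos h, if_pos (h1.2 h), Finset.card_insert_of_notMem hxT, pow_succ]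
    ring
  · rw [if_neg h, if_neg fun h2 => h (h1.1 h2), add_zero]

theorem Sq_self (S : Finset ℕ) :
    ∑ T ∈ S.powerset, (if S ⊆ T then (-1 : ℚ) ^ T.card else 0) = (-1 : ℚ) ^ S.card := by
  rw [Finset.sum_eq_single_of_mem S (Finset.mem_powerset_self S), if_pos subset_rfl]
  intro T hT hne
  rw [if_neg]
  intro h
  exact hne (Finset.Subset.antisymm (Finset.mem_powerset.1 hT) h)

theorem Sq_sum_powerset (T S : Finset ℕ) (hTS : T ⊆ S) (g : Finset ℕ → ℚ) :
    ∑ U ∈ T.powerset, g U = ∑ U ∈ S.powerset, (if U ⊆ T then g U else 0) := by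
  rw [← Finset.sum_filter]
  refine Finset.sum_congr ?_ fun _ _ => rfl
  ext U
  rw [Finset.mem_filter, Finset.mem_powerset, Finset.mem_powerset]
  exact ⟨fun h => ⟨h.trans hTS, h⟩, fun h => h.2⟩

/-- Moebius inversion -/
theorem Sq_inv (f : Finset ℕ → ℚ) (S : Finset ℕ) :
    f S = ∑ T ∈ S.powerset, (-1 : ℚ) ^ T.card * ∑ U ∈ T.powerset, (-1 : ℚ) ^ U.card * f U := by
  have h1 : ∀ T ∈ S.powerset, (-1 : ℚ) ^ T.card * ∑ U ∈ T.powerset, (-1 : ℚ) ^ U.card * f U =
      ∑ U ∈ S.powerset, ((-1 : ℚ) ^ U.card * f U) * (if U ⊆ T then (-1 : ℚ) ^ T.card else 0) := by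
    intro T hT
    rw [Sq_sum_powerset T S (Finset.mem_powerset.1 hT), Finset.mul_sum]
    refine Finset.sum_congr rfl fun U _ => ?_
    by_cases h : U ⊆ T
    · rw [if_pos h, if_pos h]
      ring
    · rw [if_neg h, if_neg h]
      ring
  rw [Finset.sum_congr rfl h1, Finset.sum_comm]
  have h2 : ∀ U ∈ S.powerset, ∑ T ∈ S.powerset,
      ((-1 : ℚ) ^ U.card * f U) * (if U ⊆ T then (-1 : ℚ) ^ T.card else 0) =
      if U = S then f S else 0 := by
    intro U hU
    rw [← Finset.mul_sum]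
    by_cases h : U = S
    · rw [if_pos h, h, Sq_self]
      have h3 : (-1 : ℚ) ^ S.card * (-1 : ℚ) ^ S.card = 1 := by
        rw [← mul_pow]
        norm_num
      calc (-1 : ℚ) ^ S.card * f S * (-1 : ℚ) ^ S.card =
          ((-1 : ℚ) ^ S.card * (-1 : ℚ) ^ S.card) * f S := by ring
        _ = f S := by rw [h3, one_mul]
    · rw [if_neg h, Sq_alt U S (Finset.mem_powerset.1 hU) h, mul_zero]
  rw [Finset.sum_congr rfl h2, Finset.sum_ite_eq' S.powerset S (fun _ => f S),
    if_pos (Finset.mem_powerset_self S)]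

theorem pr_Sq : StSq := by
  intro d e f hde hf
  obtain ⟨c, hc⟩ : ∃ c : Finset ℕ → ℚ, c = fun T =>
    (-1 : ℚ) ^ T.card * ∑ U ∈ T.powerset, (-1 : ℚ) ^ U.card * f U := ⟨_, rfl⟩
  have hc0 : ∀ T ⊆ range d, e ≤ T.card → c T = 0 := by
    intro T hT he
    rw [hc]
    show (-1 : ℚ) ^ T.card * ∑ U ∈ T.powerset, (-1 : ℚ) ^ U.card * f U = 0
    rw [hf T hT he, mul_zero]
  have hfc : ∀ S ∈ (range d).powerset, f S =
      ∑ T ∈ (range d).powerset, (if T ⊆ S then c T else 0) := by
    intro S hS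
    rw [← Sq_sum_powerset S (range d) (Finset.mem_powerset.1 hS), Sq_inv f S, hc]
  have h1 : ∀ S ∈ (range d).powerset, (-1 : ℚ) ^ S.card * f S ^ 2 =
      ∑ T ∈ (range d).powerset, ∑ T' ∈ (range d).powerset,
        (c T * c T') * (if T ∪ T' ⊆ S then (-1 : ℚ) ^ S.card else 0) := by
    intro S hS
    rw [hfc S hS, pow_two, Finset.sum_mul_sum, Finset.mul_sum]
    refine Finset.sum_congr rfl fun T _ => ?_
    rw [Finset.mul_sum]
    refine Finset.sum_congr rfl fun T' _ => ?_
    by_cases h2 : T ⊆ S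
    · by_cases h3 : T' ⊆ S
      · rw [if_pos h2, if_pos h3, if_pos (Finset.union_subset h2 h3)]
        ring
      · rw [if_neg h3, if_neg fun h => h3 (Finset.subset_union_right.trans h)]
        ring
    · rw [if_neg h2, if_neg fun h => h2 (Finset.subset_union_left.trans h)]
      ring
  rw [Finset.sum_congr rfl h1, Finset.sum_comm]
  refine Finset.sum_eq_zero fun T hT => ?_
  rw [Finset.sum_comm]
  refine Finset.sum_eq_zero fun T' hT' => ?_
  rw [← Finset.mul_sum]
  have hTd := Finset.mem_powerset.1 hT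
  have hTd' := Finset.mem_powerset.1 hT'
  by_cases h : T ∪ T' = range d
  · have h2 := Finset.card_union_le T T'
    rw [h, Finset.card_range] at h2
    by_cases h3 : e ≤ T.card
    · rw [hc0 T hTd h3, zero_mul, zero_mul]
    · rw [hc0 T' hTd' (by omega), mul_zero, zero_mul]
  · rw [Sq_alt _ _ (Finset.union_subset hTd hTd') h, mul_zero]

end Pool.Agent.CM
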