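import Pool.Agent.Work.MP_8590b5_gt.CM.Stmts3

/-!
# Block CM, item Ss (helper55): the sum over the sublinks
-/

namespace Pool.Agent.CM

open Finset

private lemma Ss_range (N : ℕ) : range (N + 1) = insert 0 ((range N).image (· + 1)) := by
  ext x
  simp only [mem_range, mem_insert, mem_image]
  constructor
  · intro h
    rcases Nat.eq_zero_or_pos x with h0 | h0
    · exact Or.inl h0
    · exact Or.inr ⟨x - 1, by omega, by omega⟩
  · rintro (h | ⟨y, hy, rfl⟩) <;> omega

private lemma Ss_powerset (N : ℕ) :
    ((range N).image (· + 1)).powerset = (range N).powerset.image (fun J => J.image (· + 1)) := by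
  ext S
  simp only [mem_powerset, mem_image]
  constructor
  · intro h
    obtain ⟨J, hJ, hJS⟩ := subset_image_iff.1 h
    exact ⟨J, by exact_mod_cast hJ, hJS⟩
  · rintro ⟨J, hJ, rfl⟩
    exact image_subset_image hJ

theorem pr_Ss : StSs := by
  intro N F G h1 h2
  have h0 : (0 : ℕ) ∉ (range N).image (· + 1) := by simp
  have inj : Function.Injective (fun x : ℕ => x + 1) := fun a b h => by simpa using h
  have e1 : ∑ S ∈ (range (N + 1)).powerset, (-1 : ℤ) ^ S.card * F S =
      ∑ J ∈ (range N).powerset, (-1 : ℤ) ^ (J.card + 1) * G J.card := by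
    have hz : ∑ S ∈ ((range N).image (· + 1)).powerset, (-1 : ℤ) ^ S.card * F S = 0 := by
      refine sum_eq_zero fun S hS => ?_
      rw [mem_powerset] at hS
      rw [h1 S ?_ fun h => h0 (hS h), mul_zero]
      rw [Ss_range]
      exact hS.trans (subset_insert _ _)
    rw [Ss_range, sum_powerset_insert h0, hz, zero_add, Ss_powerset, sum_image]
    · refine sum_congr rfl fun J hJ => ?_
      rw [mem_powerset] at hJ
      rw [h2 J hJ, card_insert_of_notMem (by simp), card_image_of_injective _ inj]
    · intro J _ J' _ h
      exact image_injective inj h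
  rw [e1, sum_powerset_apply_card (x := range N) (fun j => (-1 : ℤ) ^ (j + 1) * G j), card_range,
    ← sum_neg_distrib]
  refine sum_congr rfl fun j _ => ?_
  rw [nsmul_eq_mul, pow_succ]
  ring

end Pool.Agent.CM
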