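import Pool.Agent.Work.MP_8590b5_gt.CM.Stmts3

/-!
# Block CM, item Sx: the points of a triangle
-/

namespace Pool.Agent.CM

open Finset

private theorem Sx_sum (m : ℕ) : ∑ i ∈ range (m + 1), (m - i + 1) = (m + 1) * (m + 2) / 2 := by
  have h1 : ∑ i ∈ range (m + 1), (m - i + 1) = ∑ i ∈ range (m + 1), (i + 1) := by
    have h := Finset.sum_range_reflect (fun i => i + 1) (m + 1)
    rw [← h]
    refine Finset.sum_congr rfl fun i _ => ?_
    rw [Nat.add_sub_cancel]
  have h2 : ∑ i ∈ range (m + 1), (i + 1) = ∑ i ∈ range (m + 2), i := by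
    rw [Finset.sum_range_succ' (fun i => i) (m + 1)]
    rfl
  rw [h1, h2, Finset.sum_range_id]
  congr 1
  have h3 : m + 2 - 1 = m + 1 := rfl
  rw [h3, mul_comm]

private def Sx_set (m : ℕ) : Finset (Σ _ : ℕ, ℕ) :=
  (range (m + 1)).sigma fun i => range (m - i + 1)

private theorem Sx_mem (m : ℕ) (x : Σ _ : ℕ, ℕ) : x ∈ Sx_set m ↔ x.1 + x.2 ≤ m := by
  unfold Sx_set
  rw [Finset.mem_sigma, Finset.mem_range, Finset.mem_range]
  omega

private def Sx_equiv (m : ℕ) : {a : Fin 3 → ℤ // (∀ i, 0 ≤ a i) ∧ a 0 + a 1 + a 2 = m} ≃ Sx_set m where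
  toFun a := ⟨⟨(a.1 0).toNat, (a.1 1).toNat⟩, by
    rw [Sx_mem]
    have h0 := a.2.1 0
    have h1 := a.2.1 1
    have h2 := a.2.1 2
    have h3 := a.2.2
    simp only
    omega⟩
  invFun x := ⟨![(x.1.1 : ℤ), (x.1.2 : ℤ), (m : ℤ) - x.1.1 - x.1.2], by
    have h := (Sx_mem m x.1).1 x.2
    constructor
    · intro i
      fin_cases i
      · simp
      · simp
      · simp only [Fin.reduceFinMk, Matrix.cons_val]
        omega
    · simp⟩
  left_inv a := by
    have h0 := a.2.1 0
    have h1 := a.2.1 1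
    have h2 := a.2.1 2
    have h3 := a.2.2
    apply Subtype.ext
    funext i
    fin_cases i
    · simp [h0]
    · simp [h1]
    · simp only [Fin.reduceFinMk, Matrix.cons_val]
      rw [Int.toNat_of_nonneg h0, Int.toNat_of_nonneg h1]
      omega
  right_inv x := by
    apply Subtype.ext
    obtain ⟨⟨i, j⟩, h⟩ := x
    simp

theorem pr_Sx : StSx := by
  intro m
  rw [Nat.card_congr (Sx_equiv m), Nat.card_eq_fintype_card, Fintype.card_coe]
  unfold Sx_set
  rw [Finset.card_sigma]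
  simp only [Finset.card_range]
  exact Sx_sum m

end Pool.Agent.CM
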