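import Pool.Agent.Work.MP_8590b5_gt.CM.Stmts1

/-!
# Block CM, item Ta: algebra of the torus knot group
-/

set_option autoImplicit false

namespace Pool.Agent.CM

open Finset

private theorem Ta_tw {Γ : Type} [Group Γ] (a b : Γ) (k : ℤ) : tw a b (2 * k + 1) =
    (⟨1, (a * b) ^ (-k) * b * (a * b) ^ k, b ^ (-k) * (a * b) ^ k⟩,
     ⟨0, (a * b) ^ (-k - 1) * a * (a * b) ^ (k + 1), a ^ (-k - 1) * (a * b) ^ (k + 1)⟩) := by
  unfold tw
  rw [if_neg (by omega)]
  have h : (2 * k + 1) / 2 = k := by omega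
  rw [h]

/-- consequences of the first closing condition -/
private theorem Ta_alg {Γ : Type} [Group Γ] (a b : Γ) (k : ℕ)
    (hb : b = (a * b) ^ k * a * ((a * b) ^ k)⁻¹) :
    Commute ((a * b) ^ (2 * k + 1)) a ∧
    (a * b) ^ (-(k : ℤ) - 1) * a * (a * b) ^ ((k : ℤ) + 1) = b := by
  set y := a * b with hy
  set P := y ^ k with hP
  have hPy : P * y = y * P := by rw [hP, ← pow_succ, ← pow_succ']
  have h1 : y * P = a * P * a := by
    have : y = a * (P * a * P⁻¹) := by rw [← hb]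
    calc y * P = a * (P * a * P⁻¹) * P := by rw [← this]
      _ = a * P * a := by group
  have hh : y ^ (2 * k + 1) = (a * P) * (a * P) := by
    have : y ^ (2 * k + 1) = y * P * P := by
      rw [hP, ← pow_succ', ← pow_add]
      congr 1
      omega
    rw [this, h1]
    group
  have c1 : Commute (y ^ (2 * k + 1)) (a * P) := by
    rw [hh]
    exact (Commute.refl _).mul_left (Commute.refl _)
  have c2 : Commute (y ^ (2 * k + 1)) P := by
    rw [hP]
    exact (Commute.refl y).pow_pow _ _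
  have c3 : Commute (y ^ (2 * k + 1)) a := by
    have := c1.mul_right c2.inv_right
    rwa [mul_inv_cancel_right] at this
  refine ⟨c3, ?_⟩
  have e1 : y ^ ((k : ℤ) + 1) = y * P := by
    rw [hP, ← pow_succ', ← zpow_natCast]
    congr 1
  have e2 : y ^ (-(k : ℤ) - 1) = (y * P)⁻¹ := by
    rw [← e1, ← zpow_neg]
    congr 1
    ring
  have e3 : y ^ (2 * k + 1) = P * y * P := by
    rw [hP, ← pow_succ, ← pow_add]
    congr 1
    omega
  -- `P⁻¹ * a * P * a = y`
  have e4 : P⁻¹ * a * P * a = y := by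
    have : a * P * a * P = P * y * P := by
      rw [← e3, hh]; group
    have h2 : a * P * a = P * y := mul_right_cancel this
    calc P⁻¹ * a * P * a = P⁻¹ * (a * P * a) := by group
      _ = y := by rw [h2]; group
  rw [e2, e1, h1]
  calc (a * P * a)⁻¹ * a * (a * P * a) = a⁻¹ * (P⁻¹ * a * P * a) := by group
    _ = b := by rw [e4, hy]; group

theorem pr_Ta : StTa := by
  intro Γ _ a b N t ht
  obtain ⟨k, rfl⟩ := Nat.exists_eq_add_of_le ht
  have hk : ((t + k : ℕ) : ℤ) - (t : ℤ) = (k : ℤ) := by push_cast; ring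
  have hk' : t + k - t = k := by omega
  rw [hk, hk', Ta_tw]
  unfold bump Tor
  simp only [one_ne_zero, if_false, if_true]
  have hfirst : (a * b) ^ (-(k : ℤ)) * b * (a * b) ^ (k : ℤ) = a ↔
      b = (a * b) ^ k * a * ((a * b) ^ k)⁻¹ := by
    rw [zpow_neg, zpow_natCast]
    constructor
    · intro h
      calc b = (a * b) ^ k * (((a * b) ^ k)⁻¹ * b * (a * b) ^ k) * ((a * b) ^ k)⁻¹ := by group
        _ = _ := by rw [h]
    · intro h
      calc ((a * b) ^ k)⁻¹ * b * (a * b) ^ k =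
          ((a * b) ^ k)⁻¹ * ((a * b) ^ k * a * ((a * b) ^ k)⁻¹) * (a * b) ^ k := by rw [← h]
        _ = a := by group
  rw [hfirst]
  have key : b = (a * b) ^ k * a * ((a * b) ^ k)⁻¹ →
      (a ^ (-1 - (2 * ((t + k : ℕ) : ℤ) + 1)) *
        (a ^ t * (a ^ (-(k : ℤ) - 1) * (a * b) ^ ((k : ℤ) + 1)) *
          (b ^ t * (b ^ (-(k : ℤ)) * (a * b) ^ (k : ℤ)))) =
        (a ^ (4 * k + 3))⁻¹ * (a * b) ^ (2 * k + 1)) ∧
      (b ^ (-1 - (2 * ((t + k : ℕ) : ℤ) + 1)) *
        (b ^ t * (b ^ (-(k : ℤ)) * (a * b) ^ (k : ℤ)) *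
          (a ^ t * (a ^ (-(k : ℤ) - 1) * (a * b) ^ ((k : ℤ) + 1)))) =
        (b ^ (4 * k + 3))⁻¹ * (a * b) ^ (2 * k + 1)) := by
    intro hb
    obtain ⟨hc, -⟩ := Ta_alg a b k hb
    have hbz : ∀ n : ℤ, b ^ n = (a * b) ^ k * a ^ n * ((a * b) ^ k)⁻¹ := by
      intro n
      conv_lhs => rw [hb]
      exact conj_zpow
    have e1 : (a * b) ^ ((k : ℤ) + 1) = (a * b) ^ k * (a * b) := by
      rw [zpow_add_one, zpow_natCast]
    have e3 : (a * b) ^ (2 * k + 1) = (a * b) ^ k * (a * b) * (a * b) ^ k := by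
      rw [← pow_succ, ← pow_add]
      congr 1
      omega
    have e4 : (a * b) ^ (2 * k + 1) = (a * b) ^ k * ((a * b) ^ k * (a * b)) := by
      rw [← pow_succ, ← pow_add]
      congr 1
      omega
    constructor
    · calc a ^ (-1 - (2 * ((t + k : ℕ) : ℤ) + 1)) *
          (a ^ t * (a ^ (-(k : ℤ) - 1) * (a * b) ^ ((k : ℤ) + 1)) *
            (b ^ t * (b ^ (-(k : ℤ)) * (a * b) ^ (k : ℤ))))
          = (a ^ (-1 - (2 * ((t + k : ℕ) : ℤ) + 1)) * a ^ (t : ℤ) * a ^ (-(k : ℤ) - 1)) *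
            ((a * b) ^ k * (a * b)) * (b ^ (t : ℤ) * b ^ (-(k : ℤ))) * (a * b) ^ k := by
            rw [e1, zpow_natCast, zpow_natCast, zpow_natCast]
            simp only [mul_assoc]
        _ = a ^ (-(t : ℤ) - 3 * k - 3) * ((a * b) ^ k * (a * b)) * b ^ ((t : ℤ) - k) *
            (a * b) ^ k := by
            rw [← zpow_add, ← zpow_add, ← zpow_add]
            congr 4
            · push_cast; ring
        _ = a ^ (-(t : ℤ) - 3 * k - 3) * ((a * b) ^ (2 * k + 1) * a ^ ((t : ℤ) - k)) := by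
            rw [hbz, e3]
            group
        _ = a ^ (-(t : ℤ) - 3 * k - 3) * (a ^ ((t : ℤ) - k) * (a * b) ^ (2 * k + 1)) := by
            rw [(hc.zpow_right _).eq]
        _ = (a ^ (4 * k + 3))⁻¹ * (a * b) ^ (2 * k + 1) := by
            rw [← mul_assoc, ← zpow_add, ← zpow_natCast a, ← zpow_neg]
            congr 2
            push_cast
            ring
    · calc b ^ (-1 - (2 * ((t + k : ℕ) : ℤ) + 1)) *
          (b ^ t * (b ^ (-(k : ℤ)) * (a * b) ^ (k : ℤ)) *
            (a ^ t * (a ^ (-(k : ℤ) - 1) * (a * b) ^ ((k : ℤ) + 1))))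
          = (b ^ (-1 - (2 * ((t + k : ℕ) : ℤ) + 1)) * b ^ (t : ℤ) * b ^ (-(k : ℤ))) *
            (a * b) ^ k * (a ^ (t : ℤ) * a ^ (-(k : ℤ) - 1)) * ((a * b) ^ k * (a * b)) := by
            rw [e1, zpow_natCast, zpow_natCast, zpow_natCast]
            simp only [mul_assoc]
        _ = b ^ (-(t : ℤ) - 3 * k - 2) * ((a * b) ^ k * a ^ ((t : ℤ) - k - 1) *
            ((a * b) ^ k)⁻¹) * ((a * b) ^ k * ((a * b) ^ k * (a * b))) := by
            rw [← zpow_add, ← zpow_add, ← zpow_add]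
            have g1 : -1 - (2 * ((t + k : ℕ) : ℤ) + 1) + (t : ℤ) + -(k : ℤ) =
                -(t : ℤ) - 3 * k - 2 := by push_cast; ring
            have g2 : (t : ℤ) + (-(k : ℤ) - 1) = (t : ℤ) - k - 1 := by ring
            rw [g1, g2]
            simp only [mul_assoc]
            rw [inv_mul_cancel_left]
        _ = b ^ (-(t : ℤ) - 3 * k - 2) * b ^ ((t : ℤ) - k - 1) * (a * b) ^ (2 * k + 1) := by
            rw [← hbz, e4]
        _ = (b ^ (4 * k + 3))⁻¹ * (a * b) ^ (2 * k + 1) := by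
            rw [← zpow_add, ← zpow_natCast b, ← zpow_neg]
            congr 2
            push_cast
            ring
  constructor
  · rintro ⟨hb, -, h3, -⟩
    refine ⟨hb, ?_⟩
    rw [(key hb).1] at h3
    exact (inv_mul_eq_one.1 h3).symm
  · rintro ⟨hb, hh⟩
    obtain ⟨hc, h2⟩ := Ta_alg a b k hb
    refine ⟨hb, h2, ?_, ?_⟩
    · rw [(key hb).1, hh]
      exact inv_mul_cancel _
    · rw [(key hb).2]
      have hbn : b ^ (4 * k + 3) = (a * b) ^ k * a ^ (4 * k + 3) * ((a * b) ^ k)⁻¹ := by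
        conv_lhs => rw [hb]
        exact conj_pow
      have c2 : Commute ((a * b) ^ k) ((a * b) ^ (2 * k + 1)) :=
        (Commute.refl (a * b)).pow_pow _ _
      rw [hbn, ← hh, c2.eq, mul_inv_cancel_right]
      exact inv_mul_cancel _

end Pool.Agent.CM
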