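import Pool.Agent.Work.MP_8590b5_gt.CM.Stmts5

/-! # Block CM, item Tg -/

namespace Pool.Agent.CM

open Finset

theorem pr_Tg : StTg := by
  intro hCh hCz N S hS
  have hcol := (hCh (lnk N) S ((lnk N).grp S)
    (fun p => (PresentedGroup.of p : (lnk N).grp S))).2 ⟨MonoidHom.id _, fun p => rfl⟩
  have h1 := hCz ((lnk N).grp S) N S _ hS hcol
  have h2 : (MonoidHom.id ((lnk N).grp S)) = 1 := by
    apply PresentedGroup.ext
    intro p
    exact h1 p
  constructor
  intro x y
  have hx : x = 1 := DFunLike.congr_fun h2 x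
  have hy : y = 1 := DFunLike.congr_fun h2 y
  rw [hx, hy]

end Pool.Agent.CM
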