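import Pool.Agent.Work.MP_8590b5_gt.CM.Stmts1

/-!
# Item Tl: the label is the conjugate of the first label by the longitude
-/

set_option autoImplicit false

namespace Pool.Agent.CM

open Finset

theorem Tl_aux {Γ : Type} [Group Γ] (a y : Γ) (j k : ℤ) (h : j = -k) :
    (a ^ j * y ^ k) * (y ^ j * a * y ^ k) = a * (a ^ j * y ^ k) := by
  subst h
  have h1 : a ^ (-k) * a = a * a ^ (-k) := (Commute.refl a).zpow_left (-k)
  calc (a ^ (-k) * y ^ k) * (y ^ (-k) * a * y ^ k)
      = a ^ (-k) * (y ^ k * y ^ (-k)) * a * y ^ k := by simp only [mul_assoc]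
    _ = a ^ (-k) * a * y ^ k := by rw [← zpow_add, add_neg_cancel, zpow_zero, mul_one]
    _ = a * (a ^ (-k) * y ^ k) := by rw [h1, mul_assoc]

theorem pr_Tl : StTl := by
  intro Γ _ a b e
  unfold tw
  by_cases he : e % 2 = 0
  · rw [if_pos he]
    refine ⟨?_, ?_, Nat.zero_le _, le_refl _⟩
    · simp only [if_true]
      exact Tl_aux a (a * b) _ _ rfl
    · simp only [one_ne_zero, if_false]
      exact Tl_aux b (a * b) _ _ rfl
  · rw [if_neg he]
    refine ⟨?_, ?_, le_refl _, Nat.zero_le _⟩
    · simp only [one_ne_zero, if_false]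
      exact Tl_aux b (a * b) _ _ rfl
    · simp only [if_true]
      exact Tl_aux a (a * b) _ _ (by ring)

end Pool.Agent.CM
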