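import Pool.Agent.Work.MP_8590b5_gt.CM.Stmts1

/-!
Item [8590b5 CM Tn]: one negative crossing.
-/

namespace Pool.Agent.CM

open Finset

lemma Tn_und {Γ : Type} [Group Γ] (X : Str Γ) (c : Γ) : und (und X c) c⁻¹ = X := by
  obtain ⟨s, l, n⟩ := X
  unfold und
  congr 1
  · group
  · group

theorem pr_Tn : StTn := by
  intro hTw Γ _ a b e
  have h := hTw Γ a b (e - 1)
  rw [sub_add_cancel] at h
  rw [h]
  show tw a b (e - 1) = (und (und (tw a b (e - 1)).1 (tw a b (e - 1)).2.lab)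
    ((tw a b (e - 1)).2.lab)⁻¹, (tw a b (e - 1)).2)
  rw [Tn_und]

end Pool.Agent.CM
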