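import Pool.Agent.Work.MP_8590b5_gt.CM.Stmts2

/-! # Block CM, item Tq -/

namespace Pool.Agent.CM

open Finset

theorem pr_Tq : StTq := by
  intro Γ _ k a b h
  obtain ⟨h1, h2⟩ := h
  set y := a * b with hy
  have hb : b = a⁻¹ * y := by rw [hy]; group
  have h3 : a * y ^ k * a = y ^ (k + 1) := by
    have h4 : y = a * (y ^ k * a * (y ^ k)⁻¹) := by
      conv_lhs => rw [hy, h1]
    calc a * y ^ k * a = (a * (y ^ k * a * (y ^ k)⁻¹)) * y ^ k := by group
      _ = y * y ^ k := by rw [← h4]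
      _ = y ^ (k + 1) := by rw [pow_succ']
  have h5 : (a * y ^ k) ^ 2 = y ^ (2 * k + 1) := by
    calc (a * y ^ k) ^ 2 = (a * y ^ k * a) * y ^ k := by rw [pow_two]; group
      _ = y ^ (k + 1) * y ^ k := by rw [h3]
      _ = y ^ (2 * k + 1) := by rw [← pow_add]; congr 1; ring
  have hcy : Commute (y ^ (2 * k + 1)) y := (Commute.refl y).pow_left _
  have hcx : Commute (y ^ (2 * k + 1)) (a * y ^ k) := by
    rw [← h5]; exact (Commute.refl _).pow_left _
  have hca : Commute (y ^ (2 * k + 1)) a := by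
    have h6 : a = (a * y ^ k) * (y ^ k)⁻¹ := by group
    rw [h6]
    exact hcx.mul_right (hcy.pow_right k).inv_right
  have hcb : Commute (y ^ (2 * k + 1)) b := by
    rw [hb]
    exact hca.inv_right.mul_right hcy
  exact ⟨h5, h2, hca, hcb⟩

end Pool.Agent.CM
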