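import Pool.Agent.Work.MP_8590b5_gt.CM.Stmts1

/-!
# One positive crossing of the two strands of the torus braid
-/

namespace Pool.Agent.CM

open Finset

private theorem Tw_div0 (k : ℤ) : (2 * k + 1) / 2 = k := by omega

private theorem Tw_div1 (k : ℤ) : (2 * k) / 2 = k := by omega

private theorem Tw_div2 (k : ℤ) : (2 * k + 1 + 1) / 2 = k + 1 := by omega

private theorem Tw_sub {Γ : Type} [Group Γ] (x : Γ) (k : ℤ) :
    x ^ (-k - 1) = (x ^ k)⁻¹ * x⁻¹ := by
  rw [zpow_sub, zpow_one, zpow_neg]

private theorem Tw_add {Γ : Type} [Group Γ] (x : Γ) (k : ℤ) :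
    x ^ (k + 1) = x * x ^ k := by
  rw [add_comm, zpow_add, zpow_one]

theorem pr_Tw : StTw := by
  intro Γ _ a b e
  rcases Int.even_or_odd' e with ⟨k, rfl | rfl⟩
  · have h1 : (2 * k + 1) % 2 ≠ 0 := by omega
    have h0 : (2 * k) % 2 = 0 := by omega
    unfold tw
    rw [if_neg h1, if_pos h0, Tw_div0, Tw_div1]
    refine Prod.ext rfl ?_
    simp only [und, Str.mk.injEq, true_and, Tw_sub, Tw_add, zpow_neg]
    generalize (a * b) ^ k = Y
    generalize a ^ k = X
    constructor
    · group
    · group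
  · have h1 : (2 * k + 1 + 1) % 2 = 0 := by omega
    have h0 : ¬ (2 * k + 1) % 2 = 0 := by omega
    unfold tw
    rw [if_pos h1, if_neg h0, Tw_div0, Tw_div2]
    have e0 : -(k + 1) = -k - 1 := by ring
    rw [e0]
    refine Prod.ext rfl ?_
    simp only [und, Str.mk.injEq, true_and, Tw_sub, Tw_add, zpow_neg]
    generalize (a * b) ^ k = Y
    generalize b ^ k = X
    constructor
    · group
    · group

end Pool.Agent.CM
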