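import Pool.Agent.Work.MP_8590b5_gt.CM.Stmts1

/-!
# Block CM, item Un: before its own piece, a crossing circle is untouched
-/

namespace Pool.Agent.CM

open Finset

private theorem Un_pieces (i : ℕ) : pieces (i + 1) = pieces i ++ piece i := by
  simp [pieces, List.range_succ, List.flatMap_append]

theorem pr_Un : StUn := by
  intro hP Γ _ i g
  induction i with
  | zero =>
    intro p _
    rfl
  | succ i ih =>
    intro p hp
    have e : run (pieces (i + 1)) (start g) = run (piece i) (run (pieces i) (start g)) := by
      rw [Un_pieces]
      exact List.foldl_append
    rw [e, hP Γ i _ p, if_neg (by omega), if_neg (by omega), if_neg (by omega),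
      if_neg (by omega)]
    exact ih p (by omega)

end Pool.Agent.CM
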