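import Pool.Agent.Work.MP_8590b5_gt.CM.Stmts1

/-!
# Block CM, item Vl: the link is valid
-/

set_option autoImplicit false

namespace Pool.Agent.CM

open Finset

theorem Vl_word (N : ℕ) : ∀ c ∈ (lnk N).word, c.1 + 1 < N + 2 := by
  intro c hc
  have hc' : c ∈ pieces N ++ List.replicate (N + 1) (0, true) := hc
  rw [List.mem_append] at hc'
  rcases hc' with h | h
  · unfold pieces at h
    rw [List.mem_flatMap] at h
    obtain ⟨i, hi, h⟩ := h
    rw [List.mem_range] at hi
    unfold piece at h
    rw [List.mem_append, List.mem_append] at h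
    rcases h with (h | h) | h
    · unfold mvIn at h
      rw [List.mem_map] at h
      obtain ⟨j, hj, rfl⟩ := h
      rw [List.mem_range] at hj
      show i + 1 - j + 1 < N + 2
      omega
    · unfold core at h
      simp only [List.mem_cons, List.not_mem_nil, or_false] at h
      rcases h with rfl | rfl | rfl | rfl | rfl <;> simp only <;> omega
    · unfold mvOut at h
      rw [List.mem_map] at h
      obtain ⟨j, hj, rfl⟩ := h
      rw [List.mem_range] at hj
      show j + 2 + 1 < N + 2
      omega
  · rw [List.eq_of_mem_replicate h]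
    show 0 + 1 < N + 2
    omega

theorem pr_Vl : StVl := by
  intro hP hS N
  have hprev : ∀ p, (lnk N).prev p = if p = 0 then 1 else if p = 1 then 0 else p := fun p =>
    hS hP (Multiplicative ℤ) N (fun _ => 1) p
  have hcomp : ∀ p, (lnk N).prev p - 1 = p - 1 := by
    intro p
    rw [hprev]
    split_ifs <;> omega
  have hit : ∀ k p, (lnk N).prev^[k] p - 1 = p - 1 := by
    intro k
    induction k with
    | zero => intro p; rfl
    | succ k ih =>
      intro p
      rw [Function.iterate_succ_apply, ih, hcomp]
  refine ⟨Vl_word N, ?_, ?_, ?_⟩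
  · intro p hp
    have hp' : p < N + 2 := hp
    show p - 1 < N + 1
    omega
  · intro p _ q _
    show p - 1 = q - 1 ↔ _
    constructor
    · intro h
      by_cases hpq : p = q
      · exact ⟨0, hpq⟩
      · refine ⟨1, ?_⟩
        show (lnk N).prev p = q
        rw [hprev]
        split_ifs <;> omega
    · rintro ⟨k, hk⟩
      rw [← hk, hit]
  · intro c hc
    have hc' : c < N + 1 := hc
    refine ⟨c + 1, ?_, ?_⟩
    · show c + 1 < N + 2
      omega
    · show c + 1 - 1 = c
      omega

end Pool.Agent.CM
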