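import Pool.Agent.Work.MP_8590b5_gt.CM.Stmts2

/-!
# Block CM, item Yk: the powers of `y = a b`
-/

namespace Pool.Agent.CM

open Finset

/-- **Yk** -/
theorem pr_Yk : StYk := by
  intro hEe k t n p y hD hy
  obtain ⟨hadd, hint, -, -, hpow, -, -, -, -, -⟩ := hEe
  have hk : (2 * (k : ℝ) + 1) ≠ 0 := by positivity
  -- the entries
  have hy' : y = Matrix.diagonal (fun j => ee ((t.val : ℝ) / 3 + 2 * uu k n j)) := by
    rw [hy]
    unfold dA
    rw [Matrix.diagonal_pow, ← Matrix.diagonal_smul]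
    congr 1
    funext j
    simp only [Pi.smul_apply, Pi.pow_apply, smul_eq_mul]
    rw [hpow, hadd]
    norm_num
  have hyp : ∀ m : ℕ, y ^ m =
      Matrix.diagonal (fun j => ee ((m : ℝ) * ((t.val : ℝ) / 3 + 2 * uu k n j))) := by
    intro m
    rw [hy', Matrix.diagonal_pow]
    congr 1
    funext j
    simp only [Pi.pow_apply]
    rw [hpow]
  have hm : ∀ j, ∃ m : ℤ, (n j : ℝ) + (k : ℝ) * (t.val : ℝ) = 3 * (m : ℝ) := by
    intro j
    obtain ⟨m, hm⟩ := hD.nmod j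
    exact ⟨m, by exact_mod_cast hm⟩
  have e1 : ∀ j, ee ((k : ℝ) * ((t.val : ℝ) / 3 + 2 * uu k n j)) * ee (uu k n j) = 1 := by
    intro j
    obtain ⟨m, hm⟩ := hm j
    rw [← hadd]
    have : (k : ℝ) * ((t.val : ℝ) / 3 + 2 * uu k n j) + uu k n j = (m : ℝ) := by
      unfold uu
      have h3 : (k : ℝ) * ((t.val : ℝ) / 3 + 2 * ((n j : ℝ) / (3 * (2 * (k : ℝ) + 1)))) +
          (n j : ℝ) / (3 * (2 * (k : ℝ) + 1)) = ((n j : ℝ) + (k : ℝ) * (t.val : ℝ)) / 3 := by
        field_simp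
        ring
      rw [h3, hm]
      ring
    rw [this, hint]
  have e2 : ∀ j, ee (((2 * k + 1 : ℕ) : ℝ) * ((t.val : ℝ) / 3 + 2 * uu k n j)) =
      ee ((t.val : ℝ) / 3) := by
    intro j
    obtain ⟨m, hm⟩ := hm j
    have : ((2 * k + 1 : ℕ) : ℝ) * ((t.val : ℝ) / 3 + 2 * uu k n j) =
        (t.val : ℝ) / 3 + ((2 * m : ℤ) : ℝ) := by
      unfold uu
      have h3 : ((2 * k + 1 : ℕ) : ℝ) *
          ((t.val : ℝ) / 3 + 2 * ((n j : ℝ) / (3 * (2 * (k : ℝ) + 1)))) =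
          (t.val : ℝ) / 3 + 2 * ((n j : ℝ) + (k : ℝ) * (t.val : ℝ)) / 3 := by
        push_cast
        field_simp
        ring
      rw [h3, hm]
      push_cast
      ring
    rw [this, hadd, hint, mul_one]
  refine ⟨?_, ?_, ?_⟩
  · rw [hyp]
    unfold dA
    rw [Matrix.diagonal_mul_diagonal, ← Matrix.diagonal_one]
    congr 1
    funext j
    exact e1 j
  · rw [hyp]
    unfold dA
    rw [Matrix.diagonal_mul_diagonal, ← Matrix.diagonal_one]
    congr 1
    funext j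
    rw [mul_comm]
    exact e1 j
  · rw [hyp, Matrix.smul_one_eq_diagonal]
    congr 1
    funext j
    exact e2 j

end Pool.Agent.CM
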