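import Pool.Agent.Work.MP_8590b5_gt.CM.I_Af
import Pool.Agent.Work.MP_8590b5_gt.CM.I_B1
import Pool.Agent.Work.MP_8590b5_gt.CM.I_B2
import Pool.Agent.Work.MP_8590b5_gt.CM.I_Bk
import Pool.Agent.Work.MP_8590b5_gt.CM.I_Br
import Pool.Agent.Work.MP_8590b5_gt.CM.I_Cb
import Pool.Agent.Work.MP_8590b5_gt.CM.I_Cc
import Pool.Agent.Work.MP_8590b5_gt.CM.I_Ch
import Pool.Agent.Work.MP_8590b5_gt.CM.I_Ck
import Pool.Agent.Work.MP_8590b5_gt.CM.I_Cn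
import Pool.Agent.Work.MP_8590b5_gt.CM.I_Co
import Pool.Agent.Work.MP_8590b5_gt.CM.I_Cz
import Pool.Agent.Work.MP_8590b5_gt.CM.I_Df
import Pool.Agent.Work.MP_8590b5_gt.CM.I_Dg
import Pool.Agent.Work.MP_8590b5_gt.CM.I_Dn
import Pool.Agent.Work.MP_8590b5_gt.CM.I_Ec
import Pool.Agent.Work.MP_8590b5_gt.CM.I_Ee
import Pool.Agent.Work.MP_8590b5_gt.CM.I_En
import Pool.Agent.Work.MP_8590b5_gt.CM.I_Ex
import Pool.Agent.Work.MP_8590b5_gt.CM.I_Fd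
import Pool.Agent.Work.MP_8590b5_gt.CM.I_Fi
import Pool.Agent.Work.MP_8590b5_gt.CM.I_Fw
import Pool.Agent.Work.MP_8590b5_gt.CM.I_Gc
import Pool.Agent.Work.MP_8590b5_gt.CM.I_Gn
import Pool.Agent.Work.MP_8590b5_gt.CM.I_Gz
import Pool.Agent.Work.MP_8590b5_gt.CM.I_Ha
import Pool.Agent.Work.MP_8590b5_gt.CM.I_Hb
import Pool.Agent.Work.MP_8590b5_gt.CM.I_Hc
import Pool.Agent.Work.MP_8590b5_gt.CM.I_Hd
import Pool.Agent.Work.MP_8590b5_gt.CM.I_He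
import Pool.Agent.Work.MP_8590b5_gt.CM.I_Hf
import Pool.Agent.Work.MP_8590b5_gt.CM.I_Ht
import Pool.Agent.Work.MP_8590b5_gt.CM.I_Ia
import Pool.Agent.Work.MP_8590b5_gt.CM.I_Inj
import Pool.Agent.Work.MP_8590b5_gt.CM.I_Is
import Pool.Agent.Work.MP_8590b5_gt.CM.I_Ka
import Pool.Agent.Work.MP_8590b5_gt.CM.I_Kc
import Pool.Agent.Work.MP_8590b5_gt.CM.I_Ki
import Pool.Agent.Work.MP_8590b5_gt.CM.I_Ld
import Pool.Agent.Work.MP_8590b5_gt.CM.I_Lg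
import Pool.Agent.Work.MP_8590b5_gt.CM.I_Li
import Pool.Agent.Work.MP_8590b5_gt.CM.I_Lk
import Pool.Agent.Work.MP_8590b5_gt.CM.I_Lp
import Pool.Agent.Work.MP_8590b5_gt.CM.I_Lr
import Pool.Agent.Work.MP_8590b5_gt.CM.I_Ls
import Pool.Agent.Work.MP_8590b5_gt.CM.I_Lu
import Pool.Agent.Work.MP_8590b5_gt.CM.I_Lv
import Pool.Agent.Work.MP_8590b5_gt.CM.I_Lw
import Pool.Agent.Work.MP_8590b5_gt.CM.I_Ma
import Pool.Agent.Work.MP_8590b5_gt.CM.I_Mi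
import Pool.Agent.Work.MP_8590b5_gt.CM.I_Mo
import Pool.Agent.Work.MP_8590b5_gt.CM.I_Mu
import Pool.Agent.Work.MP_8590b5_gt.CM.I_Nf
import Pool.Agent.Work.MP_8590b5_gt.CM.I_Nm
import Pool.Agent.Work.MP_8590b5_gt.CM.I_Pc
import Pool.Agent.Work.MP_8590b5_gt.CM.I_Pj
import Pool.Agent.Work.MP_8590b5_gt.CM.I_Ra
import Pool.Agent.Work.MP_8590b5_gt.CM.I_Rf
import Pool.Agent.Work.MP_8590b5_gt.CM.I_Rg
import Pool.Agent.Work.MP_8590b5_gt.CM.I_Rk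
import Pool.Agent.Work.MP_8590b5_gt.CM.I_Rl
import Pool.Agent.Work.MP_8590b5_gt.CM.I_Rl2
import Pool.Agent.Work.MP_8590b5_gt.CM.I_Rn
import Pool.Agent.Work.MP_8590b5_gt.CM.I_Rp
import Pool.Agent.Work.MP_8590b5_gt.CM.I_Rp2
import Pool.Agent.Work.MP_8590b5_gt.CM.I_Rq
import Pool.Agent.Work.MP_8590b5_gt.CM.I_Rq2
import Pool.Agent.Work.MP_8590b5_gt.CM.I_Rs
import Pool.Agent.Work.MP_8590b5_gt.CM.I_Rt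
import Pool.Agent.Work.MP_8590b5_gt.CM.I_Rv
import Pool.Agent.Work.MP_8590b5_gt.CM.I_Rw
import Pool.Agent.Work.MP_8590b5_gt.CM.I_Rx
import Pool.Agent.Work.MP_8590b5_gt.CM.I_Ry
import Pool.Agent.Work.MP_8590b5_gt.CM.I_Rz
import Pool.Agent.Work.MP_8590b5_gt.CM.I_Sc
import Pool.Agent.Work.MP_8590b5_gt.CM.I_Sj
import Pool.Agent.Work.MP_8590b5_gt.CM.I_Sm
import Pool.Agent.Work.MP_8590b5_gt.CM.I_Sq
import Pool.Agent.Work.MP_8590b5_gt.CM.I_Sr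
import Pool.Agent.Work.MP_8590b5_gt.CM.I_Ss
import Pool.Agent.Work.MP_8590b5_gt.CM.I_Sx
import Pool.Agent.Work.MP_8590b5_gt.CM.I_Ta
import Pool.Agent.Work.MP_8590b5_gt.CM.I_Tg
import Pool.Agent.Work.MP_8590b5_gt.CM.I_Tl
import Pool.Agent.Work.MP_8590b5_gt.CM.I_Tn
import Pool.Agent.Work.MP_8590b5_gt.CM.I_Tq
import Pool.Agent.Work.MP_8590b5_gt.CM.I_Tw
import Pool.Agent.Work.MP_8590b5_gt.CM.I_Un
import Pool.Agent.Work.MP_8590b5_gt.CM.I_V1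
import Pool.Agent.Work.MP_8590b5_gt.CM.I_V2
import Pool.Agent.Work.MP_8590b5_gt.CM.I_Vl
import Pool.Agent.Work.MP_8590b5_gt.CM.I_Yk
import Pool.Agent.Work.MP_8590b5_gt.CM.Asm

/-!
# Block CM: everything together
-/

namespace Pool.Agent.CM

open Finset

theorem all_Pc : PcAt := pr_Pc pr_Mi pr_Mo pr_Co

theorem all_Ch : ChAt := pr_Ch pr_Rn pr_Rl

theorem all_Ck : CkAt := pr_Ck all_Pc pr_Un pr_Dn pr_Af pr_Bk pr_Fw pr_Tw pr_Tn pr_Tl pr_Ka pr_Ki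
  pr_Rp pr_Rq pr_Sc pr_Lg pr_Lk pr_Ex pr_Ta

theorem all_Cz : CzAt := pr_Cz all_Pc pr_Un pr_Dn pr_Af pr_Bk pr_Tw pr_Tn pr_Tl pr_Ka pr_Ki
  pr_Rq pr_Sc pr_Lg pr_Lk

theorem all_Li : LiAt := pr_Li pr_Ee pr_Lw pr_Lp

theorem all_Sj : ∀ (k : ℕ) (a b : SU3), Tor k a b → IrrP a b →
    ∃ (t : Fin 3) (n p : Fin 3 → ℤ) (U : SU3), IsD k t n p ∧
      Mod k t n p (U * a * U⁻¹) (U * b * U⁻¹) :=
  pr_Sj pr_Ee pr_Lw pr_Lp all_Li pr_Lv pr_Lu pr_Tq pr_Sr pr_Rf pr_Nm pr_Pj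

theorem all_Cn : ∀ k : ℕ, Nonempty (PCl k ≃ DSet k) :=
  pr_Cn (pr_Ma pr_Ee pr_Lw pr_Lp all_Li pr_Ls pr_Lr pr_Ld pr_Ia pr_Br pr_Yk) all_Sj
    (pr_Inj pr_Ee all_Li pr_Ld pr_Yk) pr_Mu

theorem all_Hd : ∀ (k : ℕ) (t : Fin 3) (n p : Fin 3 → ℤ) (a b : SU3) (A0 B0 : Mat), IsD k t n p →
    Mod k t n p a b → IrrP a b → Tor k (⟨A0, a⟩ : Aff) ⟨B0, b⟩ →
    ∃ X : Mat, Cob ⟨A0, a⟩ ⟨B0, b⟩ X :=
  pr_Hd pr_Ee pr_Lw pr_Lp all_Li pr_Ls pr_Lr pr_Ld pr_Yk pr_Tq pr_Sm pr_Ha pr_Hb pr_Hc pr_Ht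

theorem all_He : ∀ (k : ℕ) (a b : SU3) (A0 B0 : Mat), Tor k (⟨A0, a⟩ : Aff) ⟨B0, b⟩ →
    ∃ X : Mat, Cob ⟨A0, a⟩ ⟨B0, b⟩ X := by
  intro k a b A0 B0 hT
  by_cases hI : IrrP a b
  · exact pr_He all_Sj all_Hd k a b A0 B0 hI hT
  · exact pr_Rz pr_Kc pr_Tq pr_Ra pr_Rg pr_Rk pr_Rl2 pr_Rs pr_Rp2 pr_Rv pr_Rw pr_Rx pr_Ry
      k a b A0 B0 hI hT

theorem all_Rq : ∀ (N : ℕ) (J : Finset ℕ), J ⊆ range N → ∀ ρ : (lnk N).grp (sub J) →* SU3,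
    Rigid ρ := pr_Rq2 all_Ch all_Ck pr_Gc all_He

theorem all_goal : Goal :=
  asm all_Ch all_Ck all_Cz all_Pc pr_Gc pr_Gn pr_Gz all_Cn pr_B1 pr_B2
    (pr_Ec pr_En pr_Fi pr_Cb pr_Sx pr_Cc pr_V1 pr_V2) pr_Fd pr_Nf pr_Df pr_Dg pr_Sq pr_Ss
    (pr_Vl all_Pc pr_Sc) (pr_Lk all_Pc pr_Sc pr_Lg pr_Rq pr_Un) (pr_Is all_Ch all_Ck pr_Tq)
    (pr_Tg all_Ch all_Cz) pr_Rt all_Rq

end Pool.Agent.CM
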