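import Mathlib

/-!
# Framed links as closed braids, surgery groups, numbers of irreducible SU(3)-characters

Definitions for MP_8590b5_gt (block CM).
-/

namespace Pool.Agent.CM

/-- The state of one strand of a braid diagram, at some height: the number `src` of the position
at which it started at the top, its present label `lab` (the image of its meridian) and the product
`lon` of the labels (with exponents `±1`) under which it has passed. -/
structure Str (Γ : Type*) where
  src : ℕ
  lab : Γ
  lon : Γ

variable {Γ : Type*} [Group Γ]

/-- One crossing between the positions `c.1` and `c.1 + 1`. It is positive (`c.2 = true`) if the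
strand which moves to the right passes under, and negative if the strand which moves to the left
passes under. The under strand with label `a` passes under a strand with label `b`: its label
becomes `b⁻¹ a b` (positive crossing) or `b a b⁻¹` (negative crossing), as in the Wirtinger
presentation. -/
def cross (s : ℕ → Str Γ) (c : ℕ × Bool) : ℕ → Str Γ := fun p =>
  if c.2 = true then
    (if p = c.1 then s (c.1 + 1)
      else if p = c.1 + 1 then
        ⟨(s c.1).src, ((s (c.1 + 1)).lab)⁻¹ * (s c.1).lab * (s (c.1 + 1)).lab,
          (s c.1).lon * (s (c.1 + 1)).lab⟩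
      else s p)
  else
    (if p = c.1 + 1 then s c.1
      else if p = c.1 then
        ⟨(s (c.1 + 1)).src, (s c.1).lab * (s (c.1 + 1)).lab * ((s c.1).lab)⁻¹,
          (s (c.1 + 1)).lon * ((s c.1).lab)⁻¹⟩
      else s p)

/-- A braid word: the crossings from top to bottom. -/
def run (w : List (ℕ × Bool)) (s : ℕ → Str Γ) : ℕ → Str Γ := w.foldl cross s

/-- The initial state with the labels `g`. -/
def start (g : ℕ → Γ) : ℕ → Str Γ := fun p => ⟨p, g p, 1⟩

/-- In the closure of the braid the strand which started at the position `(s p).src` and ends at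
the position `p` is continued by the strand `p`. `longi s t`: the product of the `lon` of all the
strands of the component of the strand `t`, in the order in which they are passed, starting
with `t`. -/
noncomputable def longi (s : ℕ → Str Γ) (t : ℕ) : Γ :=
  ((List.range (Function.minimalPeriod (fun p => (s p).src) t)).reverse.map
    (fun j => (s ((fun p => (s p).src)^[j] t)).lon)).prod

/-- A framed link in the 3-sphere, given as the closure of a braid with `n` strands, with `d`
components; `comp p` is the component of the strand `p < n` and `fr c` the framing of the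
component `c < d`. -/
structure FLink where
  n : ℕ
  d : ℕ
  word : List (ℕ × Bool)
  comp : ℕ → ℕ
  fr : ℕ → ℤ

/-- The strand which ends at the position `p`. -/
def FLink.prev (L : FLink) (p : ℕ) : ℕ := (run L.word (start (fun _ => (1 : Multiplicative ℤ))) p).src

/-- The data describe a link with `d` components: the generators occur between neighbouring
strands, and the components are exactly the cycles of the closure. -/
structure FLink.Valid (L : FLink) : Prop where
  word_lt : ∀ c ∈ L.word, c.1 + 1 < L.n
  comp_lt : ∀ p < L.n, L.comp p < L.d
  comp_iff : ∀ p < L.n, ∀ q < L.n, (L.comp p = L.comp q ↔ ∃ k, L.prev^[k] p = q)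
  comp_surj : ∀ c < L.d, ∃ p < L.n, L.comp p = c

/-- The exponent sum of the meridians of the component `c` in the longitude `longi` of the strand
`t`. If `t` does not belong to `c`, this is the linking number of the component `c` with the
component of `t`; if `t` belongs to `c`, it is the writhe of the component `c` (so that
`x_t ^ (-lk) * longi` is its preferred longitude, of linking number `0` with `c`). -/
noncomputable def FLink.lk (L : FLink) (c t : ℕ) : ℤ :=
  Multiplicative.toAdd (longi (run L.word (start fun p =>
    if L.comp p = c ∧ p < L.n then Multiplicative.ofAdd (1 : ℤ) else 1)) t)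

/-- The final state of the universal colouring. -/
def FLink.st (L : FLink) : ℕ → Str (FreeGroup ℕ) := run L.word (start FreeGroup.of)

/-- The relators of the fundamental group of the 3-manifold which is obtained from the 3-sphere by
surgery on the sublink `S` (a set of components): the Wirtinger relations of the closed braid, the
curves (of slope the framing) to which the new discs are attached for the components in `S`, and
the meridians of the components not in `S` (and of the positions `p ≥ n` without strands). -/
def FLink.rels (L : FLink) (S : Finset ℕ) : Set (FreeGroup ℕ) :=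
  {w | ∃ p < L.n, w = (FreeGroup.of p)⁻¹ * (L.st p).lab} ∪
  {w | ∃ p < L.n, L.comp p ∈ S ∧
    w = FreeGroup.of p ^ (L.fr (L.comp p) - L.lk (L.comp p) p) * longi L.st p} ∪
  {w | ∃ p < L.n, L.comp p ∉ S ∧ w = FreeGroup.of p} ∪
  {w | ∃ p, L.n ≤ p ∧ w = FreeGroup.of p}

/-- The fundamental group of the 3-manifold obtained from the 3-sphere by surgery on the
sublink `S` of `L`. -/
abbrev FLink.grp (L : FLink) (S : Finset ℕ) : Type := PresentedGroup (L.rels S)

/-- The group `SU(3)`. -/
abbrev SU3 : Type := Matrix.specialUnitaryGroup (Fin 3) ℂ

/-- A homomorphism to `SU(3)` is irreducible if it has no invariant subspace. -/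
def Irr {G : Type*} [Group G] (ρ : G →* SU3) : Prop :=
  ∀ W : Submodule ℂ (Fin 3 → ℂ),
    (∀ g : G, ∀ v ∈ W, ((ρ g : SU3) : Matrix (Fin 3) (Fin 3) ℂ).mulVec v ∈ W) → W = ⊥ ∨ W = ⊤

/-- Conjugacy of irreducible homomorphisms to `SU(3)`. -/
def irrSetoid (G : Type*) [Group G] : Setoid {ρ : G →* SU3 // Irr ρ} where
  r ρ σ := ∃ u : SU3, ∀ g, σ.1 g = u * ρ.1 g * u⁻¹
  iseqv :=
    { refl := fun ρ => ⟨1, fun g => by simp⟩
      symm := by
        rintro ρ σ ⟨u, hu⟩
        refine ⟨u⁻¹, fun g => ?_⟩
        rw [hu g]; group
      trans := by
        rintro ρ σ τ ⟨u, hu⟩ ⟨v, hv⟩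
        refine ⟨v * u, fun g => ?_⟩
        rw [hv g, hu g]; group }

/-- The conjugacy classes of irreducible homomorphisms `G → SU(3)`. -/
abbrev IrrCl (G : Type*) [Group G] : Type _ := Quotient (irrSetoid G)

/-- The number of conjugacy classes of irreducible homomorphisms `G → SU(3)`. -/
noncomputable def N3 (G : Type*) [Group G] : ℕ := Nat.card (IrrCl G)

/-- Complex 3 by 3 matrices. -/
abbrev Mat : Type := Matrix (Fin 3) (Fin 3) ℂ

/-- Every 1-cocycle of `G` with values in the complex 3 by 3 matrices (on which `G` acts by
conjugation through `ρ`) is a coboundary: `H¹(G; sl(3,ℂ)) = 0 = H¹(G; ℂ)`. -/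
def Rigid {G : Type} [Group G] (ρ : G →* SU3) : Prop :=
  ∀ c : G → Mat, (∀ g h, c (g * h) = c g + (ρ g : Mat) * c h * ((ρ g)⁻¹ : SU3)) →
    ∃ X : Mat, ∀ g, c g = X - (ρ g : Mat) * X * ((ρ g)⁻¹ : SU3)

/-- The fundamental group `⟨x, y | x² = y^(2k+1) = (x y^(-k))^(4k+3)⟩` of the Brieskorn sphere
`Σ(2, 2k+1, 4k+3)` (for `k = 0` the trivial group of the 3-sphere); `x = of true`,
`y = of false`. -/
def BG (k : ℕ) : Type := PresentedGroup
  ({FreeGroup.of true ^ 2 * (FreeGroup.of false ^ (2 * k + 1))⁻¹,
    FreeGroup.of true ^ 2 *
      ((FreeGroup.of true * (FreeGroup.of false ^ k)⁻¹) ^ (4 * k + 3))⁻¹} : Set (FreeGroup Bool))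

noncomputable instance (k : ℕ) : Group (BG k) := by unfold BG; infer_instance

end Pool.Agent.CM
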