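import Pool.Agent.Work.MP_8590b5_gt.CM.Defs

/-!
# Block CM: the combinatorial data of the irreducible SU(3)-representations
-/

namespace Pool.Agent.CM

open Finset

/-- The number of irreducible SU(3)-characters of the (-1)-surgery on `T(2, 2k+1)`. -/
def Np (k : ℕ) : ℕ :=
  k * (k + 1) ^ 3 - 2 * ∑ c ∈ range (k / 2 + 1), (k - 2 * c) * (k - 2 * c + 1)

/-- `IsD k t n p`: with `q = 2k+1`, `r = 4k+3` the numbers `e(n_j/(3q))` are the eigenvalues of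
`A = y^(-k)` and `e(p_j/(6r))` those of `B`, and they are interlaced on the circle; the central
element `x² = y^q` acts as `e(t/3)`. -/
structure IsD (k : ℕ) (t : Fin 3) (n p : Fin 3 → ℤ) : Prop where
  n0 : 0 ≤ n 0
  n01 : n 0 < n 1
  n12 : n 1 < n 2
  n2 : n 2 < 3 * (2 * (k : ℤ) + 1)
  nmod : ∀ j, (3 : ℤ) ∣ n j + (k : ℤ) * (t.val : ℤ)
  nsum : (3 * (2 * (k : ℤ) + 1)) ∣ n 0 + n 1 + n 2
  pmod : ∀ j, (6 : ℤ) ∣ p j - 3 - 2 * (t.val : ℤ) * ((k : ℤ) + 1)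
  i0 : 2 * (4 * (k : ℤ) + 3) * n 0 < (2 * (k : ℤ) + 1) * p 0
  i0' : (2 * (k : ℤ) + 1) * p 0 < 2 * (4 * (k : ℤ) + 3) * n 1
  i1 : 2 * (4 * (k : ℤ) + 3) * n 1 < (2 * (k : ℤ) + 1) * p 1
  i1' : (2 * (k : ℤ) + 1) * p 1 < 2 * (4 * (k : ℤ) + 3) * n 2
  i2 : 2 * (4 * (k : ℤ) + 3) * n 2 < (2 * (k : ℤ) + 1) * p 2
  i2' : (2 * (k : ℤ) + 1) * p 2 < 2 * (4 * (k : ℤ) + 3) * (n 0 + 3 * (2 * (k : ℤ) + 1))
  psum : (2 * (k : ℤ) + 1) * (p 0 + p 1 + p 2) =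
    2 * (4 * (k : ℤ) + 3) * (n 0 + n 1 + n 2) + 3 * (2 * (k : ℤ) + 1) * (4 * (k : ℤ) + 3)

/-- The set of these data. -/
abbrev DSet (k : ℕ) : Type :=
  {z : Fin 3 × (Fin 3 → ℤ) × (Fin 3 → ℤ) // IsD k z.1 z.2.1 z.2.2}

end Pool.Agent.CM
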