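import Pool.Agent.Work.MP_8590b5_gt.CM.Stmts1

/-!
Block CM, item Af: the states at the positions 0, 1 after `i` pieces.
-/

namespace Pool.Agent.CM

open Finset

private theorem Af_pieces {Γ : Type} [Group Γ] (i : ℕ) (s : ℕ → Str Γ) :
    run (pieces (i + 1)) s = run (piece i) (run (pieces i) s) := by
  unfold pieces run
  rw [List.range_succ, List.flatMap_append, List.foldl_append]
  simp

private theorem Af_und_bump {Γ : Type} [Group Γ] (a b : Γ) (t : ℕ) (X : Str Γ) (c : Γ) :
    und (bump a b t X) c = bump a b t (und X c) := by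
  unfold und bump
  simp only [mul_assoc]

private theorem Af_base {Γ : Type} [Group Γ] (J : Finset ℕ) (g : ℕ → Γ) : After J g 0 := by
  have h1 : run (pieces 0) (start g) = start g := rfl
  have h2 : tw (g 0) (g 1) 0 = ((⟨0, g 0, 1⟩, ⟨1, g 1, 1⟩) : Str Γ × Str Γ) := by
    unfold tw
    simp
  unfold After
  rw [h1]
  have h3 : ex J 0 = 0 := rfl
  have h4 : tc J 0 = 0 := by
    unfold tc
    simp
  rw [h3, h4, h2]
  unfold start bump
  simp

private theorem Af_tc_succ (J : Finset ℕ) (i : ℕ) :
    tc J (i + 1) = tc J i + (if i ∈ J then 1 else 0) := by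
  unfold tc
  by_cases h : i ∈ J
  · rw [if_pos h]
    have h1 : J.filter (· < i + 1) = insert i (J.filter (· < i)) := by
      ext x
      simp only [mem_filter, mem_insert]
      constructor
      · rintro ⟨h2, h3⟩
        rcases Nat.lt_succ_iff_lt_or_eq.1 h3 with h4 | h4
        · exact Or.inr ⟨h2, h4⟩
        · exact Or.inl h4
      · rintro (h2 | ⟨h2, h3⟩)
        · subst h2
          exact ⟨h, Nat.lt_succ_self _⟩
        · exact ⟨h2, Nat.lt_succ_of_lt h3⟩
    rw [h1, card_insert_of_notMem]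
    simp
  · rw [if_neg h, add_zero]
    congr 1
    ext x
    simp only [mem_filter]
    constructor
    · rintro ⟨h2, h3⟩
      refine ⟨h2, ?_⟩
      rcases Nat.lt_succ_iff_lt_or_eq.1 h3 with h4 | h4
      · exact h4
      · exact absurd (h4 ▸ h2) h
    · rintro ⟨h2, h3⟩
      exact ⟨h2, Nat.lt_succ_of_lt h3⟩

private theorem Af_lon {Γ : Type} [Group Γ] (a b : Γ) (t : ℕ) (X : Str Γ)
    (h : X.lon * X.lab = (if X.src = 0 then a else b) * X.lon) :
    (bump a b t X).lon * (bump a b t X).lab = (if X.src = 0 then a else b) * (bump a b t X).lon := by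
  have h1 : (bump a b t X).lon = (if X.src = 0 then a else b) ^ t * X.lon := rfl
  have h2 : (bump a b t X).lab = X.lab := rfl
  rw [h1, h2]
  generalize (if X.src = 0 then a else b) = c at *
  rw [mul_assoc, h, ← mul_assoc, ← mul_assoc, ← pow_succ, ← pow_succ']

theorem pr_Af : StAf := by
  intro hPc hUn hTw hTn hTl hKa hKi Γ _ N J g hg i
  induction i with
  | zero => intro _; exact Af_base J g
  | succ i ih =>
    intro hi
    obtain ⟨ihA, ihB⟩ := ih (by omega)
    have hC := hUn hPc Γ i g (i + 2) le_rfl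
    have hgi := hg i (by omega)
    unfold After
    rw [Af_pieces]
    have p0 := hPc Γ i (run (pieces i) (start g)) 0
    have p1 := hPc Γ i (run (pieces i) (start g)) 1
    rw [if_pos rfl] at p0
    rw [if_neg one_ne_zero, if_pos rfl] at p1
    rw [p0, p1, hC, ihA, ihB]
    by_cases hJ : i ∈ J
    · have h1 : ex J (i + 1) = ex J i - 1 := by
        have : ex J (i + 1) = ex J i + (if i ∈ J then -1 else 1) := rfl
        rw [this, if_pos hJ]
        ring
      have h2 : tc J (i + 1) = tc J i + 1 := by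
        rw [Af_tc_succ, if_pos hJ]
      have h3 : g (i + 2) = (tw (g 0) (g 1) (ex J i)).2.lab *
          ((tw (g 0) (g 1) (ex J i)).1.lab)⁻¹ := by
        rw [hgi]
        unfold cval
        rw [if_pos hJ]
      obtain ⟨t1, t2, -, -⟩ := hTl Γ (g 0) (g 1) (ex J i)
      obtain ⟨-, k2⟩ := hKa Γ (bump (g 0) (g 1) (tc J i) (tw (g 0) (g 1) (ex J i)).1)
        (bump (g 0) (g 1) (tc J i) (tw (g 0) (g 1) (ex J i)).2) ⟨i + 2, g (i + 2), 1⟩
        _ _ rfl (Af_lon _ _ _ _ t1) (Af_lon _ _ _ _ t2)
      obtain ⟨-, k3, k4⟩ := k2 h3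
      rw [k3, k4, h1, h2, hTn hTw Γ (g 0) (g 1) (ex J i)]
      constructor
      · unfold und bump
        simp only [inv_inv, pow_succ', mul_assoc]
      · unfold bump
        simp only [pow_succ', mul_assoc]
    · have h1 : ex J (i + 1) = ex J i + 1 := by
        have : ex J (i + 1) = ex J i + (if i ∈ J then -1 else 1) := rfl
        rw [this, if_neg hJ]
      have h2 : tc J (i + 1) = tc J i := by
        rw [Af_tc_succ, if_neg hJ, add_zero]
      have h3 : g (i + 2) = 1 := by
        rw [hgi]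
        unfold cval
        rw [if_neg hJ]
      obtain ⟨k1, k2, -⟩ := hKi Γ (bump (g 0) (g 1) (tc J i) (tw (g 0) (g 1) (ex J i)).1)
        (bump (g 0) (g 1) (tc J i) (tw (g 0) (g 1) (ex J i)).2) ⟨i + 2, g (i + 2), 1⟩ h3
      rw [k1, k2, h1, h2, hTw Γ (g 0) (g 1) (ex J i)]
      refine ⟨rfl, ?_⟩
      rw [Af_und_bump]
      rfl

end Pool.Agent.CM
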