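import Pool.Agent.Work.MP_8590b5_gt.CM.Stmts2

/-!
# Item Cn of block CM: the classes of the pairs and the combinatorial data
-/

set_option autoImplicit false

namespace Pool.Agent.CM

open Finset

/-- Item [Cn] -/
theorem pr_Cn : StCn := by
  intro hMa hSj hInj hMu k
  choose fa fb hMod hTor hIrr using hMa
  set f : DSet k → PCl k := fun z =>
    Quotient.mk (pSetoid k) ⟨(fa k z.1.1 z.1.2.1 z.1.2.2 z.2, fb k z.1.1 z.1.2.1 z.1.2.2 z.2),
      hTor k z.1.1 z.1.2.1 z.1.2.2 z.2, hIrr k z.1.1 z.1.2.1 z.1.2.2 z.2⟩ with hf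
  have hinj : Function.Injective f := by
    rintro ⟨⟨t, n, p⟩, hz⟩ ⟨⟨t', n', p'⟩, hz'⟩ h
    obtain ⟨u, h1, h2⟩ := Quotient.exact h
    have h1' : fa k t' n' p' hz' = u * fa k t n p hz * u⁻¹ := h1
    have h2' : fb k t' n' p' hz' = u * fb k t n p hz * u⁻¹ := h2
    have hM' := hMod k t' n' p' hz'
    rw [h1', h2'] at hM'
    obtain ⟨e1, e2, e3⟩ := hInj k t t' n n' p p' _ _ u hz hz' (hMod k t n p hz) hM'
    subst e1 e2 e3
    rfl
  have hsurj : Function.Surjective f := by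
    intro q
    induction q using Quotient.inductionOn with
    | h P =>
      obtain ⟨⟨a, b⟩, hT, hI⟩ := P
      obtain ⟨t, n, p, U, hD, hM⟩ := hSj k a b hT hI
      obtain ⟨e1, e2⟩ := hMu k t n p _ _ _ _ hM (hMod k t n p hD)
      refine ⟨⟨(t, n, p), hD⟩, ?_⟩
      refine Quotient.sound ⟨U⁻¹, ?_, ?_⟩
      · show a = U⁻¹ * fa k t n p hD * U⁻¹⁻¹
        rw [← e1]
        group
      · show b = U⁻¹ * fb k t n p hD * U⁻¹⁻¹
        rw [← e2]
        group
  exact ⟨(Equiv.ofBijective f ⟨hinj, hsurj⟩).symm⟩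

end Pool.Agent.CM
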