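import Pool.Agent.Work.MP_8590b5_gt.CM.Stmts6

/-! # Block CM, item Fd -/

namespace Pool.Agent.CM

open Finset

theorem pr_Fd : StFd := by
  intro k
  have hk : (0 : ℤ) ≤ (k : ℤ) := Int.natCast_nonneg k
  set M : ℤ := 12 * (4 * (k : ℤ) + 3) with hM
  have hfin : Set.Finite ((Set.univ : Set (Fin 3)) ×ˢ
      ((Set.pi Set.univ (fun _ : Fin 3 => Set.Icc (0 : ℤ) M)) ×ˢ
        (Set.pi Set.univ (fun _ : Fin 3 => Set.Icc (0 : ℤ) M)))) := by
    apply Set.Finite.prod Set.finite_univ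
    apply Set.Finite.prod
    · exact Set.Finite.pi' (fun _ => Set.finite_Icc _ _) |>.subset (fun x hx i => hx i (Set.mem_univ i))
    · exact Set.Finite.pi' (fun _ => Set.finite_Icc _ _) |>.subset (fun x hx i => hx i (Set.mem_univ i))
  apply Set.Finite.subset hfin
  rintro ⟨t, n, p⟩ h
  have h : IsD k t n p := h
  have h0 := h.n0
  have h1 := h.n01
  have h2 := h.n12
  have h3 := h.n2
  have a0 := h.i0
  have a1 := h.i0'
  have a2 := h.i1
  have a3 := h.i1'
  have a4 := h.i2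
  have a5 := h.i2'
  have hq : (0 : ℤ) < 2 * (k : ℤ) + 1 := by positivity
  have hr : (0 : ℤ) < 4 * (k : ℤ) + 3 := by positivity
  have p0 : 0 < p 0 := by
    by_contra hc
    push Not at hc
    nlinarith [mul_nonneg hr.le h0]
  have p1 : p 0 < p 1 := by
    by_contra hc
    push Not at hc
    nlinarith
  have p2 : p 1 < p 2 := by
    by_contra hc
    push Not at hc
    nlinarith
  have p3 : p 2 < M := by
    by_contra hc
    push Not at hc
    have b1 : (2 * (k : ℤ) + 1) * M ≤ (2 * (k : ℤ) + 1) * p 2 := mul_le_mul_of_nonneg_left hc hq.le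
    have b2 : 2 * (4 * (k : ℤ) + 3) * (n 0 + 3 * (2 * (k : ℤ) + 1)) ≤
        2 * (4 * (k : ℤ) + 3) * (6 * (2 * (k : ℤ) + 1)) :=
      mul_le_mul_of_nonneg_left (by linarith) (by positivity)
    have b3 : (2 * (k : ℤ) + 1) * M = 2 * (4 * (k : ℤ) + 3) * (6 * (2 * (k : ℤ) + 1)) := by
      rw [hM]; ring
    linarith
  refine ⟨Set.mem_univ _, ?_, ?_⟩
  · intro i _
    fin_cases i
    · change 0 ≤ n 0 ∧ n 0 ≤ M
      constructor <;> (rw [hM] at *; linarith)
    · change 0 ≤ n 1 ∧ n 1 ≤ M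
      constructor <;> (rw [hM] at *; linarith)
    · change 0 ≤ n 2 ∧ n 2 ≤ M
      constructor <;> (rw [hM] at *; linarith)
  · intro i _
    fin_cases i
    · change 0 ≤ p 0 ∧ p 0 ≤ M
      constructor <;> linarith
    · change 0 ≤ p 1 ∧ p 1 ≤ M
      constructor <;> linarith
    · change 0 ≤ p 2 ∧ p 2 ≤ M
      constructor <;> linarith

end Pool.Agent.CM
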