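import Pool.Agent.Work.MP_8590b5_gt.CM.Stmts4

/-!
# Block CM, item He: from the normal form to all irreducible pairs
-/

namespace Pool.Agent.CM

open Finset

private theorem He_Tor {Γ Δ : Type} [Group Γ] [Group Δ] (f : Γ →* Δ) {k : ℕ} {a b : Γ}
    (h : Tor k a b) : Tor k (f a) (f b) := by
  obtain ⟨h1, h2⟩ := h
  constructor
  · have h3 := congrArg f h1
    simpa only [map_mul, map_pow, map_inv] using h3
  · have h3 := congrArg f h2
    simpa only [map_mul, map_pow, map_inv] using h3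

/-- The linear part. -/
private def He_lin : Aff →* SU3 where
  toFun := Aff.l
  map_one' := Aff.one_l
  map_mul' := Aff.mul_l

private theorem He_conj (A : Mat) (a U : SU3) :
    (⟨0, U⟩ : Aff) * ⟨A, a⟩ * (⟨0, U⟩ : Aff)⁻¹ =
      ⟨(U : Mat) * A * ((U⁻¹ : SU3) : Mat), U * a * U⁻¹⟩ := by
  ext1
  · rw [Aff.mul_v, Aff.mul_v, Aff.inv_v]
    simp
  · rw [Aff.mul_l, Aff.mul_l, Aff.inv_l]

private theorem He_calc {U V a b A X : Mat} (h1 : V * U = 1)
    (h : U * A * V = X - U * a * V * X * (U * b * V)) :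
    A = V * X * U - a * (V * X * U) * b := by
  calc A = (V * U) * A * (V * U) := by rw [h1, Matrix.one_mul, Matrix.mul_one]
    _ = V * (U * A * V) * U := by simp only [Matrix.mul_assoc]
    _ = V * (X - U * a * V * X * (U * b * V)) * U := by rw [h]
    _ = V * X * U - (V * U) * (a * (V * X * U) * b) * (V * U) := by
        simp only [Matrix.mul_sub, Matrix.sub_mul, Matrix.mul_assoc]
    _ = V * X * U - a * (V * X * U) * b := by rw [h1, Matrix.one_mul, Matrix.mul_one]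

private theorem He_irr {a b : SU3} (U : SU3) (h : IrrP a b) :
    IrrP (U * a * U⁻¹) (U * b * U⁻¹) := by
  have key : ∀ (x : SU3) (v : Fin 3 → ℂ),
      (U : Mat).mulVec ((x : Mat).mulVec v) =
        ((U * x * U⁻¹ : SU3) : Mat).mulVec ((U : Mat).mulVec v) := by
    intro x v
    rw [Matrix.mulVec_mulVec, Matrix.mulVec_mulVec, Aff_aux, Aff_aux, Matrix.mul_assoc,
      Aff_inv, Matrix.mul_one]
  have back : ∀ v : Fin 3 → ℂ, (U : Mat).mulVec (((U⁻¹ : SU3) : Mat).mulVec v) = v := by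
    intro v
    rw [Matrix.mulVec_mulVec, Aff_inv', Matrix.one_mulVec]
  intro W ha hb
  have hW := h (W.comap (U : Mat).mulVecLin) (by
      intro v hv
      rw [Submodule.mem_comap, Matrix.mulVecLin_apply] at hv ⊢
      rw [key a v]
      exact ha _ hv) (by
      intro v hv
      rw [Submodule.mem_comap, Matrix.mulVecLin_apply] at hv ⊢
      rw [key b v]
      exact hb _ hv)
  rcases hW with hW | hW
  · left
    rw [eq_bot_iff]
    intro v hv
    have h1 : ((U⁻¹ : SU3) : Mat).mulVec v ∈ W.comap (U : Mat).mulVecLin := by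
      rw [Submodule.mem_comap, Matrix.mulVecLin_apply, back]
      exact hv
    rw [hW, Submodule.mem_bot] at h1
    rw [Submodule.mem_bot, ← back v, h1, Matrix.mulVec_zero]
  · right
    rw [eq_top_iff]
    intro v _
    have h1 : ((U⁻¹ : SU3) : Mat).mulVec v ∈ W.comap (U : Mat).mulVecLin := by
      rw [hW]
      exact Submodule.mem_top
    rw [Submodule.mem_comap, Matrix.mulVecLin_apply, back] at h1
    exact h1

private theorem He_back {A X : Mat} {a U : SU3}
    (h : (U : Mat) * A * ((U⁻¹ : SU3) : Mat) =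
      X - ((U * a * U⁻¹ : SU3) : Mat) * X * (((U * a * U⁻¹)⁻¹ : SU3) : Mat)) :
    A = ((U⁻¹ : SU3) : Mat) * X * (U : Mat) -
      (a : Mat) * (((U⁻¹ : SU3) : Mat) * X * (U : Mat)) * ((a⁻¹ : SU3) : Mat) := by
  have h2 : (U * a * U⁻¹)⁻¹ = U * a⁻¹ * U⁻¹ := by group
  rw [h2, Aff_aux, Aff_aux, Aff_aux, Aff_aux] at h
  exact He_calc (Aff_inv U) h

theorem pr_He : StHe := by
  intro H1 H2 k a b A0 B0 hI hT
  have hT' : Tor k a b := He_Tor He_lin hT
  obtain ⟨t, n, p, U, hD, hM⟩ := H1 k a b hT' hI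
  have hTc := He_Tor (MulAut.conj (⟨0, U⟩ : Aff)).toMonoidHom hT
  have e1 : (MulAut.conj (⟨0, U⟩ : Aff)).toMonoidHom ⟨A0, a⟩ =
      ⟨(U : Mat) * A0 * ((U⁻¹ : SU3) : Mat), U * a * U⁻¹⟩ := He_conj A0 a U
  have e2 : (MulAut.conj (⟨0, U⟩ : Aff)).toMonoidHom ⟨B0, b⟩ =
      ⟨(U : Mat) * B0 * ((U⁻¹ : SU3) : Mat), U * b * U⁻¹⟩ := He_conj B0 b U
  rw [e1, e2] at hTc
  obtain ⟨X, hX1, hX2⟩ := H2 k t n p (U * a * U⁻¹) (U * b * U⁻¹) _ _ hD hM (He_irr U hI) hTc
  exact ⟨((U⁻¹ : SU3) : Mat) * X * (U : Mat), He_back hX1, He_back hX2⟩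

end Pool.Agent.CM
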