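import Pool.Agent.Work.MP_8590b5_gt.CM.Stmts1

/-! Block CM, item Lg (helper12): the longitudes of the link. -/

namespace Pool.Agent.CM

open Finset

/-- the source map -/
private def Lg_f (p : ℕ) : ℕ := if p = 0 then 1 else if p = 1 then 0 else p

private theorem Lg_p0 : Function.minimalPeriod Lg_f 0 = 2 := by
  have : Fact (Nat.Prime 2) := ⟨Nat.prime_two⟩
  refine Function.minimalPeriod_eq_prime ?_ ?_
  · show Lg_f (Lg_f 0) = 0
    rfl
  · intro h
    have h' : Lg_f 0 = 0 := h
    exact absurd h' (by decide)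

private theorem Lg_p1 : Function.minimalPeriod Lg_f 1 = 2 := by
  have : Fact (Nat.Prime 2) := ⟨Nat.prime_two⟩
  refine Function.minimalPeriod_eq_prime ?_ ?_
  · show Lg_f (Lg_f 1) = 1
    rfl
  · intro h
    have h' : Lg_f 1 = 1 := h
    exact absurd h' (by decide)

private theorem Lg_p2 (p : ℕ) (hp : 2 ≤ p) : Function.minimalPeriod Lg_f p = 1 := by
  refine Function.minimalPeriod_eq_one_iff_isFixedPt.2 ?_
  show Lg_f p = p
  unfold Lg_f
  rw [if_neg (by omega), if_neg (by omega)]

theorem pr_Lg : StLg := by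
  intro hP hSc Γ _ N g
  have hf : (fun p => (run (lnk N).word (start g) p).src) = Lg_f := by
    funext p
    exact hSc hP Γ N g p
  unfold longi
  rw [hf]
  refine ⟨?_, ?_, ?_⟩
  · rw [Lg_p0]
    show ([1, 0].map fun j => (run (lnk N).word (start g) (Lg_f^[j] 0)).lon).prod = _
    simp only [List.map_cons, List.map_nil, List.prod_cons, List.prod_nil, mul_one]
    rfl
  · rw [Lg_p1]
    show ([1, 0].map fun j => (run (lnk N).word (start g) (Lg_f^[j] 1)).lon).prod = _
    simp only [List.map_cons, List.map_nil, List.prod_cons, List.prod_nil, mul_one]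
    rfl
  · intro p hp
    rw [Lg_p2 p hp]
    show ([0].map fun j => (run (lnk N).word (start g) (Lg_f^[j] p)).lon).prod = _
    simp only [List.map_cons, List.map_nil, List.prod_cons, List.prod_nil, mul_one]
    rfl

end Pool.Agent.CM
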