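import Pool.Agent.Work.MP_8590b5_gt.CM.Stmts1

/-! Item Mi of block CM -/

namespace Pool.Agent.CM

open Finset

private theorem Mi_succ (i : ℕ) : mvIn (i + 1) = (i + 2, true) :: mvIn i := by
  unfold mvIn
  rw [List.range_succ_eq_map, List.map_cons, List.map_map]
  congr 1
  apply List.map_congr_left
  intro j _
  simp only [Function.comp]
  congr 1
  omega

theorem pr_Mi : StMi := by
  intro Γ _ i
  induction i with
  | zero =>
    intro s p
    have h1 : mvIn 0 = [] := rfl
    rw [h1]
    by_cases hp : p = 2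
    · rw [if_pos hp, hp]
      rfl
    · rw [if_neg hp, if_neg (by omega)]
      rfl
  | succ i ih =>
    intro s p
    rw [Mi_succ]
    have h1 : run ((i + 2, true) :: mvIn i) s = run (mvIn i) (cross s (i + 2, true)) := rfl
    have h2 : ∀ q, cross s (i + 2, true) q = if q = i + 2 then s (i + 2 + 1)
        else if q = i + 2 + 1 then und (s (i + 2)) (s (i + 2 + 1)).lab else s q := fun q => rfl
    have c1 : cross s (i + 2, true) (i + 2) = s (i + 2 + 1) := by
      rw [h2, if_pos rfl]
    have c2 : cross s (i + 2, true) (i + 2 + 1) = und (s (i + 2)) (s (i + 2 + 1)).lab := by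
      rw [h2, if_neg (by omega), if_pos rfl]
    have c3 : ∀ q, q ≠ i + 2 → q ≠ i + 2 + 1 → cross s (i + 2, true) q = s q := by
      intro q hq1 hq2
      rw [h2, if_neg hq1, if_neg hq2]
    have e3 : i + 1 + 2 = i + 2 + 1 := by omega
    rw [h1, ih, c1, e3]
    by_cases hp : p = 2
    · rw [if_pos hp, if_pos hp]
    · rw [if_neg hp, if_neg hp]
      by_cases h3 : 3 ≤ p ∧ p ≤ i + 2
      · have h3' : 3 ≤ p ∧ p ≤ i + 2 + 1 := ⟨h3.1, by omega⟩
        rw [if_pos h3, if_pos h3', c3 (p - 1) (by omega) (by omega)]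
      · rw [if_neg h3]
        by_cases h4 : p = i + 2 + 1
        · have h3' : 3 ≤ p ∧ p ≤ i + 2 + 1 := ⟨by omega, by omega⟩
          have h5 : p - 1 = i + 2 := by omega
          rw [if_pos h3', h5, h4, c2]
        · have h3' : ¬ (3 ≤ p ∧ p ≤ i + 2 + 1) := by omega
          rw [if_neg h3']
          by_cases h5 : p = i + 2
          · omega
          · exact c3 p h5 h4

end Pool.Agent.CM
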