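import Pool.Agent.Work.MP_8590b5_gt.CM.Stmts6

/-! # Block CM, item Rk -/

namespace Pool.Agent.CM

open Finset

private def Rk_hom : Multiplicative Mat →* Aff where
  toFun X := ⟨X.toAdd, 1⟩
  map_one' := rfl
  map_mul' X Y := by
    ext1
    · change X.toAdd + Y.toAdd = X.toAdd + ((1 : SU3) : Mat) * Y.toAdd * (((1 : SU3)⁻¹ : SU3) : Mat)
      simp
    · change (1 : SU3) = 1 * 1
      simp

theorem pr_Rk : StRk := by
  intro hKc k A0 B0 h
  have hinj : Function.Injective Rk_hom := by
    intro X Y hXY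
    have : (Rk_hom X).v = (Rk_hom Y).v := by rw [hXY]
    exact this
  have h1 : Tor k (Multiplicative.ofAdd A0) (Multiplicative.ofAdd B0) := by
    obtain ⟨ha, hb⟩ := h
    have e1 : (⟨A0, 1⟩ : Aff) = Rk_hom (Multiplicative.ofAdd A0) := rfl
    have e2 : (⟨B0, 1⟩ : Aff) = Rk_hom (Multiplicative.ofAdd B0) := rfl
    rw [e1, e2] at ha hb
    constructor
    · apply hinj
      rw [map_mul, map_inv, map_mul, map_pow, map_mul]
      exact ha
    · apply hinj
      rw [map_pow, map_pow, map_mul]
      exact hb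
  have h2 := hKc (Multiplicative Mat) k _ _ h1
  exact h2

end Pool.Agent.CM
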