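import Pool.Agent.Work.MP_8590b5_gt.CM.Stmts5

/-! # Block CM, item Rt -/

namespace Pool.Agent.CM

open Finset

theorem pr_Rt : StRt := by
  intro G _ ρ hG c hc
  refine ⟨0, fun g => ?_⟩
  have hg : g = 1 := Subsingleton.elim _ _
  subst hg
  have h1 := hc 1 1
  simp at h1
  simp [h1]

end Pool.Agent.CM
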