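import Pool.Agent.Work.MP_8590b5_gt.CM.Stmts2

/-!
# Block CM, item Sr (helper73): Schur lemma for irreducible pairs in SU(3)
-/

namespace Pool.Agent.CM

open Finset

theorem Sr_comm {c a : SU3} (h : Commute c a) (z : Fin 3 → ℂ) :
    (c : Mat).mulVec ((a : Mat).mulVec z) = (a : Mat).mulVec ((c : Mat).mulVec z) := by
  have h1 : (c : Mat) * (a : Mat) = (a : Mat) * (c : Mat) := congrArg Subtype.val h.eq
  rw [Matrix.mulVec_mulVec, Matrix.mulVec_mulVec, h1]

theorem pr_Sr : StSr := by
  intro hee a b c hirr hca hcb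
  obtain ⟨l, hl⟩ := Module.End.exists_eigenvalue (Matrix.mulVecLin (c : Mat))
  set W : Submodule ℂ (Fin 3 → ℂ) := Module.End.eigenspace (Matrix.mulVecLin (c : Mat)) l with hW
  have hmem : ∀ z, z ∈ W ↔ (c : Mat).mulVec z = l • z := by
    intro z
    rw [hW, Module.End.mem_eigenspace_iff]
    rfl
  have hinv : ∀ x : SU3, Commute c x → ∀ z ∈ W, (x : Mat).mulVec z ∈ W := by
    intro x hx z hz
    rw [hmem] at hz ⊢
    rw [Sr_comm hx, hz, Matrix.mulVec_smul]
  rcases hirr W (hinv a hca) (hinv b hcb) with h | h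
  · exact absurd h hl
  · have hc : (c : Mat) = l • (1 : Mat) := by
      ext i j
      have h1 : (c : Mat).mulVec (Pi.single j 1) = l • (Pi.single j (1 : ℂ) : Fin 3 → ℂ) := by
        rw [← hmem, h]; exact Submodule.mem_top
      have h2 := congrFun h1 i
      rw [Matrix.mulVec_single_one] at h2
      simp only [Matrix.col_apply] at h2
      rw [h2, Pi.smul_apply, Matrix.smul_apply, Matrix.one_apply, Pi.single_apply]
    have hd : l ^ 3 = 1 := by
      have h1 : (c : Mat).det = 1 := (Matrix.mem_specialUnitaryGroup_iff.mp c.2).2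
      rw [hc, Matrix.det_smul, Matrix.det_one, mul_one, Fintype.card_fin] at h1
      exact h1
    obtain ⟨j, hj, hlj⟩ := hee.2.2.2.2.2.2.2.1 3 (by norm_num) l hd
    refine ⟨⟨j, hj⟩, ?_⟩
    rw [hc, hlj]
    norm_num

end Pool.Agent.CM
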