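import Pool.Agent.Work.MP_8590b5_gt.CM.Stmts3

/-!
# Block CM, item V1: a count of lattice points
-/

set_option autoImplicit false

namespace Pool.Agent.CM

open Finset

theorem V1_sum (n : ℕ) : ∑ g ∈ range (n + 1), 2 * g = n * (n + 1) := by
  induction n with
  | zero => simp
  | succ n ih => rw [Finset.sum_range_succ, ih]; ring

/-- The index set. -/
def V1_T (k : ℕ) : Finset (Σ _ : ℕ, Σ _ : ℕ, ℕ) :=
  (range (k / 2 + 1)).sigma fun c => (range (k - 2 * c + 1)).sigma fun g => range (2 * g)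

theorem V1_card (k : ℕ) : (V1_T k).card = ∑ c ∈ range (k / 2 + 1), (k - 2 * c) * (k - 2 * c + 1) := by
  unfold V1_T
  rw [Finset.card_sigma]
  refine Finset.sum_congr rfl fun c _ => ?_
  rw [Finset.card_sigma]
  simp only [Finset.card_range]
  exact V1_sum _

theorem V1_mem (k : ℕ) (t : Σ _ : ℕ, Σ _ : ℕ, ℕ) :
    t ∈ V1_T k ↔ t.1 < k / 2 + 1 ∧ t.2.1 < k - 2 * t.1 + 1 ∧ t.2.2 < 2 * t.2.1 := by
  unfold V1_T
  rw [Finset.mem_sigma, Finset.mem_sigma, Finset.mem_range, Finset.mem_range, Finset.mem_range]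

/-- The point of an index. -/
def V1_f (k : ℕ) (t : Σ _ : ℕ, Σ _ : ℕ, ℕ) : (Fin 3 → ℤ) × (Fin 3 → ℤ) :=
  (![(t.1 : ℤ), t.2.1, 2 * (k : ℤ) + 1 - t.1 - t.2.1],
    ![0, 3 * (t.2.2 : ℤ) + 2, 3 * (2 * (k : ℤ) + 1) - (3 * t.2.2 + 2)])

theorem V1_ok (k : ℕ) (t : Σ _ : ℕ, Σ _ : ℕ, ℕ) (ht : t ∈ V1_T k) :
    IsB k (V1_f k t).1 (V1_f k t).2 ∧ (V1_f k t).2 0 = 0 ∧
      2 * (k : ℤ) + 1 < 2 * ((V1_f k t).1 2 - (V1_f k t).1 0) := by
  obtain ⟨h1, h2, h3⟩ := (V1_mem k t).1 ht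
  obtain ⟨c, g, j⟩ := t
  have h1' : c < k / 2 + 1 := h1
  have h2' : g < k - 2 * c + 1 := h2
  have h3' : j < 2 * g := h3
  have e0 : (V1_f k ⟨c, g, j⟩).1 0 = (c : ℤ) := rfl
  have e1 : (V1_f k ⟨c, g, j⟩).1 1 = (g : ℤ) := rfl
  have e2 : (V1_f k ⟨c, g, j⟩).1 2 = 2 * (k : ℤ) + 1 - c - g := rfl
  have f0 : (V1_f k ⟨c, g, j⟩).2 0 = 0 := rfl
  have f1 : (V1_f k ⟨c, g, j⟩).2 1 = 3 * (j : ℤ) + 2 := rfl
  have f2 : (V1_f k ⟨c, g, j⟩).2 2 = 3 * (2 * (k : ℤ) + 1) - (3 * j + 2) := rfl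
  refine ⟨⟨?_, ?_, ?_, ?_, ?_, ?_, ?_⟩, ?_, ?_⟩
  · rw [e0, e1, e2]; ring
  · rw [f0, f1, f2]; ring
  · rw [f0]; exact dvd_zero 3
  · rw [f1]; omega
  · rw [f2]; omega
  · rw [Fin.forall_fin_succ, Fin.forall_fin_succ, Fin.forall_fin_succ]
    refine ⟨?_, ?_, ?_, fun i => i.elim0⟩
    · change 0 ≤ (V1_f k ⟨c, g, j⟩).2 0
      rw [f0]
    · change 0 ≤ (V1_f k ⟨c, g, j⟩).2 1
      rw [f1]; omega
    · change 0 ≤ (V1_f k ⟨c, g, j⟩).2 2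
      rw [f2]; omega
  · rw [Fin.forall_fin_succ, Fin.forall_fin_succ, Fin.forall_fin_succ]
    refine ⟨?_, ?_, ?_, fun i => i.elim0⟩
    · change (V1_f k ⟨c, g, j⟩).2 0 ≤ 6 * (V1_f k ⟨c, g, j⟩).1 0
      rw [f0, e0]; omega
    · change (V1_f k ⟨c, g, j⟩).2 1 ≤ 6 * (V1_f k ⟨c, g, j⟩).1 1
      rw [f1, e1]; omega
    · change (V1_f k ⟨c, g, j⟩).2 2 ≤ 6 * (V1_f k ⟨c, g, j⟩).1 2
      rw [f2, e2]; omega
  · exact f0
  · rw [e0, e2]; omega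

theorem V1_inj (k : ℕ) (t u : Σ _ : ℕ, Σ _ : ℕ, ℕ) (h : V1_f k t = V1_f k u) : t = u := by
  obtain ⟨c, g, j⟩ := t
  obtain ⟨c', g', j'⟩ := u
  have h0 : (c : ℤ) = c' := congrFun (congrArg Prod.fst h) 0
  have h2 : (g : ℤ) = g' := congrFun (congrArg Prod.fst h) 1
  have h3 : 3 * (j : ℤ) + 2 = 3 * j' + 2 := congrFun (congrArg Prod.snd h) 1
  have a : c = c' := by omega
  have b : g = g' := by omega
  have d : j = j' := by omega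
  subst a
  subst b
  subst d
  rfl

theorem V1_surj (k : ℕ) (g E : Fin 3 → ℤ) (hB : IsB k g E) (h0 : E 0 = 0)
    (h1 : 2 * (k : ℤ) + 1 < 2 * (g 2 - g 0)) : ∃ t ∈ V1_T k, V1_f k t = (g, E) := by
  have a0 := hB.a 0
  have a1 := hB.a 1
  have a2 := hB.a 2
  have b1 := hB.b 1
  have b2 := hB.b 2
  have gs := hB.gsum
  have es := hB.esum
  have b0 := hB.b 0
  have e1 := hB.e1
  refine ⟨⟨(g 0).toNat, (g 1).toNat, ((E 1 - 2) / 3).toNat⟩, ?_, ?_⟩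
  · rw [V1_mem]
    change (g 0).toNat < k / 2 + 1 ∧ (g 1).toNat < k - 2 * (g 0).toNat + 1 ∧
      ((E 1 - 2) / 3).toNat < 2 * (g 1).toNat
    refine ⟨by omega, by omega, by omega⟩
  · have c0 : ((g 0).toNat : ℤ) = g 0 := Int.toNat_of_nonneg (by omega)
    have c2 : ((g 1).toNat : ℤ) = g 1 := Int.toNat_of_nonneg (by omega)
    have cE : 3 * (((E 1 - 2) / 3).toNat : ℤ) + 2 = E 1 := by omega
    refine Prod.ext (funext fun i => ?_) (funext fun i => ?_)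
    · match i with
      | 0 => exact c0
      | 1 => exact c2
      | 2 =>
        change 2 * (k : ℤ) + 1 - ((g 0).toNat : ℤ) - ((g 1).toNat : ℤ) = g 2
        omega
    · match i with
      | 0 =>
        change 0 = E 0
        omega
      | 1 => exact cE
      | 2 =>
        change 3 * (2 * (k : ℤ) + 1) - (3 * (((E 1 - 2) / 3).toNat : ℤ) + 2) = E 2
        omega

/-- Item V1. -/
theorem pr_V1 : StV1 := by
  intro k
  have h : Nat.card {t // t ∈ V1_T k} = Nat.card {z : (Fin 3 → ℤ) × (Fin 3 → ℤ) // IsB k z.1 z.2 ∧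
      z.2 0 = 0 ∧ 2 * (k : ℤ) + 1 < 2 * (z.1 2 - z.1 0)} := by
    refine Nat.card_eq_of_bijective (fun t => ⟨V1_f k t.1, V1_ok k t.1 t.2⟩) ⟨?_, ?_⟩
    · intro t u htu
      exact Subtype.ext (V1_inj k t.1 u.1 (congrArg Subtype.val htu))
    · rintro ⟨⟨g, E⟩, hB, h0, h1⟩
      obtain ⟨t, ht, he⟩ := V1_surj k g E hB h0 h1
      exact ⟨⟨t, ht⟩, Subtype.ext he⟩
  rw [← h, Nat.card_eq_fintype_card, Fintype.card_coe]
  exact V1_card k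

end Pool.Agent.CM
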