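import Pool.Agent.Work.MP_8590b5_gt.CM.Defs

/-!
# Block CM, part 1: colourings of the closed braid of the link `lnk N`

Write `pr_<name> : St<name>` in `CM/I_<name>.lean` (namespace `Pool.Agent.CM`). All types are in
`Type`. Every item is independent of the others (the statements which may be used are explicit
hypotheses). All docstrings are complete proofs. A Python simulation has checked the algebra.
-/

namespace Pool.Agent.CM

open Finset

section
variable {Γ : Type} [Group Γ]

/-- The strand `A` after it has passed under a strand with label `c` (label `c⁻¹` at a negative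
crossing). So `cross s (i, true)` puts `s (i+1)` at `i` and `und (s i) (s (i+1)).lab` at `i+1`, and
`cross s (i, false)` puts `s i` at `i+1` and `und (s (i+1)) ((s i).lab)⁻¹` at `i`. -/
def und (A : Str Γ) (c : Γ) : Str Γ := ⟨A.src, c⁻¹ * A.lab * c, A.lon * c⟩

/-- The image of a state under a homomorphism. -/
def mapS {Δ : Type} [Group Δ] (φ : Γ →* Δ) (s : ℕ → Str Γ) : ℕ → Str Δ :=
  fun p => ⟨(s p).src, φ (s p).lab, φ (s p).lon⟩

/-- The relations for a colouring `g` of the strands: exactly the relators `L.rels S` evaluated at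
`g`. -/
def Col (L : FLink) (S : Finset ℕ) (g : ℕ → Γ) : Prop :=
  (∀ p < L.n, (run L.word (start g) p).lab = g p) ∧
  (∀ p < L.n, L.comp p ∈ S →
    g p ^ (L.fr (L.comp p) - L.lk (L.comp p) p) * longi (run L.word (start g)) p = 1) ∧
  (∀ p < L.n, L.comp p ∉ S → g p = 1) ∧
  (∀ p, L.n ≤ p → g p = 1)

end

/-- The strand at the position `i + 2` moves over the strands `i+1, …, 2` to the position 2. -/
def mvIn (i : ℕ) : List (ℕ × Bool) := (List.range i).map (fun j => (i + 1 - j, true))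

/-- ... and back. -/
def mvOut (i : ℕ) : List (ℕ × Bool) := (List.range i).map (fun j => (j + 2, false))

/-- A crossing of the strands 0, 1 with a crossing circle (the strand at the position 2). -/
def core : List (ℕ × Bool) := [(1, true), (1, true), (0, true), (1, false), (1, false)]

/-- The `i`-th crossing with its crossing circle. -/
def piece (i : ℕ) : List (ℕ × Bool) := mvIn i ++ core ++ mvOut i

/-- The first `N` pieces. -/
def pieces (N : ℕ) : List (ℕ × Bool) := (List.range N).flatMap piece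

/-- The link of the torus knot `T(2, 2N+1)` (strands 0, 1, component 0) and `N` crossing circles
(strand `i + 2`, component `i + 1`); all the framings are `-1`. -/
def lnk (N : ℕ) : FLink where
  n := N + 2
  d := N + 1
  word := pieces N ++ List.replicate (N + 1) (0, true)
  comp := fun p => p - 1
  fr := fun _ => -1

/-- **Rn** (EASY, naturality). PROOF. Induction on the word (`List.foldl`), for one crossing by
cases (`cross`, `mapS`, `map_mul`, `map_inv`), `funext`. -/
def StRn : Prop := ∀ (Γ Δ : Type) [Group Γ] [Group Δ] (φ : Γ →* Δ) (w : List (ℕ × Bool))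
  (s : ℕ → Str Γ), run w (mapS φ s) = mapS φ (run w s)

/-- **Rl** (EASY). PROOF. The `src` of `mapS φ s` and `s` agree, so the minimal periods and the
iterates agree; `map_list_prod`, `List.map_map`. -/
def StRl : Prop := ∀ (Γ Δ : Type) [Group Γ] [Group Δ] (φ : Γ →* Δ) (s : ℕ → Str Γ) (t : ℕ),
  longi (mapS φ s) t = φ (longi s t)

/-- **Ch** (MEDIUM; hypotheses `StRn`, `StRl`): homomorphisms of the surgery group are colourings.
PROOF. (←) given `φ`, let `ψ : FreeGroup ℕ →* Γ` be `φ ∘ PresentedGroup.mk`, so `ψ (of p) = g p`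
and `start g = mapS ψ (start FreeGroup.of)` (`map_one` for `lon`). By Rn
`run L.word (start g) = mapS ψ L.st`, by Rl `longi (run ..) p = ψ (longi L.st p)`. `ψ` kills the
relators (`PresentedGroup.one_of_mem` or `PresentedGroup.mk_eq_one_iff`), which are exactly the four
conditions. (→) `PresentedGroup.toGroup (f := g)`: `ψ = FreeGroup.lift g` kills every relator by the
same computation. -/
def StCh : Prop := StRn → StRl → ∀ (L : FLink) (S : Finset ℕ) (Γ : Type) [Group Γ] (g : ℕ → Γ),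
  Col L S g ↔ ∃ φ : L.grp S →* Γ, ∀ p, φ (PresentedGroup.of p) = g p

/-- **Mi** (EASY-MEDIUM). PROOF. Induction on `i`, for all `s`: `mvIn (i+1) = (i+2, true) :: mvIn i`
(`List.range_succ_eq_map`, `(i+2) - (j+1) = (i+1) - j`), and `cross s (i+2, true)` has `s (i+3)` at
`i+2`, `und (s (i+2)) (s (i+3)).lab` at `i+3`, and `s` elsewhere. -/
def StMi : Prop := ∀ (Γ : Type) [Group Γ] (i : ℕ) (s : ℕ → Str Γ) (p : ℕ),
  run (mvIn i) s p = if p = 2 then s (i + 2)
    else if 3 ≤ p ∧ p ≤ i + 2 then und (s (p - 1)) (s (i + 2)).lab else s p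

/-- **Mo** (EASY-MEDIUM). PROOF. Induction on `i`: `mvOut (i+1) = mvOut i ++ [(i+2, false)]`
(`List.range_succ`), and the last crossing takes the strand `s 2` from `i+2` to `i+3`, and puts
`und (s (i+3)) ((s 2).lab)⁻¹` at `i+2`. -/
def StMo : Prop := ∀ (Γ : Type) [Group Γ] (i : ℕ) (s : ℕ → Str Γ) (p : ℕ),
  run (mvOut i) s p = if p = i + 2 then s 2
    else if 2 ≤ p ∧ p < i + 2 then und (s (p + 1)) ((s 2).lab)⁻¹ else s p

section
variable {Γ : Type} [Group Γ]

/-- In the core: the strand `B` (position 1) after the double crossing with `C`. -/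
def cB (B C : Str Γ) : Str Γ := und B C.lab
/-- The strand `A` (position 0) after it has passed under `cB B C`. -/
def cD (A B C : Str Γ) : Str Γ := und A (cB B C).lab
/-- The strand `C` at the end of the core. -/
def cC (A B C : Str Γ) : Str Γ := und (und C (cB B C).lab) ((cD A B C).lab)⁻¹
/-- The strand `A` at the end of the core. -/
def cA (A B C : Str Γ) : Str Γ := und (cD A B C) ((cC A B C).lab)⁻¹

end

/-- **Co** (EASY). PROOF. Unfold the five crossings (`cross`, `run`, `List.foldl`), case distinction on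
`p`. With `A = s 0`, `B = s 1`, `C = s 2`: after `(1,true)`: `C` at 1, `cB` at 2; after `(1,true)`:
`cB` at 1, `und C cB.lab` at 2; after `(0,true)`: `cB` at 0, `cD` at 1; after `(1,false)`: `cD` at 2,
`cC` at 1; after `(1,false)`: `cC` at 2, `cA` at 1. -/
def StCo : Prop := ∀ (Γ : Type) [Group Γ] (s : ℕ → Str Γ) (p : ℕ),
  run core s p = if p = 0 then cB (s 1) (s 2) else if p = 1 then cA (s 0) (s 1) (s 2)
    else if p = 2 then cC (s 0) (s 1) (s 2) else s p

/-- **Pc** (EASY-MEDIUM; hypotheses `StMi`, `StMo`, `StCo`). PROOF. `run (piece i) s =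
run (mvOut i) (run core (run (mvIn i) s))` (`List.foldl_append`); after `mvIn i`: `s 0`, `s 1` at
0, 1, `s (i+2)` at 2, `und (s (p-1)) (s (i+2)).lab` at `3 ≤ p ≤ i+2`; `core` changes only 0, 1, 2;
then `mvOut i`. Case distinction on `p` (`p = 0`, `p = 1`, `p = i+2`, `2 ≤ p < i+2`, `p > i+2`). -/
def StPc : Prop := StMi → StMo → StCo → ∀ (Γ : Type) [Group Γ] (i : ℕ) (s : ℕ → Str Γ) (p : ℕ),
  run (piece i) s p = if p = 0 then cB (s 1) (s (i + 2))
    else if p = 1 then cA (s 0) (s 1) (s (i + 2))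
    else if p = i + 2 then cC (s 0) (s 1) (s (i + 2))
    else if p < i + 2 then
      und (und (s p) (s (i + 2)).lab) ((cC (s 0) (s 1) (s (i + 2))).lab)⁻¹
    else s p

/-- The description of a piece, as it is used below. -/
def PcAt : Prop := ∀ (Γ : Type) [Group Γ] (i : ℕ) (s : ℕ → Str Γ) (p : ℕ),
  run (piece i) s p = if p = 0 then cB (s 1) (s (i + 2))
    else if p = 1 then cA (s 0) (s 1) (s (i + 2))
    else if p = i + 2 then cC (s 0) (s 1) (s (i + 2))
    else if p < i + 2 then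
      und (und (s p) (s (i + 2)).lab) ((cC (s 0) (s 1) (s (i + 2))).lab)⁻¹
    else s p

section
variable {Γ : Type} [Group Γ]

/-- The strands at the positions 0, 1 after `e` crossings (`e ∈ ℤ`) of two strands with the labels
`a`, `b`. Here `(a b)^(-(e/2)-1) * a * (a b)^(e/2+1)` is the label of the strand 0 if `e` is odd. -/
def tw (a b : Γ) (e : ℤ) : Str Γ × Str Γ :=
  if e % 2 = 0 then
    (⟨0, (a * b) ^ (-(e / 2)) * a * (a * b) ^ (e / 2), a ^ (-(e / 2)) * (a * b) ^ (e / 2)⟩,
     ⟨1, (a * b) ^ (-(e / 2)) * b * (a * b) ^ (e / 2), b ^ (-(e / 2)) * (a * b) ^ (e / 2)⟩)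
  else
    (⟨1, (a * b) ^ (-(e / 2)) * b * (a * b) ^ (e / 2), b ^ (-(e / 2)) * (a * b) ^ (e / 2)⟩,
     ⟨0, (a * b) ^ (-(e / 2) - 1) * a * (a * b) ^ (e / 2 + 1),
       a ^ (-(e / 2) - 1) * (a * b) ^ (e / 2 + 1)⟩)

/-- The same strand with `t` more copies of its own meridian in the longitude. -/
def bump (a b : Γ) (t : ℕ) (A : Str Γ) : Str Γ :=
  ⟨A.src, A.lab, (if A.src = 0 then a else b) ^ t * A.lon⟩

/-- The exponent before the `i`-th piece: the pieces in `J` are negative crossings (their crossing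
circles are surgered), the others positive crossings. -/
def ex (J : Finset ℕ) : ℕ → ℤ
  | 0 => 0
  | i + 1 => ex J i + (if i ∈ J then -1 else 1)

/-- The number of surgered crossing circles before the `i`-th piece. -/
def tc (J : Finset ℕ) (i : ℕ) : ℕ := (J.filter (· < i)).card

/-- The label of the `i`-th crossing circle. -/
def cval (J : Finset ℕ) (a b : Γ) (i : ℕ) : Γ :=
  if i ∈ J then (tw a b (ex J i)).2.lab * ((tw a b (ex J i)).1.lab)⁻¹ else 1

/-- The relations of the `(-1)`-surgery on `T(2, 2k+1)`. -/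
def Tor (k : ℕ) (a b : Γ) : Prop :=
  b = (a * b) ^ k * a * ((a * b) ^ k)⁻¹ ∧ (a * b) ^ (2 * k + 1) = a ^ (4 * k + 3)

end

/-- **Tw** (EASY-MEDIUM, one positive crossing). PROOF. Put `y = a b`, `k = e / 2`.
`e = 2k`: the claim is `tw (2k+1) = (second, und first second.lab)`. The first component of
`tw (2k+1)` is the second of `tw (2k)`. For the second: `(y^{-k} b y^k)⁻¹ (y^{-k} a y^k) (y^{-k} b y^k)
= y^{-k} b⁻¹ a b y^k = y^{-k-1} a y^{k+1}` because `y⁻¹ a y = b⁻¹ a⁻¹ a a b = b⁻¹ a b`; and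
`a^{-k} y^k y^{-k} b y^k = a^{-k} b y^k = a^{-k-1} (a b) y^k`.
`e = 2k+1`: first of `tw (2k+2)` is `⟨0, y^{-k-1} a y^{k+1}, a^{-k-1} y^{k+1}⟩`, equal to the second of
`tw (2k+1)`; second: `(y^{-k-1} a y^{k+1})⁻¹ (y^{-k} b y^k) (y^{-k-1} a y^{k+1}) = y^{-k-1} b y^{k+1}`:
with `A = y⁻¹ a y = b⁻¹ a b` it is `y^{-k} A⁻¹ b A y^k` and `A⁻¹ b A = b⁻¹ a⁻¹ b b b⁻¹ a b =
b⁻¹ a⁻¹ b a b = y⁻¹ b y`; and `b^{-k} y^k y^{-k-1} a y^{k+1} = b^{-k} y⁻¹ a y y^k =
b^{-k} b⁻¹ a b y^k = b^{-k-1} y^{k+1}`. (Use `zpow_add`, `zpow_sub`, `group`, `Int.emod_two_eq`.) -/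
def StTw : Prop := ∀ (Γ : Type) [Group Γ] (a b : Γ) (e : ℤ),
  tw a b (e + 1) = ((tw a b e).2, und (tw a b e).1 (tw a b e).2.lab)

/-- **Tn** (EASY; hypothesis `StTw`, one negative crossing). PROOF. `StTw` at `e - 1`:
`(tw e).1 = (tw (e-1)).2` and `(tw e).2 = und (tw (e-1)).1 (tw (e-1)).2.lab`; and
`und (und X c) c⁻¹ = X`. -/
def StTn : Prop := StTw → ∀ (Γ : Type) [Group Γ] (a b : Γ) (e : ℤ),
  tw a b (e - 1) = (und (tw a b e).2 ((tw a b e).1.lab)⁻¹, (tw a b e).1)

/-- **Tl** (EASY). The label is the conjugate of the first label by the longitude, and `src` is `0` or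
`1`. PROOF. Case distinction `e % 2 = 0`; e.g. `(a^{-k} y^k) (y^{-k} a y^k) = a a^{-k} y^k`. -/
def StTl : Prop := ∀ (Γ : Type) [Group Γ] (a b : Γ) (e : ℤ),
  ((tw a b e).1.lon * (tw a b e).1.lab = (if (tw a b e).1.src = 0 then a else b) * (tw a b e).1.lon) ∧
  ((tw a b e).2.lon * (tw a b e).2.lab = (if (tw a b e).2.src = 0 then a else b) * (tw a b e).2.lon) ∧
  (tw a b e).1.src ≤ 1 ∧ (tw a b e).2.src ≤ 1

/-- **Ka** (EASY-MEDIUM, a surgered crossing circle changes the crossing). Here `a0`, `b0` are the first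
labels of `A`, `B`. PROOF. With `a = A.lab`, `b = B.lab`, `c = C.lab`, `b' = c⁻¹ b c = (cB B C).lab`,
`d = b'⁻¹ a b' = (cD A B C).lab`: `(cC A B C).lon = C.lon b' d⁻¹ = b' d⁻¹ = b' b'⁻¹ a⁻¹ b' = a⁻¹ b'`.
So the hypothesis `(cC A B C).lon = c` says `b' = a c`, i.e. `c⁻¹ b c = a c`, so `b = c a`,
`c = b a⁻¹`. Conversely `c = b a⁻¹` gives `b' = a b⁻¹ b b a⁻¹ = a b a⁻¹ = a c`. Then
`(cC A B C).lab = d b'⁻¹ c b' d⁻¹ = c⁻¹ c c = c` (as `b' d⁻¹ = c`), `cB B C = ⟨B.src, a b a⁻¹, B.lon c⟩`
with `B.lon c = B.lon b a⁻¹ = b0 B.lon a⁻¹`, and `cA = und (cD A B C) c⁻¹ = ⟨A.src, c d c⁻¹,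
A.lon b' c⁻¹⟩`, `A.lon b' c⁻¹ = A.lon a = a0 A.lon`, `c d c⁻¹ = b' = ...`: `c = b' d⁻¹` gives
`d = c⁻¹ b'`, `c d c⁻¹ = b' c⁻¹ = a`. -/
def StKa : Prop := ∀ (Γ : Type) [Group Γ] (A B C : Str Γ) (a0 b0 : Γ), C.lon = 1 →
  A.lon * A.lab = a0 * A.lon → B.lon * B.lab = b0 * B.lon →
  ((cC A B C).lon = C.lab ↔ C.lab = B.lab * (A.lab)⁻¹) ∧
  (C.lab = B.lab * (A.lab)⁻¹ → cC A B C = ⟨C.src, C.lab, C.lab⟩ ∧
    cB B C = ⟨B.src, A.lab * B.lab * (A.lab)⁻¹, b0 * (B.lon * (A.lab)⁻¹)⟩ ∧
    cA A B C = ⟨A.src, A.lab, a0 * A.lon⟩)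

/-- **Ki** (EASY, an erased crossing circle). PROOF. `cB B C = B` up to `* 1` (`B.lab` is conjugated by
`1`), `cD = und A B.lab`, `(cC ..).lab` is a conjugate of `1`, so `1`, and `und X 1⁻¹ = X`. -/
def StKi : Prop := ∀ (Γ : Type) [Group Γ] (A B C : Str Γ), C.lab = 1 →
  cB B C = B ∧ cA A B C = und A B.lab ∧ (cC A B C).lab = 1

/-- **Dn** (MEDIUM, downward induction). If every crossing circle has its first label also at the end of
the pieces, then the `i`-th crossing circle is not changed any more after the `i`-th piece.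
PROOF. `pieces (i+1) = pieces i ++ piece i` (`List.range_succ`, `List.flatMap_append`), so
`run (pieces (i+1)) s = run (piece i) (run (pieces i) s)`. (0) Before its own piece the strand
`i + 2` is untouched: for `i ≤ p - 2` (`p ≥ 2`) `run (pieces i) (start g) p = ⟨p, g p, 1⟩`, by
induction on `i` with `PcAt`. (1) Let `s_i = run (pieces i) (start g)`. Claim by induction on `m`
(downward from `N`): for all `j` with `N - m ≤ j ≤ N` and `i < j`:
`s_j (i+2) = s_N (i+2)`. Step from `j+1` to `j` (`i < j < N`): by `PcAt`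
`s_{j+1} (i+2) = und (und (s_j (i+2)) c) (c'')⁻¹` with `c = (s_j (j+2)).lab = g (j+2)` by (0) and
`c'' = (s_{j+1} (j+2)).lab = (s_N (j+2)).lab` (induction hypothesis, with `i = j`) `= g (j+2)`
(hypothesis). As `und (und X c) c⁻¹ = X`, `s_{j+1} (i+2) = s_j (i+2)`. -/
def StDn : Prop := PcAt → ∀ (Γ : Type) [Group Γ] (N : ℕ) (g : ℕ → Γ),
  (∀ i < N, (run (pieces N) (start g) (i + 2)).lab = g (i + 2)) →
  ∀ i < N, run (pieces (i + 1)) (start g) (i + 2) = run (pieces N) (start g) (i + 2)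

/-- **Un** (EASY-MEDIUM). Before its own piece, a crossing circle is untouched. PROOF. Induction on `i`
with `pieces (i+1) = pieces i ++ piece i` and `PcAt` (positions `p > i + 2`). -/
def StUn : Prop := PcAt → ∀ (Γ : Type) [Group Γ] (i : ℕ) (g : ℕ → Γ) (p : ℕ), i + 2 ≤ p →
  run (pieces i) (start g) p = ⟨p, g p, 1⟩

/-- What is true after `i` pieces. -/
def After {Γ : Type} [Group Γ] (J : Finset ℕ) (g : ℕ → Γ) (i : ℕ) : Prop :=
  run (pieces i) (start g) 0 = bump (g 0) (g 1) (tc J i) (tw (g 0) (g 1) (ex J i)).1 ∧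
  run (pieces i) (start g) 1 = bump (g 0) (g 1) (tc J i) (tw (g 0) (g 1) (ex J i)).2

/-- **Af** (MEDIUM; hypotheses as listed). The states at the positions 0, 1. PROOF. Induction on `i`.
`i = 0`: `tw a b 0 = (⟨0, a, 1⟩, ⟨1, b, 1⟩)`, `tc J 0 = 0`. Step: `A`, `B` are the bumped strands and
`C = ⟨i+2, g (i+2), 1⟩` by `Un`. If `i ∉ J` then `C.lab = 1`, `StKi` gives `(B, und A B.lab)`, and
`und` commutes with `bump`; `ex J (i+1) = ex J i + 1`, `tc J (i+1) = tc J i`; use `StTw`.
If `i ∈ J`, `C.lab = B.lab A.lab⁻¹` (`cval`); `StKa` with `a0 = (if A.src = 0 then g 0 else g 1)`,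
`b0` similarly (its two hypotheses are `StTl` for the bumped strands: the power of the base commutes
with the base) gives `(⟨B.src, .., b0 (B.lon A.lab⁻¹)⟩, ⟨A.src, A.lab, a0 A.lon⟩)`, which is the
bump by `tc J i + 1 = tc J (i+1)` of `tw (e - 1)` by `StTn`. -/
def StAf : Prop := PcAt → StUn → StTw → StTn → StTl → StKa → StKi →
  ∀ (Γ : Type) [Group Γ] (N : ℕ) (J : Finset ℕ) (g : ℕ → Γ),
  (∀ i < N, g (i + 2) = cval J (g 0) (g 1) i) → ∀ i ≤ N, After J g i

/-- **Bk** (MEDIUM; hypotheses as listed). From the relations to the values of the labels. PROOF. Strong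
induction on `i < N`: assume `g (j+2) = cval J (g 0) (g 1) j` for `j < i`. By `StAf` with `N := i`,
`After J g i`. If `i ∉ J`, `g (i+2) = 1 = cval`. If `i ∈ J`: by `StDn` the state of the strand `i+2`
after the piece `i` is its final state, whose `lon` is `g (i+2)`. By `PcAt` this `lon` is
`(cC A B C).lon` with the bumped strands `A`, `B` and `C = ⟨i+2, g (i+2), 1⟩` (`StUn`), so `StKa`
gives `g (i+2) = B.lab A.lab⁻¹ = cval J .. i` (labels are not changed by `bump`). -/
def StBk : Prop := PcAt → StUn → StDn → StAf → StTw → StTn → StTl → StKa → StKi →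
  ∀ (Γ : Type) [Group Γ] (N : ℕ) (J : Finset ℕ) (g : ℕ → Γ),
  (∀ i < N, (run (pieces N) (start g) (i + 2)).lab = g (i + 2)) →
  (∀ i < N, i ∈ J → (run (pieces N) (start g) (i + 2)).lon = g (i + 2)) →
  (∀ i < N, i ∉ J → g (i + 2) = 1) →
  ∀ i < N, g (i + 2) = cval J (g 0) (g 1) i

/-- **Fw** (MEDIUM; hypotheses as listed). From the values of the labels to the relations. PROOF. By
`StAf` `After J g i` for `i ≤ N`. Let `s_i = run (pieces i) (start g)`. After its own piece the
strand `i+2` is `cC A B C`: for `i ∈ J` it is `⟨i+2, g (i+2), g (i+2)⟩` (`StKa`), for `i ∉ J` its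
label is `1 = g (i+2)` (`StKi`); in both cases the label is `g (i+2)` again. In a later piece `j > i`
it becomes `und (und X c) (c'')⁻¹` with `c = g (j+2)` (`StUn`) and `c'' = g (j+2)` (just shown), so it
is not changed. Induction on the number of the pieces. -/
def StFw : Prop := PcAt → StUn → StAf → StTw → StTn → StTl → StKa → StKi →
  ∀ (Γ : Type) [Group Γ] (N : ℕ) (J : Finset ℕ) (g : ℕ → Γ),
  (∀ i < N, g (i + 2) = cval J (g 0) (g 1) i) →
  ∀ i < N, (run (pieces N) (start g) (i + 2)).lab = g (i + 2) ∧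
    (i ∈ J → (run (pieces N) (start g) (i + 2)).lon = g (i + 2))

/-- **Rp** (EASY; hypothesis `StTw`, the remaining crossings). PROOF. Induction on `m`
(`List.replicate_succ'` or `List.replicate_succ`); `und` commutes with `bump`. -/
def StRp : Prop := StTw → ∀ (Γ : Type) [Group Γ] (a b : Γ) (t : ℕ) (e : ℤ) (m : ℕ) (s : ℕ → Str Γ),
  s 0 = bump a b t (tw a b e).1 → s 1 = bump a b t (tw a b e).2 → ∀ p,
  run (List.replicate m (0, true)) s p = if p = 0 then bump a b t (tw a b (e + m)).1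
    else if p = 1 then bump a b t (tw a b (e + m)).2 else s p

/-- **Rq** (EASY). The remaining crossings do not change the positions `p ≥ 2`. PROOF. Induction. -/
def StRq : Prop := ∀ (Γ : Type) [Group Γ] (m : ℕ) (s : ℕ → Str Γ) (p : ℕ), 2 ≤ p →
  run (List.replicate m (0, true)) s p = s p

/-- **Sc** (EASY-MEDIUM; hypothesis `PcAt`, the closure of the braid). PROOF. `src` never depends on the
labels. Every piece exchanges the `src` of 0 and 1 and fixes the others (`cB`, `cA`, `cC`, `und`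
do not change `src`), the same for a crossing `(0, true)`; there are `N + (N + 1)`, an odd number, of
these exchanges. -/
def StSc : Prop := PcAt → ∀ (Γ : Type) [Group Γ] (N : ℕ) (g : ℕ → Γ) (p : ℕ),
  (run (lnk N).word (start g) p).src = if p = 0 then 1 else if p = 1 then 0 else p

/-- **Lg** (EASY-MEDIUM; hypothesis `StSc`, the longitudes). PROOF. `f = fun p => (s p).src` exchanges
0 and 1 and fixes the other `p`, so `Function.minimalPeriod f 0 = 2 = Function.minimalPeriod f 1`
(`f 0 = 1 ≠ 0`, `f (f 0) = 0`) and it is `1` for `p ≥ 2`; `(List.range 2).reverse = [1, 0]`. -/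
def StLg : Prop := PcAt → StSc → ∀ (Γ : Type) [Group Γ] (N : ℕ) (g : ℕ → Γ),
  longi (run (lnk N).word (start g)) 0 =
    (run (lnk N).word (start g) 1).lon * (run (lnk N).word (start g) 0).lon ∧
  longi (run (lnk N).word (start g)) 1 =
    (run (lnk N).word (start g) 0).lon * (run (lnk N).word (start g) 1).lon ∧
  ∀ p, 2 ≤ p → longi (run (lnk N).word (start g)) p = (run (lnk N).word (start g) p).lon

/-- **Lk** (MEDIUM; hypotheses `PcAt`, `StSc`, `StLg`, `StRq`, `StUn`; linking numbers and writhe).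
PROOF. Let `Γ = Multiplicative ℤ`, commutative, and `g` with `g 0 = g 1`. In a commutative group `und`
does not change labels, so after every piece the labels at 0 and 1 are `g 0`, the label at
`p ≥ 2` is `g p`. In a piece: `(cC A B C).lon = C.lon * B.lab * A.lab⁻¹ = C.lon`;
`und (und X c) c⁻¹ = X`; `(cB B C).lon = B.lon * C.lab`, `(cA A B C).lon = A.lon * B.lab * C.lab⁻¹`:
so the product of the two `lon` at 0, 1 is multiplied by `g 0`. A crossing `(0,true)` multiplies it by
`g 0` too. So at the end the `lon` at `p ≥ 2` is `1`, and the product of the `lon` at 0 and 1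
is `(g 0)^(2N+1)`. With `StLg`: for `c = 0`, `g 0 = ofAdd 1` and for `c ≥ 1`, `g 0 = 1` (the
component of the strands 0, 1 is `0`). -/
def StLk : Prop := PcAt → StSc → StLg → StRq → StUn → ∀ (N p c : ℕ), p < N + 2 →
  (lnk N).lk c p = if c = 0 ∧ p ≤ 1 then 2 * (N : ℤ) + 1 else 0

/-- **Vl** (EASY-MEDIUM; hypothesis `StSc`). PROOF. `word_lt`: the generators of `piece i` (`i < N`) are
at most `i + 1`. `comp_iff`: `prev` exchanges 0, 1 and fixes the other `p`; `comp p = p - 1`. -/
def StVl : Prop := PcAt → StSc → ∀ N : ℕ, (lnk N).Valid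

/-- **Ex** (EASY). PROOF. Induction on `i`: `ex J i = i - 2 * tc J i`; and `tc J N = J.card` if
`J ⊆ range N`. -/
def StEx : Prop := ∀ (N : ℕ) (J : Finset ℕ), J ⊆ range N →
  ex J N = N - 2 * (J.card : ℤ) ∧ tc J N = J.card

/-- **Ta** (MEDIUM, algebra of the torus knot group). Here `k = N - t` is the half exponent. PROOF. Put
`y = a b`. The two closing conditions are `y^{-k} b y^k = a` and `y^{-k-1} a y^{k+1} = b`. The
first is `b = y^k a y^{-k}`. Assume it. Then `y = a b = a y^k a y^{-k}`, so `y^{k+1} = a y^k a`,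
`h := y^{2k+1} = (a y^k)^2` commutes with `y` and with `a y^k`, hence with `a` and `b`; the second
condition follows: `y^{-(k+1)} a y^{k+1} = (a y^k a)⁻¹ a (a y^k a) = a⁻¹ y^{-k} a y^k a` and
`y^{-k} a y^k a = y^{-k} (a y^k a y^k) y^{-k} = y^{-k} h y^{-k} = y`, so it is `a⁻¹ y = b`.
The longitude at the strand 0 is `(a^t a^{-k-1} y^{k+1}) (b^t b^{-k} y^k)` and
`b^{t-k} = y^k a^{t-k} y^{-k}`, so it is `a^{t-k-1} y^{2k+1} a^{t-k} = a^{2t-2k-1} h`; the relation
`a^(-1-(2N+1)) * longitude = 1` is `h = a^{2N+2-2t+2k+1} = a^{4k+3}`. At the strand 1: the longitude is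
`(b^t b^{-k} y^k) (a^t a^{-k-1} y^{k+1})` with `a = y^{-k} b y^k`: it is `b^{t-k} b^{t-k-1} h` (as
`y^k a^{m} y^{-k} = b^m`), and the relation is `h = b^{4k+3}`, which follows from `h = a^{4k+3}` by
conjugation with `y^k`. -/
def StTa : Prop := ∀ (Γ : Type) [Group Γ] (a b : Γ) (N t : ℕ), t ≤ N →
  (((bump a b t (tw a b (2 * ((N : ℤ) - t) + 1)).1).lab = a ∧
    (bump a b t (tw a b (2 * ((N : ℤ) - t) + 1)).2).lab = b ∧
    a ^ (-1 - (2 * (N : ℤ) + 1)) * ((bump a b t (tw a b (2 * ((N : ℤ) - t) + 1)).2).lon *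
      (bump a b t (tw a b (2 * ((N : ℤ) - t) + 1)).1).lon) = 1 ∧
    b ^ (-1 - (2 * (N : ℤ) + 1)) * ((bump a b t (tw a b (2 * ((N : ℤ) - t) + 1)).1).lon *
      (bump a b t (tw a b (2 * ((N : ℤ) - t) + 1)).2).lon) = 1) ↔
  Tor (N - t) a b)

/-- The crossing circles in `J` together with the knot, as a set of components. -/
def sub (J : Finset ℕ) : Finset ℕ := insert 0 (J.image (· + 1))

/-- **Ck** (MEDIUM-HARD, assembly; hypotheses as listed): the colourings of the sublinks which contain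
the knot. PROOF. Unfold `Col` for `lnk N`. The positions `p ≥ 2`: component `p - 1 = i + 1`
(`p = i + 2`), in `sub J` iff `i ∈ J`; by `StRq` the final state at `i + 2` is that after the pieces;
by `StLg`, `StLk` the longitude relation is `g (i+2)^(-1-0) * lon = 1`, i.e. `lon = g (i+2)`.
So `StBk` and `StFw` show that the conditions at `p ≥ 2` are equivalent to
`g (i+2) = cval J (g 0) (g 1) i` for all `i < N`. Given this, `StAf` at `i = N` and `StRp` with
`m = N + 1`, `StEx` (`ex J N + (N+1) = 2 (N - J.card) + 1`, `tc J N = J.card`) give the final states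
at 0, 1, and with `StLg` and `StLk` (`lk = 2N + 1`) the four conditions at 0, 1 are those of `StTa`
with `t = J.card`. -/
def StCk : Prop := PcAt → StUn → StDn → StAf → StBk → StFw → StTw → StTn → StTl → StKa → StKi →
  StRp → StRq → StSc → StLg → StLk → StEx → StTa →
  ∀ (Γ : Type) [Group Γ] (N : ℕ) (J : Finset ℕ) (g : ℕ → Γ), J ⊆ range N →
  (Col (lnk N) (sub J) g ↔ (Tor (N - J.card) (g 0) (g 1) ∧
    (∀ i < N, g (i + 2) = cval J (g 0) (g 1) i) ∧ ∀ p, N + 2 ≤ p → g p = 1))

/-- **Cz** (MEDIUM; hypotheses as listed): sublinks without the knot give the trivial group. PROOF.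
`g 0 = g 1 = 1` (component 0 is not in `S`). For the crossing circles let `J = {i < N | i+1 ∈ S}`; for
`i ∉ J`, `g (i+2) = 1`. As in `StCk` (`StRq`, `StLg`, `StLk`) the hypotheses of `StBk` hold, so
`g (i+2) = cval J 1 1 i`, and `tw 1 1 e` has the labels `1`, so `cval J 1 1 i = 1`. -/
def StCz : Prop := PcAt → StUn → StDn → StAf → StBk → StTw → StTn → StTl → StKa → StKi →
  StRq → StSc → StLg → StLk →
  ∀ (Γ : Type) [Group Γ] (N : ℕ) (S : Finset ℕ) (g : ℕ → Γ), 0 ∉ S →
  Col (lnk N) S g → ∀ p, g p = 1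

end Pool.Agent.CM
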