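import Pool.Agent.Work.MP_8590b5_gt.CM.Stmts1
import Pool.Agent.Work.MP_8590b5_gt.CM.Defs2

/-!
# Block CM, part 2: irreducible pairs of matrices in SU(3)

Write `pr_<name> : St<name>` in `CM/I_<name>.lean` (namespace `Pool.Agent.CM`). Every item is
independent of the others (what may be used is an explicit hypothesis). All docstrings are complete
proofs.
-/

namespace Pool.Agent.CM

open Finset

/-- `e(x) = exp(2 π i x)`. -/
noncomputable def ee (x : ℝ) : ℂ := Complex.exp (2 * Real.pi * x * Complex.I)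

/-- The pair of matrices has no common invariant subspace. -/
def IrrP (a b : SU3) : Prop :=
  ∀ W : Submodule ℂ (Fin 3 → ℂ), (∀ v ∈ W, (a : Mat).mulVec v ∈ W) →
    (∀ v ∈ W, (b : Mat).mulVec v ∈ W) → W = ⊥ ∨ W = ⊤

/-- The irreducible pairs which satisfy the relations of the surgery on `T(2, 2k+1)`. -/
abbrev PSet (k : ℕ) : Type := {P : SU3 × SU3 // Tor k P.1 P.2 ∧ IrrP P.1 P.2}

/-- Simultaneous conjugacy. -/
def pSetoid (k : ℕ) : Setoid (PSet k) where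
  r P Q := ∃ u : SU3, Q.1.1 = u * P.1.1 * u⁻¹ ∧ Q.1.2 = u * P.1.2 * u⁻¹
  iseqv :=
    { refl := fun P => ⟨1, by simp⟩
      symm := by
        rintro P Q ⟨u, h1, h2⟩
        exact ⟨u⁻¹, by rw [h1]; group, by rw [h2]; group⟩
      trans := by
        rintro P Q R ⟨u, h1, h2⟩ ⟨v, h3, h4⟩
        exact ⟨v * u, by rw [h3, h1]; group, by rw [h4, h2]; group⟩ }

/-- The conjugacy classes of these pairs. -/
abbrev PCl (k : ℕ) : Type := Quotient (pSetoid k)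

/-- The conclusions of part 1, as they are used here. -/
def ChAt : Prop := ∀ (L : FLink) (S : Finset ℕ) (Γ : Type) [Group Γ] (g : ℕ → Γ),
  Col L S g ↔ ∃ φ : L.grp S →* Γ, ∀ p, φ (PresentedGroup.of p) = g p
def CkAt : Prop := ∀ (Γ : Type) [Group Γ] (N : ℕ) (J : Finset ℕ) (g : ℕ → Γ), J ⊆ range N →
  (Col (lnk N) (sub J) g ↔ (Tor (N - J.card) (g 0) (g 1) ∧
    (∀ i < N, g (i + 2) = cval J (g 0) (g 1) i) ∧ ∀ p, N + 2 ≤ p → g p = 1))
def CzAt : Prop := ∀ (Γ : Type) [Group Γ] (N : ℕ) (S : Finset ℕ) (g : ℕ → Γ), 0 ∉ S →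
  Col (lnk N) S g → ∀ p, g p = 1

/-- **Gc** (EASY). PROOF. `tw (u a u⁻¹) (u b u⁻¹) e` has the conjugated labels (cases, `zpow` of a
conjugate: `conj_zpow`), `mul_inv_rev`; all the labels are words in `a`, `b`. -/
def StGc : Prop := ∀ (Γ : Type) [Group Γ] (J : Finset ℕ) (a b : Γ) (i : ℕ),
  (∀ u : Γ, cval J (u * a * u⁻¹) (u * b * u⁻¹) i = u * cval J a b i * u⁻¹) ∧
  cval J a b i ∈ Subgroup.closure {a, b}

/-- **Gn** (MEDIUM; hypotheses as listed). PROOF. The map `ρ ↦ (ρ x_0, ρ x_1)`. By `ChAt`, `CkAt` it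
satisfies `Tor`, and `ρ x_(i+2) = cval J .. i` is in the subgroup generated by `ρ x_0`, `ρ x_1`,
`ρ x_p = 1` for `p ≥ N+2`; since the `x_p` generate the group
(`PresentedGroup.closure_range_of`), the image of `ρ` is in `Subgroup.closure {ρ x_0, ρ x_1}`. The
elements of SU(3) which map a subspace `W` into itself form a subgroup (for the inverse: an
injective map `W → W` is onto, `Submodule` of a finite-dimensional space), so `Irr ρ` iff `IrrP`.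
Conjugate homomorphisms give conjugate pairs; if the pairs are conjugate by `u`, then so are all
the `ρ x_p` (`StGc`), and `ρ' = u ρ u⁻¹` (`PresentedGroup.ext`). Every pair occurs: put
`g (i+2) = cval J a b i` and use `CkAt` (←), `ChAt` (→). -/
def StGn : Prop := ChAt → CkAt → StGc → ∀ (N : ℕ) (J : Finset ℕ), J ⊆ range N →
  Nonempty (IrrCl ((lnk N).grp (sub J)) ≃ PCl (N - J.card))

/-- **Gz** (EASY-MEDIUM). PROOF. Every homomorphism is trivial on the generators (`ChAt`, `CzAt`), so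
the line of a coordinate vector is invariant and is neither `⊥` nor `⊤`. -/
def StGz : Prop := ChAt → CzAt → ∀ (N : ℕ) (S : Finset ℕ), 0 ∉ S →
  IsEmpty (IrrCl ((lnk N).grp S))

/-- The diagonal matrix with the entries `e(u_j)`. -/
noncomputable def dA (u : Fin 3 → ℝ) : Mat := Matrix.diagonal (fun j => ee (u j))

/-- The reflection `1 - 2 s sᵀ`, `s_i = √w_i`. -/
noncomputable def rR (w : Fin 3 → ℝ) : Mat :=
  Matrix.of fun i j => (if i = j then 1 else 0) - 2 * (Real.sqrt (w i) : ℂ) * (Real.sqrt (w j) : ℂ)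

/-- Interlacing on the circle, with the determinant condition. -/
def Lace (u v : Fin 3 → ℝ) : Prop :=
  u 0 < v 0 ∧ v 0 < u 1 ∧ u 1 < v 1 ∧ v 1 < u 2 ∧ u 2 < v 2 ∧ v 2 < u 0 + 1 ∧
    v 0 + v 1 + v 2 = u 0 + u 1 + u 2 + 1 / 2

/-- The weights. -/
noncomputable def ww (u v : Fin 3 → ℝ) (i : Fin 3) : ℝ :=
  -(∏ j, Real.sin (Real.pi * (u i - v j))) / (∏ j ∈ univ.erase i, Real.sin (Real.pi * (u i - u j)))

noncomputable def uu (k : ℕ) (n : Fin 3 → ℤ) : Fin 3 → ℝ := fun j => n j / (3 * (2 * k + 1))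
noncomputable def vv (k : ℕ) (p : Fin 3 → ℤ) : Fin 3 → ℝ := fun j => p j / (6 * (4 * k + 3))

/-- The normal form of a pair: `a = -ζ² R A`, `a b = ζ A²`, with `ζ = e(t/3)`. -/
def Mod (k : ℕ) (t : Fin 3) (n p : Fin 3 → ℤ) (a b : SU3) : Prop :=
  (a : Mat) = (-(ee ((t.val : ℝ) / 3)) ^ 2) • (rR (ww (uu k n) (vv k p)) * dA (uu k n)) ∧
  ((a * b : SU3) : Mat) = (ee ((t.val : ℝ) / 3)) • (dA (uu k n)) ^ 2

/-- **Ee** (EASY-MEDIUM, the exponential). PROOF. `Complex.exp_add`, `Complex.exp_int_mul_two_pi_mul_I`,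
`Complex.exp_eq_exp_iff_exists_int`, `Complex.exp_conj`; the roots of unity:
`Complex.exp_log` / `IsPrimitiveRoot.eq_pow_of_pow_eq_one` with
`Complex.isPrimitiveRoot_exp`. -/
def StEe : Prop := (∀ x y : ℝ, ee (x + y) = ee x * ee y) ∧ (∀ m : ℤ, ee m = 1) ∧
  (∀ x y : ℝ, ee x = ee y ↔ ∃ m : ℤ, x = y + m) ∧ (∀ x : ℝ, star (ee x) = ee (-x)) ∧
  (∀ (x : ℝ) (m : ℕ), ee x ^ m = ee (m * x)) ∧ ee (1 / 2) = -1 ∧ (∀ x : ℝ, ee x ≠ 0) ∧
  (∀ m : ℕ, 0 < m → ∀ z : ℂ, z ^ m = 1 → ∃ j : ℕ, j < m ∧ z = ee ((j : ℝ) / m)) ∧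
  (∀ x y : ℝ, ee x - ee y = ee ((x + y) / 2) * (2 * Complex.I * Real.sin (Real.pi * (x - y)))) ∧
  (∀ x y : ℝ, ee x + ee y = ee ((x + y) / 2) * (2 * Real.cos (Real.pi * (x - y))))

/-- **Lw** (EASY-MEDIUM). PROOF. All the differences are in `(-1, 1)` and the sines have the signs of
the differences (`Real.sin_pos_of_pos_of_lt_pi`, `Real.sin_neg_of_neg_of_neg_pi_lt`).
`i = 0`: numerator product negative (three negative factors), denominator positive (two negative).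
`i = 1`: `sin(u_1 - v_0) > 0`, the other two negative: positive; denominator negative. `i = 2`:
two positive, one negative: negative; denominator positive. -/
def StLw : Prop := ∀ u v : Fin 3 → ℝ, Lace u v → ∀ i, 0 < ww u v i

/-- **Lp** (MEDIUM, rank one update). PROOF. `Matrix.det_fin_three`, `Real.sqrt` squares
(`Real.mul_self_sqrt`, as complex numbers), `ring`: the matrix is
`diag(z - α_i) + 2 s (s_j α_j)`, whose determinant is
`∏ (z - α_i) + 2 ∑ s_i² α_i ∏_{j ≠ i} (z - α_j)`. -/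
def StLp : Prop := ∀ (u w : Fin 3 → ℝ) (z : ℂ), (∀ i, 0 ≤ w i) →
  Matrix.det (z • (1 : Mat) - rR w * dA u) = (∏ i, (z - ee (u i))) +
    2 * ∑ i, ee (u i) * (w i : ℂ) * ∏ j ∈ univ.erase i, (z - ee (u j))

/-- **Li** (MEDIUM; hypotheses `StEe`, `StLw`, `StLp`). PROOF. Both sides are monic cubic polynomials in
`z` (by `StLp`), so it is enough that they agree at the three different points `z = e(u_i)`.
There the left side is `2 e(u_i) w_i ∏_{j ≠ i} (e(u_i) - e(u_j))` and the right side is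
`∏_j (e(u_i) - e(v_j))`. With `StEe` (differences): the right side is
`(2i)^3 e((3 u_i + ∑ v)/2) ∏ sin π(u_i - v_j)`, the left side is
`2 e(u_i) w_i (2i)^2 e((2 u_i + ∑_{j≠i} u_j)/2) ∏_{j≠i} sin π(u_i - u_j) =
- 2 (2i)^2 e((3 u_i + ∑ u)/2) ∏ sin π(u_i - v_j)` by the definition of `w_i`; and
`2 i e(∑ v/2) = 2 i e(∑ u/2) e(1/4) = 2 i · i e(∑ u/2) = -2 e(∑ u/2)`. -/
def StLi : Prop := StEe → StLw → StLp → ∀ (u v : Fin 3 → ℝ) (z : ℂ), Lace u v →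
  Matrix.det (z • (1 : Mat) - rR (ww u v) * dA u) = ∏ j, (z - ee (v j))

/-- The conclusion of `StLi`. -/
def LiAt : Prop := ∀ (u v : Fin 3 → ℝ) (z : ℂ), Lace u v →
  Matrix.det (z • (1 : Mat) - rR (ww u v) * dA u) = ∏ j, (z - ee (v j))

/-- **Ls** (EASY-MEDIUM). PROOF. `LiAt` and `StLp` at `z = 0`, with `α = ∏ e(u_i) ≠ 0`:
`-α + 2 α ∑ w_i = -∏ e(v_j) = -e(∑ u + 1/2) = α`. -/
def StLs : Prop := StEe → StLw → StLp → LiAt → ∀ u v : Fin 3 → ℝ, Lace u v → ∑ i, ww u v i = 1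

/-- **Lv** (MEDIUM-HARD, interlacing by the intermediate value theorem). PROOF. Put
`F(θ) = ∑_i w_i cos π(θ - u_i) ∏_{j≠i} sin π(θ - u_j)`. As `∑ w_i = 1`, `StLp` gives
`det(z - B) = ∑_i w_i (z + e(u_i)) ∏_{j≠i} (z - e(u_j))`, and for `z = e(θ)` this is
`2 (2i)^2 e((3θ + ∑ u)/2) F(θ)` (`StEe`). `F(u_i) = w_i ∏_{j≠i} sin π(u_i - u_j)`, so
`F(u_0) > 0`, `F(u_1) < 0`, `F(u_2) > 0`, and `F(u_0 + 1) = - F(u_0) < 0`. By the intermediate value
theorem there are zeros `v_0 ∈ (u_0,u_1)`, `v_1 ∈ (u_1,u_2)`, `v_2 ∈ (u_2, u_0+1)`. The three numbers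
`e(v_j)` are different zeros of the monic cubic polynomial `det(z - B)`, so it is
`∏ (z - e(v_j))`; at `z = 0` `StLp` gives `-∏ e(v_j) = ∏ e(u_i)`, so `∑ v - ∑ u - 1/2` is an
integer, and `0 < ∑ (v_j - u_j) < (u_1-u_0)+(u_2-u_1)+(u_0+1-u_2) = 1`, so it is `0`. -/
def StLv : Prop := StEe → StLp → ∀ u w : Fin 3 → ℝ, u 0 < u 1 → u 1 < u 2 → u 2 < u 0 + 1 →
  (∀ i, 0 < w i) → ∑ i, w i = 1 →
  ∃ v : Fin 3 → ℝ, Lace u v ∧ ∀ j, Matrix.det (ee (v j) • (1 : Mat) - rR w * dA u) = 0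

/-- **Lu** (MEDIUM, uniqueness of the weights). PROOF. By `StLp` `det(z - rR w * dA u)` is a monic cubic
polynomial in `z` with the three different zeros `e(v_j)`, so it is `∏ (z - e(v_j))`, the same
as for `ww u v` (`LiAt`). At `z = e(u_i)` `StLp` gives
`2 e(u_i) w_i ∏_{j≠i} (e(u_i) - e(u_j)) = 2 e(u_i) (ww u v i) ∏_{j≠i} (e(u_i) - e(u_j))`. -/
def StLu : Prop := StEe → StLw → StLp → LiAt → ∀ u v w : Fin 3 → ℝ, Lace u v → (∀ i, 0 ≤ w i) →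
  (∀ j, Matrix.det (ee (v j) • (1 : Mat) - rR w * dA u) = 0) → w = ww u v

/-- **Lr** (EASY-MEDIUM). PROOF. `rR w` is real symmetric, `(1 - 2 s sᵀ)² = 1 - 4 s sᵀ + 4 (sᵀ s) s sᵀ`,
`sᵀ s = ∑ w_i = 1`; `det = -1`: `Matrix.det_fin_three`, `ring`, with `∑ s_i² = 1`. -/
def StLr : Prop := ∀ w : Fin 3 → ℝ, (∀ i, 0 ≤ w i) → ∑ i, w i = 1 →
  star (rR w) = rR w ∧ rR w * rR w = 1 ∧ (rR w).det = -1

/-- **Ld** (EASY). PROOF. Divide the inequalities of `IsD` by `6 (2k+1) (4k+3)`. -/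
def StLd : Prop := ∀ (k : ℕ) (t : Fin 3) (n p : Fin 3 → ℤ), IsD k t n p → Lace (uu k n) (vv k p)

/-- **Ia** (MEDIUM). PROOF. Let `W ≠ ⊥` be invariant. The diagonal matrix `A` has three different
entries, so for every `i` there is a polynomial in `A` (Lagrange) which is the projection to the
`i`-th coordinate: `∏_{j≠i} (A - α_j)/(α_i - α_j)`. So for `z ∈ W`, `z_i e_i ∈ W`. Take `z ≠ 0` in `W`
and `i` with `z_i ≠ 0`: `e_i ∈ W`. Then `rR w e_i = e_i - 2 s_i s ∈ W`, `s_i ≠ 0`, so `s ∈ W`, and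
`s_j e_j ∈ W`, `e_j ∈ W` for every `j`. So `W = ⊤`. -/
def StIa : Prop := ∀ u w : Fin 3 → ℝ, (∀ i j, i ≠ j → ee (u i) ≠ ee (u j)) → (∀ i, 0 < w i) →
  ∀ W : Submodule ℂ (Fin 3 → ℂ), (∀ v ∈ W, (dA u).mulVec v ∈ W) →
    (∀ v ∈ W, (rR w).mulVec v ∈ W) → W = ⊥ ∨ W = ⊤

/-- **Br** (MEDIUM). PROOF. Let `B = rR (ww u v) * dA u`. By `LiAt` its characteristic polynomial is
`∏ (X - e(v_j))` with three different zeros (the `v_j` are in an interval of length less than 1).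
It divides `X^m - c` because the three different numbers are zeros of the latter
(`Polynomial` or: `B` has three linearly independent eigenvectors, on which `B^m` is `c`).
Cayley-Hamilton (`Matrix.aeval_self_charpoly`): `B^m = c`. -/
def StBr : Prop := StEe → LiAt → ∀ (u v : Fin 3 → ℝ) (m : ℕ) (c : ℂ), Lace u v →
  (∀ j, ee (v j) ^ m = c) → (rR (ww u v) * dA u) ^ m = c • (1 : Mat)

/-- **Yk** (EASY-MEDIUM). For `IsD` and `Mod` the matrices of `y = a b`. PROOF. `A = dA (uu k n)` is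
diagonal with `α_j^(2k+1) = e(n_j/3) = e(-k t/3) = ζ^(-k)` (`nmod`). So
`y^k = ζ^k A^(2k) = ζ^k A^(2k+1) A⁻¹ = A⁻¹`, i.e. `y^k A = 1`, and
`y^(2k+1) = ζ^(2k+1) A^(2(2k+1)) = ζ^(2k+1-2k) = ζ`. -/
def StYk : Prop := StEe → ∀ (k : ℕ) (t : Fin 3) (n p : Fin 3 → ℤ) (y : Mat), IsD k t n p →
  y = (ee ((t.val : ℝ) / 3)) • (dA (uu k n)) ^ 2 →
  y ^ k * dA (uu k n) = 1 ∧ dA (uu k n) * y ^ k = 1 ∧ y ^ (2 * k + 1) = (ee ((t.val : ℝ) / 3)) • (1 : Mat)

/-- **Ma** (MEDIUM-HARD; hypotheses as listed). PROOF. `ζ = e(t/3)`, `ζ³ = 1`, `A = dA (uu k n)`,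
`R = rR (ww ..)`. `A` is unitary with determinant `e(∑ n_j/(3(2k+1))) = 1` (`nsum`), `R` is unitary with
determinant `-1` (`StLr` with `StLw`, `StLs`). So `a = -ζ² R A` has determinant
`(-ζ²)³ (-1) = 1` and is in SU(3), and `y = ζ A²` too. Put `b = a⁻¹ y`. `StYk`: `y^k = A⁻¹`,
`y^(2k+1) = ζ`. So `x = a y^k = -ζ² R`, `x² = ζ⁴ = ζ = y^(2k+1)`, and `Tor`'s first condition
`a⁻¹ y = y^k a y^(-k)` is equivalent to `y = a y^k a y^(-k)`, i.e. `y^(2k+1) = (a y^k)²`. The second: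
`a^(4k+3) = (-ζ²)^(4k+3) (R A)^(4k+3)` and `(R A)^(4k+3) = e(p_j/6) = e(1/2 + t(k+1)/3) =
-ζ^(k+1)` (`StBr`, `pmod`), so it is `ζ^(8k+6+k+1) = ζ^(9k+7) = ζ`. Irreducible: a subspace invariant
under `a`, `b` is invariant under `y = a b`, under `A = (y^k)⁻¹` (inverse on a finite-dimensional
space) and `R = -ζ a A⁻¹ = - ζ a y^k`; `StIa` (the `α_j` are different). -/
def StMa : Prop := StEe → StLw → StLp → LiAt → StLs → StLr → StLd → StIa → StBr → StYk →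
  ∀ (k : ℕ) (t : Fin 3) (n p : Fin 3 → ℤ), IsD k t n p →
  ∃ a b : SU3, Mod k t n p a b ∧ Tor k a b ∧ IrrP a b

/-- **Tq** (EASY-MEDIUM, group algebra). PROOF. `y = a b`. `b = y^k a y^(-k)` gives
`y = a y^k a y^(-k)`, so `(a y^k)² = y^(k+1) y^k = y^(2k+1)`. So `h = y^(2k+1)` commutes with `y` and
`a y^k`, hence with `a` and `b`. -/
def StTq : Prop := ∀ (Γ : Type) [Group Γ] (k : ℕ) (a b : Γ), Tor k a b →
  (a * (a * b) ^ k) ^ 2 = (a * b) ^ (2 * k + 1) ∧ (a * b) ^ (2 * k + 1) = a ^ (4 * k + 3) ∧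
  Commute ((a * b) ^ (2 * k + 1)) a ∧ Commute ((a * b) ^ (2 * k + 1)) b

/-- **Sr** (MEDIUM, Schur). PROOF. `c` has an eigenvalue `λ` (`Module.End.exists_eigenvalue`); its
eigenspace is invariant under `a`, `b` and is not `⊥`, so it is `⊤`: `c = λ`. `det c = 1` gives
`λ³ = 1`, so `λ = e(t/3)` (`StEe`). -/
def StSr : Prop := StEe → ∀ a b c : SU3, IrrP a b → Commute c a → Commute c b →
  ∃ t : Fin 3, (c : Mat) = (ee ((t.val : ℝ) / 3)) • (1 : Mat)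

/-- **Rf** (MEDIUM, reflections). PROOF. `ζ = e(t/3)`, `ζ³ = 1`. Put `R = -ζ X`: unitary,
`R² = ζ² X² = ζ³ = 1`, so `R = R⁻¹ = star R`, Hermitian, with `det R = -ζ³ det X = -1`.
`P = (1 - R)/2` is Hermitian and `P² = P`. Spectral theorem (`Matrix.IsHermitian.spectral_theorem`):
`P = U diag(λ) star U`, `λ_i ∈ {0, 1}` and `-1 = det R = ∏ (1 - 2 λ_i)`: the number of the `i` with
`λ_i = 1` is 1 or 3. If it is 3, `P = 1`, `R = -1`, `X = ζ⁻¹` is scalar, which is excluded. So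
`P = v v*` with the column `v` of `U` for the only `i` with `λ_i = 1`, and `X = -ζ² R`
(`(-ζ)(-ζ²) = 1`). -/
def StRf : Prop := StEe → ∀ (X : SU3) (t : Fin 3),
  (X : Mat) ^ 2 = (ee ((t.val : ℝ) / 3)) • (1 : Mat) → (∀ c : ℂ, (X : Mat) ≠ c • (1 : Mat)) →
  ∃ v : Fin 3 → ℂ, ∑ i, star (v i) * v i = 1 ∧
    (X : Mat) = (-(ee ((t.val : ℝ) / 3)) ^ 2) • ((1 : Mat) - (2 : ℂ) • Matrix.vecMulVec v (star v))

/-- **Pj** (MEDIUM, the eigenprojections of a unitary matrix of finite order). PROOF. Put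
`P j = (1/m) ∑_{l<m} e(-j l/m) A^l`. `∑_{j<m} P j = 1` (geometric sums: `∑_j e(-jl/m) = 0` for
`0 < l < m`), `A P j = e(j/m) P j` (shift `l`, `A^m = 1`), `star (P j) = P j`
(`star A = A⁻¹ = A^(m-1)`, `l ↦ m - l`), and for `i ≠ j`: `e(i/m) P j P i = P j A P i = e(j/m) P j P i`,
so `P j P i = 0`. -/
def StPj : Prop := StEe → ∀ (m : ℕ) (A : SU3), 0 < m → A ^ m = 1 →
  ∃ P : ℕ → Mat, ∑ j ∈ range m, P j = 1 ∧
    (∀ j < m, (A : Mat) * P j = (ee ((j : ℝ) / m)) • P j) ∧ (∀ j < m, star (P j) = P j) ∧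
    (∀ i < m, ∀ j < m, i ≠ j → P j * P i = 0)

/-- **Nm** (MEDIUM-HARD, normal form; hypotheses `StEe`, `StPj`). PROOF. Put `f_j = P_j v` (`j < m`) with
the projections of `StPj`. `∑ f_j = v`, `A f_j = e(j/m) f_j`, and the `f_j` are orthogonal
(`⟨P_i v, P_j v⟩ = ⟨v, P_i P_j v⟩ = 0`). The span `W` of the `f_j` is invariant under `A` and
under `z ↦ z - 2 ⟨v, z⟩ v` (as `v ∈ W`) and contains `v ≠ 0`, so `W = ⊤`. So exactly three of the
`f_j` are not zero (non-zero orthogonal vectors are linearly independent; they span `ℂ³`), say for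
`j = n_0 < n_1 < n_2`. Put `w_i = |f_(n_i)|² > 0`, `∑ w_i = |v|² = 1`, and let `U₀` be the
matrix with the rows `star f_(n_i) / √w_i`: it is unitary, `U₀ A U₀⁻¹ = diag(e(n_i/m))` and
`U₀ v = (√w_i)`, so `U₀ (1 - 2 v v*) U₀⁻¹ = rR w`. Multiply `U₀` with a scalar of absolute value 1
to have determinant 1. -/
def StNm : Prop := StEe → StPj → ∀ (m : ℕ) (A : SU3) (v : Fin 3 → ℂ), 0 < m → A ^ m = 1 →
  ∑ i, star (v i) * v i = 1 →
  (∀ W : Submodule ℂ (Fin 3 → ℂ), (∀ z ∈ W, (A : Mat).mulVec z ∈ W) →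
    (∀ z ∈ W, ((1 : Mat) - (2 : ℂ) • Matrix.vecMulVec v (star v)).mulVec z ∈ W) → W = ⊥ ∨ W = ⊤) →
  ∃ (n : Fin 3 → ℤ) (w : Fin 3 → ℝ) (U : SU3), 0 ≤ n 0 ∧ n 0 < n 1 ∧ n 1 < n 2 ∧ n 2 < m ∧
    (∀ i, 0 < w i) ∧ ∑ i, w i = 1 ∧
    ((U * A * U⁻¹ : SU3) : Mat) = dA (fun j => (n j : ℝ) / m) ∧
    (U : Mat) * ((1 : Mat) - (2 : ℂ) • Matrix.vecMulVec v (star v)) * ((U⁻¹ : SU3) : Mat) = rR w

/-- **Sj** (MEDIUM-HARD, assembly; hypotheses as listed). PROOF. `q = 2k+1`, `r = 4k+3`. By `StTq` and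
`StSr` `y^q = x² = a^r = ζ = e(t/3)`, where `y = a b`, `x = a y^k`. `x` is not scalar: otherwise an
eigenvector of `y` spans a line invariant under `y`, `a = x y^(-k)`, `b = a⁻¹ y`. `StRf`:
`x = -ζ² (1 - 2 v v*)`. Put `A = (y^k)⁻¹`: `A^(3q) = 1`, `y = y^q y^(-2k) = ζ A²`, `a = x A`. A subspace
invariant under `A` and `1 - 2 v v*` is invariant under `x`, `y`, `a`, `b⁻¹ = y⁻¹ a` and hence `b`.
`StNm` with `m = 3q` gives `n`, `w`, `U`. `A^q = y^(-kq) = ζ^(-k)`: `e(n_j/3) = e(-kt/3)`, `nmod`;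
`det A = 1`: `nsum`. With `u = uu k n` (`StNm`'s `n_j/m` is `uu k n j`) `StLv` gives `v'` with `Lace u v'`
and `e(v'_j)` eigenvalues of `B = rR w * dA u`; `U a U⁻¹ = -ζ² B` and `a^r = ζ`, so
`(-ζ² e(v'_j))^r = ζ` (an eigenvector), `e(r v'_j) = -ζ^(1-2r) = e(1/2 + t(k+1)/3)` (`r = 4k+3`,
`1 - 2r = -8k-5 ≡ k + 1` mod 3), so `6 r v'_j = p_j` is an integer with `pmod`. The inequalities and
`psum` are `Lace` multiplied by `6 q r`. `StLu`: `w = ww u (vv k p)`. `Mod` holds for the conjugated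
pair: `U (a b) U⁻¹ = U y U⁻¹ = ζ (dA u)²`. -/
def StSj : Prop := StEe → StLw → StLp → LiAt → StLv → StLu → StTq → StSr → StRf → StNm → StPj →
  ∀ (k : ℕ) (a b : SU3), Tor k a b → IrrP a b →
  ∃ (t : Fin 3) (n p : Fin 3 → ℤ) (U : SU3), IsD k t n p ∧
    Mod k t n p (U * a * U⁻¹) (U * b * U⁻¹)

/-- **Inj** (MEDIUM; hypotheses as listed). PROOF. `y = a b`, `y' = U y U⁻¹`. `StYk`: `y^(2k+1) = ζ`,
`y'^(2k+1) = ζ'`, so `ζ = ζ'` and `t = t'` (`StEe`, `0 ≤ t < 3`). `A = (y^k)⁻¹`, so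
`dA u' = U (dA u) U⁻¹` and `det(z - dA u') = det(z - dA u)`: every `e(u'_j)` is an `e(u_i)`, and as
`0 ≤ n < 3(2k+1)`, `n'_j` is an `n_i`; both are increasing, so `n = n'`. `B = rR .. * dA u = -ζ a`
(`(-ζ)(-ζ²) = 1`), so `B' = U B U⁻¹`, `det(z - B') = det(z - B)`, by `LiAt`
`∏ (z - e(v'_j)) = ∏ (z - e(v_j))`, so every `e(v'_j)` is an `e(v_i)`; all of them are in
`(u_0, u_0 + 1)`, so `v'_j = v_i`, and `v'_j`, `v_j` are the only ones in the `j`-th arc. So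
`p = p'`. -/
def StInj : Prop := StEe → LiAt → StLd → StYk → ∀ (k : ℕ) (t t' : Fin 3) (n n' p p' : Fin 3 → ℤ)
  (a b U : SU3), IsD k t n p → IsD k t' n' p' → Mod k t n p a b →
  Mod k t' n' p' (U * a * U⁻¹) (U * b * U⁻¹) → t = t' ∧ n = n' ∧ p = p'

/-- **Mu** (EASY). A pair is determined by its normal form. PROOF. `a` and `a b` are equal as matrices
(`Subtype.ext`), so `b = a⁻¹ (a b)`. -/
def StMu : Prop := ∀ (k : ℕ) (t : Fin 3) (n p : Fin 3 → ℤ) (a b a' b' : SU3),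
  Mod k t n p a b → Mod k t n p a' b' → a = a' ∧ b = b'

/-- **Cn** (MEDIUM). PROOF. The map from the data to the classes: choose the pair of `Ma`. Surjective by
`Sj` (and `Mu`: the conjugated pair is the chosen pair), injective by `Inj`. -/
def StCn : Prop :=
  (∀ (k : ℕ) (t : Fin 3) (n p : Fin 3 → ℤ), IsD k t n p →
    ∃ a b : SU3, Mod k t n p a b ∧ Tor k a b ∧ IrrP a b) →
  (∀ (k : ℕ) (a b : SU3), Tor k a b → IrrP a b →
    ∃ (t : Fin 3) (n p : Fin 3 → ℤ) (U : SU3), IsD k t n p ∧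
      Mod k t n p (U * a * U⁻¹) (U * b * U⁻¹)) →
  (∀ (k : ℕ) (t t' : Fin 3) (n n' p p' : Fin 3 → ℤ) (a b U : SU3), IsD k t n p →
    IsD k t' n' p' → Mod k t n p a b → Mod k t' n' p' (U * a * U⁻¹) (U * b * U⁻¹) →
    t = t' ∧ n = n' ∧ p = p') → StMu →
  ∀ k : ℕ, Nonempty (PCl k ≃ DSet k)

end Pool.Agent.CM
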