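import Pool.Agent.Work.MP_8590b5_gt.CM.Defs2

/-!
# Block CM, part 3: the lattice count and the finite differences

Write `pr_<name> : St<name>` in `CM/I_<name>.lean` (namespace `Pool.Agent.CM`). Every item is
independent of the others (what may be used is an explicit hypothesis). All docstrings are complete
proofs. Brute force has checked the counts for `k ≤ 5`.
-/

namespace Pool.Agent.CM

open Finset

/-- The cyclic normal form of the data: the window `(n_0, n_1, n_2)` starts at the index where the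
number `E_0 = (p_0 - 4 n_0 - 1)/2 - (s - 1)` is divisible by 3, where `3 q s = n_0 + n_1 + n_2`. -/
structure IsC (k : ℕ) (t : Fin 3) (n p : Fin 3 → ℤ) : Prop where
  n0 : 0 ≤ n 0
  n0' : n 0 < 3 * (2 * (k : ℤ) + 1)
  n01 : n 0 < n 1
  n12 : n 1 < n 2
  n2 : n 2 < n 0 + 3 * (2 * (k : ℤ) + 1)
  nmod : ∀ j, (3 : ℤ) ∣ n j + (k : ℤ) * (t.val : ℤ)
  nsum : ∃ s : ℤ, n 0 + n 1 + n 2 = 3 * (2 * (k : ℤ) + 1) * s ∧
    (6 : ℤ) ∣ p 0 - 4 * n 0 - 1 - 2 * (s - 1)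
  pmod : ∀ j, (6 : ℤ) ∣ p j - 3 - 2 * (t.val : ℤ) * ((k : ℤ) + 1)
  i0 : 2 * (4 * (k : ℤ) + 3) * n 0 < (2 * (k : ℤ) + 1) * p 0
  i0' : (2 * (k : ℤ) + 1) * p 0 < 2 * (4 * (k : ℤ) + 3) * n 1
  i1 : 2 * (4 * (k : ℤ) + 3) * n 1 < (2 * (k : ℤ) + 1) * p 1
  i1' : (2 * (k : ℤ) + 1) * p 1 < 2 * (4 * (k : ℤ) + 3) * n 2
  i2 : 2 * (4 * (k : ℤ) + 3) * n 2 < (2 * (k : ℤ) + 1) * p 2
  i2' : (2 * (k : ℤ) + 1) * p 2 < 2 * (4 * (k : ℤ) + 3) * (n 0 + 3 * (2 * (k : ℤ) + 1))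
  psum : (2 * (k : ℤ) + 1) * (p 0 + p 1 + p 2) =
    2 * (4 * (k : ℤ) + 3) * (n 0 + n 1 + n 2) + 3 * (2 * (k : ℤ) + 1) * (4 * (k : ℤ) + 3)

/-- The gaps `g` and the numbers `E`. -/
structure IsE (k : ℕ) (g E : Fin 3 → ℤ) : Prop where
  gsum : g 0 + g 1 + g 2 = 2 * (k : ℤ) + 1
  esum : E 0 + E 1 + E 2 = 3 * (2 * (k : ℤ) + 1)
  e0 : (3 : ℤ) ∣ E 0
  e1 : (3 : ℤ) ∣ E 1 - 2
  e2 : (3 : ℤ) ∣ E 2 - 1
  a0 : 0 < 2 * (2 * (k : ℤ) + 1) * E 0 + (2 * (k : ℤ) + 1) + 2 * (g 0 - g 2)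
  a1 : 0 < 2 * (2 * (k : ℤ) + 1) * E 1 + (2 * (k : ℤ) + 1) + 2 * (g 1 - g 0)
  a2 : 0 < 2 * (2 * (k : ℤ) + 1) * E 2 + (2 * (k : ℤ) + 1) + 2 * (g 2 - g 1)
  b0 : 0 < 2 * (2 * (k : ℤ) + 1) * (6 * g 0 - E 0) + (2 * (k : ℤ) + 1) + 2 * (g 0 - g 1)
  b1 : 0 < 2 * (2 * (k : ℤ) + 1) * (6 * g 1 - E 1) + (2 * (k : ℤ) + 1) + 2 * (g 1 - g 2)
  b2 : 0 < 2 * (2 * (k : ℤ) + 1) * (6 * g 2 - E 2) + (2 * (k : ℤ) + 1) + 2 * (g 2 - g 0)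

/-- The closed version: lattice points in a product of two triangles. -/
structure IsB (k : ℕ) (g E : Fin 3 → ℤ) : Prop where
  gsum : g 0 + g 1 + g 2 = 2 * (k : ℤ) + 1
  esum : E 0 + E 1 + E 2 = 3 * (2 * (k : ℤ) + 1)
  e0 : (3 : ℤ) ∣ E 0
  e1 : (3 : ℤ) ∣ E 1 - 2
  e2 : (3 : ℤ) ∣ E 2 - 1
  a : ∀ i, 0 ≤ E i
  b : ∀ i, E i ≤ 6 * g i

/-- **B1** (MEDIUM-HARD, rotation). PROOF. Write `q = 2k+1`, `r = 4k+3`, and extend `n`, `p` to all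
integers `j` by `n_{j+3} = n_j + 3q`, `p_{j+3} = p_j + 6r`. The conditions of `IsD` (except
`0 ≤ n_0`, `n_2 < 3q`) are invariant under the rotation
`(n_0,n_1,n_2; p_0,p_1,p_2) ↦ (n_1, n_2, n_0+3q; p_1, p_2, p_0+6r)` (in `psum` both sides grow by
`6qr`, in `nmod`, `pmod` nothing changes, `nsum`: `s` becomes `s+1`) and under the translation
`(n + 3q, p + 6r)` (`s` becomes `s + 3`). With `E_j = (p_j - 4 n_j - 1)/2 - s_j`,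
`3 q s_j = n_{j-1} + n_j + n_{j+1}` (so `s_0 = s - 1`, `s_1 = s`, `s_2 = s + 1`; the `p_j` are odd):
`E_{j+1} - E_j = (p_{j+1}-p_j)/2 - 2 (n_{j+1}-n_j) - 1 ≡ -1` mod 3, and `E_{j+3} = E_j`. So exactly
one of `E_0, E_1, E_2` is divisible by 3. (→) from `IsD` take the window which starts at this index
`j`; `0 ≤ n_j < 3q`. (←) from `IsC`: if `n_2 < 3q` do nothing; if `n_1 < 3q ≤ n_2` take
`(n_2-3q, n_0, n_1; p_2-6r, p_0, p_1)`; if `3q ≤ n_1` take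
`(n_1-3q, n_2-3q, n_0; p_1-6r, p_2-6r, p_0)`. The two maps are inverse to each other (a window in
`IsC` is determined by its cyclic sequence and the two conditions; the same for `IsD`).
Use `Nat.card_congr` or `Nat.card_eq_of_bijective`. -/
def StB1 : Prop := ∀ k : ℕ, Nat.card (DSet k) =
  Nat.card {z : Fin 3 × (Fin 3 → ℤ) × (Fin 3 → ℤ) // IsC k z.1 z.2.1 z.2.2}

/-- **B2** (MEDIUM-HARD, affine bijection). PROOF. `q = 2k+1`, `r = 2q + 1`. From `IsC` put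
`g_j = (n_{j+1} - n_j)/3` (`n_3 = n_0 + 3q`; divisible by `nmod`) and
`E_0 = (p_0 - 4 n_0 - 1)/2 - (s-1)`, `E_1 = (p_1 - 4 n_1 - 1)/2 - s`,
`E_2 = (p_2 - 4 n_2 - 1)/2 - (s+1)`. Then `2 q E_j + q + 2 (g_j - g_{j-1}) = q p_j - 2 r n_j` and
`2 q (6 g_j - E_j) + q + 2 (g_j - g_{j+1}) = 2 r n_{j+1} - q p_j` (identities), so the conditions
`i*` are `a*`, `b*`; the sum is `3q` by `psum`; the residues: `E_0 ≡ 0` by `nsum`, and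
`E_1 ≡ E_0 - 1`, `E_2 ≡ E_1 - 1` mod 3. Conversely, given `(g, E)`: a window with these gaps has
`3 n_0 + 6 g_0 + 3 g_1 = 3 q s`, so `n_0 = q s - 2 g_0 - g_1`, and
`p_0 = 2 E_0 + 2 (s-1) + 4 n_0 + 1` and so on. The conditions `3 ∣ n_0 + k t`,
`3 ∣ p_0 - 2 t (k+1)` are, as `E_0 ≡ 0`: `2 s + n_0 - 1 ≡ 2 t (k+1)` and `n_0 ≡ - k t`, whose sum
gives `2 s - 1 ≡ 2 t + 3 k t ≡ 2 t`, `t ≡ s + 1` mod 3, and then `n_0 ≡ - k (s+1)`, i.e.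
`(2k+1) s + k (s+1) ≡ 2 g_0 + g_1`, `s ≡ 2 g_0 + g_1 - k` mod 3. So `s` is determined mod 3 and,
since `s ↦ s + 3` changes `n_0` by `3q`, exactly one `s` of this class has `0 ≤ n_0 < 3q`. The gaps
are positive: `a_j + b_j` is `6 r g_j`. All the `p_j` are odd, and
`p_1, p_2 ≡ p_0` mod 3 by the residues of the `E_j`. -/
def StB2 : Prop := ∀ k : ℕ,
  Nat.card {z : Fin 3 × (Fin 3 → ℤ) × (Fin 3 → ℤ) // IsC k z.1 z.2.1 z.2.2} =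
  Nat.card {z : (Fin 3 → ℤ) × (Fin 3 → ℤ) // IsE k z.1 z.2}

/-- **En** (MEDIUM). PROOF. `q = 2k+1`. (→) `a_i + b_i = (12 q + 6) g_i > 0` (use `gsum`), so
`g_i ≥ 1` and `g_i ≤ q - 2`, `|g_i - g_j| < q`. So `2 q E_i > - q - 2 q`, `E_i ≥ -1`, and if
`E_i = -1` then `2 (g_i - g_{i-1}) > q`. The same for `F_i = 6 g_i - E_i`: `F_i ≥ -1`. Suppose
`E_i = -1`. Then `2 g_i > q`, `g_i ≥ k+1`, the other two gaps have sum at most `k`, and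
`E_j ≤ 6 g_j + 1` for the others, so `3q + 1 = E_j + E_l ≤ 6 k + 2 < 6 k + 4`, a contradiction.
In the same way (`F_0 + F_1 + F_2 = 3q`) `F_i = -1` is impossible. So `IsB`. The two negations are
`a_0` and `b_0`. (←) `g_i ≥ 0` because `0 ≤ E_i ≤ 6 g_i`, so `g_i ≤ q`, `|g_i - g_j| ≤ q`. For
`E_i ≥ 1`: `a_i` holds (`2q + q - 2q > 0`); `E_1, E_2` are not `0` by the residues; `E_0 = 0`: `a_0`
is `q > 2 (g_2 - g_0)`, the negation of the excluded case (`q` is odd). For `F_i`: `F_i = 0` gives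
`E_i = 6 g_i ≡ 0` mod 3, so `i = 0`. (`omega` / `nlinarith`; products with `k` must be treated by
`nlinarith` or by substituting `E_i = 0`, `E_i ≥ 1`.) -/
def StEn : Prop := ∀ (k : ℕ) (g E : Fin 3 → ℤ), IsE k g E ↔
  IsB k g E ∧ ¬ (E 0 = 0 ∧ 2 * (k : ℤ) + 1 < 2 * (g 2 - g 0)) ∧
    ¬ (E 0 = 6 * g 0 ∧ 2 * (k : ℤ) + 1 < 2 * (g 1 - g 0))

/-- **Sx** (EASY-MEDIUM, points of a triangle). PROOF. `(a_0, a_1, a_2)` is determined by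
`a_0 ∈ [0, m]` and `a_1 ∈ [0, m - a_0]`; `∑_{a_0 ≤ m} (m - a_0 + 1) = (m+1)(m+2)/2`. -/
def StSx : Prop := ∀ m : ℕ, Nat.card {a : Fin 3 → ℤ // (∀ i, 0 ≤ a i) ∧ a 0 + a 1 + a 2 = m} =
  (m + 1) * (m + 2) / 2

/-- **Cc** (MEDIUM; hypothesis `StSx`, one residue class). PROOF. The bijection
`(a, b) ↦ (g, E)`, `E_i = 6 a_i + ρ_i`, `g_i = a_i + δ_i + b_i` with `a_i, b_i ≥ 0`,
`∑ a_i = A`, `∑ b_i = B`: `0 ≤ E_i` iff `a_i ≥ 0` (as `0 ≤ ρ_i < 6`), and `E_i ≤ 6 g_i` iff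
`g_i ≥ a_i + δ_i`. `Nat.card_prod` and `StSx` (twice). -/
def StCc : Prop := StSx → ∀ (k A B : ℕ) (ρ δ : Fin 3 → ℤ), (∀ i, 0 ≤ ρ i ∧ ρ i < 6) →
  (∀ i, δ i = if ρ i = 0 then 0 else 1) → 6 * (A : ℤ) + (ρ 0 + ρ 1 + ρ 2) = 3 * (2 * (k : ℤ) + 1) →
  (A : ℤ) + B + (δ 0 + δ 1 + δ 2) = 2 * (k : ℤ) + 1 →
  Nat.card {z : (Fin 3 → ℤ) × (Fin 3 → ℤ) // z.1 0 + z.1 1 + z.1 2 = 2 * (k : ℤ) + 1 ∧
    z.2 0 + z.2 1 + z.2 2 = 3 * (2 * (k : ℤ) + 1) ∧ (∀ i, 0 ≤ z.2 i) ∧ (∀ i, z.2 i ≤ 6 * z.1 i) ∧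
    ∀ i, (6 : ℤ) ∣ z.2 i - ρ i} = ((A + 1) * (A + 2) / 2) * ((B + 1) * (B + 2) / 2)

/-- **Fi** (EASY-MEDIUM). PROOF. All the numbers are in the interval `[0, 6(2k+1)]`. -/
def StFi : Prop := ∀ k : ℕ, Finite {z : (Fin 3 → ℤ) × (Fin 3 → ℤ) // IsB k z.1 z.2}

/-- **Cb** (MEDIUM; hypotheses `StSx`, `StCc`, `StFi`). PROOF. `k = 0`: the set is empty (`E = (0,2,1)`
because the sum is 3, so `g_1, g_2 ≥ 1` and the sum of the `g_i` is at least 2). `k ≥ 1`: the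
residues mod 6 of `E_0, E_1, E_2` are in `{0,3}`, `{2,5}`, `{1,4}`, and the sum is odd, so they are
`(0,2,1)` (`A = k`, `B = k-1`), `(0,5,4)` (`A = k-1`, `B = k`), `(3,5,1)` or `(3,2,4)`
(`A = k-1`, `B = k-1`). The set is the disjoint union of these four sets (the residues mod 3 follow
from those mod 6), and with `C_m = (m+1)(m+2)/2`: `2 C_k C_{k-1} + 2 C_{k-1}^2 =
2 (k(k+1)/2) ((k+1)(k+2)/2 + k(k+1)/2) = k (k+1)^3`. -/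
def StCb : Prop := StSx → StCc → StFi → ∀ k : ℕ,
  Nat.card {z : (Fin 3 → ℤ) × (Fin 3 → ℤ) // IsB k z.1 z.2} = k * (k + 1) ^ 3

/-- **V1** (MEDIUM). PROOF. `2 (g_2 - g_0) > 2k+1` means `2 g_0 + g_1 ≤ k` (`gsum`). The points are
given by `g_0 ≥ 0`, `g_1 ≥ 0` with `2 g_0 + g_1 ≤ k` and `E_1 = 3 j + 2` with `0 ≤ j < 2 g_1`
(`E_1 ≤ 6 g_1`); `E_2 = 3(2k+1) - E_1 ≥ 0` since `E_1 ≤ 6k`, and `E_2 ≤ 3(2k+1) ≤ 6 g_2` since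
`g_2 ≥ k+1`. The number is `∑_{g_0 ≤ k/2} ∑_{g_1 ≤ k - 2 g_0} 2 g_1`. -/
def StV1 : Prop := ∀ k : ℕ, Nat.card {z : (Fin 3 → ℤ) × (Fin 3 → ℤ) // IsB k z.1 z.2 ∧
    z.2 0 = 0 ∧ 2 * (k : ℤ) + 1 < 2 * (z.1 2 - z.1 0)} =
  ∑ c ∈ range (k / 2 + 1), (k - 2 * c) * (k - 2 * c + 1)

/-- **V2** (MEDIUM). PROOF. `2 (g_1 - g_0) > 2k+1` means `2 g_0 + g_2 ≤ k`. The points are given by
`g_0, g_2 ≥ 0` with `2 g_0 + g_2 ≤ k`, `E_0 = 6 g_0`, `E_2 = 3 j + 1`, `0 ≤ j < 2 g_2`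
(`E_2 ≤ 6 g_2`), `E_1 = 3(2k+1) - 6 g_0 - E_2 ≥ 3(2k+1) - 6k > 0` and `E_1 ≤ 3 (2k+1) ≤ 6 g_1`
since `g_1 ≥ k+1`. -/
def StV2 : Prop := ∀ k : ℕ, Nat.card {z : (Fin 3 → ℤ) × (Fin 3 → ℤ) // IsB k z.1 z.2 ∧
    z.2 0 = 6 * z.1 0 ∧ 2 * (k : ℤ) + 1 < 2 * (z.1 1 - z.1 0)} =
  ∑ c ∈ range (k / 2 + 1), (k - 2 * c) * (k - 2 * c + 1)

/-- **Ec** (MEDIUM; hypotheses as listed). PROOF. By `StEn` the set of `IsE` is the set of `IsB` minus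
the two sets of `StV1`, `StV2`, which are disjoint (in both, `0 = 6 g_0`, `g_0 = 0`, `2 g_2 > 2k+1` and
`2 g_1 > 2k+1`, but `g_1 + g_2 = 2k+1`). Cardinalities of finite sets (`StFi`). -/
def StEc : Prop := StEn → StFi → StCb → StSx → StCc → StV1 → StV2 → ∀ k : ℕ,
  Nat.card {z : (Fin 3 → ℤ) × (Fin 3 → ℤ) // IsE k z.1 z.2} = Np k

/-- **Nf** (EASY, closed form). PROOF. Put `S(k) = ∑ c ∈ range (k/2+1), (k-2c)(k-2c+1)`. Then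
`S(0) = 0`, `S(1) = 2`, `S(k+2) = S(k) + (k+2)(k+3)`, so `12 S(k) = k (k+2)(2k+5) + (3 - 3 (-1)^k)/2`
in the form `24 S(k) = 2 k (k+2) (2k+5) + 3 - 3 (-1)^k` (two step induction), and `2 S(k) ≤ k (k+1)^3`,
so the subtraction in `Np` is a true one. -/
def StNf : Prop := ∀ k : ℕ, 12 * (Np k : ℤ) =
  12 * k * (k + 1) ^ 3 - 2 * k * (k + 2) * (2 * k + 5) - 3 + 3 * (-1) ^ k

/-- **Df** (MEDIUM; hypothesis `StNf`). PROOF. By `StNf` `12 Np(m) = P(m) + 3 (-1)^m` with a polynomial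
`P` of degree 4. The sum `∑ j (-1)^j C(N,j) f(N-j)` is the `N`-th forward difference of `f` at `0`
(`fwdDiff_iter_eq_sum_shift`), which vanishes for polynomials of degree less than `N`
(`fwdDiff_iter_pow_eq_zero_of_lt` or `Polynomial` versions), and for `f(m) = (-1)^m` it is
`(-1)^N 2^N` (`Finset.sum` of the binomial coefficients, `Nat.sum_range_choose`). So 12 times the sum
is `3 (-1)^N 2^N`. -/
def StDf : Prop := StNf → ∀ N : ℕ, 5 ≤ N →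
  4 * ∑ j ∈ range (N + 1), (-1 : ℤ) ^ j * (N.choose j) * (Np (N - j) : ℤ) = (-1) ^ N * 2 ^ N

/-- **Dg** (MEDIUM; hypothesis `StNf`). PROOF. `144 Np(m)^2 = P(m)^2 + 9 + 6 (-1)^m P(m)`, with
`P(m) = 12 m (m+1)^3 - 2 m (m+2)(2m+5) - 3` of degree 4. The `N`-th difference of `P^2 + 9` (degree
8) vanishes; the rest is `6 ∑ j (-1)^j C(N,j) (-1)^(N-j) P(N-j) = 6 (-1)^N ∑ j C(N,j) P(N-j)`,
and `P(0) = -3`, `P(m) > 3` for `m ≥ 1`, so `∑ j C(N,j) P(N-j) ≥ -3 + P(N) > 0`. -/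
def StDg : Prop := StNf → ∀ N : ℕ, 9 ≤ N →
  ∑ j ∈ range (N + 1), (-1 : ℤ) ^ j * (N.choose j) * (Np (N - j) : ℤ) ^ 2 ≠ 0

/-- **Sq** (MEDIUM, squares). PROOF. Put `μ(T) = ∑ U ∈ T.powerset, (-1)^|U| f(U)`. Moebius inversion:
`f(S) = ∑ T ∈ S.powerset, (-1)^|T| μ(T)`. Therefore `∑ S ⊆ range d, (-1)^|S| f(S)^2 =
∑ T₁, T₂ (-1)^(|T₁|+|T₂|) μ(T₁) μ(T₂) ∑ (T₁ ∪ T₂ ⊆ S ⊆ range d) (-1)^|S|`, and the inner sum is `0`
unless `T₁ ∪ T₂ = range d`; in this case `|T₁| + |T₂| ≥ d ≥ 2e`, so one of them has at least `e`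
elements and its `μ` is `0`. (Alternative: induction on `e` is not needed.) -/
def StSq : Prop := ∀ (d e : ℕ) (f : Finset ℕ → ℚ), 2 * e ≤ d →
  (∀ T ⊆ range d, e ≤ T.card → ∑ S ∈ T.powerset, (-1 : ℚ) ^ S.card * f S = 0) →
  ∑ S ∈ (range d).powerset, (-1 : ℚ) ^ S.card * f S ^ 2 = 0

/-- **Ss** (EASY-MEDIUM, the sum over the sublinks). Here `insert 0 (J.image (· + 1))` are the sublinks
which contain the component 0. PROOF. `(range (N+1)).powerset` is the disjoint union of the sets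
without `0` (the terms are `0`) and with `0`; the latter are the `insert 0 (J.image (· + 1))`,
`J ⊆ range N`, with `J.card + 1` elements; `∑ J ∈ (range N).powerset, G J.card =
∑ j ∈ range (N+1), C(N,j) G j` (`Finset.sum_powerset_apply_card`). -/
def StSs : Prop := ∀ (N : ℕ) (F : Finset ℕ → ℤ) (G : ℕ → ℤ),
  (∀ S ⊆ range (N + 1), 0 ∉ S → F S = 0) →
  (∀ J ⊆ range N, F (insert 0 (J.image (· + 1))) = G J.card) →
  ∑ S ∈ (range (N + 1)).powerset, (-1 : ℤ) ^ S.card * F S =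
    - ∑ j ∈ range (N + 1), (-1 : ℤ) ^ j * (N.choose j) * G j

end Pool.Agent.CM
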