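import Pool.Agent.Work.MP_8590b5_gt.CM.Stmts2

/-!
# Block CM, part 4: the irreducible representations are non-degenerate (no deformations)

Write `pr_<name> : St<name>` in `CM/I_<name>.lean` (namespace `Pool.Agent.CM`). Every item is
independent of the others (what may be used is an explicit hypothesis). All docstrings are complete
proofs.
-/

namespace Pool.Agent.CM

open Finset

/-- The semidirect product of the matrices and SU(3): `(X, g) (Y, h) = (X + g Y g⁻¹, g h)`. -/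
@[ext] structure Aff where
  v : Mat
  l : SU3

theorem Aff_aux (g h : SU3) : ((g * h : SU3) : Mat) = (g : Mat) * (h : Mat) := rfl

theorem Aff_inv (g : SU3) : ((g⁻¹ : SU3) : Mat) * (g : Mat) = 1 := by
  rw [← Aff_aux]; simp

theorem Aff_inv' (g : SU3) : (g : Mat) * ((g⁻¹ : SU3) : Mat) = 1 := by
  rw [← Aff_aux]; simp

noncomputable instance : Group Aff where
  mul x y := ⟨x.v + (x.l : Mat) * y.v * ((x.l)⁻¹ : SU3), x.l * y.l⟩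
  one := ⟨0, 1⟩
  inv x := ⟨-(((x.l)⁻¹ : SU3) : Mat) * x.v * (x.l : Mat), (x.l)⁻¹⟩
  mul_assoc x y z := by
    change (⟨x.v + (x.l : Mat) * y.v * ((x.l)⁻¹ : SU3) +
      ((x.l * y.l : SU3) : Mat) * z.v * (((x.l * y.l)⁻¹ : SU3) : Mat), x.l * y.l * z.l⟩ : Aff) =
      ⟨x.v + (x.l : Mat) * (y.v + (y.l : Mat) * z.v * ((y.l)⁻¹ : SU3)) * ((x.l)⁻¹ : SU3),
        x.l * (y.l * z.l)⟩
    rw [mul_inv_rev, Aff_aux, Aff_aux]
    ext1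
    · simp only [Matrix.mul_add, Matrix.add_mul, Matrix.mul_assoc, add_assoc]
    · exact mul_assoc _ _ _
  one_mul x := by
    change (⟨0 + ((1 : SU3) : Mat) * x.v * (((1 : SU3)⁻¹ : SU3) : Mat), 1 * x.l⟩ : Aff) = x
    ext1
    · simp
    · simp
  mul_one x := by
    change (⟨x.v + (x.l : Mat) * 0 * ((x.l)⁻¹ : SU3), x.l * 1⟩ : Aff) = x
    ext1
    · simp
    · simp
  inv_mul_cancel x := by
    change (⟨-(((x.l)⁻¹ : SU3) : Mat) * x.v * (x.l : Mat) +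
      (((x.l)⁻¹ : SU3) : Mat) * x.v * ((((x.l)⁻¹)⁻¹ : SU3) : Mat), (x.l)⁻¹ * x.l⟩ : Aff) = ⟨0, 1⟩
    ext1
    · simp
    · simp

theorem Aff.mul_v (x y : Aff) : (x * y).v = x.v + (x.l : Mat) * y.v * ((x.l)⁻¹ : SU3) := rfl
theorem Aff.mul_l (x y : Aff) : (x * y).l = x.l * y.l := rfl
theorem Aff.one_v : (1 : Aff).v = 0 := rfl
theorem Aff.one_l : (1 : Aff).l = 1 := rfl
theorem Aff.inv_l (x : Aff) : (x⁻¹).l = (x.l)⁻¹ := rfl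
theorem Aff.inv_v (x : Aff) : (x⁻¹).v = -(((x.l)⁻¹ : SU3) : Mat) * x.v * (x.l : Mat) := rfl

/-- **Sm** (EASY-MEDIUM, Schur for matrices). PROOF. `M` has an eigenvalue `λ`
(`Module.End.exists_eigenvalue` or a zero of `det (z - M)`); `ker (M - λ)` is invariant under `a`, `b`
and not `⊥`, so it is `⊤`. -/
def StSm : Prop := ∀ (a b : SU3) (M : Mat), IrrP a b → M * (a : Mat) = (a : Mat) * M →
  M * (b : Mat) = (b : Mat) * M → ∃ c : ℂ, M = c • (1 : Mat)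

/-- **Ha** (MEDIUM; the central element has the value 0). PROOF. Let `y = (A0,a)(B0,b)`,
`h = y^(2k+1)`. By `StTq` in `Aff`: `h` commutes with both, `(A0,a) y^k` has the square `h`, and
`h = (A0,a)^(4k+3)`. The linear part of `h` commutes with `a`, `b`, so it is scalar (`StSm`), and
`h x = x h` for `x = (A0, a)` reads `h.v + A0 = A0 + a h.v a⁻¹` (conjugation with a scalar matrix is
trivial); the same for `b`. So `h.v` commutes with `a`, `b`: `h.v = κ` (`StSm`). The trace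
`T(x) = tr x.v` is additive on `Aff` (trace of a conjugate). With `q = 2k+1`, `r = 4k+3 = 2q+1`:
`T(h) = q T(y) = r T(A0,a) = 2 (T(A0,a) + k T(y))`, so
`T(h) (2/r + 2k/q - 1) = 0` and `2/r + (q-1)/q - 1 = 2/r - 1/q = (2q - r)/(rq) = -1/(rq) ≠ 0`. So
`3κ = T(h) = 0`. -/
def StHa : Prop := StSm → StTq → ∀ (k : ℕ) (a b : SU3) (A0 B0 : Mat), IrrP a b →
  Tor k (⟨A0, a⟩ : Aff) ⟨B0, b⟩ → (((⟨A0, a⟩ : Aff) * ⟨B0, b⟩) ^ (2 * k + 1)).v = 0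

/-- **Hb** (EASY-MEDIUM). PROOF. By induction `((Θ, A)^m).v = ∑_{j<m} A^j Θ A^(-j)`; its `(i,i)` entry
is `m Θ_ii` because `A` is diagonal and unitary. So `Θ_ii = 0`. Put
`X_ij = Θ_ij / (1 - α_i (α_j)⁻¹)` for `i ≠ j` and `X_ii = 0`; `(A X A⁻¹)_ij = α_i X_ij α_j⁻¹`
(`A⁻¹ = star A` is diagonal with the entries `star α_j = α_j⁻¹`). -/
def StHb : Prop := StEe → ∀ (u : Fin 3 → ℝ) (A : SU3) (Θ : Mat) (m : ℕ), 0 < m →
  (∀ i j, i ≠ j → ee (u i) ≠ ee (u j)) → (A : Mat) = dA u → ((⟨Θ, A⟩ : Aff) ^ m).v = 0 →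
  ∃ X : Mat, Θ = X - (A : Mat) * X * ((A⁻¹ : SU3) : Mat)

/-- **Hc** (MEDIUM, linear algebra). Here `R = rR w`, `A = dA u`. PROOF. Put `Ψ = ξ R`, `P = s sᵀ`,
`s_i = √w_i`, `R = 1 - 2P`, `R² = 1`. From `R ξ = - ξ R`: `R Ψ = R ξ R = - ξ = - Ψ R`, so
`0 = R Ψ + Ψ R = 2 Ψ - 2 (P Ψ + Ψ P)`, `Ψ = P Ψ + Ψ P = s mᵀ + l sᵀ` with `mᵀ = sᵀ Ψ`, `l = Ψ s` (and
`sᵀ Ψ s = 0`, since it is twice itself). The hypotheses for `j = 1, 2, 3` are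
`tr (ξ (R A)^j) = 0`; as `ξ R = Ψ`: `j = 1`: `tr (Ψ A) = ∑ α_i Ψ_ii = 0`. `j = 2`:
`tr (Ψ A R A) = tr (Ψ A²) - 2 sᵀ A Ψ A s` and
`sᵀ A Ψ A s = (sᵀ A s)(mᵀ A s + sᵀ A l) = (sᵀ A s) ∑ α_i s_i (m_i + l_i) = (sᵀ A s) ∑ α_i Ψ_ii = 0`
(`Ψ_ii = s_i (m_i + l_i)`), so `∑ α_i² Ψ_ii = 0`. `j = 3`: `tr (Ψ A R A R A) = tr (Ψ A³) -
2 (sᵀ A² Ψ A s + sᵀ A Ψ A² s) + 4 (sᵀ A s)(sᵀ A Ψ A s)`, and
`sᵀ A² Ψ A s + sᵀ A Ψ A² s = (sᵀ A² s) ∑ α_i Ψ_ii + (sᵀ A s) ∑ α_i² Ψ_ii = 0`, so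
`∑ α_i³ Ψ_ii = 0`. The `α_i` are different and not zero: `Ψ_ii = 0` (Vandermonde), so `l = -m`
(`s_i > 0`) and `Ψ_ij = s_i m_j - m_i s_j`. With `x_i = m_i / (2 s_i)`, `X = diag(x)`:
`(X R - R X)_ij = -2 (x_i - x_j) s_i s_j = Ψ_ij`, and `ξ = Ψ R = X - R X R`. -/
def StHc : Prop := StEe → StLr → ∀ (u w : Fin 3 → ℝ) (ξ : Mat),
  (∀ i j, i ≠ j → ee (u i) ≠ ee (u j)) → (∀ i, 0 < w i) → ∑ i, w i = 1 →
  rR w * ξ = - (ξ * rR w) → (∀ j, 1 ≤ j → j ≤ 3 → Matrix.trace (ξ * (rR w * dA u) ^ j) = 0) →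
  ∃ x : Fin 3 → ℂ, ξ = Matrix.diagonal x - rR w * Matrix.diagonal x * rR w

/-- **Ht** (EASY-MEDIUM). PROOF. By induction `((ξ, a)^m).v = ∑_{i<m} a^i ξ a^(-i)`; multiply by `a^j` and
take the trace: `tr (a^i ξ a^(-i) a^j) = tr (ξ a^j)`, so `0 = m tr (ξ a^j)`. -/
def StHt : Prop := ∀ (a : SU3) (ξ : Mat) (m : ℕ), 0 < m → ((⟨ξ, a⟩ : Aff) ^ m).v = 0 →
  ∀ j : ℕ, Matrix.trace (ξ * (a : Mat) ^ j) = 0

/-- A pair of elements of `Aff` is the conjugate of its linear part by a translation. -/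
def Cob (x y : Aff) (X : Mat) : Prop :=
  x.v = X - (x.l : Mat) * X * ((x.l)⁻¹ : SU3) ∧ y.v = X - (y.l : Mat) * X * ((y.l)⁻¹ : SU3)

/-- **Hd** (MEDIUM-HARD; hypotheses as listed; the pair in normal form). PROOF. Let `ζ = e(t/3)`,
`q = 2k+1`, `r = 4k+3`, `A = dA (uu k n)`, `R = rR (ww ..)`, `x̂ = (A0,a) ŷ^k`, `ŷ = (A0,a)(B0,b)`,
`ĥ = ŷ^q`, `ĥ.v = 0` (`StHa`) and `ĥ.l = ζ` (`StYk`). Put `α̂ = (ŷ^k)⁻¹ = (Θ, A)` (`StYk`: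
`y^k = A⁻¹`). `α̂^q = (ĥ^k)⁻¹` has `v = 0` (powers of `ĥ` have `v = 0` as `ĥ.l` is scalar), so by `StHb`
`Θ = X - A X A⁻¹`. Conjugate everything with the translation `(-X, 1)`: this changes `A0` into
`A0 - (X - a X a⁻¹)` and so on (a coboundary), keeps `Tor`, and makes `Θ = 0`. So assume `Θ = 0`.
Then `ŷ = ĥ α̂²` has `v = 0`, and `x̂ = (A0,a) α̂⁻¹ = (A0, a A⁻¹)`, `a A⁻¹ = -ζ² R =: x`. `x̂² = ĥ`
(`StTq`): `A0 + x A0 x⁻¹ = 0`, `A0 + R A0 R = 0`, `R A0 = - A0 R` (`R² = 1`, `StLr`).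
`(A0,a)^r = ĥ` has `v = 0`, so by `StHt` `tr (A0 a^j) = 0`, `a = -ζ² R A`, so
`tr (A0 (R A)^j) = 0`. By `StHc` (`ξ = A0`) `A0 = D - R D R` with a diagonal `D`. Then
`a D a⁻¹ = R A D A⁻¹ R = R D R` (diagonal matrices commute), so `A0 = D - a D a⁻¹`, and
`y D y⁻¹ = D` (`y = ζ A²`), so `ŷ.v = 0 = D - y D y⁻¹`; hence `B0` (from `(B0,b) = (A0,a)⁻¹ ŷ`) is
`D - b D b⁻¹`. -/
def StHd : Prop := StEe → StLw → StLp → LiAt → StLs → StLr → StLd → StYk → StTq → StSm → StHa →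
  StHb → StHc → StHt →
  ∀ (k : ℕ) (t : Fin 3) (n p : Fin 3 → ℤ) (a b : SU3) (A0 B0 : Mat), IsD k t n p →
  Mod k t n p a b → IrrP a b → Tor k (⟨A0, a⟩ : Aff) ⟨B0, b⟩ → ∃ X : Mat, Cob ⟨A0, a⟩ ⟨B0, b⟩ X

/-- **He** (MEDIUM; hypotheses: the statement of `StSj` and the conclusion of `StHd`). PROOF. `Tor k a b`
follows from `Tor` in `Aff` (linear parts). Take `U` with `Mod` for `U a U⁻¹`, `U b U⁻¹`. Conjugate the pair
in `Aff` with `(0, U)`: `(0,U) (A0,a) (0,U)⁻¹ = (U A0 U⁻¹, U a U⁻¹)`; `Tor` is preserved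
(conjugation), `IrrP` too (apply `U` to the subspaces). The conclusion `X'` for this pair gives
`X = U⁻¹ X' U`. -/
def StHe : Prop :=
  (∀ (k : ℕ) (a b : SU3), Tor k a b → IrrP a b →
    ∃ (t : Fin 3) (n p : Fin 3 → ℤ) (U : SU3), IsD k t n p ∧
      Mod k t n p (U * a * U⁻¹) (U * b * U⁻¹)) →
  (∀ (k : ℕ) (t : Fin 3) (n p : Fin 3 → ℤ) (a b : SU3) (A0 B0 : Mat), IsD k t n p →
    Mod k t n p a b → IrrP a b → Tor k (⟨A0, a⟩ : Aff) ⟨B0, b⟩ →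
    ∃ X : Mat, Cob ⟨A0, a⟩ ⟨B0, b⟩ X) →
  ∀ (k : ℕ) (a b : SU3) (A0 B0 : Mat), IrrP a b → Tor k (⟨A0, a⟩ : Aff) ⟨B0, b⟩ →
    ∃ X : Mat, Cob ⟨A0, a⟩ ⟨B0, b⟩ X

/-- **Hf** (MEDIUM; hypotheses as listed; from pairs to the group). PROOF. `φ g = (c g, ρ g)` is a
homomorphism to `Aff` by the cocycle identity (`c 1 = 0` follows). By `ChAt` (with `Γ = Aff`) and
`CkAt` its values `G p = φ x_p` satisfy `Tor (N - J.card) (G 0) (G 1)` and `G (i+2) = cval J (G 0) (G 1) i`,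
`G p = 1` for `p ≥ N+2`. `ρ` is irreducible, so `(ρ x_0, ρ x_1)` is `IrrP` (as in `StGn`: a subspace
invariant under both is invariant under the subgroup they generate, which contains all
`ρ x_p` by `StGc`). The hypothesis gives `X` with `Cob`. Put `ψ g = (X - ρ g X (ρ g)⁻¹, ρ g)
= (X,1) (0, ρ g) (X,1)⁻¹`, a homomorphism. `ψ` and `φ` agree on `x_0`, `x_1`, hence on all `x_p`: both
satisfy the equations for `G (i+2)` (`ψ` too is a colouring, by `ChAt`, `CkAt`). So `ψ = φ`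
(`PresentedGroup.ext`). -/
def StHf : Prop := ChAt → CkAt → StGc →
  (∀ (k : ℕ) (a b : SU3) (A0 B0 : Mat), IrrP a b → Tor k (⟨A0, a⟩ : Aff) ⟨B0, b⟩ →
    ∃ X : Mat, Cob ⟨A0, a⟩ ⟨B0, b⟩ X) →
  ∀ (N : ℕ) (J : Finset ℕ), J ⊆ range N → ∀ ρ : (lnk N).grp (sub J) →* SU3, Irr ρ → Rigid ρ

end Pool.Agent.CM
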