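import Pool.Agent.Work.MP_8590b5_gt.CM.Stmts4

/-!
# Block CM, part 6: the reducible representations are non-degenerate too

Write `pr_<name> : St<name>` in `CM/I_<name>.lean` (namespace `Pool.Agent.CM`). Every item is
independent of the others (what may be used is an explicit hypothesis). All docstrings are complete
proofs.
-/

namespace Pool.Agent.CM

open Finset

/-- The projection to the third coordinate. -/
def E3 : Mat := Matrix.diagonal ![0, 0, 1]

/-- The matrix fixes the third basis vector (from both sides). -/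
def Fx (a : SU3) : Prop := (a : Mat) * E3 = E3 ∧ E3 * (a : Mat) = E3

/-- No common eigenvector in the plane of the first two coordinates. -/
def NoEv (a b : SU3) : Prop := ∀ (z : Fin 3 → ℂ) (c d : ℂ), z 2 = 0 →
  (a : Mat).mulVec z = c • z → (b : Mat).mulVec z = d • z → z = 0

/-- **Kc** (EASY, the relations in a commutative group). PROOF. `b = a`, so
`a^(2(2k+1)) = a^(4k+3)`, `a = 1`. -/
def StKc : Prop := ∀ (Γ : Type) [CommGroup Γ] (k : ℕ) (a b : Γ), Tor k a b → a = 1 ∧ b = 1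

/-- **Fd** (EASY-MEDIUM). PROOF. `0 ≤ n_j < 3(2k+1)`; `0 < p_j` and `(2k+1) p_j < 2(4k+3) 6 (2k+1)`, so
all the numbers are in a finite interval. -/
def StFd : Prop := ∀ k : ℕ, Finite (DSet k)

/-- **Ra** (MEDIUM; hypothesis `StKc`). PROOF. Let `W` be invariant, `W ≠ ⊥, ⊤`. If `dim W = 1`, there is
a common eigenvector. If `dim W = 2`, the orthogonal complement is a common invariant line (the
matrices are unitary: `W` is also invariant under `a⁻¹ = star a`). So there is a unit vector `e` with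
`a e = χ e`, `b e = χ' e`, `|χ| = |χ'| = 1`; `Tor` for the numbers (`Tor` applied to `e`) and
`StKc` (units of `ℂ`) give `χ = χ' = 1`. Take `U` in SU(3) with `U e = ` the third basis vector
(complete `e` to an orthonormal basis; one of the other vectors may be multiplied with a scalar to
have determinant 1). Then `U a U⁻¹` fixes the third basis vector, and so does its adjoint. -/
def StRa : Prop := StKc → ∀ (k : ℕ) (a b : SU3), Tor k a b → ¬ IrrP a b →
  ∃ U : SU3, Fx (U * a * U⁻¹) ∧ Fx (U * b * U⁻¹)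

/-- **Rg** (MEDIUM; hypotheses `StKc`, `StTq`). PROOF. Case 1: there is `z ≠ 0`, `z 2 = 0`, with `a z = c z`,
`b z = d z`. As before (`StKc`) `c = d = 1`. So `a` is 1 on the span of `z` and the third basis vector, and
on the orthogonal line it is multiplication by `det a = 1`; `a = 1`, `b = 1`. Case 2: none. Let
`h = (a b)^(2k+1)`; it commutes with `a`, `b` (`StTq`) and fixes the third basis vector, so it preserves
the plane `P = {z 2 = 0}`. It has an eigenvector in `P`, with eigenvalue `λ`; the eigenspace in `P` is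
invariant under `a`, `b`; if it were a line, it would be a common eigenvector. So `h = λ` on `P`, and
`det h = 1` gives `λ² = 1`. Suppose `λ = 1`. `x = a (a b)^k` has `x² = h = 1` (`StTq`), and `x` on `P` is
diagonalizable with eigenvalues `±1` and determinant 1, so it is `1` or `-1` on `P`. Then an
eigenvector in `P` of `y = a b` is one of `a = x y^(-k)` and `b = a⁻¹ y`, a contradiction. So
`λ = -1`, `h = 2 E3 - 1`. -/
def StRg : Prop := StKc → StTq → ∀ (k : ℕ) (a b : SU3), Tor k a b → Fx a → Fx b →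
  (a = 1 ∧ b = 1) ∨ (NoEv a b ∧ (((a * b) ^ (2 * k + 1) : SU3) : Mat) = (2 : ℂ) • E3 - 1)

/-- **Rk** (EASY). PROOF. `X ↦ (X, 1)` is a homomorphism from the additive group; the relation `Tor`
becomes `B0 = A0`, `(2k+1)(A0 + B0) = (4k+3) A0`. (Or `StKc` in `Multiplicative Mat`.) -/
def StRk : Prop := StKc → ∀ (k : ℕ) (A0 B0 : Mat), Tor k (⟨A0, 1⟩ : Aff) ⟨B0, 1⟩ →
  A0 = 0 ∧ B0 = 0

/-- **Rl2** (EASY-MEDIUM, blocks). Let `P`, `Q` be matrices which commute with `a` and `b`. Then the block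
`P M Q` of the translations satisfies the relations too. PROOF. The elements `x` of `Aff` whose linear
part commutes with `P` and `Q` form a subgroup, and `(M, g) ↦ (P M Q, g)` is a homomorphism on it
(`P (M + g N g⁻¹) Q = P M Q + g (P N Q) g⁻¹`); `Tor` is preserved by homomorphisms. (Or: prove
for all words by `zpow` / `pow` induction that the `v` part of the image is the block.) -/
def StRl2 : Prop := ∀ (k : ℕ) (a b : SU3) (A0 B0 P Q : Mat),
  P * (a : Mat) = (a : Mat) * P → P * (b : Mat) = (b : Mat) * P →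
  Q * (a : Mat) = (a : Mat) * Q → Q * (b : Mat) = (b : Mat) * Q →
  Tor k (⟨A0, a⟩ : Aff) ⟨B0, b⟩ → Tor k (⟨P * A0 * Q, a⟩ : Aff) ⟨P * B0 * Q, b⟩

/-- **Rs** (EASY-MEDIUM, the block `E3 M E3`). PROOF. `x ↦ (E3 x.v E3) 2 2` is an additive
homomorphism on the elements with `Fx x.l`, so by `StKc` in `Multiplicative ℂ` the value at both
elements is 0; and `E3 M E3 = M_22 E3`. -/
def StRs : Prop := StKc → ∀ (k : ℕ) (a b : SU3) (A0 B0 : Mat), Fx a → Fx b →
  Tor k (⟨A0, a⟩ : Aff) ⟨B0, b⟩ → E3 * A0 * E3 = 0 ∧ E3 * B0 * E3 = 0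

/-- **Rp2** (MEDIUM, the off-diagonal blocks). PROOF. `h = y^(2k+1)` commutes with both elements
(`StTq` in `Aff`); its linear part is `H = 2 E3 - 1`, `H² = 1`, and `H M H⁻¹ = - M` for the matrices
`M = (1-E3) M E3` and `M = E3 M (1-E3)`. With `η = h.v`: `h (A0, a) = (A0, a) h` reads
`η + H A0 H⁻¹ = A0 + a η a⁻¹`, so `A0 = (η - a η a⁻¹)/2` because `H A0 H⁻¹ = - A0`; the same for
`B0`. So `X = η/2`. -/
def StRp2 : Prop := StTq → ∀ (k : ℕ) (a b : SU3) (A0 B0 : Mat),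
  (((a * b) ^ (2 * k + 1) : SU3) : Mat) = (2 : ℂ) • E3 - 1 →
  ((A0 = (1 - E3) * A0 * E3 ∧ B0 = (1 - E3) * B0 * E3) ∨
    (A0 = E3 * A0 * (1 - E3) ∧ B0 = E3 * B0 * (1 - E3))) →
  Tor k (⟨A0, a⟩ : Aff) ⟨B0, b⟩ → ∃ X : Mat, Cob ⟨A0, a⟩ ⟨B0, b⟩ X

/-- **Rv** (EASY-MEDIUM, Schur in the plane). PROOF. `M` preserves the plane (`M = (1-E3) M (1-E3)`), has an
eigenvector there, and the eigenspace in the plane is invariant under `a`, `b`, which preserve the
plane (`Fx`); it is not a line by `NoEv`. -/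
def StRv : Prop := ∀ (a b : SU3) (M : Mat), Fx a → Fx b → NoEv a b → M = (1 - E3) * M * (1 - E3) →
  M * (a : Mat) = (a : Mat) * M → M * (b : Mat) = (b : Mat) * M → ∃ c : ℂ, M = c • (1 - E3)

/-- **Rw** (MEDIUM; the central element has the value 0). PROOF. As `StHa`: `h = y^(2k+1)`,
`h.l = 2 E3 - 1` acts trivially by conjugation on the matrices `M = (1-E3) M (1-E3)`, so `h.v`
commutes with `a`, `b`; all translations which occur are of this form. So `h.v = κ (1 - E3)`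
(`StRv`), and the additive homomorphism `T(x) = tr x.v` gives
`T(h) = (2k+1) T(y) = (4k+3) T(A0,a) = 2 (T(A0,a) + k T(y))`, hence `T(h) = 0`, `κ = 0`. -/
def StRw : Prop := StTq → StRv → ∀ (k : ℕ) (a b : SU3) (A0 B0 : Mat), Fx a → Fx b → NoEv a b →
  (((a * b) ^ (2 * k + 1) : SU3) : Mat) = (2 : ℂ) • E3 - 1 →
  A0 = (1 - E3) * A0 * (1 - E3) → B0 = (1 - E3) * B0 * (1 - E3) →
  Tor k (⟨A0, a⟩ : Aff) ⟨B0, b⟩ → (((⟨A0, a⟩ : Aff) * ⟨B0, b⟩) ^ (2 * k + 1)).v = 0

/-- **Rx** (MEDIUM, diagonalization in the plane). PROOF. `Y = ((a b)^k)⁻¹` fixes the third basis vector;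
on the plane it is a unitary 2 by 2 matrix. It has a unit eigenvector `z` in the plane, and the unit
vector `z'` of the plane orthogonal to `z` is an eigenvector too. Let `U` be the element of SU(3)
which takes `z`, `z'` (times a scalar) and the third basis vector to the basis vectors:
`U Y U⁻¹ = diag(α, β, 1)`. If `α = β` then `Y` is a scalar on the plane, and so is
`a b = (a b)^(2k+1) Y²` (`(a b)^(2k+1)` is `-1` on the plane), so an eigenvector in the plane of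
`a` is one of `b`, a contradiction to `NoEv`. The other conditions are preserved because `U` fixes the
third basis vector (`U E3 = E3 U`). -/
def StRx : Prop := ∀ (k : ℕ) (a b : SU3), Fx a → Fx b → NoEv a b →
  (((a * b) ^ (2 * k + 1) : SU3) : Mat) = (2 : ℂ) • E3 - 1 →
  ∃ (U : SU3) (α β : ℂ), Fx U ∧ α ≠ β ∧ α ≠ 0 ∧ β ≠ 0 ∧
    ((((U * a * U⁻¹) * (U * b * U⁻¹)) ^ k : SU3) : Mat) * Matrix.diagonal ![α, β, 1] = 1 ∧
    Fx (U * a * U⁻¹) ∧ Fx (U * b * U⁻¹) ∧ NoEv (U * a * U⁻¹) (U * b * U⁻¹) ∧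
    ((((U * a * U⁻¹) * (U * b * U⁻¹)) ^ (2 * k + 1) : SU3) : Mat) = (2 : ℂ) • E3 - 1

/-- **Ry** (MEDIUM-HARD, rigidity in the plane; hypotheses as listed). Everything below is in the upper left
2 by 2 block. PROOF. `ŷ = (A0,a)(B0,b)`, `ĥ = ŷ^(2k+1) = (0, 2 E3 - 1)` (`StRw`),
`α̂ = (ŷ^k)⁻¹ = (Θ, A)`, `A = diag(α, β, 1)`, and `α̂^(2k+1) = (ĥ^k)⁻¹` has `v = 0`. The diagonal
entries of `∑_{j<2k+1} A^j Θ A^(-j)` are `(2k+1) Θ_ii`, so `Θ_ii = 0`, and `Θ = X - A X A⁻¹` with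
`X_12 = Θ_12/(1 - α/β)`, `X_21 = Θ_21/(1 - β/α)` (`α ≠ β`). Subtract the coboundary of `X`
(conjugate with a translation): so assume `Θ = 0`. Then `ŷ = ĥ α̂²` has `v = 0`,
`x̂ = (A0,a) ŷ^k = (A0, x)`, `x = a A⁻¹`, and `x̂² = ĥ`: `A0 + x A0 x⁻¹ = 0`; `x² = -1` on the plane,
`det x = 1`, so `x = ((x1, x2), (x3, -x1))` with `x1² + x2 x3 = -1`. Put `Ψ = A0 x`, so
`x Ψ = x A0 x = - A0 x² = A0` and `Ψ x = A0 x² = - A0`: `x Ψ + Ψ x = 0`. Taking traces of
`A0 + x A0 x⁻¹ = 0` gives `tr A0 = 0`, and of `Ψ x + x Ψ = 0`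
times `x⁻¹`: `tr Ψ = 0`. `(A0,a)^(4k+3) = ĥ` has `v = 0`: multiply `∑ a^j A0 a^(-j) = 0` by `a`, trace:
`tr (A0 a) = 0`, i.e. `tr (Ψ A) = 0`. So `Ψ_11 + Ψ_22 = 0 = α Ψ_11 + β Ψ_22`, `Ψ_11 = Ψ_22 = 0`.
The `(1,1)` entry of `x Ψ + Ψ x = 0`: `x2 Ψ_21 + Ψ_12 x3 = 0`. `x2` and `x3` are not zero: otherwise
(`x` unitary) both are zero, `x` is diagonal and the first basis vector is a common eigenvector of `x`,
`A`, so of `a`, `b`. Put `D = diag(Ψ_12/x2, 0, 0)`: `D x - x D` has the entries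
`(1,2)`: `(Ψ_12/x2) x2 = Ψ_12`, `(2,1)`: `- x3 Ψ_12/x2 = Ψ_21`, diagonal `0`. So `Ψ = D x - x D`,
`A0 = Ψ x⁻¹ = D - x D x⁻¹ = D - a D a⁻¹` (`A` commutes with `D`), and `y D y⁻¹ = D`
(`y = h A²` is diagonal on the block), so the coboundary of `D` is right at `a` and `y`, hence at `b`. -/
def StRy : Prop := StTq → StRw → StRv → ∀ (k : ℕ) (a b : SU3) (A0 B0 : Mat) (α β : ℂ), Fx a → Fx b →
  NoEv a b → α ≠ β → α ≠ 0 → β ≠ 0 →
  (((a * b) ^ k : SU3) : Mat) * Matrix.diagonal ![α, β, 1] = 1 →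
  (((a * b) ^ (2 * k + 1) : SU3) : Mat) = (2 : ℂ) • E3 - 1 →
  A0 = (1 - E3) * A0 * (1 - E3) → B0 = (1 - E3) * B0 * (1 - E3) →
  Tor k (⟨A0, a⟩ : Aff) ⟨B0, b⟩ → ∃ X : Mat, Cob ⟨A0, a⟩ ⟨B0, b⟩ X

/-- **Rz** (MEDIUM, assembly; hypotheses as listed). PROOF. `StRa`: after conjugation with `(0, U)` (as in
`StHe`) `Fx a`, `Fx b`. `StRg`: if `a = b = 1` use `StRk` (`X = 0`). Otherwise split
`A0 = ∑ P A0 Q`, `B0 = ∑ P B0 Q` over `P, Q ∈ {E3, 1 - E3}`; every block satisfies `Tor` (`StRl2`);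
`P = Q = E3`: zero by `StRs`; the off-diagonal blocks: `StRp2`; `P = Q = 1 - E3`: `StRx` and
`StRy` (conjugate with `(0,U)` again; `U` commutes with `E3`). The coboundaries add up. -/
def StRz : Prop := StKc → StTq → StRa → StRg → StRk → StRl2 → StRs → StRp2 → StRv → StRw → StRx → StRy →
  ∀ (k : ℕ) (a b : SU3) (A0 B0 : Mat), ¬ IrrP a b → Tor k (⟨A0, a⟩ : Aff) ⟨B0, b⟩ →
    ∃ X : Mat, Cob ⟨A0, a⟩ ⟨B0, b⟩ X

/-- **Rq2** (MEDIUM; from pairs to the group, as `StHf` but without irreducibility). PROOF. The proof of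
`StHf` (irreducibility was only used for `IrrP`). -/
def StRq2 : Prop := ChAt → CkAt → StGc →
  (∀ (k : ℕ) (a b : SU3) (A0 B0 : Mat), Tor k (⟨A0, a⟩ : Aff) ⟨B0, b⟩ →
    ∃ X : Mat, Cob ⟨A0, a⟩ ⟨B0, b⟩ X) →
  ∀ (N : ℕ) (J : Finset ℕ), J ⊆ range N → ∀ ρ : (lnk N).grp (sub J) →* SU3, Rigid ρ

end Pool.Agent.CM
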